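import Pool.Agent.Helper585.Wk.Dat

set_option autoImplicit false

/-! Kernel checks of the explicit data. -/

namespace Pool.Agent.Helper585.Wk.Dat

theorem k5 : runL 31 q4 M4 = some M5 := by decide +kernel

theorem k6 : runL 31 q5 M5 = some M6 := by decide +kernel

end Pool.Agent.Helper585.Wk.Dat
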