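import Pool.Agent.Helper585.Wk.Dat

set_option autoImplicit false

/-! Kernel checks of the explicit data. -/

namespace Pool.Agent.Helper585.Wk.Dat

theorem k7 : runL 31 q6 M6 = some M7 := by decide +kernel

theorem k8 : runL 31 q7 M7 = some M8 := by decide +kernel

theorem same8 : sameL M8 Kf = true := by decide +kernel

end Pool.Agent.Helper585.Wk.Dat
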