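import Pool.Agent.Helper585.Wk.Dat

set_option autoImplicit false

/-! Kernel checks of the explicit data. -/

namespace Pool.Agent.Helper585.Wk.Dat

theorem run2 : runL 31 p2 L2 = some S2raw := by decide +kernel

theorem relAB : relOK 31 tAB sAB lA lB = true := by decide +kernel

theorem relR : relOK 31 t2r s2r S2raw S2 = true := by decide +kernel

theorem relCD : relOK 31 tCD sCD S2 S2B = true := by decide +kernel

theorem stA : ∀ i : Fin 5, flipL 31 (pA i) (cnA i.castSucc) = some (cnA i.succ) := by
  decide +kernel

theorem stB : ∀ i : Fin 5, flipL 31 (pB i) (cnB i.castSucc) = some (cnB i.succ) := by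
  decide +kernel

theorem stC : ∀ i : Fin 5, flipL 31 (pC i) (cnC i.castSucc) = some (cnC i.succ) := by
  decide +kernel

theorem stD : ∀ i : Fin 5, flipL 31 (pD i) (cnD i.castSucc) = some (cnD i.succ) := by
  decide +kernel

theorem seA : ∀ i : Fin 5, dec 31 (pA i).1 =
    Finset.univ.image (fun j => if j < i then bA j else aA j) ∧ dec 31 (pA i).2 = {bA i} := by
  decide +kernel

theorem seB : ∀ i : Fin 5, dec 31 (pB i).1 =
    Finset.univ.image (fun j => if j < i then bA j else aB j) ∧ dec 31 (pB i).2 = {bA i} := by
  decide +kernel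

theorem seC : ∀ i : Fin 5, dec 31 (pC i).1 =
    Finset.univ.image (fun j => if j < i then bC j else aC j) ∧ dec 31 (pC i).2 = {bC i} := by
  decide +kernel

theorem seD : ∀ i : Fin 5, dec 31 (pD i).1 =
    Finset.univ.image (fun j => if j < i then bC j else aD j) ∧ dec 31 (pD i).2 = {bC i} := by
  decide +kernel

theorem tauA : dec 31 15872 = Finset.univ.image bA := by decide +kernel

theorem tauC : dec 31 253952 = Finset.univ.image bC := by decide +kernel

theorem sm2 : checkSum 31 lA5 lB5 15872 L2 = true := by decide +kernel

theorem sm4 : checkSum 31 lC5 lD5 253952 L4 = true := by decide +kernel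

end Pool.Agent.Helper585.Wk.Dat
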