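import Pool.Agent.Helper585.Wk.Dat

set_option autoImplicit false

/-! Kernel checks of the explicit data. -/

namespace Pool.Agent.Helper585.Wk.Dat

theorem lkA : checkLinks 31 lA cA = true := by decide +kernel

theorem lk2 : checkLinks 31 S2 c2 = true := by decide +kernel

theorem lkK : checkLinks 31 Kf cK = true := by decide +kernel

theorem fA : fL 31 1 lA = 9 ∧ fL 31 2 lA = 36 ∧ fL 31 3 lA = 84 ∧ fL 31 4 lA = 90 ∧
    fL 31 5 lA = 36 := by decide +kernel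

theorem fA5 : ∀ F ∈ lA, (bits 31 F).length ≤ 5 := by decide +kernel

theorem fK : fL 31 1 Kf = 20 ∧ fL 31 2 Kf = 108 := by decide +kernel

theorem cnA' : connL (lA.headD 0) lA.tail = true ∧ (∀ F ∈ lA, F < 2 ^ 31) ∧
    lA = lA.headD 0 :: lA.tail ∧ lA.headD 0 ≠ 0 := by decide +kernel

theorem cn2' : connL (S2.headD 0) S2.tail = true ∧ (∀ F ∈ S2, F < 2 ^ 31) ∧
    S2 = S2.headD 0 :: S2.tail ∧ S2.headD 0 ≠ 0 := by decide +kernel

theorem cnK' : connL (Kf.headD 0) Kf.tail = true ∧ (∀ F ∈ Kf, F < 2 ^ 31) ∧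
    Kf = Kf.headD 0 :: Kf.tail ∧ Kf.headD 0 ≠ 0 := by decide +kernel

end Pool.Agent.Helper585.Wk.Dat
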