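import Pool.Agent.Helper585.Wk.Lst

set_option autoImplicit false
namespace Pool.Agent.Helper585.Wk

theorem bdS_facts {n : ℕ} {s : Finset (Fin n)} {x : Fin n → ℝ}
    (hx : x ∈ (bdS s).space) : (∀ v, 0 ≤ x v) ∧ (∀ v, v ∉ s → x v = 0) ∧ (∃ j ∈ s, x j = 0) ∧
      ∑ v ∈ s, x v = 1 := by
  obtain ⟨h0, h1, σ, hσ, h2⟩ := hx
  simp only [bdS, Finset.mem_filter, Finset.mem_univ, true_and] at hσ
  have hσs : σ ⊂ s := by
    rcases hσ with h | h
    · exfalso
      rw [h] at h2
      rw [Finset.sum_eq_zero (fun v _ => h2 v (by simp))] at h1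
      exact zero_ne_one h1
    · exact h
  have h3 : ∀ v, v ∉ s → x v = 0 := fun v hv => h2 v (fun h => hv (hσs.1 h))
  refine ⟨h0, h3, ?_, ?_⟩
  · obtain ⟨j, hj, hj2⟩ := Finset.exists_of_ssubset hσs
    exact ⟨j, hj, h2 j hj2⟩
  · rw [← h1]
    apply Finset.sum_subset (Finset.subset_univ _)
    intro v _ hv
    exact h3 v hv

theorem bdS_compact {n : ℕ} (s : Finset (Fin n)) : IsCompact (bdS s).space := by
  have hcl : IsClosed (bdS s).space := by
    have h1 : (bdS s).space = {x : Fin n → ℝ | ∀ v, 0 ≤ x v} ∩ ({x | ∑ v, x v = 1} ∩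
        ⋃ σ ∈ (bdS s).faces, {x | ∀ v, v ∉ σ → x v = 0}) := by
      ext x
      simp only [Cx.space, Set.mem_inter_iff, Set.mem_ofPred_eq, Set.mem_iUnion, exists_prop]
    rw [h1]
    refine IsClosed.inter ?_ (IsClosed.inter ?_ ?_)
    · have : {x : Fin n → ℝ | ∀ v, 0 ≤ x v} = ⋂ v, {x | 0 ≤ x v} := by
        ext x; simp
      rw [this]
      exact isClosed_iInter fun v => isClosed_le continuous_const (continuous_apply v)
    · exact isClosed_eq (by fun_prop) continuous_const
    · apply isClosed_biUnion_finset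
      intro σ _
      have : {x : Fin n → ℝ | ∀ v, v ∉ σ → x v = 0} = ⋂ v, ⋂ (_ : v ∉ σ), {x | x v = 0} := by
        ext x; simp
      rw [this]
      exact isClosed_iInter fun v => isClosed_iInter fun _ =>
        isClosed_eq (continuous_apply v) continuous_const
  apply (isCompact_Icc (a := (0 : Fin n → ℝ)) (b := 1)).of_isClosed_subset hcl
  intro x hx
  obtain ⟨h0, h1, -⟩ := hx
  refine ⟨fun v => h0 v, fun v => ?_⟩
  rw [Pi.one_apply, ← h1]
  exact Finset.single_le_sum (fun i _ => h0 i) (Finset.mem_univ v)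

/-- TARGET: the boundary of a simplex is a sphere -/
theorem bdS_sphere {n d : ℕ} (s : Finset (Fin n)) (hs : s.card = d + 2) :
    Nonempty ((bdS s).space ≃ₜ Metric.sphere (0 : EuclideanSpace ℝ (Fin (d + 1))) 1) := by
  classical
  -- the enumeration of `s`
  let φ : Fin (d + 2) → Fin n := s.orderEmbOfFin hs
  have hφs : ∀ i, φ i ∈ s := fun i => s.orderEmbOfFin_mem hs i
  have hφi : Function.Injective φ := (s.orderEmbOfFin hs).injective
  have hφsurj : ∀ v ∈ s, ∃ i, φ i = v := by
    intro v hv
    have h1 := Finset.range_orderEmbOfFin s hs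
    have h2 : v ∈ Set.range (s.orderEmbOfFin hs) := by rw [h1]; exact hv
    exact h2
  have hsum : ∀ x : Fin n → ℝ, ∑ v ∈ s, x v = ∑ i : Fin (d + 2), x (φ i) := by
    intro x
    have h1 : s = Finset.univ.image φ := by
      ext v
      simp only [Finset.mem_image, Finset.mem_univ, true_and]
      exact ⟨hφsurj v, fun ⟨i, hi⟩ => hi ▸ hφs i⟩
    conv_lhs => rw [h1]
    rw [Finset.sum_image (fun a _ b _ h => hφi h)]
  set c : ℝ := 1 / ((d : ℝ) + 2) with hc
  have hcpos : 0 < c := by rw [hc]; positivity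
  have hcs : ∑ _i : Fin (d + 2), c = 1 := by
    rw [Finset.sum_const, Finset.card_univ, Fintype.card_fin, nsmul_eq_mul, hc]
    push_cast
    field_simp
  -- the projection
  let p : (Fin n → ℝ) → EuclideanSpace ℝ (Fin (d + 1)) :=
    fun x => WithLp.toLp 2 (fun i : Fin (d + 1) => x (φ i.castSucc) - c)
  have hpa : ∀ x i, p x i = x (φ i.castSucc) - c := fun x i => rfl
  have hpc : Continuous p := by
    apply (PiLp.continuous_toLp 2 _).comp
    fun_prop
  have hprop : ∀ x ∈ (bdS s).space, ∀ x' ∈ (bdS s).space, ∀ t : ℝ, p x = t • p x' →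
      ∀ v ∈ s, x v - c = t * (x' v - c) := by
    intro x hx x' hx' t ht
    have h1 : ∀ i : Fin (d + 1), x (φ i.castSucc) - c = t * (x' (φ i.castSucc) - c) := by
      intro i
      have := congrArg (fun w : EuclideanSpace ℝ (Fin (d + 1)) => w i) ht
      simpa [hpa] using this
    have hlast : x (φ (Fin.last (d + 1))) - c = t * (x' (φ (Fin.last (d + 1))) - c) := by
      have hs1 : ∑ i : Fin (d + 2), (x (φ i) - c) = 0 := by
        rw [Finset.sum_sub_distrib, ← hsum, (bdS_facts hx).2.2.2, hcs, sub_self]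
      have hs2 : ∑ i : Fin (d + 2), (x' (φ i) - c) = 0 := by
        rw [Finset.sum_sub_distrib, ← hsum, (bdS_facts hx').2.2.2, hcs, sub_self]
      rw [Fin.sum_univ_castSucc] at hs1 hs2
      rw [Finset.sum_congr rfl (fun i _ => h1 i), ← Finset.mul_sum] at hs1
      have : ∑ i : Fin (d + 1), (x' (φ i.castSucc) - c) = -(x' (φ (Fin.last (d + 1))) - c) := by
        linarith
      rw [this] at hs1
      linarith
    intro v hv
    obtain ⟨i, rfl⟩ := hφsurj v hv
    rcases Fin.eq_castSucc_or_eq_last i with ⟨j, rfl⟩ | rfl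
    · exact h1 j
    · exact hlast
  have hp0 : ∀ x ∈ (bdS s).space, p x ≠ 0 := by
    intro x hx h
    obtain ⟨h0, h1, ⟨j, hj, hj0⟩, h3⟩ := bdS_facts hx
    have := hprop x hx x hx 0 (by rw [h, smul_zero]) j hj
    rw [hj0] at this
    linarith
  let F : (bdS s).space → Metric.sphere (0 : EuclideanSpace ℝ (Fin (d + 1))) 1 :=
    fun x => ⟨(‖p x.1‖⁻¹ : ℝ) • p x.1, by
      rw [mem_sphere_zero_iff_norm, norm_smul, norm_inv, norm_norm,
        inv_mul_cancel₀ (norm_ne_zero_iff.2 (hp0 x.1 x.2))]⟩
  have hFc : Continuous F := by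
    apply Continuous.subtype_mk
    have h1 : Continuous fun x : (bdS s).space => p x.1 := hpc.comp continuous_subtype_val
    exact (h1.norm.inv₀ (fun x => norm_ne_zero_iff.2 (hp0 x.1 x.2))).smul h1
  have hinj : Function.Injective F := by
    intro x x' h
    have h1 : (‖p x.1‖⁻¹ : ℝ) • p x.1 = (‖p x'.1‖⁻¹ : ℝ) • p x'.1 := congrArg Subtype.val h
    have hn : 0 < ‖p x.1‖ := norm_pos_iff.2 (hp0 x.1 x.2)
    have hn' : 0 < ‖p x'.1‖ := norm_pos_iff.2 (hp0 x'.1 x'.2)
    set t : ℝ := ‖p x.1‖ * ‖p x'.1‖⁻¹ with ht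
    have htpos : 0 < t := by positivity
    have h2 : p x.1 = t • p x'.1 := by
      rw [ht, mul_smul, ← h1, smul_smul, mul_inv_cancel₀ hn.ne', one_smul]
    have h3 := hprop x.1 x.2 x'.1 x'.2 t h2
    obtain ⟨a0, a1, ⟨j, hj, hj0⟩, a3⟩ := bdS_facts x.2
    obtain ⟨b0, b1, ⟨k, hk, hk0⟩, b3⟩ := bdS_facts x'.2
    have h4 := h3 j hj
    have h5 := h3 k hk
    rw [hj0] at h4
    rw [hk0] at h5
    have h6 : t ≤ 1 := by
      have := a0 k
      by_contra hcon
      push Not at hcon
      nlinarith
    have h7 : 1 ≤ t := by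
      have := b0 j
      by_contra hcon
      push Not at hcon
      nlinarith
    have h8 : t = 1 := le_antisymm h6 h7
    apply Subtype.ext
    funext v
    by_cases hv : v ∈ s
    · have := h3 v hv
      rw [h8, one_mul] at this
      linarith
    · rw [a1 v hv, b1 v hv]
  have hsurj : Function.Surjective F := by
    intro y
    have hy : ‖y.1‖ = 1 := mem_sphere_zero_iff_norm.1 y.2
    -- extended vector
    let w : Fin (d + 2) → ℝ := Fin.snoc (α := fun _ => ℝ) (fun i => y.1 i) (-∑ i, y.1 i)
    have hw1 : ∀ i : Fin (d + 1), w i.castSucc = y.1 i := fun i => by simp [w]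
    have hw2 : w (Fin.last (d + 1)) = -∑ i, y.1 i := by simp [w]
    have hw3 : ∑ i, w i = 0 := by
      rw [Fin.sum_univ_castSucc, hw2]
      simp only [hw1]
      ring
    obtain ⟨j, -, hj⟩ := Finset.exists_min_image Finset.univ w ⟨0, Finset.mem_univ _⟩
    have hj' : ∀ i, w j ≤ w i := fun i => hj i (Finset.mem_univ i)
    have hneg : w j < 0 := by
      by_contra hcon
      push Not at hcon
      have h1 : ∀ i, w i = 0 := by
        have := (Finset.sum_eq_zero_iff_of_nonneg
          (fun i _ => hcon.trans (hj' i))).1 hw3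
        intro i; exact this i (Finset.mem_univ i)
      have h2 : y.1 = 0 := by
        ext i
        rw [← hw1, h1]
        rfl
      rw [h2, norm_zero] at hy
      exact zero_ne_one hy
    set m : ℝ := -w j with hm
    have hmpos : 0 < m := by linarith
    -- the point
    let g : Fin n → ℝ := fun v => if h : v ∈ s then w (hφsurj v h).choose else 0
    have hg1 : ∀ i, g (φ i) = w i := by
      intro i
      have h1 : g (φ i) = w (hφsurj (φ i) (hφs i)).choose := dif_pos (hφs i)
      rw [h1]
      congr 1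
      exact hφi (hφsurj (φ i) (hφs i)).choose_spec
    let x : Fin n → ℝ := fun v => if v ∈ s then c + c * (g v / m) else 0
    have hx1 : ∀ i, x (φ i) = c + c * (w i / m) := by
      intro i
      simp only [x, if_pos (hφs i), hg1]
    have hxs : ∀ v, v ∉ s → x v = 0 := fun v hv => if_neg hv
    have hmem : x ∈ (bdS s).space := by
      refine ⟨?_, ?_, s.erase (φ j), ?_, ?_⟩
      · intro v
        by_cases hv : v ∈ s
        · obtain ⟨i, rfl⟩ := hφsurj v hv
          rw [hx1]
          have h1 : -1 ≤ w i / m := by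
            rw [le_div_iff₀ hmpos]
            have := hj' i
            linarith
          nlinarith
        · rw [hxs v hv]
      · have h1 : ∑ v, x v = ∑ v ∈ s, x v := by
          symm
          apply Finset.sum_subset (Finset.subset_univ _)
          intro v _ hv
          exact hxs v hv
        rw [h1, hsum]
        simp only [hx1]
        rw [Finset.sum_add_distrib, hcs, ← Finset.mul_sum, ← Finset.sum_div, hw3]
        simp
      · simp only [bdS, Finset.mem_filter, Finset.mem_univ, true_and]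
        right
        exact Finset.erase_ssubset (hφs j)
      · intro v hv
        by_cases hvs : v ∈ s
        · have hvj : v = φ j := by
            by_contra hne
            exact hv (Finset.mem_erase.2 ⟨hne, hvs⟩)
          rw [hvj, hx1]
          have : w j / m = -1 := by
            rw [hm, div_neg, div_self hneg.ne]
          rw [this]; ring
        · exact hxs v hvs
    refine ⟨⟨x, hmem⟩, ?_⟩
    apply Subtype.ext
    have hpx : p x = (c / m) • y.1 := by
      ext i
      rw [hpa, hx1, hw1]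
      simp
      ring
    show (‖p x‖⁻¹ : ℝ) • p x = y.1
    have hcm : 0 < c / m := by positivity
    rw [hpx, norm_smul, hy, mul_one, Real.norm_of_nonneg hcm.le, smul_smul,
      inv_mul_cancel₀ hcm.ne', one_smul]
  have : CompactSpace (bdS s).space := isCompact_iff_compactSpace.1 (bdS_compact s)
  exact ⟨hFc.homeoOfEquivCompactToT2 (f := Equiv.ofBijective F ⟨hinj, hsurj⟩)⟩

end Pool.Agent.Helper585.Wk
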