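import Pool.Agent.Helper585.Wk.Rig

set_option autoImplicit false
namespace Pool.Agent.Helper585.Wk
variable {V : Type} [Fintype V] [DecidableEq V]

private theorem isCycle_sdiff {C A : Finset (Finset V)} (hC : IsCycle C) (hA : IsCycle A)
    (hAC : A ⊆ C) : IsCycle (C \ A) := by
  refine ⟨fun F hF => hC.1 F (Finset.mem_sdiff.1 hF).1, fun t ht => ?_⟩
  have h1 := hC.2 t ht
  have h2 := hA.2 t ht
  have h3 : ((C \ A).filter (fun F => t ⊆ F)).card + (A.filter (fun F => t ⊆ F)).card =
      (C.filter (fun F => t ⊆ F)).card := by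
    rw [← Finset.card_union_of_disjoint, ← Finset.filter_union, Finset.sdiff_union_of_subset hAC]
    exact Finset.disjoint_filter_filter Finset.sdiff_disjoint
  rw [← h3] at h1
  exact (Nat.even_add.1 h1).2 h2

theorem exists_decomp (C : Finset (Finset V)) (h : IsCycle C) :
    ∃ Z : Finset (Finset (Finset V)), (∀ A ∈ Z, MinCycle A) ∧ (∀ A ∈ Z, A ⊆ C) ∧
      (∀ F ∈ C, ∃ A ∈ Z, F ∈ A) ∧ (∀ A ∈ Z, ∀ B ∈ Z, A ≠ B → Disjoint A B) := by
  classical
  induction hn : C.card using Nat.strong_induction_on generalizing C with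
  | _ n ih =>
  rcases C.eq_empty_or_nonempty with rfl | hne
  · exact ⟨∅, by simp, by simp, by simp, by simp⟩
  · have hS : (C.powerset.filter (fun A => A.Nonempty ∧ IsCycle A)).Nonempty :=
      ⟨C, by simp [hne, h]⟩
    obtain ⟨A, hA, hmin⟩ := Finset.exists_min_image _ Finset.card hS
    rw [Finset.mem_filter, Finset.mem_powerset] at hA
    obtain ⟨hAC, hAne, hAcyc⟩ := hA
    have hAmin : MinCycle A := by
      refine ⟨hAcyc, hAne, fun Z hZ hZne hZc => ?_⟩
      apply Finset.eq_of_subset_of_card_le hZ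
      apply hmin
      rw [Finset.mem_filter, Finset.mem_powerset]
      exact ⟨hZ.trans hAC, hZne, hZc⟩
    have hlt : (C \ A).card < n := by
      rw [← hn]
      apply Finset.card_lt_card
      refine ⟨Finset.sdiff_subset, fun hsub => ?_⟩
      obtain ⟨F, hF⟩ := hAne
      exact (Finset.mem_sdiff.1 (hsub (hAC hF))).2 hF
    obtain ⟨Z, h1, h2, h3, h4⟩ := ih _ hlt (C \ A) (isCycle_sdiff h hAcyc hAC) rfl
    refine ⟨insert A Z, ?_, ?_, ?_, ?_⟩
    · intro B hB
      rcases Finset.mem_insert.1 hB with rfl | hB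
      · exact hAmin
      · exact h1 B hB
    · intro B hB
      rcases Finset.mem_insert.1 hB with rfl | hB
      · exact hAC
      · exact (h2 B hB).trans Finset.sdiff_subset
    · intro F hF
      by_cases hFA : F ∈ A
      · exact ⟨A, Finset.mem_insert_self _ _, hFA⟩
      · obtain ⟨B, hB, hFB⟩ := h3 F (Finset.mem_sdiff.2 ⟨hF, hFA⟩)
        exact ⟨B, Finset.mem_insert_of_mem hB, hFB⟩
    · intro B hB B' hB' hne'
      rcases Finset.mem_insert.1 hB with h5 | h5
      · rcases Finset.mem_insert.1 hB' with h6 | h6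
        · exact absurd (h5.trans h6.symm) hne'
        · rw [h5]
          exact (Finset.disjoint_sdiff (s := A) (t := C)).mono_right (h2 B' h6)
      · rcases Finset.mem_insert.1 hB' with h6 | h6
        · rw [h6]
          exact ((Finset.disjoint_sdiff (s := A) (t := C)).mono_right (h2 B h5)).symm
        · exact h4 B h5 B' h6 hne'

end Pool.Agent.Helper585.Wk
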