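import Pool.Agent.Helper585.Wk.Rig

set_option autoImplicit false
namespace Pool.Agent.Helper585.Wk
variable {V : Type} [Fintype V] [DecidableEq V]

omit [Fintype V] in
theorem con_not_mem' (u v : V) (huv : u ≠ v) (F : Finset V) : v ∉ con u v F := by
  unfold con
  split_ifs with h
  · simp [huv.symm]
  · exact h

omit [Fintype V] in
theorem con_card' (u v : V) (F : Finset V) (hF : F.card = 5) (h : ¬ (u ∈ F ∧ v ∈ F)) :
    (con u v F).card = 5 := by
  unfold con
  split_ifs with hv
  · have hu : u ∉ F.erase v := fun hu => h ⟨Finset.mem_of_mem_erase hu, hv⟩
    rw [Finset.card_insert_of_notMem hu, Finset.card_erase_of_mem hv, hF]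
  · exact hF

omit [Fintype V] in
theorem con_fib (u v : V) (F G : Finset V) (h : ¬ (u ∈ F ∧ v ∈ F)) (e : con u v F = G) :
    F = G ∨ F = insert v (G.erase u) := by
  unfold con at e
  split_ifs at e with hv
  · right
    have hu : u ∉ F.erase v := fun hu => h ⟨Finset.mem_of_mem_erase hu, hv⟩
    rw [← e, Finset.erase_insert hu, Finset.insert_erase hv]
  · left; exact e

omit [Fintype V] in
theorem fib_le_two (C : Finset (Finset V)) (u v : V) (G : Finset V) :
    ((nb C u v).filter (fun F => con u v F = G)).card ≤ 2 := by
  have hs : (nb C u v).filter (fun F => con u v F = G) ⊆ {G, insert v (G.erase u)} := by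
    intro F hF
    rw [Finset.mem_filter] at hF
    have h1 := (Finset.mem_filter.1 hF.1).2
    rcases con_fib u v F G h1 hF.2 with h | h <;> simp [h]
  exact (Finset.card_le_card hs).trans Finset.card_le_two

theorem contr_parity (C : Finset (Finset V)) (u v : V) (t : Finset V) :
    ∃ k, ((nb C u v).filter (fun F => t ⊆ con u v F)).card
      = ((contr C u v).filter (fun F => t ⊆ F)).card + 2 * k := by
  classical
  set T : Finset (Finset V) := Finset.univ.filter (fun G => t ⊆ G) with hT
  have h1 : ((nb C u v).filter (fun F => t ⊆ con u v F)).card
      = ∑ G ∈ T, ((nb C u v).filter (fun F => con u v F = G)).card := by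
    rw [Finset.card_eq_sum_card_fiberwise (f := con u v) (t := T)]
    · refine Finset.sum_congr rfl fun G hG => ?_
      congr 1
      ext F
      simp only [Finset.mem_filter]
      have hG' : t ⊆ G := (Finset.mem_filter.1 hG).2
      constructor
      · rintro ⟨⟨a, b⟩, c⟩
        exact ⟨a, c⟩
      · rintro ⟨a, c⟩
        exact ⟨⟨a, c ▸ hG'⟩, c⟩
    · intro F hF
      have hF' := (Finset.mem_filter.1 (Finset.mem_coe.1 hF)).2
      simp [hT, hF']
  have h2 : ((contr C u v).filter (fun F => t ⊆ F)).card
      = ∑ G ∈ T, (if ((nb C u v).filter (fun F => con u v F = G)).card = 1 then 1 else 0) := by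
    rw [← Finset.card_filter]
    congr 1
    ext G
    simp only [contr, hT, Finset.mem_filter, Finset.mem_univ, true_and]
    tauto
  refine ⟨∑ G ∈ T, (if ((nb C u v).filter (fun F => con u v F = G)).card = 2 then 1 else 0), ?_⟩
  rw [h1, h2, Finset.mul_sum, ← Finset.sum_add_distrib]
  refine Finset.sum_congr rfl fun G _ => ?_
  have := fib_le_two C u v G
  generalize ((nb C u v).filter (fun F => con u v F = G)).card = m at this ⊢
  interval_cases m <;> simp

theorem contr_not_mem (C : Finset (Finset V)) (u v : V) (huv : u ≠ v) :
    ∀ F ∈ contr C u v, v ∉ F := by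
  intro G hG
  have h := (Finset.mem_filter.1 hG).2
  obtain ⟨F, hF⟩ := Finset.card_pos.1 (by omega :
    0 < ((nb C u v).filter (fun F => con u v F = G)).card)
  rw [← (Finset.mem_filter.1 hF).2]
  exact con_not_mem' u v huv F

theorem contr_cycle (C : Finset (Finset V)) (h : IsCycle C) (u v : V) (huv : u ≠ v) :
    IsCycle (contr C u v) := by
  classical
  constructor
  · intro G hG
    have h' := (Finset.mem_filter.1 hG).2
    obtain ⟨F, hF⟩ := Finset.card_pos.1 (by omega :
      0 < ((nb C u v).filter (fun F => con u v F = G)).card)
    have hF1 := Finset.mem_filter.1 hF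
    have hF2 := Finset.mem_filter.1 hF1.1
    rw [← hF1.2]
    exact con_card' u v F (h.1 F hF2.1) hF2.2
  · intro t ht
    obtain ⟨k, hk⟩ := contr_parity C u v t
    suffices hs : Even ((nb C u v).filter (fun F => t ⊆ con u v F)).card by
      rw [hk] at hs
      rcases hs with ⟨r, hr⟩
      exact ⟨r - k, by omega⟩
    by_cases hvt : v ∈ t
    · have : (nb C u v).filter (fun F => t ⊆ con u v F) = ∅ := by
        rw [Finset.filter_eq_empty_iff]
        intro F _ hF
        exact con_not_mem' u v huv F (hF hvt)
      rw [this]; simp
    by_cases hut : u ∈ t
    · set s := t.erase u with hs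
      have hvs : v ∉ s := fun h => hvt (Finset.mem_of_mem_erase h)
      have hus : u ∉ s := by simp [hs]
      have hts : t = insert u s := (Finset.insert_erase hut).symm
      have hsc : s.card = 3 := by rw [hs, Finset.card_erase_of_mem hut, ht]
      have hB : Even (C.filter (fun F => insert v s ⊆ F)).card := by
        apply h.2
        rw [Finset.card_insert_of_notMem hvs, hsc]
      have hA : Even (C.filter (fun F => insert u s ⊆ F)).card := by
        apply h.2
        rw [Finset.card_insert_of_notMem hus, hsc]
      have key : (nb C u v).filter (fun F => t ⊆ con u v F)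
          = (C.filter (fun F => insert u s ⊆ F) \ C.filter (fun F => insert v s ⊆ F)) ∪
            (C.filter (fun F => insert v s ⊆ F) \ C.filter (fun F => insert u s ⊆ F)) := by
        ext F
        simp only [nb, Finset.mem_filter, Finset.mem_union, Finset.mem_sdiff,
          Finset.insert_subset_iff, hts]
        by_cases hvF : v ∈ F
        · have hcon : con u v F = insert u (F.erase v) := by simp [con, hvF]
          have hsub : s ⊆ insert u (F.erase v) ↔ s ⊆ F := by
            constructor
            · intro hh x hx
              have := hh hx
              rw [Finset.mem_insert] at this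
              rcases this with rfl | h3
              · exact absurd hx hus
              · exact Finset.mem_of_mem_erase h3
            · intro hh x hx
              rw [Finset.mem_insert]
              right
              rw [Finset.mem_erase]
              exact ⟨fun e => hvs (e ▸ hx), hh hx⟩
          rw [hcon, hsub]
          have : u ∈ insert u (F.erase v) := Finset.mem_insert_self _ _
          tauto
        · have hcon : con u v F = F := by simp [con, hvF]
          rw [hcon]
          tauto
      have hdis : Disjoint
          (C.filter (fun F => insert u s ⊆ F) \ C.filter (fun F => insert v s ⊆ F))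
          (C.filter (fun F => insert v s ⊆ F) \ C.filter (fun F => insert u s ⊆ F)) := by
        rw [Finset.disjoint_left]
        intro F h1 h2
        rw [Finset.mem_sdiff] at h1 h2
        exact h2.2 h1.1
      rw [key, Finset.card_union_of_disjoint hdis]
      have e1 := Finset.card_sdiff_add_card_inter
        (C.filter (fun F => insert u s ⊆ F)) (C.filter (fun F => insert v s ⊆ F))
      have e2 := Finset.card_sdiff_add_card_inter
        (C.filter (fun F => insert v s ⊆ F)) (C.filter (fun F => insert u s ⊆ F))
      rw [Finset.inter_comm] at e2
      rcases hA with ⟨a, ha⟩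
      rcases hB with ⟨b, hb⟩
      refine ⟨a + b - (C.filter (fun F => insert u s ⊆ F) ∩
        C.filter (fun F => insert v s ⊆ F)).card, ?_⟩
      omega
    · have key : (nb C u v).filter (fun F => t ⊆ con u v F) = C.filter (fun F => t ⊆ F) := by
        ext F
        simp only [nb, Finset.mem_filter]
        have hsub : t ⊆ con u v F ↔ t ⊆ F := by
          unfold con
          split_ifs with hv
          · constructor
            · intro hh x hx
              have := hh hx
              rw [Finset.mem_insert] at this
              rcases this with rfl | h3
              · exact absurd hx hut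
              · exact Finset.mem_of_mem_erase h3
            · intro hh x hx
              rw [Finset.mem_insert]
              right
              rw [Finset.mem_erase]
              exact ⟨fun e => hvt (e ▸ hx), hh hx⟩
          · rfl
        rw [hsub]
        constructor
        · rintro ⟨⟨a, _⟩, c⟩
          exact ⟨a, c⟩
        · rintro ⟨a, c⟩
          refine ⟨⟨a, ?_⟩, c⟩
          rintro ⟨hu, hv⟩
          have hsub2 : insert u (insert v t) ⊆ F := by
            rw [Finset.insert_subset_iff, Finset.insert_subset_iff]
            exact ⟨hu, hv, c⟩
          have hc := Finset.card_le_card hsub2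
          rw [Finset.card_insert_of_notMem (by simp [huv, hut]),
            Finset.card_insert_of_notMem hvt, ht, h.1 F a] at hc
          omega
      rw [key]
      exact h.2 t ht

end Pool.Agent.Helper585.Wk
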