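import Pool.Agent.Helper585.Wk.Rig
import Pool.Agent.Helper585.Wk.Fog2
import Pool.Agent.Helper585.Wk.Fog3

set_option autoImplicit false
namespace Pool.Agent.Helper585.Wk
variable {V : Type} [Fintype V] [DecidableEq V]

/-- TARGET: one step of Fogelsanger's theorem, by vertex splitting -/
theorem split_step (R : SimpleGraph V → Finset V → Prop) (hR : RigPred R)
    (C : Finset (Finset V)) (h : MinCycle C) (u v : V) (huv : u ≠ v)
    (F0 : Finset V) (hF0 : F0 ∈ C) (hu : u ∈ F0) (hv : v ∈ F0)
    (Z : Finset (Finset V)) (hZ : MinCycle Z) (hZC : Z ⊆ contr C u v)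
    (hRZ : R (cgraph Z) (Z.biUnion id)) :
    R (cgraph C) ((plus C u v Z).biUnion id) := by
  classical
  have hplus := plus_cycle C h.1 u v huv Z hZ.1 hZC
  -- every member of `Z` is the contraction of a member of `L`
  have hpre : ∀ G ∈ Z, ∃ F ∈ lift C u v Z, con u v F = G := by
    intro G hG
    have h1 := hZC hG
    simp only [contr, Finset.mem_filter, Finset.mem_univ, true_and] at h1
    obtain ⟨F, hF⟩ := Finset.card_eq_one.1 h1
    have h2 : F ∈ (nb C u v).filter (fun F => con u v F = G) := by rw [hF]; simp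
    rw [Finset.mem_filter] at h2
    refine ⟨F, ?_, h2.2⟩
    rw [lift, Finset.mem_filter, h2.2]
    exact ⟨h2.1, hG⟩
  have hLnb : ∀ F ∈ lift C u v Z, F ∈ C ∧ ¬ (u ∈ F ∧ v ∈ F) ∧ con u v F ∈ Z := by
    intro F hF
    rw [lift, Finset.mem_filter, nb, Finset.mem_filter] at hF
    exact ⟨hF.1.1, hF.1.2, hF.2⟩
  have hLC : lift C u v Z ⊆ C := fun F hF => (hLnb F hF).1
  have hcon_mem : ∀ F x, x ∈ con u v F → x ≠ u → x ∈ F := by
    intro F x hx hxu
    unfold con at hx
    split_ifs at hx with hv
    · rw [Finset.mem_insert, Finset.mem_erase] at hx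
      rcases hx with hx | hx
      · exact absurd hx hxu
      · exact hx.2
    · exact hx
  have hmem_con : ∀ F x, x ∈ F → x ≠ v → x ∈ con u v F := by
    intro F x hx hxv
    unfold con
    split_ifs with hv
    · exact Finset.mem_insert_of_mem (Finset.mem_erase.2 ⟨hxv, hx⟩)
    · exact hx
  have hcon_of_u : ∀ F ∈ lift C u v Z, u ∈ F → con u v F = F := by
    intro F hF hu
    have := (hLnb F hF).2.1
    unfold con
    rw [if_neg (fun hv => this ⟨hu, hv⟩)]
  set Lam := (Finset.univ : Finset (Finset V)).filter (fun K => K.card = 3 ∧ u ∉ K ∧ v ∉ K ∧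
      Odd ((lift C u v Z).filter (fun F => insert u K ⊆ F)).card) with hLam
  have hLam_mem : ∀ K, K ∈ Lam ↔ (K.card = 3 ∧ u ∉ K ∧ v ∉ K ∧
      Odd ((lift C u v Z).filter (fun F => insert u K ⊆ F)).card) := by
    intro K; rw [hLam, Finset.mem_filter]; simp
  have hadded : added C u v Z = Lam.image (fun K => insert u (insert v K)) := rfl
  have hLamF : ∀ K ∈ Lam, ∃ F ∈ lift C u v Z, insert u K ⊆ F := by
    intro K hK
    have hodd := ((hLam_mem K).1 hK).2.2.2
    have hpos : 0 < ((lift C u v Z).filter (fun F => insert u K ⊆ F)).card := hodd.pos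
    obtain ⟨F, hF⟩ := Finset.card_pos.1 hpos
    rw [Finset.mem_filter] at hF
    exact ⟨F, hF.1, hF.2⟩
  -- (a)
  have hne : Lam.Nonempty := by
    by_contra hemp
    rw [Finset.not_nonempty_iff_eq_empty] at hemp
    have hpl : plus C u v Z = lift C u v Z := by
      rw [plus, hadded, hemp]; simp
    rw [hpl] at hplus
    have hLne : (lift C u v Z).Nonempty := by
      obtain ⟨G, hG⟩ := hZ.2.1
      obtain ⟨F, hF, _⟩ := hpre G hG
      exact ⟨F, hF⟩
    have := h.2.2 _ hLC hLne hplus
    rw [← this] at hF0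
    exact (hLnb F0 hF0).2.1 ⟨hu, hv⟩
  -- (b)
  obtain ⟨K, hK⟩ := hne
  have hK' := (hLam_mem K).1 hK
  obtain ⟨e, heK, hecard⟩ := Finset.exists_subset_card_eq (s := K) (n := 2) (by omega)
  have heven := added_even C h.1 u v huv Z e hecard (fun hx => hK'.2.1 (heK hx))
    (fun hx => hK'.2.2.1 (heK hx))
  rw [← hLam] at heven
  have hKe : K ∈ Lam.filter (fun K => e ⊆ K) := Finset.mem_filter.2 ⟨hK, heK⟩
  obtain ⟨K2, hK2, hKne⟩ : ∃ K2 ∈ Lam.filter (fun K => e ⊆ K), K2 ≠ K := by
    by_contra hcon
    push Not at hcon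
    have : Lam.filter (fun K => e ⊆ K) = {K} := by
      ext K'
      rw [Finset.mem_singleton]
      exact ⟨fun hh => hcon K' hh, fun hh => hh ▸ hKe⟩
    rw [this] at heven
    simp at heven
  rw [Finset.mem_filter] at hK2
  have hK2' := (hLam_mem K2).1 hK2.1
  have hN : (K ∪ K2).card = 4 := by
    have h1 := Finset.card_union_add_card_inter K K2
    have h2 : 2 ≤ (K ∩ K2).card := by
      rw [← hecard]; exact Finset.card_le_card (Finset.subset_inter heK hK2.2)
    have h3 : (K ∩ K2).card < 3 := by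
      by_contra hcon
      push Not at hcon
      have h4 : K ∩ K2 = K := Finset.eq_of_subset_of_card_le Finset.inter_subset_left
        (by omega)
      have h5 : K ∩ K2 = K2 := Finset.eq_of_subset_of_card_le Finset.inter_subset_right
        (by omega)
      exact hKne (h5.symm.trans h4)
    omega
  -- general facts for members of Lam
  have hfact : ∀ K ∈ Lam, ∀ w ∈ K, u ∈ Z.biUnion id ∧ w ∈ Z.biUnion id ∧
      (cgraph C).Adj u w ∧ (cgraph C).Adj v w := by
    intro K hK w hw
    have hK' := (hLam_mem K).1 hK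
    obtain ⟨F, hF, hKF⟩ := hLamF K hK
    have huF : u ∈ F := hKF (Finset.mem_insert_self _ _)
    have hwF : w ∈ F := hKF (Finset.mem_insert_of_mem hw)
    have hcF := hcon_of_u F hF huF
    have hFZ : F ∈ Z := by rw [← hcF]; exact (hLnb F hF).2.2
    have huw : u ≠ w := fun hh => hK'.2.1 (hh ▸ hw)
    have hvw : v ≠ w := fun hh => hK'.2.2.1 (hh ▸ hw)
    refine ⟨Finset.mem_biUnion.2 ⟨F, hFZ, huF⟩, Finset.mem_biUnion.2 ⟨F, hFZ, hwF⟩,
      ⟨huw, F, hLC hF, huF, hwF⟩, hvw, ?_⟩
    -- the other member of plus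
    have ht : (insert v K).card = 4 := by rw [Finset.card_insert_of_notMem hK'.2.2.1, hK'.1]
    have hev := hplus.2 (insert v K) ht
    have hD : insert u (insert v K) ∈ (plus C u v Z).filter (fun F => insert v K ⊆ F) := by
      rw [Finset.mem_filter]
      refine ⟨?_, Finset.subset_insert _ _⟩
      rw [plus, Finset.mem_union, hadded]
      exact Or.inr (Finset.mem_image.2 ⟨K, hK, rfl⟩)
    obtain ⟨D, hD', hDne⟩ : ∃ D ∈ (plus C u v Z).filter (fun F => insert v K ⊆ F),
        D ≠ insert u (insert v K) := by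
      by_contra hcon
      push Not at hcon
      have : (plus C u v Z).filter (fun F => insert v K ⊆ F) = {insert u (insert v K)} := by
        ext K'
        rw [Finset.mem_singleton]
        exact ⟨fun hh => hcon K' hh, fun hh => hh ▸ hD⟩
      rw [this] at hev
      simp at hev
    rw [Finset.mem_filter, plus, Finset.mem_union, hadded] at hD'
    obtain ⟨hD1, hD2⟩ := hD'
    rcases hD1 with hD1 | hD1
    · exact ⟨D, hLC hD1, hD2 (Finset.mem_insert_self _ _), hD2 (Finset.mem_insert_of_mem hw)⟩
    · exfalso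
      obtain ⟨K3, hK3, rfl⟩ := Finset.mem_image.1 hD1
      have hK3' := (hLam_mem K3).1 hK3
      have hsub : K ⊆ K3 := by
        intro x hx
        have := hD2 (Finset.mem_insert_of_mem hx)
        rw [Finset.mem_insert, Finset.mem_insert] at this
        rcases this with rfl | rfl | hh
        · exact absurd hx hK'.2.1
        · exact absurd hx hK'.2.2.1
        · exact hh
      have : K = K3 := Finset.eq_of_subset_of_card_le hsub (by omega)
      exact hDne (by rw [this])
  have hKne' : K.Nonempty := Finset.card_pos.1 (by omega)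
  obtain ⟨w0, hw0⟩ := hKne'
  have huS : u ∈ Z.biUnion id := (hfact K hK w0 hw0).1
  have hvS : v ∉ Z.biUnion id := by
    intro hh
    obtain ⟨G, hG, hvG⟩ := Finset.mem_biUnion.1 hh
    exact contr_not_mem C u v huv G (hZC hG) hvG
  have hNmem : ∀ w ∈ K ∪ K2, ∃ K' ∈ Lam, w ∈ K' := by
    intro w hw
    rcases Finset.mem_union.1 hw with hw | hw
    · exact ⟨K, hK, hw⟩
    · exact ⟨K2, hK2.1, hw⟩
  have hsplit := hR.split (cgraph Z) (cgraph C) (Z.biUnion id) u v (K ∪ K2) hRZ huS hvS
    (fun w hw => by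
      obtain ⟨K', hK', hw'⟩ := hNmem w hw
      exact (hfact K' hK' w hw').2.1)
    (by
      rw [Finset.mem_union]
      rintro (hh | hh)
      · exact hK'.2.1 hh
      · exact hK2'.2.1 hh)
    hN
    (fun w hw => by
      obtain ⟨K', hK', hw'⟩ := hNmem w hw
      exact (hfact K' hK' w hw').2.2)
    ⟨huv, F0, hF0, hu, hv⟩
    (by
      rintro x hx y hy hxu hyu ⟨hxy, G, hG, hxG, hyG⟩
      obtain ⟨F, hF, rfl⟩ := hpre G hG
      exact ⟨hxy, F, hLC hF, hcon_mem F x hxG hxu, hcon_mem F y hyG hyu⟩)
    (by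
      rintro y hy hyu ⟨huy, G, hG, huG, hyG⟩
      obtain ⟨F, hF, rfl⟩ := hpre G hG
      have hyF := hcon_mem F y hyG hyu
      by_cases hvF : v ∈ F
      · right
        refine ⟨?_, F, hLC hF, hvF, hyF⟩
        rintro rfl
        exact hvS hy
      · left
        have : con u v F = F := by unfold con; rw [if_neg hvF]
        rw [this] at huG
        exact ⟨huy, F, hLC hF, huG, hyF⟩)
  have hset : insert v (Z.biUnion id) = (plus C u v Z).biUnion id := by
    ext x
    rw [Finset.mem_insert, Finset.mem_biUnion, Finset.mem_biUnion]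
    constructor
    · have hDK : insert u (insert v K) ∈ plus C u v Z := by
        rw [plus, Finset.mem_union, hadded]
        exact Or.inr (Finset.mem_image.2 ⟨K, hK, rfl⟩)
      rintro (rfl | ⟨G, hG, hxG⟩)
      · exact ⟨_, hDK, by simp⟩
      · by_cases hxu : x = u
        · subst hxu
          exact ⟨_, hDK, by simp⟩
        · obtain ⟨F, hF, rfl⟩ := hpre G hG
          exact ⟨F, Finset.mem_union_left _ hF, hcon_mem F x hxG hxu⟩
    · rintro ⟨D, hD, hxD⟩
      rw [plus, Finset.mem_union, hadded] at hD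
      rcases hD with hD | hD
      · by_cases hxv : x = v
        · exact Or.inl hxv
        · exact Or.inr ⟨con u v D, (hLnb D hD).2.2, hmem_con D x hxD hxv⟩
      · obtain ⟨K3, hK3, rfl⟩ := Finset.mem_image.1 hD
        have hxD' : x ∈ insert u (insert v K3) := hxD
        rw [Finset.mem_insert, Finset.mem_insert] at hxD'
        rcases hxD' with rfl | rfl | hh
        · exact Or.inr (Finset.mem_biUnion.1 huS)
        · exact Or.inl rfl
        · exact Or.inr (Finset.mem_biUnion.1 (hfact K3 hK3 x hh).2.1)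
  rw [← hset]
  exact hsplit

end Pool.Agent.Helper585.Wk
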