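import Pool.Agent.Helper585.Wk.Rig
import Pool.Agent.Helper585.Wk.Fog3

set_option autoImplicit false
namespace Pool.Agent.Helper585.Wk
variable {V : Type} [Fintype V] [DecidableEq V]

/-- mod 2 sum of a family -/
def SX (X : Finset (Finset (Finset V))) : Finset (Finset V) :=
  Finset.univ.filter (fun F => Odd (X.filter (fun P => F ∈ P)).card)

theorem SX_cycle (X : Finset (Finset (Finset V))) (hX : ∀ P ∈ X, IsCycle P) :
    IsCycle (SX X) := by
  constructor
  · intro F hF
    have h := (Finset.mem_filter.1 hF).2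
    have : (X.filter (fun P => F ∈ P)).Nonempty := by
      rw [← Finset.card_pos]; exact h.pos
    obtain ⟨P, hP⟩ := this
    obtain ⟨hP1, hP2⟩ := Finset.mem_filter.1 hP
    exact (hX P hP1).1 F hP2
  · intro t ht
    rw [← ZMod.natCast_eq_zero_iff_even]
    have e1 : (((SX X).filter (fun F => t ⊆ F)).card : ZMod 2)
        = ∑ F : Finset V, if t ⊆ F then ((X.filter (fun P => F ∈ P)).card : ZMod 2) else 0 := by
      unfold SX
      rw [Finset.filter_filter, Finset.card_filter]
      push_cast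
      refine Finset.sum_congr rfl (fun F _ => ?_)
      by_cases h1 : t ⊆ F
      · by_cases h2 : Odd (X.filter (fun P => F ∈ P)).card
        · rw [if_pos ⟨h2, h1⟩, if_pos h1, ZMod.natCast_eq_one_iff_odd.2 h2]
        · rw [if_neg (fun h => h2 h.1), if_pos h1,
            ZMod.natCast_eq_zero_iff_even.2 (Nat.not_odd_iff_even.1 h2)]
      · rw [if_neg (fun h => h1 h.2), if_neg h1]
    rw [e1]
    have e2 : (∑ F : Finset V, if t ⊆ F then ((X.filter (fun P => F ∈ P)).card : ZMod 2) else 0)
        = ∑ P ∈ X, ((P.filter (fun F => t ⊆ F)).card : ZMod 2) := by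
      have e3 : ∀ P : Finset (Finset V), ((P.filter (fun F => t ⊆ F)).card : ZMod 2)
          = ∑ F : Finset V, if t ⊆ F then (if F ∈ P then (1 : ZMod 2) else 0) else 0 := by
        intro P
        have : P.filter (fun F => t ⊆ F) = Finset.univ.filter (fun F => t ⊆ F ∧ F ∈ P) := by
          ext F; simp [and_comm]
        rw [this, Finset.card_filter]
        push_cast
        refine Finset.sum_congr rfl (fun F _ => ?_)
        by_cases h1 : t ⊆ F <;> by_cases h2 : F ∈ P <;> simp [h1, h2]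
      rw [Finset.sum_congr rfl (fun P _ => e3 P), Finset.sum_comm]
      refine Finset.sum_congr rfl (fun F _ => ?_)
      by_cases h1 : t ⊆ F
      · simp only [if_pos h1]
        rw [Finset.card_filter]
        push_cast
        rfl
      · simp only [if_neg h1, Finset.sum_const_zero]
    rw [e2]
    exact Finset.sum_eq_zero (fun P hP => ZMod.natCast_eq_zero_iff_even.2 ((hX P hP).2 t ht))

/-- two cycles which agree off the open star of an edge are equal, one direction -/
theorem cyc_sub (C C' : Finset (Finset V)) (h : IsCycle C) (h' : IsCycle C') (u v : V)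
    (huv : u ≠ v) (hag : ∀ G, ¬ (u ∈ G ∧ v ∈ G) → (G ∈ C ↔ G ∈ C')) : C ⊆ C' := by
  intro F hF
  by_cases hb : u ∈ F ∧ v ∈ F
  · by_contra hF'
    have hc := h.1 F hF
    have ht : (F.erase v).card = 4 := by rw [Finset.card_erase_of_mem hb.2, hc]
    have key : ∀ G : Finset V, G.card = 5 → F.erase v ⊆ G → G ≠ F → v ∉ G := by
      intro G hG hsub hne hv
      apply hne
      have : F ⊆ G := by
        rw [← Finset.insert_erase hb.2]
        exact Finset.insert_subset hv hsub
      exact (Finset.eq_of_subset_of_card_le this (by rw [hG, hc])).symm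
    have e : C.filter (fun G => F.erase v ⊆ G) =
        insert F (C'.filter (fun G => F.erase v ⊆ G)) := by
      ext G
      simp only [Finset.mem_filter, Finset.mem_insert]
      constructor
      · rintro ⟨hG, hs⟩
        by_cases hGF : G = F
        · exact Or.inl hGF
        · right
          have := key G (h.1 G hG) hs hGF
          exact ⟨(hag G (fun hh => this hh.2)).1 hG, hs⟩
      · rintro (hG | ⟨hG, hs⟩)
        · rw [hG]; exact ⟨hF, Finset.erase_subset _ _⟩
        · have hGF : G ≠ F := fun hh => hF' (hh ▸ hG)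
          have := key G (h'.1 G hG) hs hGF
          exact ⟨(hag G (fun hh => this hh.2)).2 hG, hs⟩
    have h1 := h.2 _ ht
    have h2 := h'.2 _ ht
    rw [e, Finset.card_insert_of_notMem (by simp [hF'])] at h1
    have : ¬ Even ((C'.filter (fun G => F.erase v ⊆ G)).card + 1) := by
      rw [Nat.even_add_one]; simpa using h2
    exact this h1
  · exact (hag F hb).1 hF

theorem cyc_eq (C C' : Finset (Finset V)) (h : IsCycle C) (h' : IsCycle C') (u v : V)
    (huv : u ≠ v) (hag : ∀ G, ¬ (u ∈ G ∧ v ∈ G) → (G ∈ C ↔ G ∈ C')) : C = C' :=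
  Finset.Subset.antisymm (cyc_sub C C' h h' u v huv hag)
    (cyc_sub C' C h' h u v huv (fun G hG => (hag G hG).symm))

theorem ps_cycle (W : Finset V) (hW : W.card = 6) : IsCycle (W.powersetCard 5) := by
  constructor
  · intro F hF; exact (Finset.mem_powersetCard.1 hF).2
  · intro t ht
    by_cases htW : t ⊆ W
    · have e : (W.powersetCard 5).filter (fun F => t ⊆ F) = (W \ t).image (fun x => W.erase x) := by
        ext F
        simp only [Finset.mem_filter, Finset.mem_powersetCard, Finset.mem_image,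
          Finset.mem_sdiff]
        constructor
        · rintro ⟨⟨hF, hc⟩, hs⟩
          have hcard : (W \ F).card = 1 := by
            rw [Finset.card_sdiff_of_subset hF, hW, hc]
          obtain ⟨x, hx⟩ := Finset.card_eq_one.1 hcard
          have hxW : x ∈ W \ F := by rw [hx]; simp
          obtain ⟨hx1, hx2⟩ := Finset.mem_sdiff.1 hxW
          refine ⟨x, ⟨hx1, fun hxt => hx2 (hs hxt)⟩, ?_⟩
          symm
          apply Finset.eq_of_subset_of_card_le
          · intro y hy
            exact Finset.mem_erase.2 ⟨fun hh => hx2 (hh ▸ hy), hF hy⟩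
          · rw [Finset.card_erase_of_mem hx1, hW, hc]
        · rintro ⟨x, ⟨hx1, hx2⟩, rfl⟩
          refine ⟨⟨Finset.erase_subset _ _, by rw [Finset.card_erase_of_mem hx1, hW]⟩, ?_⟩
          intro y hy
          exact Finset.mem_erase.2 ⟨fun hh => hx2 (hh ▸ hy), htW hy⟩
      rw [e, Finset.card_image_of_injOn, Finset.card_sdiff_of_subset htW, hW, ht]
      · decide
      · intro x hx y hy hxy
        by_contra hne
        have hx1 := (Finset.mem_sdiff.1 hx).1
        have : x ∈ W.erase y := Finset.mem_erase.2 ⟨hne, hx1⟩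
        rw [← show W.erase x = W.erase y from hxy] at this
        simp at this
    · have e : (W.powersetCard 5).filter (fun F => t ⊆ F) = ∅ := by
        rw [Finset.filter_eq_empty_iff]
        intro F hF hs
        exact htW (hs.trans (Finset.mem_powersetCard.1 hF).1)
      rw [e]; simp

theorem W_card (u v : V) (huv : u ≠ v) (U : Finset V) (h4 : U.card = 4) (hu : u ∉ U)
    (hv : v ∉ U) : (insert u (insert v U)).card = 6 := by
  rw [Finset.card_insert_of_notMem (by simp [huv, hu]), Finset.card_insert_of_notMem hv, h4]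

/-- members of `P_U` not containing both vertices -/
theorem mem_PU (u v : V) (huv : u ≠ v) (U : Finset V) (h4 : U.card = 4) (hu : u ∉ U)
    (hv : v ∉ U) (F : Finset V) (hF : F ∈ (insert u (insert v U)).powersetCard 5)
    (hb : ¬ (u ∈ F ∧ v ∈ F)) : F = insert u U ∨ F = insert v U := by
  obtain ⟨hs, hc⟩ := Finset.mem_powersetCard.1 hF
  by_cases hvF : v ∈ F
  · right
    have huF : u ∉ F := fun h => hb ⟨h, hvF⟩
    apply Finset.eq_of_subset_of_card_le
    · intro y hy
      have := hs hy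
      rcases Finset.mem_insert.1 this with h | h
      · exact absurd (h ▸ hy) huF
      · exact h
    · rw [Finset.card_insert_of_notMem hv, h4, hc]
  · left
    apply Finset.eq_of_subset_of_card_le
    · intro y hy
      have := hs hy
      rcases Finset.mem_insert.1 this with h | h
      · exact Finset.mem_insert.2 (Or.inl h)
      · rcases Finset.mem_insert.1 h with h | h
        · exact absurd (h ▸ hy) hvF
        · exact Finset.mem_insert.2 (Or.inr h)
    · rw [Finset.card_insert_of_notMem hu, h4, hc]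

theorem con_insert_u (u v : V) (huv : u ≠ v) (U : Finset V) (hv : v ∉ U) :
    con u v (insert u U) = insert u U := by
  unfold con
  rw [if_neg (by simp [huv.symm, hv])]

theorem con_insert_v (u v : V) (U : Finset V) (hv : v ∉ U) :
    con u v (insert v U) = insert u U := by
  unfold con
  rw [if_pos (by simp), Finset.erase_insert hv]

theorem mem_nb (C : Finset (Finset V)) (u v : V) (F : Finset V) :
    F ∈ nb C u v ↔ F ∈ C ∧ ¬ (u ∈ F ∧ v ∈ F) := by
  unfold nb; rw [Finset.mem_filter]

theorem mem_pairs (C : Finset (Finset V)) (u v : V) (U : Finset V) :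
    U ∈ pairs C u v ↔ U.card = 4 ∧ u ∉ U ∧ v ∉ U ∧ insert u U ∈ C ∧ insert v U ∈ C := by
  unfold pairs; simp

theorem insert_u_nb (C : Finset (Finset V)) (u v : V) (huv : u ≠ v) (U : Finset V)
    (hU : U ∈ pairs C u v) : insert u U ∈ nb C u v := by
  obtain ⟨h4, hu, hv, h1, h2⟩ := (mem_pairs C u v U).1 hU
  rw [mem_nb]
  exact ⟨h1, fun h => by have := h.2; simp [huv.symm, hv] at this⟩

theorem insert_v_nb (C : Finset (Finset V)) (u v : V) (huv : u ≠ v) (U : Finset V)
    (hU : U ∈ pairs C u v) : insert v U ∈ nb C u v := by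
  obtain ⟨h4, hu, hv, h1, h2⟩ := (mem_pairs C u v U).1 hU
  rw [mem_nb]
  exact ⟨h2, fun h => by have := h.1; simp [huv, hu] at this⟩

theorem added_both (C : Finset (Finset V)) (u v : V) (Z : Finset (Finset V)) (F : Finset V)
    (hF : F ∈ added C u v Z) : u ∈ F ∧ v ∈ F := by
  unfold added at hF
  obtain ⟨K, _, rfl⟩ := Finset.mem_image.1 hF
  simp

theorem mem_plus (C : Finset (Finset V)) (u v : V) (Z : Finset (Finset V)) (F : Finset V)
    (hb : ¬ (u ∈ F ∧ v ∈ F)) : F ∈ plus C u v Z ↔ F ∈ nb C u v ∧ con u v F ∈ Z := by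
  unfold plus
  rw [Finset.mem_union]
  constructor
  · rintro (h | h)
    · unfold lift at h; exact Finset.mem_filter.1 h
    · exact absurd (added_both C u v Z F h) hb
  · intro h; left; unfold lift; exact Finset.mem_filter.2 h

theorem mem_contr (C : Finset (Finset V)) (u v : V) (G : Finset V) :
    G ∈ contr C u v ↔ ((nb C u v).filter (fun F => con u v F = G)).card = 1 := by
  unfold contr; simp

/-- the contraction of a member of a degenerate pair is not in the contraction -/
theorem pair_not_contr (C : Finset (Finset V)) (u v : V) (huv : u ≠ v) (U : Finset V)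
    (hU : U ∈ pairs C u v) : insert u U ∉ contr C u v := by
  intro h
  rw [mem_contr, Finset.card_eq_one] at h
  obtain ⟨x, hx⟩ := h
  have hU' := (mem_pairs C u v U).1 hU
  have h1 : insert u U ∈ (nb C u v).filter (fun F => con u v F = insert u U) :=
    Finset.mem_filter.2 ⟨insert_u_nb C u v huv U hU, con_insert_u u v huv U hU'.2.2.1⟩
  have h2 : insert v U ∈ (nb C u v).filter (fun F => con u v F = insert u U) :=
    Finset.mem_filter.2 ⟨insert_v_nb C u v huv U hU, con_insert_v u v U hU'.2.2.1⟩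
  rw [hx, Finset.mem_singleton] at h1 h2
  have h3 : insert u U = insert v U := h1.trans h2.symm
  have : u ∈ insert v U := by rw [← h3]; simp
  simp [huv, hU'.2.1] at this

/-- a member of `nb C` whose contraction is not in the contraction of `C` is in a pair -/
theorem in_pair (C : Finset (Finset V)) (h : IsCycle C) (u v : V) (huv : u ≠ v) (F : Finset V)
    (hF : F ∈ nb C u v) (hc : con u v F ∉ contr C u v) :
    ∃ U ∈ pairs C u v, con u v F = insert u U ∧ (F = insert u U ∨ F = insert v U) := by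
  rw [mem_contr] at hc
  have hFm : F ∈ (nb C u v).filter (fun F' => con u v F' = con u v F) :=
    Finset.mem_filter.2 ⟨hF, rfl⟩
  have hex : ∃ F' ∈ (nb C u v).filter (fun F' => con u v F' = con u v F), F' ≠ F := by
    by_contra hno
    push Not at hno
    apply hc
    rw [Finset.card_eq_one]
    exact ⟨F, Finset.eq_singleton_iff_unique_mem.2 ⟨hFm, hno⟩⟩
  obtain ⟨F', hF', hne⟩ := hex
  obtain ⟨hF'n, hcon⟩ := Finset.mem_filter.1 hF'
  obtain ⟨hFC, hFb⟩ := (mem_nb C u v F).1 hF
  obtain ⟨hFC', hFb'⟩ := (mem_nb C u v F').1 hF'n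
  by_cases hvF : v ∈ F
  · have huF : u ∉ F := fun hh => hFb ⟨hh, hvF⟩
    have e1 : con u v F = insert u (F.erase v) := by unfold con; rw [if_pos hvF]
    by_cases hvF' : v ∈ F'
    · exfalso
      have huF' : u ∉ F' := fun hh => hFb' ⟨hh, hvF'⟩
      have e2 : con u v F' = insert u (F'.erase v) := by unfold con; rw [if_pos hvF']
      rw [e1, e2] at hcon
      have e3 : F'.erase v = F.erase v := by
        have := congrArg (fun s => s.erase u) hcon
        simpa [Finset.erase_insert, huF, huF'] using this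
      apply hne
      rw [← Finset.insert_erase hvF, ← Finset.insert_erase hvF', e3]
    · have e2 : con u v F' = F' := by unfold con; rw [if_neg hvF']
      rw [e2, e1] at hcon
      refine ⟨F.erase v, ?_, e1, Or.inr (Finset.insert_erase hvF).symm⟩
      rw [mem_pairs]
      refine ⟨by rw [Finset.card_erase_of_mem hvF, h.1 F hFC], fun hh => huF (Finset.mem_of_mem_erase hh),
        by simp, hcon ▸ hFC', by rw [Finset.insert_erase hvF]; exact hFC⟩
  · have e1 : con u v F = F := by unfold con; rw [if_neg hvF]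
    by_cases hvF' : v ∈ F'
    · have huF' : u ∉ F' := fun hh => hFb' ⟨hh, hvF'⟩
      have e2 : con u v F' = insert u (F'.erase v) := by unfold con; rw [if_pos hvF']
      rw [e2, e1] at hcon
      refine ⟨F'.erase v, ?_, by rw [e1, hcon], Or.inl hcon.symm⟩
      rw [mem_pairs]
      refine ⟨by rw [Finset.card_erase_of_mem hvF', h.1 F' hFC'],
        fun hh => huF' (Finset.mem_of_mem_erase hh),
        by simp, hcon ▸ hFC, by rw [Finset.insert_erase hvF']; exact hFC'⟩
    · exfalso
      have e2 : con u v F' = F' := by unfold con; rw [if_neg hvF']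
      rw [e2, e1] at hcon
      exact hne hcon

theorem mem_pieces (C : Finset (Finset V)) (u v : V) (Z : Finset (Finset (Finset V)))
    (P : Finset (Finset V)) : P ∈ pieces C u v Z ↔ (∃ A ∈ Z, plus C u v A = P) ∨
      ∃ U ∈ pairs C u v, (insert u (insert v U)).powersetCard 5 = P := by
  unfold pieces
  rw [Finset.mem_union, Finset.mem_image, Finset.mem_image]

theorem piece_cycle (C : Finset (Finset V)) (h : IsCycle C) (u v : V) (huv : u ≠ v)
    (Z : Finset (Finset (Finset V)))
    (h1 : ∀ A ∈ Z, MinCycle A) (h2 : ∀ A ∈ Z, A ⊆ contr C u v)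
    (P : Finset (Finset V)) (hP : P ∈ pieces C u v Z) : IsCycle P := by
  rcases (mem_pieces C u v Z P).1 hP with ⟨A, hA, rfl⟩ | ⟨U, hU, rfl⟩
  · exact plus_cycle C h u v huv A (h1 A hA).1 (h2 A hA)
  · obtain ⟨h4, hu, hv, _, _⟩ := (mem_pairs C u v U).1 hU
    exact ps_cycle _ (W_card u v huv U h4 hu hv)

/-- (B) -/
theorem piece_nb (C : Finset (Finset V)) (u v : V) (huv : u ≠ v)
    (Z : Finset (Finset (Finset V)))
    (P : Finset (Finset V)) (hP : P ∈ pieces C u v Z) (F : Finset V) (hF : F ∈ P)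
    (hb : ¬ (u ∈ F ∧ v ∈ F)) : F ∈ nb C u v := by
  rcases (mem_pieces C u v Z P).1 hP with ⟨A, hA, rfl⟩ | ⟨U, hU, rfl⟩
  · exact ((mem_plus C u v A F hb).1 hF).1
  · obtain ⟨h4, hu, hv, _, _⟩ := (mem_pairs C u v U).1 hU
    rcases mem_PU u v huv U h4 hu hv F hF hb with rfl | rfl
    · exact insert_u_nb C u v huv U hU
    · exact insert_v_nb C u v huv U hU

/-- (C) -/
theorem piece_has (C : Finset (Finset V)) (u v : V) (huv : u ≠ v)
    (Z : Finset (Finset (Finset V)))
    (h1 : ∀ A ∈ Z, MinCycle A) (h2 : ∀ A ∈ Z, A ⊆ contr C u v)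
    (P : Finset (Finset V)) (hP : P ∈ pieces C u v Z) : ∃ F ∈ nb C u v, F ∈ P := by
  rcases (mem_pieces C u v Z P).1 hP with ⟨A, hA, rfl⟩ | ⟨U, hU, rfl⟩
  · obtain ⟨G, hG⟩ := (h1 A hA).2.1
    have := (mem_contr C u v G).1 (h2 A hA hG)
    obtain ⟨F, hF⟩ := Finset.card_eq_one.1 this
    have hF' : F ∈ (nb C u v).filter (fun F => con u v F = G) := by rw [hF]; simp
    obtain ⟨hn, hc⟩ := Finset.mem_filter.1 hF'
    refine ⟨F, hn, ?_⟩
    rw [mem_plus C u v A F ((mem_nb C u v F).1 hn).2]
    exact ⟨hn, hc ▸ hG⟩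
  · obtain ⟨h4, hu, hv, _, _⟩ := (mem_pairs C u v U).1 hU
    refine ⟨insert u U, insert_u_nb C u v huv U hU, ?_⟩
    rw [Finset.mem_powersetCard]
    refine ⟨?_, by rw [Finset.card_insert_of_notMem hu, h4]⟩
    intro y hy
    rcases Finset.mem_insert.1 hy with h | h
    · simp [h]
    · simp [h]

/-- (A) existence -/
theorem piece_exists (C : Finset (Finset V)) (h : IsCycle C) (u v : V) (huv : u ≠ v)
    (Z : Finset (Finset (Finset V)))
    (h3 : ∀ F ∈ contr C u v, ∃ A ∈ Z, F ∈ A)
    (F : Finset V) (hF : F ∈ nb C u v) : ∃ P ∈ pieces C u v Z, F ∈ P := by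
  have hb := ((mem_nb C u v F).1 hF).2
  by_cases hc : con u v F ∈ contr C u v
  · obtain ⟨A, hA, hFA⟩ := h3 _ hc
    exact ⟨plus C u v A, (mem_pieces C u v Z _).2 (Or.inl ⟨A, hA, rfl⟩),
      (mem_plus C u v A F hb).2 ⟨hF, hFA⟩⟩
  · obtain ⟨U, hU, _, hFU⟩ := in_pair C h u v huv F hF hc
    obtain ⟨h4, hu, hv, _, _⟩ := (mem_pairs C u v U).1 hU
    refine ⟨_, (mem_pieces C u v Z _).2 (Or.inr ⟨U, hU, rfl⟩), ?_⟩
    rw [Finset.mem_powersetCard]
    rcases hFU with rfl | rfl
    · refine ⟨?_, by rw [Finset.card_insert_of_notMem hu, h4]⟩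
      intro y hy
      rcases Finset.mem_insert.1 hy with h | h <;> simp [h]
    · refine ⟨?_, by rw [Finset.card_insert_of_notMem hv, h4]⟩
      intro y hy
      rcases Finset.mem_insert.1 hy with h | h <;> simp [h]

/-- (A) uniqueness -/
theorem piece_unique (C : Finset (Finset V)) (h : IsCycle C) (u v : V) (huv : u ≠ v)
    (Z : Finset (Finset (Finset V)))
    (h2 : ∀ A ∈ Z, A ⊆ contr C u v)
    (h4 : ∀ A ∈ Z, ∀ B ∈ Z, A ≠ B → Disjoint A B)
    (F : Finset V) (hF : F ∈ nb C u v) (P Q : Finset (Finset V)) (hP : P ∈ pieces C u v Z)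
    (hQ : Q ∈ pieces C u v Z) (hFP : F ∈ P) (hFQ : F ∈ Q) : P = Q := by
  have hb := ((mem_nb C u v F).1 hF).2
  have key1 : ∀ A ∈ Z, ∀ U ∈ pairs C u v, F ∈ plus C u v A →
      F ∈ (insert u (insert v U)).powersetCard 5 → False := by
    intro A hA U hU hFA hFU
    have hc := h2 A hA ((mem_plus C u v A F hb).1 hFA).2
    obtain ⟨h4', hu, hv, _, _⟩ := (mem_pairs C u v U).1 hU
    have hcon : con u v F = insert u U := by
      rcases mem_PU u v huv U h4' hu hv F hFU hb with rfl | rfl
      · exact con_insert_u u v huv U hv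
      · exact con_insert_v u v U hv
    rw [hcon] at hc
    exact pair_not_contr C u v huv U hU hc
  rcases (mem_pieces C u v Z P).1 hP with ⟨A, hA, rfl⟩ | ⟨U, hU, rfl⟩
  · rcases (mem_pieces C u v Z Q).1 hQ with ⟨B, hB, rfl⟩ | ⟨U', hU', rfl⟩
    · have hAB : A = B := by
        by_contra hne
        exact Finset.disjoint_left.1 (h4 A hA B hB hne) ((mem_plus C u v A F hb).1 hFP).2
          ((mem_plus C u v B F hb).1 hFQ).2
      rw [hAB]
    · exact (key1 A hA U' hU' hFP hFQ).elim
  · rcases (mem_pieces C u v Z Q).1 hQ with ⟨B, hB, rfl⟩ | ⟨U', hU', rfl⟩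
    · exact (key1 B hB U hU hFQ hFP).elim
    · obtain ⟨h4', hu, hv, _, _⟩ := (mem_pairs C u v U).1 hU
      obtain ⟨h4'', hu', hv', _, _⟩ := (mem_pairs C u v U').1 hU'
      have e1 : con u v F = insert u U := by
        rcases mem_PU u v huv U h4' hu hv F hFP hb with rfl | rfl
        · exact con_insert_u u v huv U hv
        · exact con_insert_v u v U hv
      have e2 : con u v F = insert u U' := by
        rcases mem_PU u v huv U' h4'' hu' hv' F hFQ hb with rfl | rfl
        · exact con_insert_u u v huv U' hv'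
        · exact con_insert_v u v U' hv'
      have e3 : U = U' := by
        have := congrArg (fun s => s.erase u) (e1.symm.trans e2)
        simpa [Finset.erase_insert, hu, hu'] using this
      rw [e3]

theorem SX_nb (C : Finset (Finset V)) (h : IsCycle C) (u v : V) (huv : u ≠ v)
    (Z : Finset (Finset (Finset V)))
    (h2 : ∀ A ∈ Z, A ⊆ contr C u v)
    (h4 : ∀ A ∈ Z, ∀ B ∈ Z, A ≠ B → Disjoint A B)
    (X : Finset (Finset (Finset V))) (hX : X ⊆ pieces C u v Z)
    (F : Finset V) (hF : F ∈ nb C u v) (P : Finset (Finset V)) (hP : P ∈ X) (hFP : F ∈ P) :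
    F ∈ SX X := by
  unfold SX
  rw [Finset.mem_filter]
  refine ⟨Finset.mem_univ _, ?_⟩
  have : X.filter (fun P => F ∈ P) = {P} := by
    rw [Finset.eq_singleton_iff_unique_mem]
    refine ⟨Finset.mem_filter.2 ⟨hP, hFP⟩, ?_⟩
    intro Q hQ
    obtain ⟨hQ1, hQ2⟩ := Finset.mem_filter.1 hQ
    exact piece_unique C h u v huv Z h2 h4 F hF Q P (hX hQ1) (hX hP) hQ2 hFP
  rw [this]; simp

theorem SX_pieces (C : Finset (Finset V)) (h : IsCycle C) (u v : V) (huv : u ≠ v)
    (Z : Finset (Finset (Finset V)))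
    (h1 : ∀ A ∈ Z, MinCycle A) (h2 : ∀ A ∈ Z, A ⊆ contr C u v)
    (h3 : ∀ F ∈ contr C u v, ∃ A ∈ Z, F ∈ A)
    (h4 : ∀ A ∈ Z, ∀ B ∈ Z, A ≠ B → Disjoint A B) :
    C = SX (pieces C u v Z) := by
  refine cyc_eq C _ h (SX_cycle _ (fun P hP => piece_cycle C h u v huv Z h1 h2 P hP)) u v huv ?_
  intro G hb
  constructor
  · intro hG
    have hn := (mem_nb C u v G).2 ⟨hG, hb⟩
    obtain ⟨P, hP, hGP⟩ := piece_exists C h u v huv Z h3 G hn
    exact SX_nb C h u v huv Z h2 h4 _ (Finset.Subset.refl _) G hn P hP hGP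
  · intro hG
    unfold SX at hG
    have ho := (Finset.mem_filter.1 hG).2
    have : ((pieces C u v Z).filter (fun P => G ∈ P)).Nonempty := by
      rw [← Finset.card_pos]; exact ho.pos
    obtain ⟨P, hP⟩ := this
    obtain ⟨hP1, hP2⟩ := Finset.mem_filter.1 hP
    exact ((mem_nb C u v G).1 (piece_nb C u v huv Z P hP1 G hP2 hb)).1

/-- TARGET 1: every facet of `C` lies in a piece -/
theorem pieces_cover (C : Finset (Finset V)) (h : IsCycle C) (u v : V) (huv : u ≠ v)
    (Z : Finset (Finset (Finset V)))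
    (h1 : ∀ A ∈ Z, MinCycle A) (h2 : ∀ A ∈ Z, A ⊆ contr C u v)
    (h3 : ∀ F ∈ contr C u v, ∃ A ∈ Z, F ∈ A)
    (h4 : ∀ A ∈ Z, ∀ B ∈ Z, A ≠ B → Disjoint A B) :
    ∀ F ∈ C, ∃ P ∈ pieces C u v Z, F ∈ P := by
  intro F hF
  rw [SX_pieces C h u v huv Z h1 h2 h3 h4] at hF
  unfold SX at hF
  have ho := (Finset.mem_filter.1 hF).2
  have : ((pieces C u v Z).filter (fun P => F ∈ P)).Nonempty := by
    rw [← Finset.card_pos]; exact ho.pos
  obtain ⟨P, hP⟩ := this
  obtain ⟨hP1, hP2⟩ := Finset.mem_filter.1 hP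
  exact ⟨P, hP1, hP2⟩

/-- TARGET 2: the pieces are connected -/
theorem pieces_conn (C : Finset (Finset V)) (h : MinCycle C) (u v : V) (huv : u ≠ v)
    (Z : Finset (Finset (Finset V)))
    (h1 : ∀ A ∈ Z, MinCycle A) (h2 : ∀ A ∈ Z, A ⊆ contr C u v)
    (h3 : ∀ F ∈ contr C u v, ∃ A ∈ Z, F ∈ A)
    (h4 : ∀ A ∈ Z, ∀ B ∈ Z, A ≠ B → Disjoint A B)
    (X : Finset (Finset (Finset V))) (hX : X ⊆ pieces C u v Z) (hX0 : X.Nonempty)
    (hX1 : X ≠ pieces C u v Z) :
    ∃ P ∈ X, ∃ Q ∈ pieces C u v Z, Q ∉ X ∧ ∃ F, F ∈ P ∧ F ∈ Q := by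
  by_contra hno
  have hno' : ∀ P ∈ X, ∀ Q ∈ pieces C u v Z, Q ∉ X → ∀ F, F ∈ P → F ∉ Q := by
    intro P hP Q hQ hQX F hFP hFQ
    exact hno ⟨P, hP, Q, hQ, hQX, F, hFP, hFQ⟩
  have hcyc : IsCycle (SX X) :=
    SX_cycle X (fun P hP => piece_cycle C h.1 u v huv Z h1 h2 P (hX hP))
  have hsub : SX X ⊆ C := by
    intro F hF
    rw [SX_pieces C h.1 u v huv Z h1 h2 h3 h4]
    unfold SX at hF ⊢
    have ho := (Finset.mem_filter.1 hF).2
    rw [Finset.mem_filter]
    refine ⟨Finset.mem_univ _, ?_⟩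
    have hne : (X.filter (fun P => F ∈ P)).Nonempty := by
      rw [← Finset.card_pos]; exact ho.pos
    obtain ⟨P, hP⟩ := hne
    obtain ⟨hP1, hP2⟩ := Finset.mem_filter.1 hP
    have e : (pieces C u v Z).filter (fun P => F ∈ P) = X.filter (fun P => F ∈ P) := by
      ext Q
      simp only [Finset.mem_filter]
      constructor
      · rintro ⟨hQ1, hQ2⟩
        refine ⟨?_, hQ2⟩
        by_contra hQX
        exact hno' P hP1 Q hQ1 hQX F hP2 hQ2
      · rintro ⟨hQ1, hQ2⟩
        exact ⟨hX hQ1, hQ2⟩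
    rw [e]; exact ho
  have hnon : (SX X).Nonempty := by
    obtain ⟨P, hP⟩ := hX0
    obtain ⟨F, hF, hFP⟩ := piece_has C u v huv Z h1 h2 P (hX hP)
    exact ⟨F, SX_nb C h.1 u v huv Z h2 h4 X hX F hF P hP hFP⟩
  have heq := h.2.2 (SX X) hsub hnon hcyc
  have hex : ∃ Q ∈ pieces C u v Z, Q ∉ X := by
    by_contra hall
    push Not at hall
    exact hX1 (Finset.Subset.antisymm hX hall)
  obtain ⟨Q, hQ, hQX⟩ := hex
  obtain ⟨F, hF, hFQ⟩ := piece_has C u v huv Z h1 h2 Q hQ
  have hFC : F ∈ SX X := by rw [heq]; exact ((mem_nb C u v F).1 hF).1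
  unfold SX at hFC
  have ho := (Finset.mem_filter.1 hFC).2
  have hne : (X.filter (fun P => F ∈ P)).Nonempty := by
    rw [← Finset.card_pos]; exact ho.pos
  obtain ⟨P, hP⟩ := hne
  obtain ⟨hP1, hP2⟩ := Finset.mem_filter.1 hP
  exact hno' P hP1 Q hQ hQX F hP2 hFQ

end Pool.Agent.Helper585.Wk
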