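import Pool.Agent.Helper585.Wk.Rig

set_option autoImplicit false
namespace Pool.Agent.Helper585.Wk
variable {V : Type} [Fintype V] [DecidableEq V]

theorem glue_family (R : SimpleGraph V → Finset V → Prop) (hR : RigPred R) (G : SimpleGraph V)
    (P : Finset (Finset (Finset V))) (hP : P.Nonempty) (h5 : ∀ A ∈ P, ∀ F ∈ A, F.card = 5)
    (hr : ∀ A ∈ P, R G (A.biUnion id))
    (hc : ∀ X : Finset (Finset (Finset V)), X ⊆ P → X.Nonempty → X ≠ P →
      ∃ A ∈ X, ∃ B ∈ P, B ∉ X ∧ ∃ F, F ∈ A ∧ F ∈ B) :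
    R G ((P.biUnion id).biUnion id) := by
  classical
  -- a subfamily of maximal cardinality
  have hne : (P.powerset.filter (fun X => X.Nonempty ∧ R G ((X.biUnion id).biUnion id))).Nonempty := by
    obtain ⟨A, hA⟩ := hP
    refine ⟨{A}, ?_⟩
    rw [Finset.mem_filter, Finset.mem_powerset]
    refine ⟨Finset.singleton_subset_iff.2 hA, Finset.singleton_nonempty _, ?_⟩
    rw [Finset.singleton_biUnion]
    exact hr A hA
  obtain ⟨X, hX, hmax⟩ := Finset.exists_max_image _ (fun X => X.card) hne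
  rw [Finset.mem_filter, Finset.mem_powerset] at hX
  obtain ⟨hXP, hXne, hRX⟩ := hX
  by_cases hXeq : X = P
  · rw [← hXeq]; exact hRX
  exfalso
  obtain ⟨A, hA, B, hB, hBX, F, hFA, hFB⟩ := hc X hXP hXne hXeq
  have hF5 : F.card = 5 := h5 A (hXP hA) F hFA
  have h1 : F ⊆ (X.biUnion id).biUnion id := by
    intro v hv
    rw [Finset.mem_biUnion]
    exact ⟨F, Finset.mem_biUnion.2 ⟨A, hA, hFA⟩, hv⟩
  have h2 : F ⊆ B.biUnion id := by
    intro v hv
    rw [Finset.mem_biUnion]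
    exact ⟨F, hFB, hv⟩
  have h3 := hR.glue G _ _ hRX (hr B hB)
    (by rw [← hF5]; exact Finset.card_le_card (Finset.subset_inter h1 h2))
  have h4 : ((insert B X).biUnion id).biUnion id = (X.biUnion id).biUnion id ∪ B.biUnion id := by
    ext v
    simp only [Finset.mem_biUnion, Finset.mem_union, Finset.mem_insert, id]
    constructor
    · rintro ⟨F', ⟨A', hA' | hA', hF'⟩, hv⟩
      · subst hA'; exact Or.inr ⟨F', hF', hv⟩
      · exact Or.inl ⟨F', ⟨A', hA', hF'⟩, hv⟩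
    · rintro (⟨F', ⟨A', hA', hF'⟩, hv⟩ | ⟨F', hF', hv⟩)
      · exact ⟨F', ⟨A', Or.inr hA', hF'⟩, hv⟩
      · exact ⟨F', ⟨B, Or.inl rfl, hF'⟩, hv⟩
  have h5' : insert B X ∈ P.powerset.filter
      (fun X => X.Nonempty ∧ R G ((X.biUnion id).biUnion id)) := by
    rw [Finset.mem_filter, Finset.mem_powerset]
    refine ⟨Finset.insert_subset hB hXP, Finset.insert_nonempty _ _, ?_⟩
    rw [h4]; exact h3
  have h6 := hmax _ h5'
  rw [Finset.card_insert_of_notMem hBX] at h6
  omega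

end Pool.Agent.Helper585.Wk
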