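import Pool.Agent.Helper585.Wk.Rig
import Pool.Agent.Helper585.Wk.Fog1
import Pool.Agent.Helper585.Wk.Fog2
import Pool.Agent.Helper585.Wk.Fog3
import Pool.Agent.Helper585.Wk.Fog4
import Pool.Agent.Helper585.Wk.Fog5
import Pool.Agent.Helper585.Wk.Fog6

set_option autoImplicit false
namespace Pool.Agent.Helper585.Wk
variable {V : Type} [Fintype V] [DecidableEq V]

theorem mem_contr_866 (C : Finset (Finset V)) (u v : V) (G : Finset V) (hG : G ∈ contr C u v)
    (x : V) (hx : x ∈ G) : x = u ∨ ∃ F ∈ C, x ∈ F := by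
  unfold contr at hG
  rw [Finset.mem_filter] at hG
  obtain ⟨F, hF⟩ := Finset.card_eq_one.1 hG.2
  have hF' : F ∈ (nb C u v).filter (fun F => con u v F = G) := by
    rw [hF]
    exact Finset.mem_singleton_self F
  rw [Finset.mem_filter] at hF'
  obtain ⟨h1, h2⟩ := hF'
  have hFC : F ∈ C := (Finset.mem_filter.1 h1).1
  rw [← h2] at hx
  unfold con at hx
  split_ifs at hx with h3
  · rw [Finset.mem_insert] at hx
    rcases hx with hx | hx
    · exact Or.inl hx
    · exact Or.inr ⟨F, hFC, Finset.mem_of_mem_erase hx⟩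
  · exact Or.inr ⟨F, hFC, hx⟩

theorem supp_plus_866 (C : Finset (Finset V)) (u v : V) (Z : Finset (Finset V))
    (F0 : Finset V) (hF0 : F0 ∈ C) (hu : u ∈ F0) (hv : v ∈ F0) (F : Finset V)
    (hF : F ∈ plus C u v Z) (x : V) (hx : x ∈ F) : ∃ F' ∈ C, x ∈ F' := by
  unfold plus at hF
  rw [Finset.mem_union] at hF
  rcases hF with hF | hF
  · have h1 : F ∈ nb C u v := (Finset.mem_filter.1 hF).1
    exact ⟨F, (Finset.mem_filter.1 h1).1, hx⟩
  · unfold added at hF
    rw [Finset.mem_image] at hF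
    obtain ⟨K, hK, rfl⟩ := hF
    rw [Finset.mem_filter] at hK
    obtain ⟨_, _, _, _, hodd⟩ := hK
    have hne : ((lift C u v Z).filter (fun F => insert u K ⊆ F)).Nonempty := by
      rw [← Finset.card_pos]
      exact hodd.pos
    obtain ⟨F', hF'⟩ := hne
    rw [Finset.mem_filter] at hF'
    have h1 : F' ∈ nb C u v := (Finset.mem_filter.1 hF'.1).1
    have h2 : F' ∈ C := (Finset.mem_filter.1 h1).1
    rw [Finset.mem_insert, Finset.mem_insert] at hx
    rcases hx with hx | hx | hx
    · exact ⟨F0, hF0, hx ▸ hu⟩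
    · exact ⟨F0, hF0, hx ▸ hv⟩
    · exact ⟨F', h2, hF'.2 (Finset.mem_insert_of_mem hx)⟩

/-- TARGET -/
theorem fog (R : SimpleGraph V → Finset V → Prop) (hR : RigPred R) (C : Finset (Finset V))
    (h : MinCycle C) : R (cgraph C) (C.biUnion id) := by
  obtain ⟨n, hn⟩ : ∃ n, n = (C.biUnion id).card := ⟨_, rfl⟩
  induction n using Nat.strong_induction_on generalizing C with
  | _ n ih =>
    obtain ⟨F0, hF0⟩ := h.2.1
    have hF0c := h.1.1 F0 hF0
    obtain ⟨u, hu, v, hv, huv⟩ := Finset.one_lt_card.mp (show 1 < F0.card by omega)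
    obtain ⟨Z, hZ1, hZ2, hZ3, hZ4⟩ := exists_decomp (contr C u v) (contr_cycle C h.1 u v huv)
    have hvC : v ∈ C.biUnion id := Finset.mem_biUnion.2 ⟨F0, hF0, hv⟩
    have hsub : ∀ A ∈ Z, A.biUnion id ⊆ (C.biUnion id).erase v := by
      intro A hA x hx
      rw [Finset.mem_biUnion] at hx
      obtain ⟨G, hG, hxG⟩ := hx
      have hGc := hZ2 A hA hG
      rw [Finset.mem_erase]
      refine ⟨?_, ?_⟩
      · rintro rfl
        exact contr_not_mem C u x huv G hGc hxG
      · rw [Finset.mem_biUnion]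
        rcases mem_contr_866 C u v G hGc x hxG with h1 | ⟨F, hF, hxF⟩
        · exact ⟨F0, hF0, h1 ▸ hu⟩
        · exact ⟨F, hF, hxF⟩
    have hRZ : ∀ A ∈ Z, R (cgraph A) (A.biUnion id) := by
      intro A hA
      refine ih _ ?_ A (hZ1 A hA) rfl
      rw [hn]
      exact lt_of_le_of_lt (Finset.card_le_card (hsub A hA)) (Finset.card_erase_lt_of_mem hvC)
    have hTcard : ∀ U ∈ pairs C u v, (insert u (insert v U)).card = 6 := by
      intro U hU
      obtain ⟨_, h4, huU, hvU, _, _⟩ := Finset.mem_filter.1 hU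
      rw [Finset.card_insert_of_notMem, Finset.card_insert_of_notMem hvU, h4]
      rw [Finset.mem_insert, not_or]
      exact ⟨huv, huU⟩
    have hTsupp : ∀ U ∈ pairs C u v,
        ((insert u (insert v U)).powersetCard 5).biUnion id = insert u (insert v U) := by
      intro U hU
      have h6 := hTcard U hU
      generalize insert u (insert v U) = T at h6
      ext x
      rw [Finset.mem_biUnion]
      constructor
      · rintro ⟨F, hF, hxF⟩
        exact (Finset.mem_powersetCard.1 hF).1 hxF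
      · intro hx
        obtain ⟨y, hy, hyx⟩ : ∃ y ∈ T, y ≠ x := by
          obtain ⟨a, ha, b, hb, hab⟩ := Finset.one_lt_card.mp (show 1 < T.card by omega)
          by_cases hax : a = x
          · exact ⟨b, hb, fun hbx => hab (hax.trans hbx.symm)⟩
          · exact ⟨a, ha, hax⟩
        refine ⟨T.erase y, ?_, ?_⟩
        · rw [Finset.mem_powersetCard]
          refine ⟨Finset.erase_subset _ _, ?_⟩
          rw [Finset.card_erase_of_mem hy, h6]
        · exact Finset.mem_erase.2 ⟨hyx.symm, hx⟩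
    have hRT : ∀ U ∈ pairs C u v, R (cgraph C) (insert u (insert v U)) := by
      intro U hU
      refine hR.complete _ _ (hTcard U hU) ?_
      obtain ⟨_, h4, huU, hvU, hUu, hUv⟩ := Finset.mem_filter.1 hU
      intro x hx y hy hxy
      refine ⟨hxy, ?_⟩
      rw [Finset.mem_insert, Finset.mem_insert] at hx hy
      rcases hx with hx | hx | hx <;> rcases hy with hy | hy | hy
      · exact absurd (hx.trans hy.symm) hxy
      · exact ⟨F0, hF0, hx ▸ hu, hy ▸ hv⟩
      · exact ⟨_, hUu, hx ▸ Finset.mem_insert_self _ _, Finset.mem_insert_of_mem hy⟩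
      · exact ⟨F0, hF0, hx ▸ hv, hy ▸ hu⟩
      · exact absurd (hx.trans hy.symm) hxy
      · exact ⟨_, hUv, hx ▸ Finset.mem_insert_self _ _, Finset.mem_insert_of_mem hy⟩
      · exact ⟨_, hUu, Finset.mem_insert_of_mem hx, hy ▸ Finset.mem_insert_self _ _⟩
      · exact ⟨_, hUv, Finset.mem_insert_of_mem hx, hy ▸ Finset.mem_insert_self _ _⟩
      · exact ⟨_, hUu, Finset.mem_insert_of_mem hx, Finset.mem_insert_of_mem hy⟩
    have hcover := pieces_cover C h.1 u v huv Z hZ1 hZ2 hZ3 hZ4
    have hpne : (pieces C u v Z).Nonempty := by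
      obtain ⟨P, hP, _⟩ := hcover F0 hF0
      exact ⟨P, hP⟩
    have hglue := glue_family R hR (cgraph C) (pieces C u v Z) hpne (by
      intro A hA F hF
      unfold pieces at hA
      rw [Finset.mem_union, Finset.mem_image, Finset.mem_image] at hA
      rcases hA with ⟨B, hB, rfl⟩ | ⟨U, hU, rfl⟩
      · exact (plus_cycle C h.1 u v huv B (hZ1 B hB).1 (hZ2 B hB)).1 F hF
      · exact (Finset.mem_powersetCard.1 hF).2) (by
      intro A hA
      unfold pieces at hA
      rw [Finset.mem_union, Finset.mem_image, Finset.mem_image] at hA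
      rcases hA with ⟨B, hB, rfl⟩ | ⟨U, hU, rfl⟩
      · exact split_step R hR C h u v huv F0 hF0 hu hv B (hZ1 B hB) (hZ2 B hB) (hRZ B hB)
      · rw [hTsupp U hU]
        exact hRT U hU) (fun X hX hX0 hX1 => pieces_conn C h u v huv Z hZ1 hZ2 hZ3 hZ4 X hX hX0 hX1)
    have hsupp : ((pieces C u v Z).biUnion id).biUnion id = C.biUnion id := by
      ext x
      constructor
      · intro hx
        rw [Finset.mem_biUnion] at hx
        obtain ⟨F, hF, hxF⟩ := hx
        rw [Finset.mem_biUnion] at hF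
        obtain ⟨P, hP, hFP⟩ := hF
        have hFP' : F ∈ P := hFP
        have hxF' : x ∈ F := hxF
        unfold pieces at hP
        rw [Finset.mem_union, Finset.mem_image, Finset.mem_image] at hP
        rw [Finset.mem_biUnion]
        rcases hP with ⟨B, hB, rfl⟩ | ⟨U, hU, rfl⟩
        · obtain ⟨F', hF', hx'⟩ := supp_plus_866 C u v B F0 hF0 hu hv F hFP' x hxF'
          exact ⟨F', hF', hx'⟩
        · have h1 := (Finset.mem_powersetCard.1 hFP').1 hxF'
          obtain ⟨_, h4, huU, hvU, hUu, hUv⟩ := Finset.mem_filter.1 hU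
          rw [Finset.mem_insert, Finset.mem_insert] at h1
          rcases h1 with h1 | h1 | h1
          · exact ⟨F0, hF0, h1 ▸ hu⟩
          · exact ⟨F0, hF0, h1 ▸ hv⟩
          · exact ⟨_, hUu, Finset.mem_insert_of_mem h1⟩
      · intro hx
        rw [Finset.mem_biUnion] at hx
        obtain ⟨F, hF, hxF⟩ := hx
        obtain ⟨P, hP, hFP⟩ := hcover F hF
        rw [Finset.mem_biUnion]
        exact ⟨F, Finset.mem_biUnion.2 ⟨P, hP, hFP⟩, hxF⟩
    rw [hsupp] at hglue
    exact hglue

end Pool.Agent.Helper585.Wk
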