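import Pool.Agent.Helper585.Wk.Rig

set_option autoImplicit false
namespace Pool.Agent.Helper585.Wk
variable {V : Type} [Fintype V] [DecidableEq V]

/-- TARGET 3: a nonzero polynomial does not vanish somewhere -/
theorem exists_eval_ne (P : MvPolynomial (V × Fin 5) ℝ) (hP : P ≠ 0) :
    ∃ p : V → Fin 5 → ℝ, MvPolynomial.eval (fun x => p x.1 x.2) P ≠ 0 := by
  by_contra hcon
  push Not at hcon
  apply hP
  apply MvPolynomial.funext
  intro x
  rw [map_zero]
  exact hcon (fun v i => x (v, i))

omit [Fintype V] in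
theorem ai_det (S : Finset V) (v0 : V) (hv0 : v0 ∈ S) (p : V → Fin 5 → ℝ)
    (e : {v // v ∈ S.erase v0} → Fin 5)
    (hdet : (Matrix.of (fun v v' : {v // v ∈ S.erase v0} => p v.1 (e v') - p v0 (e v'))).det ≠ 0) :
    AI S p := by
  intro c hc hp
  have hT : ∀ v ∈ S.erase v0, c v = 0 := by
    have h1 : Matrix.vecMul (fun v : {v // v ∈ S.erase v0} => c v.1)
        (Matrix.of (fun v v' : {v // v ∈ S.erase v0} => p v.1 (e v') - p v0 (e v'))) = 0 := by
      funext v'
      simp only [Matrix.vecMul, dotProduct, Matrix.of_apply, Pi.zero_apply]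
      rw [Finset.sum_coe_sort (S.erase v0) (fun v => c v * (p v (e v') - p v0 (e v')))]
      have h2 : ∑ v ∈ S, c v * (p v (e v') - p v0 (e v')) = 0 := by
        simp only [mul_sub, Finset.sum_sub_distrib]
        rw [hp (e v'), ← Finset.sum_mul, hc]; ring
      rw [← Finset.add_sum_erase _ _ hv0] at h2
      simpa using h2
    have h3 := Matrix.eq_zero_of_vecMul_eq_zero hdet h1
    intro v hv
    exact congrFun h3 ⟨v, hv⟩
  intro v hv
  by_cases h : v = v0
  · subst h
    rw [← Finset.add_sum_erase _ _ hv0, Finset.sum_eq_zero hT] at hc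
    simpa using hc
  · exact hT v (Finset.mem_erase.mpr ⟨h, hv⟩)

/-- TARGET 1: generic points are affinely independent -/
theorem exists_AI (S : Finset V) (hS : S.card ≤ 6) :
    ∃ P : MvPolynomial (V × Fin 5) ℝ, P ≠ 0 ∧
      ∀ p : V → Fin 5 → ℝ, MvPolynomial.eval (fun x => p x.1 x.2) P ≠ 0 → AI S p := by
  rcases S.eq_empty_or_nonempty with rfl | ⟨v0, hv0⟩
  · refine ⟨1, one_ne_zero, fun p _ c _ _ v hv => absurd hv (Finset.notMem_empty v)⟩
  have hcard : Fintype.card {v // v ∈ S.erase v0} ≤ Fintype.card (Fin 5) := by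
    rw [Fintype.card_coe, Fintype.card_fin, Finset.card_erase_of_mem hv0]
    omega
  obtain ⟨e⟩ := Function.Embedding.nonempty_of_card_le hcard
  let MP : Matrix {v // v ∈ S.erase v0} {v // v ∈ S.erase v0} (MvPolynomial (V × Fin 5) ℝ) :=
    Matrix.of (fun v v' => MvPolynomial.X (v.1, e v') - MvPolynomial.X (v0, e v'))
  have hev : ∀ p : V → Fin 5 → ℝ, MvPolynomial.eval (fun x => p x.1 x.2) MP.det =
      (Matrix.of (fun v v' : {v // v ∈ S.erase v0} => p v.1 (e v') - p v0 (e v'))).det := by
    intro p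
    rw [RingHom.map_det]
    congr 1
    ext v v'
    simp [MP]
  refine ⟨MP.det, ?_, ?_⟩
  · intro h0
    have h1 := hev (fun v i => if h : v ∈ S.erase v0 then (if i = e ⟨v, h⟩ then 1 else 0) else 0)
    rw [h0, map_zero] at h1
    have h2 : (Matrix.of (fun v v' : {v // v ∈ S.erase v0} =>
        (fun (v : V) (i : Fin 5) => if h : v ∈ S.erase v0 then
          (if i = e ⟨v, h⟩ then (1 : ℝ) else 0) else 0) v.1 (e v') -
        (fun (v : V) (i : Fin 5) => if h : v ∈ S.erase v0 then
          (if i = e ⟨v, h⟩ then (1 : ℝ) else 0) else 0) v0 (e v'))) = 1 := by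
      ext v v'
      have hn : v0 ∉ S.erase v0 := Finset.notMem_erase v0 S
      simp only [Matrix.of_apply, dif_neg hn, sub_zero]
      rw [dif_pos v.2, Matrix.one_apply]
      by_cases hvv : v = v'
      · subst hvv; simp
      · rw [if_neg hvv, if_neg]
        intro h; exact hvv (e.injective h).symm
    rw [h2, Matrix.det_one] at h1
    exact one_ne_zero h1.symm
  · intro p hp
    rw [hev p] at hp
    exact ai_det S v0 hv0 p e hp

/-- TARGET 2: the complete graph on 6 vertices is generically rigid in R^5 -/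
theorem GR_complete (G : SimpleGraph V) (S : Finset V) (hS : S.card = 6)
    (hG : ∀ x ∈ S, ∀ y ∈ S, x ≠ y → G.Adj x y) : GR G S := by
  obtain ⟨P, hP0, hP⟩ := exists_AI S hS.le
  refine ⟨P, hP0, fun p hp => ?_⟩
  have hAI := hP p hp
  intro m hm
  obtain ⟨v0, hv0⟩ : S.Nonempty := by rw [← Finset.card_pos]; omega
  have hcard : Fintype.card (Fin 5) = Fintype.card {v // v ∈ S.erase v0} := by
    rw [Fintype.card_coe, Fintype.card_fin, Finset.card_erase_of_mem hv0]
    omega
  let e : Fin 5 ≃ {v // v ∈ S.erase v0} := Fintype.equivOfCardEq hcard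
  have heS : ∀ k, (e k).1 ∈ S := fun k => Finset.mem_of_mem_erase (e k).2
  have he0 : ∀ k, (e k).1 ≠ v0 := fun k => Finset.ne_of_mem_erase (e k).2
  have heinj : ∀ k l, k ≠ l → (e k).1 ≠ (e l).1 := fun k l h h' => h (e.injective (Subtype.ext h'))
  let D : Matrix (Fin 5) (Fin 5) ℝ := Matrix.of (fun k i => p (e k).1 i - p v0 i)
  let N : Matrix (Fin 5) (Fin 5) ℝ := Matrix.of (fun k i => m (e k).1 i - m v0 i)
  have hdet : D.det ≠ 0 := by
    intro h0
    obtain ⟨c, hc0, hc⟩ := Matrix.exists_vecMul_eq_zero_iff.mpr h0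
    apply hc0
    have hc' : ∀ i, ∑ k, c k * (p (e k).1 i - p v0 i) = 0 := by
      intro i
      have := congrFun hc i
      simpa [Matrix.vecMul, dotProduct, D] using this
    let c' : V → ℝ := fun v => if h : v ∈ S.erase v0 then c (e.symm ⟨v, h⟩)
      else - ∑ k, c k
    have hsum : ∀ f : V → ℝ, ∑ v ∈ S.erase v0, c' v * f v = ∑ k, c k * f (e k).1 := by
      intro f
      rw [← Finset.sum_coe_sort (S.erase v0) (fun v => c' v * f v)]
      rw [← e.sum_comp]
      refine Finset.sum_congr rfl (fun k _ => ?_)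
      have : c' (e k).1 = c k := by
        simp only [c']
        rw [dif_pos (e k).2]
        congr 1
        exact e.symm_apply_apply k
      rw [this]
    have hc'0 : c' v0 = - ∑ k, c k := by
      simp only [c']
      rw [dif_neg (Finset.notMem_erase v0 S)]
    have hz := hAI c' (by
        rw [← Finset.add_sum_erase _ _ hv0, hc'0]
        have := hsum (fun _ => 1)
        simp only [mul_one] at this
        rw [this]; ring) (by
        intro i
        rw [← Finset.add_sum_erase _ _ hv0, hc'0, hsum (fun v => p v i)]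
        have h1 := hc' i
        simp only [mul_sub, Finset.sum_sub_distrib] at h1
        rw [← Finset.sum_mul] at h1
        linarith)
    funext k
    have h1 := hz (e k).1 (heS k)
    simp only [c'] at h1
    rw [dif_pos (e k).2] at h1
    have h2 : e.symm ⟨(e k).1, (e k).2⟩ = k := e.symm_apply_apply k
    rw [h2] at h1
    exact h1
  have hu : IsUnit D.det := isUnit_iff_ne_zero.mpr hdet
  have huT : IsUnit D.transpose.det := by rw [Matrix.det_transpose]; exact hu
  let A : Matrix (Fin 5) (Fin 5) ℝ := N.transpose * D.transpose⁻¹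
  have hAD : A * D.transpose = N.transpose := by
    rw [show A = N.transpose * D.transpose⁻¹ from rfl, Matrix.mul_assoc,
      Matrix.nonsing_inv_mul _ huT, Matrix.mul_one]
  -- motion equations
  have hskew : D * N.transpose + (D * N.transpose).transpose = 0 := by
    ext k l
    simp only [Matrix.add_apply, Matrix.transpose_apply, Matrix.mul_apply, Matrix.zero_apply]
    have e1 := hm _ (heS k) _ hv0 (hG _ (heS k) _ hv0 (he0 k))
    have e2 := hm _ (heS l) _ hv0 (hG _ (heS l) _ hv0 (he0 l))
    simp only [D, N, Matrix.of_apply]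
    by_cases hkl : k = l
    · subst hkl
      rw [e1]; ring
    · have e3 := hm _ (heS k) _ (heS l) (hG _ (heS k) _ (heS l) (heinj k l hkl))
      rw [← Finset.sum_add_distrib]
      have : ∀ i : Fin 5, (p (e k).1 i - p v0 i) * (m (e l).1 i - m v0 i) +
          (p (e l).1 i - p v0 i) * (m (e k).1 i - m v0 i) =
          (p (e k).1 i - p v0 i) * (m (e k).1 i - m v0 i) +
          (p (e l).1 i - p v0 i) * (m (e l).1 i - m v0 i) -
          (p (e k).1 i - p (e l).1 i) * (m (e k).1 i - m (e l).1 i) := by
        intro i; ring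
      rw [Finset.sum_congr rfl (fun i _ => this i), Finset.sum_sub_distrib,
        Finset.sum_add_distrib, e1, e2, e3]
      ring
  have hDAD : D * (A + A.transpose) * D.transpose = 0 := by
    rw [Matrix.mul_add, Matrix.add_mul, Matrix.mul_assoc, hAD]
    have h1 : D * A.transpose * D.transpose = (D * N.transpose).transpose := by
      have hN : N = D * A.transpose := by
        have := congrArg Matrix.transpose hAD
        rw [Matrix.transpose_mul, Matrix.transpose_transpose, Matrix.transpose_transpose] at this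
        exact this.symm
      rw [Matrix.transpose_mul D N.transpose, Matrix.transpose_transpose N, ← hN]
    rw [h1]; exact hskew
  have hAA : A + A.transpose = 0 := by
    have h1 : D⁻¹ * (D * (A + A.transpose) * D.transpose) * D.transpose⁻¹ = A + A.transpose := by
      rw [Matrix.mul_assoc D, ← Matrix.mul_assoc D⁻¹, Matrix.nonsing_inv_mul _ hu, Matrix.one_mul,
        Matrix.mul_assoc, Matrix.mul_nonsing_inv _ huT, Matrix.mul_one]
    rw [← h1, hDAD, Matrix.mul_zero, Matrix.zero_mul]
  refine ⟨fun i j => A i j, fun i => m v0 i - ∑ j, A i j * p v0 j, ?_, ?_⟩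
  · intro i j
    have := congrFun (congrFun hAA i) j
    simp only [Matrix.add_apply, Matrix.transpose_apply, Matrix.zero_apply] at this
    linarith
  · intro v hv i
    by_cases h : v = v0
    · subst h; ring
    · have hvT : v ∈ S.erase v0 := Finset.mem_erase.mpr ⟨h, hv⟩
      obtain ⟨k, hk⟩ := e.surjective ⟨v, hvT⟩
      have hk' : (e k).1 = v := by rw [hk]
      have h1 := congrFun (congrFun hAD i) k
      simp only [Matrix.mul_apply, Matrix.transpose_apply] at h1
      have h2 : ∀ j, D k j = p v j - p v0 j := by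
        intro j; simp only [D, Matrix.of_apply, hk']
      have h3 : N k i = m v i - m v0 i := by
        simp only [N, Matrix.of_apply, hk']
      rw [h3] at h1
      simp only [h2, mul_sub, Finset.sum_sub_distrib] at h1
      linarith

/-- TARGET 4 -/
theorem exists_good (G : SimpleGraph V) (S : Finset V) (h : GR G S) :
    ∃ p : V → Fin 5 → ℝ, Rig G S p ∧ ∀ F : Finset V, F.card ≤ 6 → AI F p := by
  obtain ⟨P, hP0, hP⟩ := h
  have hch : ∀ F : Finset V, ∃ Q : MvPolynomial (V × Fin 5) ℝ, Q ≠ 0 ∧ (F.card ≤ 6 →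
      ∀ p : V → Fin 5 → ℝ, MvPolynomial.eval (fun x => p x.1 x.2) Q ≠ 0 → AI F p) := by
    intro F
    by_cases hF : F.card ≤ 6
    · obtain ⟨Q, h1, h2⟩ := exists_AI F hF
      exact ⟨Q, h1, fun _ => h2⟩
    · exact ⟨1, one_ne_zero, fun h => absurd h hF⟩
  choose Q hQ0 hQ using hch
  obtain ⟨p, hp⟩ := exists_eval_ne (P * ∏ F : Finset V, Q F)
    (mul_ne_zero hP0 (Finset.prod_ne_zero_iff.mpr (fun F _ => hQ0 F)))
  rw [map_mul, map_prod] at hp
  refine ⟨p, hP p (left_ne_zero_of_mul hp), fun F hF => hQ F hF p ?_⟩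
  exact (Finset.prod_ne_zero_iff.mp (right_ne_zero_of_mul hp)) F (Finset.mem_univ F)

end Pool.Agent.Helper585.Wk
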