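import Pool.Agent.Helper585.Wk.Rig
import Pool.Agent.Helper585.Wk.Rig2

set_option autoImplicit false
namespace Pool.Agent.Helper585.Wk
variable {V : Type} [Fintype V] [DecidableEq V]

/-- the matrix of homogeneous coordinates -/
def AIM (T : Finset V) (p : V → Fin 5 → ℝ) : Matrix T (Option (Fin 5)) ℝ :=
  fun v o => match o with
    | none => 1
    | some j => p v j

theorem AIM_rows (T : Finset V) (p : V → Fin 5 → ℝ) (hAI : AI T p) :
    LinearIndependent ℝ (AIM T p).row := by
  rw [Fintype.linearIndependent_iff]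
  intro g hg
  have h0 := congrFun hg none
  have hj : ∀ j, ∑ v : T, g v * p v j = 0 := by
    intro j
    have := congrFun hg (some j)
    simpa [AIM, Matrix.row, Finset.sum_apply] using this
  have h0' : ∑ v : T, g v = 0 := by
    simpa [AIM, Matrix.row, Finset.sum_apply] using h0
  set c : V → ℝ := fun v => if h : v ∈ T then g ⟨v, h⟩ else 0 with hc
  have hcv : ∀ v : T, c v = g v := by
    intro v
    simp [hc]
  have h1 : ∑ v ∈ T, c v = 0 := by
    rw [← Finset.sum_coe_sort]
    rw [← h0']
    exact Finset.sum_congr rfl (fun v _ => hcv v)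
  have h2 : ∀ j, ∑ v ∈ T, c v * p v j = 0 := by
    intro j
    rw [← Finset.sum_coe_sort T (fun v => c v * p v j), ← hj j]
    exact Finset.sum_congr rfl (fun v _ => by rw [hcv v])
  intro v
  rw [← hcv v]
  exact hAI c h1 h2 v v.2

theorem skew_zero (T : Finset V) (hT : T.card = 5) (p : V → Fin 5 → ℝ) (hAI : AI T p)
    (D : Fin 5 → Fin 5 → ℝ) (e : Fin 5 → ℝ) (hD : ∀ i j, D i j = - D j i)
    (h : ∀ v ∈ T, ∀ i, ∑ j, D i j * p v j + e i = 0) :
    (∀ i j, D i j = 0) ∧ ∀ i, e i = 0 := by
  have hr : (AIM T p).rank = 5 := by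
    rw [(AIM_rows T p hAI).rank_matrix, Fintype.card_coe, hT]
  have hk : Module.finrank ℝ (LinearMap.ker (AIM T p).mulVecLin) = 1 := by
    have := LinearMap.finrank_range_add_finrank_ker (AIM T p).mulVecLin
    rw [Matrix.rank] at hr
    rw [hr] at this
    have h6 : Module.finrank ℝ (Option (Fin 5) → ℝ) = 6 := by simp
    rw [h6] at this
    omega
  obtain ⟨n, hn0, hn⟩ := finrank_eq_one_iff'.1 hk
  have hrow : ∀ i : Fin 5, ∃ c : ℝ, (∀ j, c * n.1 (some j) = D i j) := by
    intro i
    set w : Option (Fin 5) → ℝ := fun o => match o with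
      | none => e i
      | some j => D i j with hw
    have hwk : w ∈ LinearMap.ker (AIM T p).mulVecLin := by
      rw [LinearMap.mem_ker, Matrix.mulVecLin_apply]
      funext v
      rw [Matrix.mulVec, dotProduct, Fintype.sum_option]
      simp only [AIM, hw, Pi.zero_apply, one_mul]
      rw [← h v v.2 i, add_comm]
      congr 1
      exact Finset.sum_congr rfl (fun j _ => mul_comm _ _)
    obtain ⟨c, hc⟩ := hn ⟨w, hwk⟩
    refine ⟨c, fun j => ?_⟩
    have := congrFun (congrArg Subtype.val hc) (some j)
    simpa [hw] using this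
  choose c hc using hrow
  have hD0 : ∀ i j, D i j = 0 := by
    by_cases hz : ∀ j, n.1 (some j) = 0
    · intro i j
      rw [← hc i j, hz j, mul_zero]
    · push Not at hz
      obtain ⟨j, hj⟩ := hz
      have h1 : D j j = 0 := by have := hD j j; linarith
      have h2 : c j = 0 := by
        have := hc j j
        rw [h1] at this
        exact (mul_eq_zero.1 this).resolve_right hj
      have h3 : ∀ i, c i = 0 := by
        intro i
        have h4 := hc i j
        have h5 := hc j i
        rw [h2, zero_mul] at h5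
        rw [hD i j, ← h5, neg_zero] at h4
        exact (mul_eq_zero.1 h4).resolve_right hj
      intro i k
      rw [← hc i k, h3 i, zero_mul]
  refine ⟨hD0, fun i => ?_⟩
  have hne : T.Nonempty := by
    rw [← Finset.card_pos, hT]; norm_num
  obtain ⟨v, hv⟩ := hne
  have := h v hv i
  simpa [hD0] using this

/-- TARGET: gluing along 5 vertices -/
theorem GR_glue (G : SimpleGraph V) (S S' : Finset V) (h : GR G S) (h' : GR G S')
    (hSS : 5 ≤ (S ∩ S').card) : GR G (S ∪ S') := by
  obtain ⟨T, hTS, hT⟩ := Finset.exists_subset_card_eq hSS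
  obtain ⟨P1, hP1, h1⟩ := h
  obtain ⟨P2, hP2, h2⟩ := h'
  obtain ⟨P3, hP3, h3⟩ := exists_AI T (by omega)
  refine ⟨P1 * P2 * P3, mul_ne_zero (mul_ne_zero hP1 hP2) hP3, ?_⟩
  intro p hp
  rw [map_mul, map_mul] at hp
  have hp3 := right_ne_zero_of_mul hp
  have hp12 := left_ne_zero_of_mul hp
  have hp2 := right_ne_zero_of_mul hp12
  have hp1 := left_ne_zero_of_mul hp12
  intro m hm
  have hm1 : IsMot G S p m := fun u hu v hv huv =>
    hm u (Finset.mem_union_left _ hu) v (Finset.mem_union_left _ hv) huv
  have hm2 : IsMot G S' p m := fun u hu v hv huv =>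
    hm u (Finset.mem_union_right _ hu) v (Finset.mem_union_right _ hv) huv
  obtain ⟨A, b, hA, hA'⟩ := h1 p hp1 m hm1
  obtain ⟨B, b', hB, hB'⟩ := h2 p hp2 m hm2
  have key := skew_zero T hT p (h3 p hp3) (fun i j => A i j - B i j) (fun i => b i - b' i)
    (fun i j => by rw [hA i j, hB i j]; ring) (by
      intro v hv i
      have hv' := Finset.mem_inter.1 (hTS hv)
      have e1 := hA' v hv'.1 i
      have e2 := hB' v hv'.2 i
      have e3 : ∑ j, (A i j - B i j) * p v j = ∑ j, A i j * p v j - ∑ j, B i j * p v j := by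
        rw [← Finset.sum_sub_distrib]
        exact Finset.sum_congr rfl (fun j _ => by ring)
      rw [e3]
      linarith)
  refine ⟨A, b, hA, ?_⟩
  intro v hv i
  rcases Finset.mem_union.1 hv with hv | hv
  · exact hA' v hv i
  · rw [hB' v hv i]
    have e1 : b' i = b i := by have := key.2 i; linarith
    rw [e1]
    congr 1
    refine Finset.sum_congr rfl (fun j _ => ?_)
    have := key.1 i j
    have e2 : B i j = A i j := by linarith
    rw [e2]

end Pool.Agent.Helper585.Wk
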