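import Pool.Agent.Helper585.Wk.Rig

set_option autoImplicit false
set_option linter.unusedSectionVars false
namespace Pool.Agent.Helper585.Wk
variable {V : Type} [Fintype V] [DecidableEq V]

/-- polynomial functions -/
def Pol {σ : Type} (f : (σ → ℝ) → ℝ) : Prop :=
  ∃ Q : MvPolynomial σ ℝ, ∀ p, f p = MvPolynomial.eval p Q

theorem Pol.const {σ : Type} (c : ℝ) : Pol (fun _ : σ → ℝ => c) :=
  ⟨MvPolynomial.C c, fun p => by simp⟩

theorem Pol.coord {σ : Type} (a : σ) : Pol (fun p : σ → ℝ => p a) :=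
  ⟨MvPolynomial.X a, fun p => by simp⟩

theorem Pol.add {σ : Type} {f g : (σ → ℝ) → ℝ} (hf : Pol f) (hg : Pol g) :
    Pol (fun p => f p + g p) := by
  obtain ⟨Q, hQ⟩ := hf
  obtain ⟨R, hR⟩ := hg
  exact ⟨Q + R, fun p => by simp [hQ, hR]⟩

theorem Pol.sub {σ : Type} {f g : (σ → ℝ) → ℝ} (hf : Pol f) (hg : Pol g) :
    Pol (fun p => f p - g p) := by
  obtain ⟨Q, hQ⟩ := hf
  obtain ⟨R, hR⟩ := hg
  exact ⟨Q - R, fun p => by simp [hQ, hR]⟩

theorem Pol.mul {σ : Type} {f g : (σ → ℝ) → ℝ} (hf : Pol f) (hg : Pol g) :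
    Pol (fun p => f p * g p) := by
  obtain ⟨Q, hQ⟩ := hf
  obtain ⟨R, hR⟩ := hg
  exact ⟨Q * R, fun p => by simp [hQ, hR]⟩

theorem Pol.sum {σ ι : Type} (s : Finset ι) {f : ι → (σ → ℝ) → ℝ} (hf : ∀ i, Pol (f i)) :
    Pol (fun p => ∑ i ∈ s, f i p) := by
  choose Q hQ using hf
  exact ⟨∑ i ∈ s, Q i, fun p => by simp [hQ]⟩

theorem gen_inj {σ m n : Type} [Fintype m] [Fintype n] [DecidableEq n]
    (L : (σ → ℝ) → (n → ℝ) →ₗ[ℝ] (m → ℝ))
    (hL : ∀ k i, Pol (fun p => L p (Pi.single i 1) k)) (p : σ → ℝ) (h : ∀ x, L p x = 0 → x = 0) :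
    ∃ P : MvPolynomial σ ℝ, P ≠ 0 ∧ ∀ p', MvPolynomial.eval p' P ≠ 0 → ∀ x, L p' x = 0 → x = 0 := by
  classical
  choose Q hQ using hL
  let N : Matrix m n (MvPolynomial σ ℝ) := Matrix.of Q
  have hN : ∀ p' x, (N.map (MvPolynomial.eval p')).mulVec x = L p' x := by
    intro p' x
    have h1 : N.map (MvPolynomial.eval p') = LinearMap.toMatrix' (L p') := by
      ext k i
      rw [LinearMap.toMatrix'_apply]
      show MvPolynomial.eval p' (Q k i) = _
      rw [← hQ]
    rw [h1, LinearMap.toMatrix'_mulVec]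
  have hdet : ∀ p', MvPolynomial.eval p' (N.transpose * N).det =
      ((N.map (MvPolynomial.eval p')).transpose * N.map (MvPolynomial.eval p')).det := by
    intro p'
    rw [RingHom.map_det, RingHom.mapMatrix_apply, Matrix.map_mul, Matrix.transpose_map]
  refine ⟨(N.transpose * N).det, ?_, ?_⟩
  · intro h0
    have h1 : ((N.map (MvPolynomial.eval p)).transpose * N.map (MvPolynomial.eval p)).det = 0 := by
      rw [← hdet, h0, map_zero]
    obtain ⟨v, hv, hv0⟩ := Matrix.exists_mulVec_eq_zero_iff.2 h1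
    apply hv
    apply h
    rw [← hN]
    set w := (N.map (MvPolynomial.eval p)).mulVec v with hw
    rw [← Matrix.mulVec_mulVec] at hv0
    have h2 : w ⬝ᵥ w = 0 := by
      have h3 : v ⬝ᵥ ((N.map (MvPolynomial.eval p)).transpose.mulVec w) = 0 := by
        rw [hw, hv0, dotProduct_zero]
      rw [Matrix.dotProduct_mulVec, Matrix.vecMul_transpose] at h3
      exact h3
    exact dotProduct_self_eq_zero.1 h2
  · intro p' hp' x hx
    rw [hdet] at hp'
    apply Matrix.eq_zero_of_mulVec_eq_zero hp'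
    rw [← Matrix.mulVec_mulVec, hN, hx, Matrix.mulVec_zero]


/-- rigidity map on vectors, extended by coordinates outside `S` -/
noncomputable def rL (G : SimpleGraph V) (S : Finset V) (q : V × Fin 5 → ℝ) :
    (V × Fin 5 → ℝ) →ₗ[ℝ] ((V × V) ⊕ (V × Fin 5) → ℝ) := by
  classical
  exact {
    toFun := fun x => Sum.elim
      (fun e => if e.1 ∈ S ∧ e.2 ∈ S ∧ G.Adj e.1 e.2 then
        ∑ i, (q (e.1, i) - q (e.2, i)) * (x (e.1, i) - x (e.2, i)) else 0)
      (fun w => if w.1 ∈ S then 0 else x w)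
    map_add' := by
      intro x y
      funext k
      rcases k with ⟨u, v⟩ | ⟨u, j⟩
      · simp only [Sum.elim_inl, Pi.add_apply]
        split_ifs
        · rw [← Finset.sum_add_distrib]
          apply Finset.sum_congr rfl
          intro i _
          ring
        · simp
      · simp only [Sum.elim_inr, Pi.add_apply]
        split_ifs <;> simp
    map_smul' := by
      intro c x
      funext k
      rcases k with ⟨u, v⟩ | ⟨u, j⟩
      · simp only [Sum.elim_inl, Pi.smul_apply, smul_eq_mul, RingHom.id_apply]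
        split_ifs
        · rw [Finset.mul_sum]
          apply Finset.sum_congr rfl
          intro i _
          ring
        · simp
      · simp only [Sum.elim_inr, Pi.smul_apply, smul_eq_mul, RingHom.id_apply]
        split_ifs <;> simp }

theorem rL_inl (G : SimpleGraph V) (S : Finset V) (q x : V × Fin 5 → ℝ) (u v : V)
    (hu : u ∈ S) (hv : v ∈ S) (h : G.Adj u v) : rL G S q x (Sum.inl (u, v)) =
      ∑ i, (q (u, i) - q (v, i)) * (x (u, i) - x (v, i)) := by
  classical
  show (if u ∈ S ∧ v ∈ S ∧ G.Adj u v then _ else _) = _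
  rw [if_pos ⟨hu, hv, h⟩]

theorem rL_inl' (G : SimpleGraph V) (S : Finset V) (q x : V × Fin 5 → ℝ) (u v : V)
    (h : ¬ (u ∈ S ∧ v ∈ S ∧ G.Adj u v)) : rL G S q x (Sum.inl (u, v)) = 0 := by
  classical
  show (if u ∈ S ∧ v ∈ S ∧ G.Adj u v then _ else _) = _
  rw [if_neg h]

theorem rL_inr (G : SimpleGraph V) (S : Finset V) (q x : V × Fin 5 → ℝ) (w : V × Fin 5)
    (hw : w.1 ∉ S) : rL G S q x (Sum.inr w) = x w := by
  show (if w.1 ∈ S then 0 else x w) = _
  rw [if_neg hw]

theorem rL_inr' (G : SimpleGraph V) (S : Finset V) (q x : V × Fin 5 → ℝ) (w : V × Fin 5)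
    (hw : w.1 ∈ S) : rL G S q x (Sum.inr w) = 0 := by
  show (if w.1 ∈ S then 0 else x w) = _
  rw [if_pos hw]

/-- trivial motions -/
noncomputable def tL (S : Finset V) (q : V × Fin 5 → ℝ) :
    ((Fin 5 × Fin 5) ⊕ Fin 5 → ℝ) →ₗ[ℝ] (V × Fin 5 → ℝ) where
  toFun y := fun w => if w.1 ∈ S then ∑ j, y (Sum.inl (w.2, j)) * q (w.1, j) + y (Sum.inr w.2) else 0
  map_add' := by
    intro x y
    funext w
    simp only [Pi.add_apply]
    split_ifs
    · have : ∑ j, (x (Sum.inl (w.2, j)) + y (Sum.inl (w.2, j))) * q (w.1, j) =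
        ∑ j, x (Sum.inl (w.2, j)) * q (w.1, j) + ∑ j, y (Sum.inl (w.2, j)) * q (w.1, j) := by
        rw [← Finset.sum_add_distrib]
        apply Finset.sum_congr rfl
        intro i _
        ring
      rw [this]
      ring
    · simp
  map_smul' := by
    intro c x
    funext w
    simp only [Pi.smul_apply, smul_eq_mul, RingHom.id_apply]
    split_ifs
    · rw [mul_add, Finset.mul_sum]
      congr 1
      apply Finset.sum_congr rfl
      intro i _
      ring
    · simp

theorem tL_apply (S : Finset V) (q : V × Fin 5 → ℝ) (y : (Fin 5 × Fin 5) ⊕ Fin 5 → ℝ)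
    (w : V × Fin 5) : tL S q y w =
      if w.1 ∈ S then ∑ j, y (Sum.inl (w.2, j)) * q (w.1, j) + y (Sum.inr w.2) else 0 := rfl

/-- symmetric part -/
noncomputable def sL : ((Fin 5 × Fin 5) ⊕ Fin 5 → ℝ) →ₗ[ℝ] (Fin 5 × Fin 5 → ℝ) where
  toFun y := fun w => y (Sum.inl (w.1, w.2)) + y (Sum.inl (w.2, w.1))
  map_add' := by
    intro x y
    funext w
    simp only [Pi.add_apply]
    ring
  map_smul' := by
    intro c x
    funext w
    simp only [Pi.smul_apply, smul_eq_mul, RingHom.id_apply]
    ring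

theorem sL_apply (y : (Fin 5 × Fin 5) ⊕ Fin 5 → ℝ) (w : Fin 5 × Fin 5) :
    sL y w = y (Sum.inl (w.1, w.2)) + y (Sum.inl (w.2, w.1)) := rfl

/-- combine two linear maps -/
noncomputable def cL {n a b : Type} (f : (n → ℝ) →ₗ[ℝ] (a → ℝ)) (g : (n → ℝ) →ₗ[ℝ] (b → ℝ)) :
    (n → ℝ) →ₗ[ℝ] (a ⊕ b → ℝ) where
  toFun x := Sum.elim (f x) (g x)
  map_add' := by
    intro x y
    funext w
    rcases w with w | w <;> simp
  map_smul' := by
    intro c x
    funext w
    rcases w with w | w <;> simp

theorem cL_zero {n a b : Type} (f : (n → ℝ) →ₗ[ℝ] (a → ℝ)) (g : (n → ℝ) →ₗ[ℝ] (b → ℝ))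
    (x : n → ℝ) : cL f g x = 0 ↔ f x = 0 ∧ g x = 0 := by
  constructor
  · intro h
    constructor
    · funext w
      exact congrFun h (Sum.inl w)
    · funext w
      exact congrFun h (Sum.inr w)
  · rintro ⟨h1, h2⟩
    funext w
    rcases w with w | w
    · exact congrFun h1 w
    · exact congrFun h2 w

theorem rL_pol (G : SimpleGraph V) (S : Finset V) (x : V × Fin 5 → ℝ) (k : (V × V) ⊕ (V × Fin 5)) :
    Pol (fun q => rL G S q x k) := by
  classical
  rcases k with ⟨u, v⟩ | w
  · by_cases h : u ∈ S ∧ v ∈ S ∧ G.Adj u v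
    · have : (fun q => rL G S q x (Sum.inl (u, v))) =
        fun q => ∑ i, (q (u, i) - q (v, i)) * (x (u, i) - x (v, i)) := by
        funext q
        exact rL_inl G S q x u v h.1 h.2.1 h.2.2
      rw [this]
      apply Pol.sum
      intro i
      exact Pol.mul (Pol.sub (Pol.coord _) (Pol.coord _)) (Pol.const _)
    · have : (fun q => rL G S q x (Sum.inl (u, v))) = fun q => 0 := by
        funext q
        exact rL_inl' G S q x u v h
      rw [this]
      exact Pol.const 0
  · by_cases h : w.1 ∈ S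
    · have : (fun q => rL G S q x (Sum.inr w)) = fun q => 0 := by
        funext q
        exact rL_inr' G S q x w h
      rw [this]
      exact Pol.const 0
    · have : (fun q => rL G S q x (Sum.inr w)) = fun q => x w := by
        funext q
        exact rL_inr G S q x w h
      rw [this]
      exact Pol.const _

theorem tL_pol (S : Finset V) (y : (Fin 5 × Fin 5) ⊕ Fin 5 → ℝ) (w : V × Fin 5) :
    Pol (fun q => tL S q y w) := by
  by_cases h : w.1 ∈ S
  · have : (fun q => tL S q y w) =
      fun q => ∑ j, y (Sum.inl (w.2, j)) * q (w.1, j) + y (Sum.inr w.2) := by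
      funext q
      rw [tL_apply, if_pos h]
    rw [this]
    apply Pol.add
    · apply Pol.sum
      intro i
      exact Pol.mul (Pol.const _) (Pol.coord _)
    · exact Pol.const _
  · have : (fun q => tL S q y w) = fun q => 0 := by
      funext q
      rw [tL_apply, if_neg h]
    rw [this]
    exact Pol.const 0

/-- trivial motions are motions -/
theorem triv_mot (G : SimpleGraph V) (S : Finset V) (q : V × Fin 5 → ℝ)
    (y : (Fin 5 × Fin 5) ⊕ Fin 5 → ℝ) (hy : sL y = 0) : rL G S q (tL S q y) = 0 := by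
  classical
  have hs : ∀ i j, y (Sum.inl (i, j)) = - y (Sum.inl (j, i)) := by
    intro i j
    have := congrFun hy (i, j)
    rw [sL_apply] at this
    simp only [Pi.zero_apply] at this
    linarith
  funext k
  rcases k with ⟨u, v⟩ | w
  · by_cases h : u ∈ S ∧ v ∈ S ∧ G.Adj u v
    · rw [rL_inl G S q _ u v h.1 h.2.1 h.2.2]
      simp only [tL_apply, if_pos h.1, if_pos h.2.1]
      have e1 : ∀ i, (q (u, i) - q (v, i)) * (∑ j, y (Sum.inl (i, j)) * q (u, j) + y (Sum.inr i) -
          (∑ j, y (Sum.inl (i, j)) * q (v, j) + y (Sum.inr i))) =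
          ∑ j, (q (u, i) - q (v, i)) * (q (u, j) - q (v, j)) * y (Sum.inl (i, j)) := by
        intro i
        rw [add_sub_add_right_eq_sub, ← Finset.sum_sub_distrib, Finset.mul_sum]
        apply Finset.sum_congr rfl
        intro j _
        ring
      simp only [e1]
      have e2 : ∑ i, ∑ j, (q (u, i) - q (v, i)) * (q (u, j) - q (v, j)) * y (Sum.inl (i, j)) =
          - ∑ i, ∑ j, (q (u, i) - q (v, i)) * (q (u, j) - q (v, j)) * y (Sum.inl (i, j)) := by
        conv_lhs => rw [Finset.sum_comm]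
        rw [← Finset.sum_neg_distrib]
        apply Finset.sum_congr rfl
        intro i _
        rw [← Finset.sum_neg_distrib]
        apply Finset.sum_congr rfl
        intro j _
        rw [hs j i]
        ring
      show _ = (0 : ℝ)
      linarith
    · rw [rL_inl' G S q _ u v h]
      rfl
  · by_cases h : w.1 ∈ S
    · rw [rL_inr' G S q _ w h]
      rfl
    · rw [rL_inr G S q _ w h, tL_apply, if_neg h]
      rfl

/-- the skew parameters -/
noncomputable def Sk : Submodule ℝ ((Fin 5 × Fin 5) ⊕ Fin 5 → ℝ) := LinearMap.ker sL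

/-- rigidity gives the inclusion of kernels in trivial motions -/
theorem ker_le (G : SimpleGraph V) (S : Finset V) (p : V → Fin 5 → ℝ) (h : Rig G S p) :
    LinearMap.ker (rL G S (fun w => p w.1 w.2)) ≤ Sk.map (tL S (fun w => p w.1 w.2)) := by
  intro x hx
  rw [LinearMap.mem_ker] at hx
  have hm : IsMot G S p (fun v i => x (v, i)) := by
    intro u hu v hv huv
    have := congrFun hx (Sum.inl (u, v))
    rw [rL_inl G S _ x u v hu hv huv] at this
    exact this
  obtain ⟨A, b, hA, hx2⟩ := h _ hm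
  refine ⟨Sum.elim (fun w => A w.1 w.2) b, ?_, ?_⟩
  · show _ ∈ LinearMap.ker sL
    rw [LinearMap.mem_ker]
    funext w
    rw [sL_apply]
    show A w.1 w.2 + A w.2 w.1 = 0
    rw [hA w.1 w.2]
    ring
  · funext w
    rw [tL_apply]
    by_cases hw : w.1 ∈ S
    · rw [if_pos hw]
      exact (hx2 w.1 hw w.2).symm
    · rw [if_neg hw]
      have := congrFun hx (Sum.inr w)
      rw [rL_inr G S _ x w hw] at this
      exact this.symm

theorem rig_of (G : SimpleGraph V) (S : Finset V) (p : V → Fin 5 → ℝ)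
    (h : LinearMap.ker (rL G S (fun w => p w.1 w.2)) ≤ Sk.map (tL S (fun w => p w.1 w.2))) :
    Rig G S p := by
  classical
  intro m hm
  have hx : (fun w : V × Fin 5 => if w.1 ∈ S then m w.1 w.2 else 0) ∈
      LinearMap.ker (rL G S (fun w => p w.1 w.2)) := by
    rw [LinearMap.mem_ker]
    funext k
    rcases k with ⟨u, v⟩ | w
    · by_cases h : u ∈ S ∧ v ∈ S ∧ G.Adj u v
      · rw [rL_inl G S _ _ u v h.1 h.2.1 h.2.2]
        have := hm u h.1 v h.2.1 h.2.2
        simp only [h.1, h.2.1, if_true]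
        exact this
      · rw [rL_inl' G S _ _ u v h]
        rfl
    · by_cases h : w.1 ∈ S
      · rw [rL_inr' G S _ _ w h]
        rfl
      · rw [rL_inr G S _ _ w h, if_neg h]
        rfl
  obtain ⟨y, hy, hy2⟩ := h hx
  have hy0 : sL y = 0 := hy
  refine ⟨fun i j => y (Sum.inl (i, j)), fun i => y (Sum.inr i), ?_, ?_⟩
  · intro i j
    have := congrFun hy0 (i, j)
    rw [sL_apply] at this
    simp only [Pi.zero_apply] at this
    linarith
  · intro v hv i
    have := congrFun hy2 (v, i)
    rw [tL_apply] at this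
    simp only [hv, if_true] at this
    exact this.symm

/-- the parametrisation of trivial motions is injective somewhere -/
theorem exists_tL (S : Finset V) (hS : 5 ≤ S.card) :
    ∃ q : V × Fin 5 → ℝ, ∀ y, cL (tL S q) sL y = 0 → y = 0 := by
  classical
  obtain ⟨S', hS', hc⟩ := Finset.exists_subset_card_eq hS
  let e := S'.equivFinOfCardEq hc
  -- the vertex number `k`
  let vt : Fin 5 → V := fun k => ((e.symm k : S') : V)
  have hvt : Function.Injective vt := fun a b h => e.symm.injective (Subtype.ext h)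
  have hvS : ∀ k, vt k ∈ S := fun k => hS' (e.symm k).2
  -- vertex 4 goes to the origin, vertex `k < 4` to the `k`-th unit vector
  refine ⟨fun w => if w.1 = vt w.2 ∧ w.2 ≠ 4 then 1 else 0, ?_⟩
  intro y hy
  rw [cL_zero] at hy
  obtain ⟨h1, h2⟩ := hy
  have hs : ∀ i j, y (Sum.inl (i, j)) = - y (Sum.inl (j, i)) := by
    intro i j
    have := congrFun h2 (i, j)
    rw [sL_apply] at this
    simp only [Pi.zero_apply] at this
    linarith
  have hb : ∀ i, y (Sum.inr i) = 0 := by
    intro i
    have := congrFun h1 (vt 4, i)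
    rw [tL_apply] at this
    simp only [hvS, if_true] at this
    have h3 : ∀ j, (if vt 4 = vt j ∧ j ≠ 4 then (1 : ℝ) else 0) = 0 := by
      intro j
      rw [if_neg]
      rintro ⟨h4, h5⟩
      exact h5 (hvt h4).symm
    simp only [h3, mul_zero, Finset.sum_const_zero, zero_add] at this
    exact this
  have ha : ∀ i j, j ≠ 4 → y (Sum.inl (i, j)) = 0 := by
    intro i j hj
    have := congrFun h1 (vt j, i)
    rw [tL_apply] at this
    simp only [hvS, if_true, hb, add_zero] at this
    have h3 : ∀ k, y (Sum.inl (i, k)) * (if vt j = vt k ∧ k ≠ 4 then (1 : ℝ) else 0) =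
        if k = j then y (Sum.inl (i, k)) else 0 := by
      intro k
      by_cases hk : k = j
      · subst hk
        simp [hj]
      · rw [if_neg, if_neg hk, mul_zero]
        rintro ⟨h4, h5⟩
        exact hk (hvt h4).symm
    simp only [h3] at this
    rw [Finset.sum_ite_eq'] at this
    simpa using this
  funext k
  rcases k with ⟨i, j⟩ | i
  · show y (Sum.inl (i, j)) = 0
    by_cases hj : j = 4
    · by_cases hi : i = 4
      · have := hs i j
        rw [hi, hj] at this ⊢
        linarith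
      · rw [hs i j, ha j i hi, neg_zero]
    · exact ha i j hj
  · exact hb i

/-- TARGET: infinitesimal rigidity is an open (generic) property -/
theorem GR_of_rig (G : SimpleGraph V) (S : Finset V) (hS : 5 ≤ S.card) (p : V → Fin 5 → ℝ)
    (h : Rig G S p) : GR G S := by
  classical
  set q0 : V × Fin 5 → ℝ := fun w => p w.1 w.2 with hq0
  let Kr := LinearMap.ker (rL G S q0)
  let bs := Module.finBasis ℝ Kr
  obtain ⟨φ, hφ⟩ := LinearMap.exists_extend (p := Kr) bs.equivFun.toLinearMap
  have hφ' : ∀ x ∈ Kr, φ x = 0 → x = 0 := by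
    intro x hx hx0
    have h1 : bs.equivFun ⟨x, hx⟩ = 0 := by
      have := LinearMap.congr_fun hφ ⟨x, hx⟩
      rw [← hx0]
      exact this.symm
    have h2 : (⟨x, hx⟩ : Kr) = 0 := bs.equivFun.map_eq_zero_iff.1 h1
    exact congrArg Subtype.val h2
  obtain ⟨P1, hP1, hP1'⟩ := gen_inj (fun q => cL (rL G S q) φ) (by
    intro k i
    rcases k with k | k
    · exact rL_pol G S _ k
    · exact Pol.const _) q0 (by
    intro x hx
    rw [cL_zero] at hx
    exact hφ' x hx.1 hx.2)
  obtain ⟨q1, hq1⟩ := exists_tL S hS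
  obtain ⟨P2, hP2, hP2'⟩ := gen_inj (fun q => cL (tL S q) sL) (by
    intro k i
    rcases k with k | k
    · exact tL_pol S _ k
    · exact Pol.const _) q1 hq1
  refine ⟨P1 * P2, mul_ne_zero hP1 hP2, ?_⟩
  intro p' hp'
  rw [map_mul] at hp'
  have i1 := hP1' _ (left_ne_zero_of_mul hp')
  have i2 := hP2' _ (right_ne_zero_of_mul hp')
  set q : V × Fin 5 → ℝ := fun w => p' w.1 w.2 with hq
  apply rig_of
  -- dimensions
  have d1 : Module.finrank ℝ (LinearMap.ker (rL G S q)) ≤ Module.finrank ℝ Kr := by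
    have := LinearMap.finrank_le_finrank_of_injective (f := φ.domRestrict (LinearMap.ker (rL G S q))) (by
      rw [← LinearMap.ker_eq_bot, LinearMap.ker_eq_bot']
      rintro ⟨x, hx⟩ hx0
      apply Subtype.ext
      apply i1
      rw [cL_zero]
      exact ⟨hx, hx0⟩)
    rw [Module.finrank_fin_fun] at this
    exact this
  have d2 : Module.finrank ℝ Kr ≤ Module.finrank ℝ Sk :=
    le_trans (Submodule.finrank_mono (ker_le G S p h)) (Submodule.finrank_map_le _ _)
  have d3 : Module.finrank ℝ (Sk.map (tL S q)) = Module.finrank ℝ Sk := by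
    have hinj : Function.Injective ((tL S q).domRestrict Sk) := by
      rw [← LinearMap.ker_eq_bot, LinearMap.ker_eq_bot']
      rintro ⟨x, hx⟩ hx0
      apply Subtype.ext
      apply i2
      rw [cL_zero]
      exact ⟨hx0, hx⟩
    have h1 := LinearMap.finrank_range_of_inj hinj
    rw [LinearMap.range_domRestrict] at h1
    exact h1
  have hle : Sk.map (tL S q) ≤ LinearMap.ker (rL G S q) := by
    rintro x ⟨y, hy, rfl⟩
    rw [LinearMap.mem_ker]
    exact triv_mot G S q y hy
  have heq := Submodule.eq_of_le_of_finrank_le hle (by rw [d3]; exact d1.trans d2)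
  exact heq.ge

end Pool.Agent.Helper585.Wk
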