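import Pool.Agent.Helper585.Wk.Rig
import Pool.Agent.Helper585.Wk.Rig0
import Pool.Agent.Helper585.Wk.Rig2

set_option autoImplicit false
namespace Pool.Agent.Helper585.Wk
variable {V : Type} [Fintype V] [DecidableEq V]

omit [Fintype V] in
theorem GR_split_z (p : V → Fin 5 → ℝ) (u : V) (N : Finset V) (huN : u ∉ N) (hN4 : N.card = 4)
    (hAI : AI (insert u N) p) :
    ∃ z : Fin 5 → ℝ, ∀ d : Fin 5 → ℝ, (∀ w ∈ N, ∑ i, (p u i - p w i) * d i = 0) →
      ∑ i, z i * d i = 0 → d = 0 := by
  classical
  let M : Matrix N (Fin 5) ℝ := Matrix.of fun w i => p u i - p w i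
  have hli : LinearIndependent ℝ M.row := by
    rw [Fintype.linearIndependent_iff]
    intro g hg w
    -- coefficients
    let c : V → ℝ := fun x => if hx : x ∈ N then g ⟨x, hx⟩ else - ∑ y : N, g y
    have hcN : ∀ y : N, c y = g y := fun y => by simp [c, y.2]
    have hcu : c u = - ∑ y : N, g y := by simp [c, huN]
    have h1 : ∑ x ∈ insert u N, c x = 0 := by
      rw [Finset.sum_insert huN, hcu, ← Finset.sum_coe_sort N]
      simp [hcN]
    have h2 : ∀ i, ∑ x ∈ insert u N, c x * p x i = 0 := by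
      intro i
      rw [Finset.sum_insert huN, hcu, ← Finset.sum_coe_sort N (fun x => c x * p x i)]
      simp only [hcN]
      have := congrFun hg i
      simp only [Finset.sum_apply, Pi.smul_apply, Matrix.row, M, Matrix.of_apply, smul_eq_mul,
        Pi.zero_apply] at this
      simp only [mul_sub, Finset.sum_sub_distrib, ← Finset.sum_mul] at this
      linarith
    have := hAI c h1 h2 w (Finset.mem_insert_of_mem w.2)
    rw [hcN] at this
    exact this
  have hrk : M.rank = 4 := by
    rw [hli.rank_matrix]; simp [hN4]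
  have hker : Module.finrank ℝ (LinearMap.ker M.mulVecLin) ≤ 1 := by
    have h := LinearMap.finrank_range_add_finrank_ker M.mulVecLin
    rw [← Matrix.rank, hrk] at h
    simp at h
    omega
  obtain ⟨z, hz⟩ := finrank_le_one_iff.1 hker
  refine ⟨z, fun d hd hzd => ?_⟩
  have hdk : d ∈ LinearMap.ker M.mulVecLin := by
    rw [LinearMap.mem_ker]
    ext w
    simpa [Matrix.mulVec, dotProduct, M] using hd w w.2
  obtain ⟨c, hc⟩ := hz ⟨d, hdk⟩
  have hc' : ∀ i, d i = c * (z : Fin 5 → ℝ) i := fun i => by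
    have := congrArg (fun y : LinearMap.ker M.mulVecLin => (y : Fin 5 → ℝ) i) hc
    simpa using this.symm
  have h0 : ∑ i, d i * d i = 0 := by
    have : ∑ i, d i * d i = c * ∑ i, (z : Fin 5 → ℝ) i * d i := by
      rw [Finset.mul_sum]
      refine Finset.sum_congr rfl fun i _ => ?_
      rw [← mul_assoc, ← hc' i]
    rw [this, hzd, mul_zero]
  rw [Finset.sum_eq_zero_iff_of_nonneg (fun i _ => mul_self_nonneg _)] at h0
  ext i
  exact mul_self_eq_zero.1 (h0 i (Finset.mem_univ i))

theorem GR_split_skew (A : Fin 5 → Fin 5 → ℝ) (hA : ∀ i j, A i j = - A j i) (d : Fin 5 → ℝ) :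
    ∑ i, d i * ∑ j, A i j * d j = 0 := by
  have h : ∑ i, d i * ∑ j, A i j * d j = - ∑ i, d i * ∑ j, A i j * d j := by
    conv_lhs => simp only [Finset.mul_sum]
    rw [Finset.sum_comm]
    rw [← Finset.sum_neg_distrib]
    refine Finset.sum_congr rfl fun i _ => ?_
    rw [Finset.mul_sum, ← Finset.sum_neg_distrib]
    refine Finset.sum_congr rfl fun j _ => ?_
    rw [hA j i]; ring
  linarith

theorem GR_split_key (G : SimpleGraph V) (S : Finset V) (q : V → Fin 5 → ℝ)
    (hcon : ¬ Rig G S q) :
    ∃ m : EuclideanSpace ℝ (V × Fin 5), ‖m‖ = 1 ∧ IsMot G S q (fun x i => m (x, i)) ∧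
      (∀ x, x ∉ S → ∀ i, m (x, i) = 0) ∧
      ∀ (A : Fin 5 → Fin 5 → ℝ) (b : Fin 5 → ℝ), (∀ i j, A i j = - A j i) →
        ∑ x ∈ S, ∑ i, m (x, i) * (∑ j, A i j * q x j + b i) = 0 := by
  classical
  let T : Submodule ℝ (EuclideanSpace ℝ (V × Fin 5)) :=
    { carrier := {m | ∃ (A : Fin 5 → Fin 5 → ℝ) (b : Fin 5 → ℝ), (∀ i j, A i j = - A j i) ∧
        ∀ x i, m (x, i) = if x ∈ S then ∑ j, A i j * q x j + b i else 0}
      add_mem' := by
        rintro m m' ⟨A, b, hA, hm⟩ ⟨A', b', hA', hm'⟩
        refine ⟨A + A', b + b', fun i j => ?_, fun x i => ?_⟩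
        · simp only [Pi.add_apply]; rw [hA i j, hA' i j]; ring
        · simp only [PiLp.add_apply, hm, hm', Pi.add_apply, add_mul, Finset.sum_add_distrib]
          split_ifs <;> ring
      zero_mem' := ⟨0, 0, fun i j => by simp, fun x i => by simp⟩
      smul_mem' := by
        rintro c m ⟨A, b, hA, hm⟩
        refine ⟨c • A, c • b, fun i j => ?_, fun x i => ?_⟩
        · simp only [Pi.smul_apply, smul_eq_mul]; rw [hA i j]; ring
        · simp only [PiLp.smul_apply, hm, Pi.smul_apply, smul_eq_mul, mul_assoc, ← Finset.mul_sum]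
          split_ifs <;> ring }
  unfold Rig at hcon
  push Not at hcon
  obtain ⟨m0, hm0, hm0'⟩ := hcon
  let m1 : EuclideanSpace ℝ (V × Fin 5) := WithLp.toLp 2 fun y => if y.1 ∈ S then m0 y.1 y.2 else 0
  have hm1 : ∀ x i, m1 (x, i) = if x ∈ S then m0 x i else 0 := fun x i => rfl
  obtain ⟨a, ha, r, hr, har⟩ := Submodule.exists_add_mem_mem_orthogonal (K := T) m1
  have hr0 : r ≠ 0 := by
    rintro rfl
    rw [add_zero] at har
    rw [← har] at ha
    obtain ⟨A, b, hA, hm⟩ := ha
    apply hm0'
    refine ⟨A, b, hA, fun x hx i => ?_⟩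
    have := hm x i
    rw [hm1, if_pos hx, if_pos hx] at this
    exact this
  have ha' := ha
  obtain ⟨A, b, hA, haA⟩ := ha'
  have hrx : ∀ x i, r (x, i) = if x ∈ S then m0 x i - (∑ j, A i j * q x j + b i) else 0 := by
    intro x i
    have : m1 (x, i) = a (x, i) + r (x, i) := by rw [har]; rfl
    rw [hm1, haA] at this
    split_ifs with hx
    · rw [if_pos hx, if_pos hx] at this; linarith
    · rw [if_neg hx, if_neg hx] at this; linarith
  have hrm : IsMot G S q (fun x i => r (x, i)) := by
    intro x hx y hy hxy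
    have h1 := hm0 x hx y hy hxy
    have h2 := GR_split_skew A hA (fun i => q x i - q y i)
    calc ∑ i, (q x i - q y i) * (r (x, i) - r (y, i))
        = ∑ i, (q x i - q y i) * (m0 x i - m0 y i)
          - ∑ i, (q x i - q y i) * ∑ j, A i j * (q x j - q y j) := by
          rw [← Finset.sum_sub_distrib]
          refine Finset.sum_congr rfl fun i _ => ?_
          rw [hrx, hrx, if_pos hx, if_pos hy]
          simp only [mul_sub, Finset.sum_sub_distrib]
          ring
      _ = 0 := by rw [h1, h2, sub_zero]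
  have hrn : ‖r‖ ≠ 0 := norm_ne_zero_iff.2 hr0
  refine ⟨(‖r‖)⁻¹ • r, ?_, ?_, ?_, ?_⟩
  · rw [norm_smul, norm_inv, norm_norm, inv_mul_cancel₀ hrn]
  · intro x hx y hy hxy
    have := hrm x hx y hy hxy
    simp only [PiLp.smul_apply, smul_eq_mul]
    calc ∑ i, (q x i - q y i) * (‖r‖⁻¹ * r (x, i) - ‖r‖⁻¹ * r (y, i))
        = ‖r‖⁻¹ * ∑ i, (q x i - q y i) * (r (x, i) - r (y, i)) := by
          rw [Finset.mul_sum]
          exact Finset.sum_congr rfl fun i _ => by ring
      _ = 0 := by
        have h3 : ∑ i, (q x i - q y i) * (r (x, i) - r (y, i)) = 0 := this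
        rw [h3, mul_zero]
  · intro x hx i
    simp [hrx, hx]
  · intro A' b' hA'
    let w : EuclideanSpace ℝ (V × Fin 5) :=
      WithLp.toLp 2 fun y => if y.1 ∈ S then ∑ j, A' y.2 j * q y.1 j + b' y.2 else 0
    have hw : w ∈ T := ⟨A', b', hA', fun x i => rfl⟩
    have hin := (Submodule.mem_orthogonal _ _).1 hr w hw
    rw [PiLp.inner_apply] at hin
    have h4 : ∑ x ∈ S, ∑ i, r (x, i) * (∑ j, A' i j * q x j + b' i) = 0 := by
      rw [← hin, Fintype.sum_prod_type, ← Finset.sum_subset (Finset.subset_univ S)]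
      · refine Finset.sum_congr rfl fun x hx => Finset.sum_congr rfl fun i _ => ?_
        simp [w, hx, mul_comm]
      · intro x _ hx
        simp [w, hx]
    simp only [PiLp.smul_apply, smul_eq_mul, mul_assoc, ← Finset.mul_sum]
    rw [h4, mul_zero]

/-- TARGET: Whiteley's vertex splitting theorem in dimension 5 -/
theorem GR_split (G' G : SimpleGraph V) (S : Finset V) (u v : V) (N : Finset V)
    (h : GR G' S) (hu : u ∈ S) (hv : v ∉ S) (hN : N ⊆ S) (huN : u ∉ N) (hN4 : N.card = 4)
    (hadj : ∀ w ∈ N, G.Adj u w ∧ G.Adj v w) (huv : G.Adj u v)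
    (h1 : ∀ x ∈ S, ∀ y ∈ S, x ≠ u → y ≠ u → G'.Adj x y → G.Adj x y)
    (h2 : ∀ y ∈ S, y ≠ u → G'.Adj u y → G.Adj u y ∨ G.Adj v y) : GR G (insert v S) := by
  classical
  obtain ⟨p, hp, hAI⟩ := exists_good G' S h
  have hcard : (insert u N).card = 5 := by rw [Finset.card_insert_of_notMem huN]; omega
  have hAI5 := hAI (insert u N) (by omega)
  obtain ⟨z, hz⟩ := GR_split_z p u N huN hN4 hAI5
  let q : ℝ → V → Fin 5 → ℝ := fun t x i => if x = v then p u i + t * z i else p x i
  have hqv : ∀ t i, q t v i = p u i + t * z i := fun t i => by simp [q]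
  have hqx : ∀ t x, x ≠ v → ∀ i, q t x i = p x i := fun t x hx i => by simp [q, hx]
  have huv' : u ≠ v := fun h => hv (h ▸ hu)
  suffices hs : ∃ t, Rig G (insert v S) (q t) by
    obtain ⟨t, ht⟩ := hs
    refine GR_of_rig G (insert v S) ?_ (q t) ht
    have hsub : insert u N ⊆ insert v S := by
      intro x hx
      rcases Finset.mem_insert.1 hx with rfl | hx
      · exact Finset.mem_insert_of_mem hu
      · exact Finset.mem_insert_of_mem (hN hx)
    rw [← hcard]
    exact Finset.card_le_card hsub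
  by_contra hcon
  push Not at hcon
  have hch := fun n : ℕ => GR_split_key G (insert v S) (q (1 / ((n : ℝ) + 1))) (hcon _)
  choose m hm1 hm2 hm3 hm4 using hch
  have hsph : ∀ n, m n ∈ Metric.sphere (0 : EuclideanSpace ℝ (V × Fin 5)) 1 := fun n => by
    simpa using hm1 n
  obtain ⟨m', hm', φ, hφ, hlim⟩ := (isCompact_sphere (0 : EuclideanSpace ℝ (V × Fin 5)) 1).tendsto_subseq hsph
  have hnorm : ‖m'‖ = 1 := by simpa using hm'
  let t : ℕ → ℝ := fun n => 1 / ((φ n : ℝ) + 1)
  have ht0 : ∀ n, t n ≠ 0 := fun n => by positivity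
  have htlim : Filter.Tendsto t Filter.atTop (nhds 0) :=
    (tendsto_one_div_add_atTop_nhds_zero_nat (𝕜 := ℝ)).comp hφ.tendsto_atTop
  have hmlim : ∀ x i, Filter.Tendsto (fun n => m (φ n) (x, i)) Filter.atTop (nhds (m' (x, i))) := by
    intro x i
    have hc : Continuous (fun w : EuclideanSpace ℝ (V × Fin 5) => w (x, i)) := by fun_prop
    exact (hc.tendsto m').comp hlim
  have hqlim : ∀ x i, Filter.Tendsto (fun n => q (t n) x i) Filter.atTop (nhds (q 0 x i)) := by
    intro x i
    by_cases hx : x = v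
    · subst hx
      simp only [hqv]
      exact (htlim.mul_const _).const_add _
    · simp only [hqx _ x hx]
      exact tendsto_const_nhds
  -- limits of the constraints
  have c1 : ∀ x ∈ insert v S, ∀ y ∈ insert v S, G.Adj x y →
      ∑ i, (q 0 x i - q 0 y i) * (m' (x, i) - m' (y, i)) = 0 := by
    intro x hx y hy hxy
    have hl : Filter.Tendsto (fun n => ∑ i, (q (t n) x i - q (t n) y i) *
        (m (φ n) (x, i) - m (φ n) (y, i))) Filter.atTop
        (nhds (∑ i, (q 0 x i - q 0 y i) * (m' (x, i) - m' (y, i)))) :=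
      tendsto_finsetSum _ fun i _ =>
        ((hqlim x i).sub (hqlim y i)).mul ((hmlim x i).sub (hmlim y i))
    have h0 : (fun n => ∑ i, (q (t n) x i - q (t n) y i) *
        (m (φ n) (x, i) - m (φ n) (y, i))) = fun _ => 0 := by
      funext n
      exact hm2 (φ n) x hx y hy hxy
    rw [h0] at hl
    exact tendsto_nhds_unique hl tendsto_const_nhds |>.symm ▸ rfl
  have c2 : ∑ i, z i * (m' (v, i) - m' (u, i)) = 0 := by
    have hl : Filter.Tendsto (fun n => ∑ i, z i * (m (φ n) (v, i) - m (φ n) (u, i))) Filter.atTop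
        (nhds (∑ i, z i * (m' (v, i) - m' (u, i)))) :=
      tendsto_finsetSum _ fun i _ => ((hmlim v i).sub (hmlim u i)).const_mul _
    have h0 : (fun n => ∑ i, z i * (m (φ n) (v, i) - m (φ n) (u, i))) = fun _ => 0 := by
      funext n
      have := hm2 (φ n) v (Finset.mem_insert_self _ _) u (Finset.mem_insert_of_mem hu) huv.symm
      have h5 : ∑ i, (q (t n) v i - q (t n) u i) * (m (φ n) (v, i) - m (φ n) (u, i)) = 0 := this
      simp only [hqv, hqx _ u huv'] at h5
      have h6 : t n * ∑ i, z i * (m (φ n) (v, i) - m (φ n) (u, i)) = 0 := by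
        rw [← h5, Finset.mul_sum]
        exact Finset.sum_congr rfl fun i _ => by ring
      exact (mul_eq_zero.1 h6).resolve_left (ht0 n)
    rw [h0] at hl
    exact tendsto_nhds_unique hl tendsto_const_nhds
  have c3 : ∀ (A : Fin 5 → Fin 5 → ℝ) (b : Fin 5 → ℝ), (∀ i j, A i j = - A j i) →
      ∑ x ∈ insert v S, ∑ i, m' (x, i) * (∑ j, A i j * q 0 x j + b i) = 0 := by
    intro A b hA
    have hl : Filter.Tendsto (fun n => ∑ x ∈ insert v S, ∑ i, m (φ n) (x, i) *
        (∑ j, A i j * q (t n) x j + b i)) Filter.atTop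
        (nhds (∑ x ∈ insert v S, ∑ i, m' (x, i) * (∑ j, A i j * q 0 x j + b i))) :=
      tendsto_finsetSum _ fun x _ => tendsto_finsetSum _ fun i _ =>
        (hmlim x i).mul ((tendsto_finsetSum _ fun j _ => (hqlim x j).const_mul _).add_const _)
    have h0 : (fun n => ∑ x ∈ insert v S, ∑ i, m (φ n) (x, i) *
        (∑ j, A i j * q (t n) x j + b i)) = fun _ => 0 := by
      funext n
      exact hm4 (φ n) A b hA
    rw [h0] at hl
    exact tendsto_nhds_unique hl tendsto_const_nhds
  have c4 : ∀ x, x ∉ insert v S → ∀ i, m' (x, i) = 0 := by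
    intro x hx i
    have hl := hmlim x i
    have h0 : (fun n => m (φ n) (x, i)) = fun _ => 0 := by
      funext n
      exact hm3 (φ n) x hx i
    rw [h0] at hl
    exact tendsto_nhds_unique hl tendsto_const_nhds
  -- m' u = m' v
  have huveq : ∀ i, m' (v, i) = m' (u, i) := by
    have hd := hz (fun i => m' (v, i) - m' (u, i)) ?_ c2
    · intro i
      have := congrFun hd i
      simp only [Pi.zero_apply] at this
      linarith
    · intro w hw
      have hwS := hN hw
      have hwv : w ≠ v := fun h => hv (h ▸ hwS)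
      have e1 := c1 u (Finset.mem_insert_of_mem hu) w (Finset.mem_insert_of_mem hwS) (hadj w hw).1
      have e2 := c1 v (Finset.mem_insert_self _ _) w (Finset.mem_insert_of_mem hwS) (hadj w hw).2
      simp only [hqv, hqx _ u huv', hqx _ w hwv, zero_mul, add_zero] at e1 e2
      calc ∑ i, (p u i - p w i) * (m' (v, i) - m' (u, i))
          = ∑ i, (p u i - p w i) * (m' (v, i) - m' (w, i))
            - ∑ i, (p u i - p w i) * (m' (u, i) - m' (w, i)) := by
            rw [← Finset.sum_sub_distrib]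
            exact Finset.sum_congr rfl fun i _ => by ring
        _ = 0 := by rw [e1, e2, sub_zero]
  -- m' is a motion of (G', S, p)
  have hmot : IsMot G' S p (fun x i => m' (x, i)) := by
    have hne : ∀ x ∈ S, x ≠ v := fun x hx h => hv (h ▸ hx)
    have hside : ∀ y ∈ S, y ≠ u → G'.Adj u y →
        ∑ i, (p u i - p y i) * (m' (u, i) - m' (y, i)) = 0 := by
      intro y hy hyu hadj'
      rcases h2 y hy hyu hadj' with h3 | h3
      · have e := c1 u (Finset.mem_insert_of_mem hu) y (Finset.mem_insert_of_mem hy) h3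
        simpa only [hqx _ u huv', hqx _ y (hne y hy)] using e
      · have e := c1 v (Finset.mem_insert_self _ _) y (Finset.mem_insert_of_mem hy) h3
        simpa only [hqv, hqx _ y (hne y hy), zero_mul, add_zero, huveq] using e
    intro x hx y hy hxy
    by_cases hxu : x = u
    · subst hxu
      exact hside y hy (fun h => G'.loopless.irrefl _ (h ▸ hxy)) hxy
    · by_cases hyu : y = u
      · subst hyu
        have := hside x hx hxu hxy.symm
        calc ∑ i, (p x i - p y i) * (m' (x, i) - m' (y, i))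
            = ∑ i, (p y i - p x i) * (m' (y, i) - m' (x, i)) :=
              Finset.sum_congr rfl fun i _ => by ring
          _ = 0 := this
      · have e := c1 x (Finset.mem_insert_of_mem hx) y (Finset.mem_insert_of_mem hy)
          (h1 x hx y hy hxu hyu hxy)
        simpa only [hqx _ x (hne x hx), hqx _ y (hne y hy)] using e
  obtain ⟨A, b, hA, htr⟩ := hp _ hmot
  have htr' : ∀ x ∈ insert v S, ∀ i, m' (x, i) = ∑ j, A i j * q 0 x j + b i := by
    intro x hx i
    rcases Finset.mem_insert.1 hx with rfl | hx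
    · rw [huveq]
      have := htr u hu i
      simp only [hqv, zero_mul, add_zero]
      exact this
    · have := htr x hx i
      have hxv : x ≠ v := fun h => hv (h ▸ hx)
      simp only [hqx _ x hxv]
      exact this
  have hfin := c3 A b hA
  have hsq : ∑ x ∈ insert v S, ∑ i, m' (x, i) * m' (x, i) = 0 := by
    rw [← hfin]
    refine Finset.sum_congr rfl fun x hx => Finset.sum_congr rfl fun i _ => ?_
    rw [← htr' x hx i]
  have hz0 : ∀ x ∈ insert v S, ∀ i, m' (x, i) = 0 := by
    intro x hx i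
    have h7 := (Finset.sum_eq_zero_iff_of_nonneg
      (fun x _ => Finset.sum_nonneg fun i _ => mul_self_nonneg _)).1 hsq x hx
    have h8 := (Finset.sum_eq_zero_iff_of_nonneg (fun i _ => mul_self_nonneg _)).1 h7 i
      (Finset.mem_univ i)
    exact mul_self_eq_zero.1 h8
  have hm0 : m' = 0 := by
    ext ⟨x, i⟩
    by_cases hx : x ∈ insert v S
    · simpa using hz0 x hx i
    · simpa using c4 x hx i
  rw [hm0, norm_zero] at hnorm
  exact zero_ne_one hnorm

end Pool.Agent.Helper585.Wk
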