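import Pool.Agent.Helper585.Wk.Str

set_option autoImplicit false
namespace Pool.Agent.Helper585.Wk

section T2le
variable {n : ℕ}

/-- ordered edges -/
abbrev T2I (K : Cx n) : Type :=
  {x : Fin n × Fin n // x.1 < x.2 ∧ ({x.1, x.2} : Finset (Fin n)) ∈ K.faces}

theorem T2_card_I (K : Cx n) : Fintype.card (T2I K) ≤ K.f 1 := by
  have h : Fintype.card (T2I K) ≤
      Fintype.card ↥(K.faces.filter (fun σ => σ.card = 1 + 1)) := by
    refine Fintype.card_le_of_injective (fun x => (⟨{x.1.1, x.1.2}, by
      rw [Finset.mem_filter]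
      exact ⟨x.2.2, Finset.card_pair x.2.1.ne⟩⟩ :
        ↥(K.faces.filter (fun σ => σ.card = 1 + 1)))) ?_
    · rintro ⟨⟨a, b⟩, hab, h1⟩ ⟨⟨c, d⟩, hcd, h2⟩ h
      have h' : ({a, b} : Finset (Fin n)) = {c, d} := congrArg Subtype.val h
      simp only at hab hcd
      have ha : a = c ∨ a = d := by
        have : a ∈ ({c, d} : Finset (Fin n)) := by rw [← h']; simp
        simpa using this
      have hb : b = c ∨ b = d := by
        have : b ∈ ({c, d} : Finset (Fin n)) := by rw [← h']; simp
        simpa using this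
      have hac : a = c := by
        rcases ha with h | h
        · exact h
        · rcases hb with h3 | h3
          · subst h; subst h3
            exact absurd hab (not_lt.mpr hcd.le)
          · subst h; subst h3
            exact absurd hab (lt_irrefl _)
      have hbd : b = d := by
        rcases hb with h | h
        · subst h; subst hac
          exact absurd hab (lt_irrefl _)
        · exact h
      subst hac; subst hbd
      rfl
  refine h.trans ?_
  rw [Fintype.card_coe]
  exact le_rfl

theorem T2_card_S (K : Cx n) : K.f 0 ≤ Fintype.card {v // v ∈ K.verts} := by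
  rw [Fintype.card_coe]
  unfold Cx.f
  refine (Finset.card_le_card (t := K.verts.image (fun v => ({v} : Finset (Fin n)))) ?_).trans
    Finset.card_image_le
  intro σ hσ
  rw [Finset.mem_filter] at hσ
  obtain ⟨v, rfl⟩ := Finset.card_eq_one.mp hσ.2
  rw [Finset.mem_image]
  exact ⟨v, by simp [Cx.verts, hσ.1], rfl⟩

theorem T2_mem1 (K : Cx n) (x : T2I K) : x.1.1 ∈ K.verts := by
  simp only [Cx.verts, Finset.mem_filter, Finset.mem_univ, true_and]
  exact K.down _ x.2.2 _ (by simp)

theorem T2_mem2 (K : Cx n) (x : T2I K) : x.1.2 ∈ K.verts := by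
  simp only [Cx.verts, Finset.mem_filter, Finset.mem_univ, true_and]
  exact K.down _ x.2.2 _ (by simp)

/-- the rigidity map -/
def T2R (K : Cx n) (p : Fin n → Fin 5 → ℝ) :
    ({v // v ∈ K.verts} → Fin 5 → ℝ) →ₗ[ℝ] (T2I K → ℝ) where
  toFun m x := ∑ i, (p x.1.1 i - p x.1.2 i) * (m ⟨x.1.1, T2_mem1 K x⟩ i - m ⟨x.1.2, T2_mem2 K x⟩ i)
  map_add' m m' := by
    ext x
    simp only [Pi.add_apply]
    rw [← Finset.sum_add_distrib]
    exact Finset.sum_congr rfl fun i _ => by ring
  map_smul' c m := by
    ext x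
    simp only [Pi.smul_apply, smul_eq_mul, RingHom.id_apply]
    rw [Finset.mul_sum]
    exact Finset.sum_congr rfl fun i _ => by ring

/-- the pairing with stresses -/
def T2Phi (K : Cx n) (p : Fin n → Fin 5 → ℝ) : T2 K p →ₗ[ℝ] Module.Dual ℝ (T2I K → ℝ) where
  toFun B :=
    { toFun := fun y => ∑ x, B.1 x.1.1 x.1.2 * y x
      map_add' := fun y z => by
        simp only [Pi.add_apply, mul_add, Finset.sum_add_distrib]
      map_smul' := fun c y => by
        simp only [Pi.smul_apply, smul_eq_mul, RingHom.id_apply, Finset.mul_sum]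
        exact Finset.sum_congr rfl fun i _ => by ring }
  map_add' B C := by
    ext y
    simp [add_mul, Finset.sum_add_distrib]
  map_smul' c B := by
    ext y
    simp [Finset.mul_sum, mul_assoc]

theorem T2Phi_apply (K : Cx n) (p : Fin n → Fin 5 → ℝ) (B : T2 K p) (y : T2I K → ℝ) :
    T2Phi K p B y = ∑ x, B.1 x.1.1 x.1.2 * y x := rfl

theorem T2Phi_inj (K : Cx n) (p : Fin n → Fin 5 → ℝ) : Function.Injective (T2Phi K p) := by
  classical
  rw [injective_iff_map_eq_zero]
  intro B hB
  obtain ⟨b1, b2, b3, b4⟩ := B.2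
  have h1 : ∀ x : T2I K, B.1 x.1.1 x.1.2 = 0 := by
    intro x
    have := congrArg (fun f => f (Pi.single x (1 : ℝ))) hB
    simp only [T2Phi_apply, LinearMap.zero_apply] at this
    rw [Finset.sum_eq_single x (fun y _ hy => by rw [Pi.single_eq_of_ne hy, mul_zero])
      (fun h => absurd (Finset.mem_univ _) h)] at this
    simpa using this
  have h2 : ∀ u v, u ≠ v → B.1 u v = 0 := by
    intro u v huv
    by_cases hf : ({u, v} : Finset (Fin n)) ∈ K.faces
    · rcases lt_or_gt_of_ne huv with h | h
      · exact h1 ⟨(u, v), h, hf⟩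
      · rw [b1 u v]
        exact h1 ⟨(v, u), h, by rw [Finset.pair_comm]; exact hf⟩
    · exact b2 u v hf
  apply Subtype.ext
  funext u v
  show B.1 u v = 0
  by_cases huv : u = v
  · subst huv
    have := b3 u
    rwa [Finset.sum_eq_single u (fun w _ hw => h2 u w hw.symm)
      (fun h => absurd (Finset.mem_univ _) h)] at this
  · exact h2 u v huv

theorem T2_sum_zero (K : Cx n) (p : Fin n → Fin 5 → ℝ) (B : T2 K p) (m : Fin n → Fin 5 → ℝ) :
    ∑ u, ∑ v, B.1 u v * ∑ i, (p u i - p v i) * (m u i - m v i) = 0 := by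
  obtain ⟨b1, b2, b3, b4⟩ := B.2
  have h : ∀ i, ∑ u, ∑ v, B.1 u v * ((p u i - p v i) * (m u i - m v i)) = 0 := by
    intro i
    have e : ∀ u v, B.1 u v * ((p u i - p v i) * (m u i - m v i)) =
        (p u i * m u i) * B.1 u v - m v i * (B.1 v u * p u i) - m u i * (B.1 u v * p v i) +
          (p v i * m v i) * B.1 v u := by
      intro u v
      rw [b1 v u]
      ring
    simp only [e, Finset.sum_add_distrib, Finset.sum_sub_distrib]
    have s1 : ∑ u, ∑ v, (p u i * m u i) * B.1 u v = 0 :=
      Finset.sum_eq_zero fun u _ => by rw [← Finset.mul_sum, b3 u, mul_zero]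
    have s2 : ∑ u, ∑ v, m v i * (B.1 v u * p u i) = 0 := by
      rw [Finset.sum_comm]
      exact Finset.sum_eq_zero fun v _ => by rw [← Finset.mul_sum, b4 v i, mul_zero]
    have s3 : ∑ u, ∑ v, m u i * (B.1 u v * p v i) = 0 :=
      Finset.sum_eq_zero fun u _ => by rw [← Finset.mul_sum, b4 u i, mul_zero]
    have s4 : ∑ u, ∑ v, (p v i * m v i) * B.1 v u = 0 := by
      rw [Finset.sum_comm]
      exact Finset.sum_eq_zero fun v _ => by rw [← Finset.mul_sum, b3 v, mul_zero]
    rw [s1, s2, s3, s4]
    ring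
  calc ∑ u, ∑ v, B.1 u v * ∑ i, (p u i - p v i) * (m u i - m v i)
      = ∑ u, ∑ v, ∑ i, B.1 u v * ((p u i - p v i) * (m u i - m v i)) := by
        simp only [Finset.mul_sum]
    _ = ∑ i, ∑ u, ∑ v, B.1 u v * ((p u i - p v i) * (m u i - m v i)) := by
        rw [Finset.sum_congr rfl fun u _ => Finset.sum_comm]
        exact Finset.sum_comm
    _ = 0 := Finset.sum_eq_zero fun i _ => h i

theorem T2_pair (K : Cx n) (p : Fin n → Fin 5 → ℝ) (B : T2 K p)
    (m : {v // v ∈ K.verts} → Fin 5 → ℝ) : T2Phi K p B (T2R K p m) = 0 := by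
  classical
  obtain ⟨b1, b2, b3, b4⟩ := B.2
  set m' : Fin n → Fin 5 → ℝ := fun v i => if h : v ∈ K.verts then m ⟨v, h⟩ i else 0 with hm'
  set G : Fin n × Fin n → ℝ := fun x =>
    B.1 x.1 x.2 * ∑ i, (p x.1 i - p x.2 i) * (m' x.1 i - m' x.2 i) with hG
  have hGs : ∀ x, G x.swap = G x := by
    intro x
    simp only [hG, Prod.fst_swap, Prod.snd_swap]
    rw [b1 x.2 x.1]
    congr 1
    exact Finset.sum_congr rfl fun i _ => by ring
  have hGd : ∀ x : Fin n × Fin n, x.1 = x.2 → G x = 0 := by
    intro x hx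
    simp [hG, hx]
  have hGf : ∀ x : Fin n × Fin n, ({x.1, x.2} : Finset (Fin n)) ∉ K.faces → G x = 0 := by
    intro x hx
    simp [hG, b2 x.1 x.2 hx]
  have h1 : T2Phi K p B (T2R K p m) = ∑ x : T2I K, G x.1 := by
    rw [T2Phi_apply]
    refine Finset.sum_congr rfl fun x _ => ?_
    simp only [hG, T2R, LinearMap.coe_mk, AddHom.coe_mk, hm', dif_pos (T2_mem1 K x),
      dif_pos (T2_mem2 K x)]
  have h2 : ∑ x : T2I K, G x.1 = ∑ x : Fin n × Fin n, if x.1 < x.2 then G x else 0 := by
    rw [← Finset.sum_subtype (Finset.univ.filter (fun x : Fin n × Fin n =>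
      x.1 < x.2 ∧ ({x.1, x.2} : Finset (Fin n)) ∈ K.faces)) (by simp) G, Finset.sum_filter]
    refine Finset.sum_congr rfl fun x _ => ?_
    by_cases h : x.1 < x.2
    · by_cases h' : ({x.1, x.2} : Finset (Fin n)) ∈ K.faces
      · simp [h, h']
      · simp [h, h', hGf x h']
    · simp [h]
  have h3 : ∑ x : Fin n × Fin n, G x = 2 * ∑ x : Fin n × Fin n, if x.1 < x.2 then G x else 0 := by
    have h4 : ∑ x : Fin n × Fin n, (if x.2 < x.1 then G x else 0) =
        ∑ x : Fin n × Fin n, if x.1 < x.2 then G x else 0 := by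
      rw [← (Equiv.prodComm (Fin n) (Fin n)).sum_comp]
      refine Finset.sum_congr rfl fun x _ => ?_
      simp only [Equiv.prodComm_apply, hGs, Prod.fst_swap, Prod.snd_swap]
    rw [two_mul]
    nth_rewrite 2 [← h4]
    rw [← Finset.sum_add_distrib]
    refine Finset.sum_congr rfl fun x _ => ?_
    rcases lt_trichotomy x.1 x.2 with h | h | h
    · simp [h, h.not_gt]
    · simp [h, hGd x h]
    · simp [h, h.not_gt]
  have h5 : ∑ x : Fin n × Fin n, G x = 0 := by
    rw [Fintype.sum_prod_type]
    exact T2_sum_zero K p B m'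
  rw [h1, h2]
  linarith

/-- parameters of trivial motions -/
abbrev T2P : Type := ({x : Fin 5 × Fin 5 // x.1 < x.2} → ℝ) × (Fin 5 → ℝ)

/-- the skew matrix -/
def T2cf (a : T2P) (i j : Fin 5) : ℝ :=
  if h : i < j then a.1 ⟨(i, j), h⟩ else if h : j < i then -a.1 ⟨(j, i), h⟩ else 0

theorem T2cf_add (a b : T2P) (i j : Fin 5) : T2cf (a + b) i j = T2cf a i j + T2cf b i j := by
  simp only [T2cf]
  split_ifs <;> simp <;> ring

theorem T2cf_smul (c : ℝ) (a : T2P) (i j : Fin 5) : T2cf (c • a) i j = c * T2cf a i j := by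
  simp only [T2cf]
  split_ifs <;> simp

/-- trivial motions -/
def T2T (K : Cx n) (p : Fin n → Fin 5 → ℝ) : T2P →ₗ[ℝ] ({v // v ∈ K.verts} → Fin 5 → ℝ) where
  toFun a v i := ∑ j, T2cf a i j * p v.1 j + a.2 i
  map_add' a b := by
    funext v i
    simp only [T2cf_add, Pi.add_apply, Prod.snd_add, add_mul, Finset.sum_add_distrib]
    ring
  map_smul' c a := by
    funext v i
    simp only [T2cf_smul, Pi.smul_apply, Prod.smul_snd, smul_eq_mul, RingHom.id_apply,
      mul_add, Finset.mul_sum, mul_assoc]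

end T2le

/-- TARGET: a rigid placement has few stresses -/
theorem T2_le {n : ℕ} (K : Cx n) (p : Fin n → Fin 5 → ℝ) (hr : Rig K.graph K.verts p) :
    Module.finrank ℝ (T2 K p) + 5 * K.f 0 ≤ K.f 1 + 15 := by
  classical
  -- stresses
  have h1 : Module.finrank ℝ (T2 K p) ≤
      Module.finrank ℝ (LinearMap.range (T2R K p)).dualAnnihilator := by
    let f : T2 K p →ₗ[ℝ] (LinearMap.range (T2R K p)).dualAnnihilator :=
      (T2Phi K p).codRestrict _ (fun B => by
        rw [Submodule.mem_dualAnnihilator]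
        rintro _ ⟨m, rfl⟩
        exact T2_pair K p B m)
    refine LinearMap.finrank_le_finrank_of_injective (f := f) ?_
    intro B C h
    exact T2Phi_inj K p (congrArg Subtype.val h)
  have h2 := Subspace.finrank_add_finrank_dualAnnihilator_eq (LinearMap.range (T2R K p))
  have h3 : Module.finrank ℝ (T2I K → ℝ) ≤ K.f 1 := by
    rw [Module.finrank_fintype_fun_eq_card]
    exact T2_card_I K
  have h4 := LinearMap.finrank_range_add_finrank_ker (T2R K p)
  have h5 : Module.finrank ℝ ({v // v ∈ K.verts} → Fin 5 → ℝ) =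
      5 * Fintype.card {v // v ∈ K.verts} := by
    rw [Module.finrank_pi_fintype]
    simp [mul_comm]
  have h6 := T2_card_S K
  -- kernel
  have h7 : Module.finrank ℝ (LinearMap.ker (T2R K p)) ≤ 15 := by
    have hle : LinearMap.ker (T2R K p) ≤ LinearMap.range (T2T K p) := by
      intro m hm
      rw [LinearMap.mem_ker] at hm
      have hmot : IsMot K.graph K.verts p
          (fun v i => if h : v ∈ K.verts then m ⟨v, h⟩ i else 0) := by
        intro u hu v hv huv
        simp only [dif_pos hu, dif_pos hv]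
        rcases lt_or_gt_of_ne huv.1 with h | h
        · exact congrFun hm ⟨(u, v), h, huv.2⟩
        · have h8 := congrFun hm ⟨(v, u), h, by rw [Finset.pair_comm]; exact huv.2⟩
          simp only [T2R, LinearMap.coe_mk, AddHom.coe_mk, Pi.zero_apply] at h8
          rw [← h8]
          exact Finset.sum_congr rfl fun i _ => by ring
      obtain ⟨A, b, hA, hAb⟩ := hr _ hmot
      refine ⟨(fun x => A x.1.1 x.1.2, b), ?_⟩
      funext v i
      have h9 := hAb v.1 v.2 i
      simp only [dif_pos v.2] at h9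
      show ∑ j, T2cf (fun x => A x.1.1 x.1.2, b) i j * p v.1 j + b i = m v i
      rw [h9]
      congr 1
      refine Finset.sum_congr rfl fun j _ => ?_
      congr 1
      simp only [T2cf]
      split_ifs with h10 h11
      · rfl
      · rw [hA i j]
      · have : i = j := le_antisymm (not_lt.mp h11) (not_lt.mp h10)
        subst this
        have := hA i i
        linarith
    calc Module.finrank ℝ (LinearMap.ker (T2R K p)) ≤ Module.finrank ℝ (LinearMap.range (T2T K p)) :=
          Submodule.finrank_mono hle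
      _ ≤ Module.finrank ℝ T2P := LinearMap.finrank_range_le _
      _ = 15 := by
          rw [Module.finrank_prod, Module.finrank_fintype_fun_eq_card,
            Module.finrank_fintype_fun_eq_card]
          rfl
  omega

end Pool.Agent.Helper585.Wk
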