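import Pool.Agent.Helper585.Wk.Str

set_option autoImplicit false
namespace Pool.Agent.Helper585.Wk

theorem kl_indep {n : ℕ} (p : Fin n → Fin 5 → ℝ) (e : Fin 5 → Fin n) (he : Function.Injective e)
    (h : AI (Finset.univ.image e) p) : LinearIndependent ℝ (fun i => qv p (e i)) := by
  rw [Fintype.linearIndependent_iff]
  intro g hg
  have hc := h (Function.extend e g 0) ?_ ?_
  · intro i
    have := hc (e i) (Finset.mem_image_of_mem _ (Finset.mem_univ _))
    rwa [he.extend_apply] at this
  · rw [Finset.sum_image (fun a _ b _ hab => he hab)]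
    simp only [he.extend_apply]
    have := congrFun hg 5
    simpa [qv] using this
  · intro i
    rw [Finset.sum_image (fun a _ b _ hab => he hab)]
    simp only [he.extend_apply]
    have := congrFun hg i.castSucc
    simpa [qv] using this

theorem kl_basis {n : ℕ} (p : Fin n → Fin 5 → ℝ) (e : Fin 5 → Fin n) (he : Function.Injective e)
    (h : AI (Finset.univ.image e) p) : ∃ b : Fin 6 → Fin 6 → ℝ,
      (∀ i : Fin 5, b i.castSucc = qv p (e i)) ∧
      ∀ D : Fin 6 → Fin 6 → ℝ, (∀ j k, ∑ a, ∑ c, b j a * D a c * b k c = 0) → D = 0 := by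
  obtain ⟨w, hw⟩ := exists_linearIndependent_snoc_of_lt_finrank (kl_indep p e he h) (by simp)
  refine ⟨Fin.snoc (α := fun _ => Fin 6 → ℝ) (fun i => qv p (e i)) w, fun i => by simp, ?_⟩
  intro D hD
  set b : Fin 6 → Fin 6 → ℝ := Fin.snoc (α := fun _ => Fin 6 → ℝ) (fun i => qv p (e i)) w with hb
  have hB : IsUnit (Matrix.of b) := Matrix.linearIndependent_rows_iff_isUnit.1 hw
  have hBt : IsUnit (Matrix.of b).transpose := by
    rw [Matrix.isUnit_iff_isUnit_det, Matrix.det_transpose, ← Matrix.isUnit_iff_isUnit_det]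
    exact hB
  have h1 : Matrix.of b * Matrix.of D * (Matrix.of b).transpose = 0 := by
    ext j k
    rw [Matrix.mul_apply]
    simp only [Matrix.mul_apply, Matrix.transpose_apply, Finset.sum_mul, Matrix.of_apply]
    rw [Finset.sum_comm]
    exact hD j k
  have h2 : Matrix.of b * Matrix.of D = 0 := (hBt.mul_left_eq_zero).1 h1
  have h3 : Matrix.of D = 0 := (hB.mul_right_eq_zero).1 h2
  exact h3

/-- the bilinear form of a matrix -/
def klB (D : Fin 6 → Fin 6 → ℝ) (x y : Fin 6 → ℝ) : ℝ := ∑ a, ∑ c, x a * D a c * y c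

theorem klB_skew (D : Fin 6 → Fin 6 → ℝ) (h : ∀ i j, D i j = - D j i) (x y : Fin 6 → ℝ) :
    klB D x y = - klB D y x := by
  unfold klB
  rw [Finset.sum_comm, ← Finset.sum_neg_distrib]
  refine Finset.sum_congr rfl fun c _ => ?_
  rw [← Finset.sum_neg_distrib]
  refine Finset.sum_congr rfl fun a _ => ?_
  rw [h a c]
  ring

theorem klB_self (D : Fin 6 → Fin 6 → ℝ) (h : ∀ i j, D i j = - D j i) (x : Fin 6 → ℝ) :
    klB D x x = 0 := by
  have := klB_skew D h x x
  linarith

theorem klB_eq (D : Fin 6 → Fin 6 → ℝ) (x y : Fin 6 → ℝ) :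
    klB D x y = ∑ a, x a * ∑ c, D a c * y c := by
  unfold klB
  refine Finset.sum_congr rfl fun a _ => ?_
  rw [Finset.mul_sum]
  refine Finset.sum_congr rfl fun c _ => ?_
  ring

theorem klB_zero (D : Fin 6 → Fin 6 → ℝ) (x y : Fin 6 → ℝ) (h : ∀ a, ∑ c, D a c * y c = 0) :
    klB D x y = 0 := by
  rw [klB_eq]
  simp [h]

theorem kl_enum {n : ℕ} (S : Finset (Fin n)) (hS : S.card = 5) :
    ∃ e : Fin 5 → Fin n, Function.Injective e ∧ Finset.univ.image e = S :=
  ⟨S.orderEmbOfFin hS, (S.orderEmbOfFin hS).injective, S.image_orderEmbOfFin_univ hS⟩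

theorem kl_skew {n : ℕ} (p : Fin n → Fin 5 → ℝ) (S : Finset (Fin n)) (hS : S.card = 5)
    (hAI : AI S p) (D : Fin 6 → Fin 6 → ℝ) (hsk : ∀ i j, D i j = - D j i)
    (hk : ∀ u ∈ S, ∀ i, ∑ j, D i j * qv p u j = 0) : D = 0 := by
  obtain ⟨e, he, him⟩ := kl_enum S hS
  obtain ⟨b, hb, hD⟩ := kl_basis p e he (by rw [him]; exact hAI)
  apply hD
  have h1 : ∀ (i : Fin 5) (x : Fin 6 → ℝ), klB D x (b i.castSucc) = 0 := by
    intro i x
    apply klB_zero
    rw [hb]
    apply hk
    rw [← him]
    exact Finset.mem_image_of_mem _ (Finset.mem_univ _)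
  intro j k
  show klB D (b j) (b k) = 0
  refine Fin.lastCases ?_ (fun i => h1 i _) k
  refine Fin.lastCases ?_ (fun i => ?_) j
  · exact klB_self D hsk _
  · rw [klB_skew D hsk, h1, neg_zero]

theorem kl_prop {n : ℕ} (K : Cx n) (hK : Pseudo K) (p : Fin n → Fin 5 → ℝ)
    (hp : ∀ F : Finset (Fin n), F.card ≤ 6 → AI F p) (f : Fin n → Fin 6 → Fin 6 → ℝ)
    (hf : f ∈ Kos K p) (F0 : Finset (Fin n)) (hF0 : F0 ∈ K.faces) (hc0 : F0.card = 5)
    (h0 : ∀ v ∈ F0, f v = 0) : f = 0 := by
  classical
  obtain ⟨f1, f2, f3, f4⟩ := hf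
  set Z : Finset (Finset (Fin n)) := (K.faces.filter (fun F => F.card = 5)).filter
    (fun F => ∀ v ∈ F, f v = 0) with hZ
  have hmemZ : ∀ F, F ∈ Z ↔ (F ∈ K.faces ∧ F.card = 5) ∧ ∀ v ∈ F, f v = 0 := by
    intro F
    rw [hZ, Finset.mem_filter, Finset.mem_filter]
  have hZall : Z = K.faces.filter (fun F => F.card = 5) := by
    apply hK.conn Z (Finset.filter_subset _ _) ⟨F0, (hmemZ F0).2 ⟨⟨hF0, hc0⟩, h0⟩⟩
    intro t ht
    rcases (Z.filter (fun F => t ⊆ F)).eq_empty_or_nonempty with he | ⟨F, hF⟩
    · rw [he]
      simp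
    · rw [Finset.mem_filter, hmemZ] at hF
      obtain ⟨⟨⟨hFf, hFc⟩, hFv⟩, htF⟩ := hF
      have htf : t ∈ K.faces := K.down F hFf t htF
      have htwo := hK.two t htf ht
      have heq : Z.filter (fun F => t ⊆ F) = K.faces.filter (fun F => t ⊆ F ∧ F.card = 5) := by
        ext G
        rw [Finset.mem_filter, hmemZ, Finset.mem_filter]
        constructor
        · rintro ⟨⟨⟨g1, g2⟩, -⟩, g3⟩
          exact ⟨g1, g3, g2⟩
        · rintro ⟨g1, g3, g2⟩
          refine ⟨⟨⟨g1, g2⟩, ?_⟩, g3⟩
          intro v hv
          by_cases hvt : v ∈ t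
          · exact hFv v (htF hvt)
          · apply kl_skew p G g2 (hp G (by omega)) (f v) (f2 v)
            intro u hu i
            by_cases huv : u = v
            · rw [huv]
              exact f3 v i
            · have hut : u ∈ t := by
                by_contra hut
                have hsub : insert u (insert v t) ⊆ G := by
                  intro x hx
                  rw [Finset.mem_insert, Finset.mem_insert] at hx
                  rcases hx with rfl | rfl | hx
                  · exact hu
                  · exact hv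
                  · exact g3 hx
                have hcard := Finset.card_le_card hsub
                rw [Finset.card_insert_of_notMem, Finset.card_insert_of_notMem hvt] at hcard
                · omega
                · rw [Finset.mem_insert]
                  rintro (h | h)
                  · exact huv h
                  · exact hut h
              have hface : ({u, v} : Finset (Fin n)) ∈ K.faces := by
                apply K.down G g1
                intro x hx
                rw [Finset.mem_insert, Finset.mem_singleton] at hx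
                rcases hx with rfl | rfl
                · exact hu
                · exact hv
              have h4 := f4 u v huv hface i
              have hfu : f u = 0 := hFv u (htF hut)
              rw [hfu] at h4
              simpa using h4
      rw [heq, htwo]
      exact even_two
  funext v
  by_cases hv : ({v} : Finset (Fin n)) ∈ K.faces
  · obtain ⟨F, hF, hvF, hc⟩ := hK.pure _ hv
    have hFZ : F ∈ Z := by
      rw [hZall, Finset.mem_filter]
      exact ⟨hF, hc⟩
    exact ((hmemZ F).1 hFZ).2 v (hvF (Finset.mem_singleton_self v))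
  · exact f1 v hv

theorem kl_omega (O : Fin 5 → Fin 6 → Fin 6 → ℝ) (A1 : ∀ i j k, O i j k = - O i k j)
    (A2 : ∀ i j, O i j i.castSucc = 0)
    (A3 : ∀ i i' : Fin 5, i ≠ i' → ∀ j, O i j i'.castSucc = - O i' j i.castSucc)
    (h : ∀ i j k, i.castSucc < j → j < k → O i j k = 0) : ∀ i j k, O i j k = 0 := by
  have main : ∀ i j k, j < k → O i j k = 0 := by
    intro i j k hjk
    rcases lt_trichotomy i.castSucc j with h1 | h1 | h1
    · exact h i j k h1 hjk
    · rw [← h1, A1, A2, neg_zero]
    · have hj5 : j.1 < 5 := by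
        have : j.1 < i.1 := h1
        omega
      obtain ⟨j', rfl⟩ : ∃ j' : Fin 5, j = j'.castSucc := ⟨⟨j.1, hj5⟩, rfl⟩
      have hne : i ≠ j' := by
        rintro rfl
        exact absurd h1 (lt_irrefl _)
      rw [A1, A3 i j' hne, neg_neg]
      rcases lt_trichotomy i.castSucc k with h2 | h2 | h2
      · rw [A1, h j' i.castSucc k h1 h2, neg_zero]
      · rw [← h2]
        have := A1 j' i.castSucc i.castSucc
        linarith
      · exact h j' k i.castSucc hjk h2
  intro i j k
  rcases lt_trichotomy j k with h1 | h1 | h1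
  · exact main i j k h1
  · rw [h1]
    have := A1 i k k
    linarith
  · rw [A1, main i k j h1, neg_zero]

/-- TARGET: the Koszul relations have dimension at most 20 -/
theorem Kos_le {n : ℕ} (K : Cx n) (hK : Pseudo K) (p : Fin n → Fin 5 → ℝ)
    (hp : ∀ F : Finset (Fin n), F.card ≤ 6 → AI F p) :
    Module.finrank ℝ (Kos K p) ≤ 20 := by
  obtain ⟨F, hF, -, hFc⟩ := hK.pure ∅ K.empty_mem
  obtain ⟨e, he, him⟩ := kl_enum F hFc
  have hmem : ∀ i, e i ∈ F := by
    intro i
    rw [← him]
    exact Finset.mem_image_of_mem _ (Finset.mem_univ _)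
  obtain ⟨b, hb, hD⟩ := kl_basis p e he (by rw [him]; exact hp F (by omega))
  let ι : Type := {x : Fin 5 × Fin 6 × Fin 6 // x.1.castSucc < x.2.1 ∧ x.2.1 < x.2.2}
  let Φ : Kos K p →ₗ[ℝ] (ι → ℝ) :=
    { toFun := fun f x => klB (f.1 (e x.1.1)) (b x.1.2.1) (b x.1.2.2)
      map_add' := by
        intro f g
        funext x
        simp [klB, mul_add, add_mul, Finset.sum_add_distrib]
      map_smul' := by
        intro r f
        funext x
        simp only [klB, Submodule.coe_smul, Pi.smul_apply, smul_eq_mul, RingHom.id_apply,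
          Finset.mul_sum]
        refine Finset.sum_congr rfl fun a _ => Finset.sum_congr rfl fun c _ => ?_
        ring }
  have hinj : Function.Injective Φ := by
    rw [injective_iff_map_eq_zero]
    intro f hf
    obtain ⟨f1, f2, f3, f4⟩ := f.2
    have hO := kl_omega (fun i j k => klB (f.1 (e i)) (b j) (b k))
      (fun i j k => klB_skew _ (f2 (e i)) _ _)
      (fun i j => by
        apply klB_zero
        rw [hb]
        exact f3 (e i))
      (fun i i' hii j => by
        have hne : e i ≠ e i' := fun h => hii (he h)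
        have hface : ({e i, e i'} : Finset (Fin n)) ∈ K.faces := by
          apply K.down F hF
          intro x hx
          rw [Finset.mem_insert, Finset.mem_singleton] at hx
          rcases hx with rfl | rfl
          · exact hmem _
          · exact hmem _
        have h4 := f4 (e i) (e i') hne hface
        show klB _ _ _ = - klB _ _ _
        rw [klB_eq, klB_eq, hb, hb, ← Finset.sum_neg_distrib]
        refine Finset.sum_congr rfl fun a _ => ?_
        have := h4 a
        rw [← mul_neg]
        congr 1
        linarith)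
      (fun i j k h1 h2 => congrFun hf ⟨(i, j, k), h1, h2⟩)
    have hz : f.1 = 0 := by
      apply kl_prop K hK p hp f.1 f.2 F hF hFc
      intro v hv
      rw [← him] at hv
      obtain ⟨i, -, rfl⟩ := Finset.mem_image.1 hv
      exact hD _ (fun j k => hO i j k)
    exact Subtype.ext hz
  have h1 := LinearMap.finrank_le_finrank_of_injective hinj
  have h2 : Module.finrank ℝ (ι → ℝ) = 20 := by
    rw [Module.finrank_fintype_fun_eq_card]
    decide
  rw [h2] at h1
  exact h1

end Pool.Agent.Helper585.Wk
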