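import Pool.Agent.Helper585.Wk.Str

set_option autoImplicit false
namespace Pool.Agent.Helper585.Wk

theorem Lk_le_T3_qc {n : ℕ} (p : Fin n → Fin 5 → ℝ) (v : Fin n) (j : Fin 5) :
    qv p v (Fin.castSucc j) = p v j := by
  unfold qv
  rw [dif_pos (by exact j.2)]
  rfl

theorem Lk_le_T3_ql {n : ℕ} (p : Fin n → Fin 5 → ℝ) (v : Fin n) :
    qv p v (Fin.last 5) = 1 := by
  unfold qv
  rw [dif_neg (by simp)]

theorem Lk_le_T3_Y {n : ℕ} (p : Fin n → Fin 5 → ℝ)
    (hp : ∀ F : Finset (Fin n), F.card ≤ 6 → AI F p) (u v : Fin n) :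
    ∃ Y : Fin 6 → ℝ, u ≠ v → ∑ i, Y i * qv p u i = 1 ∧ ∑ i, Y i * qv p v i = 0 := by
  by_cases huv : u = v
  · exact ⟨0, fun h => absurd huv h⟩
  · obtain ⟨i, hi⟩ : ∃ i, p u i ≠ p v i := by
      by_contra hcon
      push Not at hcon
      have h1 := hp {u, v} ((Finset.card_le_two).trans (by norm_num))
        (fun w => if w = u then 1 else -1) (by
          rw [Finset.sum_pair huv, if_pos rfl, if_neg (Ne.symm huv)]; norm_num) (by
          intro i
          rw [Finset.sum_pair huv, if_pos rfl, if_neg (Ne.symm huv), hcon i]; ring)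
        u (by simp)
      simp at h1
    have hD : p u i - p v i ≠ 0 := sub_ne_zero.2 hi
    obtain ⟨D, hDe⟩ : ∃ D, D = p u i - p v i := ⟨_, rfl⟩
    rw [← hDe] at hD
    refine ⟨Fin.snoc (α := fun _ => ℝ) (Pi.single i (1 / D)) (-(p v i) / D), fun _ => ?_⟩
    have hsum : ∀ w : Fin n, ∑ j, (Fin.snoc (α := fun _ => ℝ) (Pi.single i (1 / D)) (-(p v i) / D) :
        Fin 6 → ℝ) j * qv p w j = (p w i - p v i) / D := by
      intro w
      rw [Fin.sum_univ_castSucc]
      simp only [Fin.snoc_castSucc, Fin.snoc_last, Lk_le_T3_qc, Lk_le_T3_ql]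
      rw [Finset.sum_eq_single i]
      · rw [Pi.single_eq_same]; field_simp; ring
      · intro j _ hj
        rw [Pi.single_eq_of_ne hj, zero_mul]
      · intro h; exact absurd (Finset.mem_univ i) h
    rw [hsum, hsum, ← hDe]
    exact ⟨div_self hD, by simp⟩

/-- the coefficient `c` -/
noncomputable def Lk_le_T3_c {n : ℕ} (p : Fin n → Fin 5 → ℝ) (Y : Fin n → Fin n → Fin 6 → ℝ)
    (b : Fin n → Fin n → Fin n → ℝ) (u v : Fin n) : ℝ :=
  if u = v then 0 else -∑ i, Y u v i * ∑ w, b u v w * qv p w i

/-- the extension -/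
noncomputable def Lk_le_T3_B {n : ℕ} (p : Fin n → Fin 5 → ℝ) (Y : Fin n → Fin n → Fin 6 → ℝ)
    (b : Fin n → Fin n → Fin n → ℝ) (u v w : Fin n) : ℝ :=
  if u = v then (if u = w then -∑ x, Lk_le_T3_c p Y b u x else Lk_le_T3_c p Y b u w)
  else if u = w then Lk_le_T3_c p Y b u v
  else if v = w then Lk_le_T3_c p Y b v u
  else b u v w

theorem Lk_le_T3_c_add {n : ℕ} (p : Fin n → Fin 5 → ℝ) (Y : Fin n → Fin n → Fin 6 → ℝ)
    (a b : Fin n → Fin n → Fin n → ℝ) (u v : Fin n) :
    Lk_le_T3_c p Y (a + b) u v = Lk_le_T3_c p Y a u v + Lk_le_T3_c p Y b u v := by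
  unfold Lk_le_T3_c
  split_ifs
  · simp
  · simp only [Pi.add_apply, add_mul, Finset.sum_add_distrib, mul_add]
    ring

theorem Lk_le_T3_c_smul {n : ℕ} (p : Fin n → Fin 5 → ℝ) (Y : Fin n → Fin n → Fin 6 → ℝ)
    (r : ℝ) (b : Fin n → Fin n → Fin n → ℝ) (u v : Fin n) :
    Lk_le_T3_c p Y (r • b) u v = r * Lk_le_T3_c p Y b u v := by
  unfold Lk_le_T3_c
  split_ifs
  · simp
  · simp only [Pi.smul_apply, smul_eq_mul, mul_assoc, ← Finset.mul_sum]
    rw [mul_neg, Finset.mul_sum]
    congr 1
    refine Finset.sum_congr rfl fun i _ => ?_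
    ring

theorem Lk_le_T3_B_add {n : ℕ} (p : Fin n → Fin 5 → ℝ) (Y : Fin n → Fin n → Fin 6 → ℝ)
    (a b : Fin n → Fin n → Fin n → ℝ) :
    Lk_le_T3_B p Y (a + b) = Lk_le_T3_B p Y a + Lk_le_T3_B p Y b := by
  funext u v w
  simp only [Pi.add_apply]
  unfold Lk_le_T3_B
  simp only [Lk_le_T3_c_add, Finset.sum_add_distrib]
  split_ifs
  · ring
  · rfl
  · rfl
  · rfl
  · rfl

theorem Lk_le_T3_B_smul {n : ℕ} (p : Fin n → Fin 5 → ℝ) (Y : Fin n → Fin n → Fin 6 → ℝ)
    (r : ℝ) (b : Fin n → Fin n → Fin n → ℝ) :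
    Lk_le_T3_B p Y (r • b) = r • Lk_le_T3_B p Y b := by
  funext u v w
  simp only [Pi.smul_apply, smul_eq_mul]
  unfold Lk_le_T3_B
  simp only [Lk_le_T3_c_smul, ← Finset.mul_sum]
  split_ifs
  · ring
  · rfl
  · rfl
  · rfl
  · rfl

theorem Lk_le_T3_mem {n : ℕ} (K : Cx n) (p : Fin n → Fin 5 → ℝ) (Y : Fin n → Fin n → Fin 6 → ℝ)
    (hY : ∀ u v, u ≠ v → ∑ i, Y u v i * qv p u i = 1 ∧ ∑ i, Y u v i * qv p v i = 0)
    (b : Fin n → Fin n → Fin n → ℝ)
    (b1 : ∀ u v w, b u v w = b v u w) (b2 : ∀ u v w, b u v w = b u w v)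
    (b3 : ∀ u v, b u u v = 0)
    (b4 : ∀ u v w, ({u, v, w} : Finset (Fin n)) ∉ K.faces → b u v w = 0)
    (b5 : ∀ u v, u ≠ v → ({u, v} : Finset (Fin n)) ∈ K.faces → ∀ y : Fin 6 → ℝ,
        ∑ i, y i * qv p u i = 0 → ∑ i, y i * qv p v i = 0 →
        ∑ w, b u v w * ∑ i, y i * qv p w i = 0) :
    Lk_le_T3_B p Y b ∈ T3 K p := by
  obtain ⟨c, hc⟩ : ∃ c, c = Lk_le_T3_c p Y b := ⟨_, rfl⟩
  have hcuu : ∀ u, c u u = 0 := fun u => by rw [hc]; unfold Lk_le_T3_c; rw [if_pos rfl]
  have hcuv : ∀ u v, u ≠ v → c u v = -∑ i, Y u v i * ∑ w, b u v w * qv p w i := fun u v h => by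
    rw [hc]; unfold Lk_le_T3_c; rw [if_neg h]
  have hB : ∀ u v w, Lk_le_T3_B p Y b u v w =
      if u = v then (if u = w then -∑ x, c u x else c u w)
      else if u = w then c u v
      else if v = w then c v u
      else b u v w := fun u v w => by rw [hc]; rfl
  have b6 : ∀ u v, b u v u = 0 := fun u v => by rw [b2, b3]
  have b7 : ∀ u v, b u v v = 0 := fun u v => by rw [b1, b6]
  -- non-edges
  have hnon : ∀ u v, ({u, v} : Finset (Fin n)) ∉ K.faces → ∀ w, b u v w = 0 := by
    intro u v h w
    apply b4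
    intro hf
    apply h
    refine K.down _ hf _ ?_
    intro x hx
    simp only [Finset.mem_insert, Finset.mem_singleton] at hx ⊢
    tauto
  have hcnon : ∀ u v, ({u, v} : Finset (Fin n)) ∉ K.faces → c u v = 0 := by
    intro u v h
    by_cases huv : u = v
    · rw [huv]; exact hcuu v
    · rw [hcuv u v huv]
      simp only [hnon u v h, zero_mul, Finset.sum_const_zero, mul_zero, neg_zero]
  -- the relation E
  have hE : ∀ u v k, ∑ w, b u v w * qv p w k + c u v * qv p u k + c v u * qv p v k = 0 := by
    intro u v k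
    by_cases huv : u = v
    · subst huv
      simp only [b3, hcuu, zero_mul, Finset.sum_const_zero, add_zero]
    · by_cases hf : ({u, v} : Finset (Fin n)) ∈ K.faces
      · have h1 := hY u v huv
        have h2 := hY v u (Ne.symm huv)
        have h3 := b5 u v huv hf (fun i => (if i = k then 1 else 0) - qv p u k * Y u v i -
          qv p v k * Y v u i) (by
            simp only [sub_mul, Finset.sum_sub_distrib, ite_mul, one_mul, zero_mul,
              Finset.sum_ite_eq', Finset.mem_univ, if_true, mul_assoc, ← Finset.mul_sum, h1.1, h2.2]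
            ring) (by
            simp only [sub_mul, Finset.sum_sub_distrib, ite_mul, one_mul, zero_mul,
              Finset.sum_ite_eq', Finset.mem_univ, if_true, mul_assoc, ← Finset.mul_sum, h1.2, h2.1]
            ring)
        have h4 : ∀ w, ∑ i, ((if i = k then 1 else 0) - qv p u k * Y u v i -
          qv p v k * Y v u i) * qv p w i = qv p w k - qv p u k * ∑ i, Y u v i * qv p w i -
          qv p v k * ∑ i, Y v u i * qv p w i := by
          intro w
          simp only [sub_mul, Finset.sum_sub_distrib, ite_mul, one_mul, zero_mul,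
              Finset.sum_ite_eq', Finset.mem_univ, if_true, mul_assoc, ← Finset.mul_sum]
        have h5 : c u v = -∑ w, b u v w * ∑ i, Y u v i * qv p w i := by
          rw [hcuv u v huv]
          congr 1
          simp only [Finset.mul_sum]
          rw [Finset.sum_comm]
          refine Finset.sum_congr rfl fun w _ => Finset.sum_congr rfl fun i _ => ?_
          ring
        have h6 : c v u = -∑ w, b u v w * ∑ i, Y v u i * qv p w i := by
          rw [hcuv v u (Ne.symm huv)]
          congr 1
          simp only [Finset.mul_sum]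
          rw [Finset.sum_comm]
          refine Finset.sum_congr rfl fun w _ => Finset.sum_congr rfl fun i _ => ?_
          rw [b1 v u w]
          ring
        simp only [h4, mul_sub, Finset.sum_sub_distrib] at h3
        rw [h5, h6]
        have h7 : ∑ w, b u v w * (qv p u k * ∑ i, Y u v i * qv p w i) =
            (∑ w, b u v w * ∑ i, Y u v i * qv p w i) * qv p u k := by
          rw [Finset.sum_mul]
          refine Finset.sum_congr rfl fun w _ => ?_
          ring
        have h8 : ∑ w, b u v w * (qv p v k * ∑ i, Y v u i * qv p w i) =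
            (∑ w, b u v w * ∑ i, Y v u i * qv p w i) * qv p v k := by
          rw [Finset.sum_mul]
          refine Finset.sum_congr rfl fun w _ => ?_
          ring
        rw [h7, h8] at h3
        linarith
      · have hf' : ({v, u} : Finset (Fin n)) ∉ K.faces := by rw [Finset.pair_comm]; exact hf
        rw [hcnon u v hf, hcnon v u hf']
        simp only [hnon u v hf, zero_mul, Finset.sum_const_zero, add_zero]
  -- symmetric tensor
  have hsym : ∀ u i j, qv p u i * ∑ v, c u v * qv p v j = qv p u j * ∑ v, c u v * qv p v i := by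
    intro u
    have h1 : ∀ i j, ∑ v, (∑ w, b u v w * qv p w i + c u v * qv p u i + c v u * qv p v i) * qv p v j
        = 0 := by
      intro i j
      exact Finset.sum_eq_zero fun v _ => by rw [hE, zero_mul]
    have h2 : ∀ i j, (∑ v, (∑ w, b u v w * qv p w i) * qv p v j) =
        ∑ v, (∑ w, b u v w * qv p w j) * qv p v i := by
      intro i j
      simp only [Finset.sum_mul]
      rw [Finset.sum_comm]
      refine Finset.sum_congr rfl fun w _ => Finset.sum_congr rfl fun v _ => ?_
      rw [b2 u v w]; ring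
    have h3 : ∀ i j, (∑ v, c v u * qv p v i * qv p v j) = ∑ v, c v u * qv p v j * qv p v i := by
      intro i j
      refine Finset.sum_congr rfl fun v _ => ?_
      ring
    have h4 : ∀ i j, (∑ v, c u v * qv p u i * qv p v j) = qv p u i * ∑ v, c u v * qv p v j := by
      intro i j
      rw [Finset.mul_sum]
      refine Finset.sum_congr rfl fun v _ => ?_
      ring
    intro i j
    have h5 := h1 i j
    have h6 := h1 j i
    simp only [add_mul, Finset.sum_add_distrib] at h5 h6
    rw [h4] at h5 h6
    have h7 := h2 i j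
    have h8 := h3 i j
    linarith
  -- the sum relation
  have hsum : ∀ u v k, ∑ w, Lk_le_T3_B p Y b u v w * qv p w k = 0 := by
    intro u v k
    by_cases huv : u = v
    · subst huv
      have h1 : ∀ w, Lk_le_T3_B p Y b u u w * qv p w k = c u w * qv p w k +
          (if u = w then (-∑ x, c u x) * qv p w k else 0) := by
        intro w
        rw [hB, if_pos rfl]
        by_cases huw : u = w
        · subst huw
          rw [if_pos rfl, if_pos rfl, hcuu]; ring
        · rw [if_neg huw, if_neg huw]; ring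
      simp only [h1, Finset.sum_add_distrib, Finset.sum_ite_eq, Finset.mem_univ, if_true]
      have h2 := hsym u k (Fin.last 5)
      simp only [Lk_le_T3_ql, mul_one, one_mul] at h2
      linarith
    · have h1 : ∀ w, Lk_le_T3_B p Y b u v w * qv p w k = b u v w * qv p w k +
          (if u = w then c u v * qv p w k else 0) + (if v = w then c v u * qv p w k else 0) := by
        intro w
        rw [hB, if_neg huv]
        by_cases huw : u = w
        · subst huw
          rw [if_pos rfl, if_pos rfl, if_neg (Ne.symm huv), b6]; ring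
        · rw [if_neg huw, if_neg huw]
          by_cases hvw : v = w
          · subst hvw
            rw [if_pos rfl, if_pos rfl, b7]; ring
          · rw [if_neg hvw, if_neg hvw]; ring
      simp only [h1, Finset.sum_add_distrib, Finset.sum_ite_eq, Finset.mem_univ, if_true]
      exact hE u v k
  refine ⟨fun u v w => ?_, fun u v w => ?_, fun u v w h => ?_, fun u v => ?_, fun u v i => ?_⟩
  · rw [hB, hB]
    by_cases huv : u = v
    · subst huv; rfl
    · rw [if_neg huv, if_neg (Ne.symm huv)]
      by_cases huw : u = w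
      · subst huw
        rw [if_pos rfl, if_neg (Ne.symm huv), if_pos rfl]
      · rw [if_neg huw, if_neg huw]
        by_cases hvw : v = w
        · rw [if_pos hvw, if_pos hvw]
        · rw [if_neg hvw, if_neg hvw]; exact b1 u v w
  · rw [hB, hB]
    by_cases huv : u = v
    · subst huv
      rw [if_pos rfl]
      by_cases huw : u = w
      · subst huw; simp
      · rw [if_neg huw, if_neg huw, if_pos rfl]
    · rw [if_neg huv]
      by_cases huw : u = w
      · rw [if_pos huw, if_pos huw, if_neg huv]
      · rw [if_neg huw, if_neg huw, if_neg huv]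
        by_cases hvw : v = w
        · subst hvw; rfl
        · rw [if_neg hvw, if_neg (Ne.symm hvw)]; exact b2 u v w
  · rw [hB]
    by_cases huv : u = v
    · subst huv
      rw [if_pos rfl]
      by_cases huw : u = w
      · subst huw
        rw [if_pos rfl]
        have : ∀ x, c u x = 0 := by
          intro x
          apply hcnon
          intro hf
          apply h
          refine K.down _ hf _ ?_
          intro y hy
          simp only [Finset.mem_insert, Finset.mem_singleton] at hy ⊢
          tauto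
        simp [this]
      · rw [if_neg huw]
        apply hcnon
        have : ({u, u, w} : Finset (Fin n)) = {u, w} := by simp
        rwa [this] at h
    · rw [if_neg huv]
      by_cases huw : u = w
      · subst huw
        rw [if_pos rfl]
        apply hcnon
        have : ({u, v, u} : Finset (Fin n)) = {u, v} := by
          ext x; simp only [Finset.mem_insert, Finset.mem_singleton]; tauto
        rwa [this] at h
      · rw [if_neg huw]
        by_cases hvw : v = w
        · subst hvw
          rw [if_pos rfl]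
          apply hcnon
          have : ({u, v, v} : Finset (Fin n)) = {v, u} := by
            ext x; simp only [Finset.mem_insert, Finset.mem_singleton]; tauto
          rwa [this] at h
        · rw [if_neg hvw]
          exact b4 u v w h
  · have := hsum u v (Fin.last 5)
    simpa only [Lk_le_T3_ql, mul_one] using this
  · have := hsum u v (Fin.castSucc i)
    simpa only [Lk_le_T3_qc] using this

/-- TARGET: squarefree part of 3-stresses extends to a 3-stress -/
theorem Lk_le_T3 {n : ℕ} (K : Cx n) (p : Fin n → Fin 5 → ℝ)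
    (hp : ∀ F : Finset (Fin n), F.card ≤ 6 → AI F p)
    (L : Submodule ℝ (Fin n → Fin n → Fin n → ℝ))
    (hL : ∀ b ∈ L, (∀ u v w, b u v w = b v u w) ∧ (∀ u v w, b u v w = b u w v) ∧
      (∀ u v, b u u v = 0) ∧
      (∀ u v w, ({u, v, w} : Finset (Fin n)) ∉ K.faces → b u v w = 0) ∧
      ∀ u v, u ≠ v → ({u, v} : Finset (Fin n)) ∈ K.faces → ∀ y : Fin 6 → ℝ,
        ∑ i, y i * qv p u i = 0 → ∑ i, y i * qv p v i = 0 →
        ∑ w, b u v w * ∑ i, y i * qv p w i = 0) :
    Module.finrank ℝ L ≤ Module.finrank ℝ (T3 K p) := by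
  choose Y hY using Lk_le_T3_Y p hp
  have hmem : ∀ b ∈ L, Lk_le_T3_B p Y b ∈ T3 K p := by
    intro b hb
    obtain ⟨b1, b2, b3, b4, b5⟩ := hL b hb
    exact Lk_le_T3_mem K p Y hY b b1 b2 b3 b4 b5
  obtain ⟨Ψ, hΨ⟩ : ∃ Ψ : L →ₗ[ℝ] T3 K p, ∀ b : L,
      ((Ψ b : T3 K p) : Fin n → Fin n → Fin n → ℝ) = Lk_le_T3_B p Y b := by
    refine ⟨{
      toFun := fun b => ⟨Lk_le_T3_B p Y b, hmem b.1 b.2⟩
      map_add' := ?_
      map_smul' := ?_ }, fun b => rfl⟩
    · intro a b
      apply Subtype.ext
      exact Lk_le_T3_B_add p Y a b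
    · intro r b
      apply Subtype.ext
      exact Lk_le_T3_B_smul p Y r b
  apply LinearMap.finrank_le_finrank_of_injective (f := Ψ)
  rw [← LinearMap.ker_eq_bot, LinearMap.ker_eq_bot']
  intro b hb
  have h0 : Lk_le_T3_B p Y (b : Fin n → Fin n → Fin n → ℝ) = 0 := by
    rw [← hΨ, hb]; rfl
  obtain ⟨b1, b2, b3, b4, b5⟩ := hL b.1 b.2
  have b6 : ∀ u v, b.1 u v u = 0 := fun u v => by rw [b2, b3]
  have b7 : ∀ u v, b.1 u v v = 0 := fun u v => by rw [b1, b6]
  apply Subtype.ext
  funext u v w
  show b.1 u v w = 0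
  by_cases huv : u = v
  · subst huv; exact b3 u w
  · by_cases huw : u = w
    · subst huw; exact b6 u v
    · by_cases hvw : v = w
      · subst hvw; exact b7 u v
      · have h1 : Lk_le_T3_B p Y (b : Fin n → Fin n → Fin n → ℝ) u v w = 0 := by rw [h0]; rfl
        unfold Lk_le_T3_B at h1
        rw [if_neg huv, if_neg huw, if_neg hvw] at h1
        exact h1

end Pool.Agent.Helper585.Wk
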