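import Pool.Agent.Helper585.Wk.Str

set_option autoImplicit false
namespace Pool.Agent.Helper585.Wk

/-- faces with `k` vertices -/
abbrev lkF {n : ℕ} (K : Cx n) (k : ℕ) : Finset (Finset (Fin n)) :=
  K.faces.filter (fun σ => σ.card = k)

/-- vectors orthogonal to `q v`, `v ∈ e` -/
def lkYe {n : ℕ} (p : Fin n → Fin 5 → ℝ) (e : Finset (Fin n)) : Submodule ℝ (Fin 6 → ℝ) where
  carrier := {y | ∀ v ∈ e, ∑ i, y i * qv p v i = 0}
  zero_mem' := by simp
  add_mem' := by
    intro a b ha hb v hv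
    simp only [Pi.add_apply, add_mul, Finset.sum_add_distrib, ha v hv, hb v hv, add_zero]
  smul_mem' := by
    intro c a ha v hv
    simp only [Pi.smul_apply, smul_eq_mul, mul_assoc, ← Finset.mul_sum, ha v hv, mul_zero]

theorem lk_indep {n : ℕ} (p : Fin n → Fin 5 → ℝ) (u v : Fin n) (huv : u ≠ v)
    (h : AI {u, v} p) : LinearIndependent ℝ ![qv p u, qv p v] := by
  rw [LinearIndependent.pair_iff]
  intro s t hst
  have hi : ∀ i, s * qv p u i + t * qv p v i = 0 := fun i => by
    have := congrFun hst i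
    simpa using this
  have h1 := h (fun x => if x = u then s else t) (by
    rw [Finset.sum_pair huv]
    have := hi 5
    simp only [qv] at this
    simpa [huv.symm] using this) (fun i => by
    rw [Finset.sum_pair huv]
    have := hi ⟨i.1, by omega⟩
    simp only [qv] at this
    simpa [huv.symm] using this)
  constructor
  · simpa using h1 u (by simp)
  · simpa [huv.symm] using h1 v (by simp)

theorem lk_finrank_Ye {n : ℕ} (p : Fin n → Fin 5 → ℝ) (e : Finset (Fin n)) (he : e.card = 2)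
    (h : AI e p) : Module.finrank ℝ (lkYe p e) ≤ 4 := by
  obtain ⟨u, v, huv, rfl⟩ := Finset.card_eq_two.1 he
  have hli := lk_indep p u v huv h
  have h2 : Module.finrank ℝ (Submodule.span ℝ (Set.range ![qv p u, qv p v])) = 2 := by
    rw [finrank_span_eq_card hli]; simp
  have hd : Disjoint (lkYe p {u, v}) (Submodule.span ℝ (Set.range ![qv p u, qv p v])) := by
    rw [Submodule.disjoint_def]
    intro y hy hy2
    have hy' : ∀ z ∈ Submodule.span ℝ (Set.range ![qv p u, qv p v]), ∑ i, y i * z i = 0 := by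
      intro z hz
      induction hz using Submodule.span_induction with
      | mem z hz =>
        obtain ⟨i, rfl⟩ := hz
        fin_cases i
        · exact hy u (by simp)
        · exact hy v (by simp)
      | zero => simp
      | add a b _ _ ha hb => simp only [Pi.add_apply, mul_add, Finset.sum_add_distrib, ha, hb, add_zero]
      | smul c a _ ha =>
        simp only [Pi.smul_apply, smul_eq_mul, mul_left_comm _ c, ← Finset.mul_sum, ha, mul_zero]
    have h0 := hy' y hy2
    rw [Finset.sum_eq_zero_iff_of_nonneg (fun i _ => mul_self_nonneg _)] at h0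
    funext i
    exact mul_self_eq_zero.1 (h0 i (Finset.mem_univ i))
  have h3 := Submodule.finrank_add_finrank_le_of_disjoint hd
  rw [h2] at h3
  simp at h3
  omega

/-- embedding of functions on triangles -/
def lkEmb {n : ℕ} (K : Cx n) : ((lkF K 3) → ℝ) →ₗ[ℝ] (Fin n → Fin n → Fin n → ℝ) where
  toFun b := fun u v w => if h : ({u, v, w} : Finset (Fin n)) ∈ lkF K 3 then b ⟨_, h⟩ else 0
  map_add' := by
    intro a b
    funext u v w
    by_cases h : ({u, v, w} : Finset (Fin n)) ∈ lkF K 3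
    · simp only [Pi.add_apply, dif_pos h]
    · simp only [Pi.add_apply, dif_neg h, add_zero]
  map_smul' := by
    intro c b
    funext u v w
    by_cases h : ({u, v, w} : Finset (Fin n)) ∈ lkF K 3
    · simp only [Pi.smul_apply, dif_pos h, RingHom.id_apply]
    · simp only [Pi.smul_apply, dif_neg h, smul_zero]

theorem lkEmb_apply {n : ℕ} (K : Cx n) (b : (lkF K 3) → ℝ) (u v w : Fin n) :
    lkEmb K b u v w = if h : ({u, v, w} : Finset (Fin n)) ∈ lkF K 3 then b ⟨_, h⟩ else 0 := rfl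

theorem lkEmb_congr {n : ℕ} (K : Cx n) (b : (lkF K 3) → ℝ) (u v w u' v' w' : Fin n)
    (h : ({u, v, w} : Finset (Fin n)) = {u', v', w'}) :
    lkEmb K b u v w = lkEmb K b u' v' w' := by
  rw [lkEmb_apply, lkEmb_apply]
  by_cases h1 : ({u, v, w} : Finset (Fin n)) ∈ lkF K 3
  · have h2 : ({u', v', w'} : Finset (Fin n)) ∈ lkF K 3 := h ▸ h1
    rw [dif_pos h1, dif_pos h2]
    congr 1
    exact Subtype.ext h
  · have h2 : ({u', v', w'} : Finset (Fin n)) ∉ lkF K 3 := h ▸ h1
    rw [dif_neg h1, dif_neg h2]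

theorem lkEmb_inj {n : ℕ} (K : Cx n) : Function.Injective (lkEmb K) := by
  rw [← LinearMap.ker_eq_bot, LinearMap.ker_eq_bot']
  intro b hb
  funext T
  obtain ⟨T, hT⟩ := T
  obtain ⟨u, v, w, -, -, -, rfl⟩ := Finset.card_eq_three.1 (Finset.mem_filter.1 hT).2
  have := congrFun (congrFun (congrFun hb u) v) w
  rw [lkEmb_apply, dif_pos hT] at this
  simpa using this

/-- the space of edge labels -/
abbrev lkY {n : ℕ} (K : Cx n) (p : Fin n → Fin 5 → ℝ) : Type :=
  (e : (lkF K 2)) → lkYe p e.1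

/-- the embedding of edge labels -/
def lkEmbY {n : ℕ} (K : Cx n) (p : Fin n → Fin 5 → ℝ) :
    lkY K p →ₗ[ℝ] (Fin n → Fin n → Fin 6 → ℝ) where
  toFun y := fun u v => if h : ({u, v} : Finset (Fin n)) ∈ lkF K 2 then (y ⟨_, h⟩).1 else 0
  map_add' := by
    intro a b
    funext u v
    by_cases h : ({u, v} : Finset (Fin n)) ∈ lkF K 2
    · simp only [Pi.add_apply, dif_pos h]; rfl
    · simp only [Pi.add_apply, dif_neg h, add_zero]
  map_smul' := by
    intro c b
    funext u v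
    by_cases h : ({u, v} : Finset (Fin n)) ∈ lkF K 2
    · simp only [Pi.smul_apply, dif_pos h, RingHom.id_apply]; rfl
    · simp only [Pi.smul_apply, dif_neg h, smul_zero]

theorem lkEmbY_apply {n : ℕ} (K : Cx n) (p : Fin n → Fin 5 → ℝ) (y : lkY K p) (u v : Fin n) :
    lkEmbY K p y u v = if h : ({u, v} : Finset (Fin n)) ∈ lkF K 2 then (y ⟨_, h⟩).1 else 0 := rfl

/-- the pairing -/
def lkB {n : ℕ} (K : Cx n) (p : Fin n → Fin 5 → ℝ) :
    ((lkF K 3) → ℝ) →ₗ[ℝ] lkY K p →ₗ[ℝ] ℝ :=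
  LinearMap.mk₂ ℝ (fun b y => ∑ u, ∑ v, ∑ w, lkEmb K b u v w *
    ∑ i, lkEmbY K p y u v i * qv p w i)
    (by intro a b y; simp only [map_add, Pi.add_apply, add_mul, Finset.sum_add_distrib])
    (by intro c b y
        simp only [map_smul, Pi.smul_apply, smul_eq_mul, mul_assoc, ← Finset.mul_sum])
    (by intro b x y
        simp only [map_add, Pi.add_apply, add_mul, mul_add, Finset.sum_add_distrib])
    (by intro c b y
        simp only [map_smul, Pi.smul_apply, smul_eq_mul, mul_assoc, ← Finset.mul_sum,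
          mul_left_comm _ c])

theorem lkB_apply {n : ℕ} (K : Cx n) (p : Fin n → Fin 5 → ℝ) (b : (lkF K 3) → ℝ) (y : lkY K p) :
    lkB K p b y = ∑ u, ∑ v, ∑ w, lkEmb K b u v w * ∑ i, lkEmbY K p y u v i * qv p w i := rfl

/-- vertex data -/
def lkPsi {n : ℕ} (K : Cx n) (p : Fin n → Fin 5 → ℝ) :
    Submodule ℝ (Fin n → Fin 6 → Fin 6 → ℝ) where
  carrier := {f | (∀ v, {v} ∉ K.faces → f v = 0) ∧ (∀ v i j, f v i j = - f v j i) ∧
    (∀ v i, ∑ j, f v i j * qv p v j = 0)}
  zero_mem' := by simp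
  add_mem' := by
    rintro f g ⟨a1, a2, a3⟩ ⟨b1, b2, b3⟩
    refine ⟨fun v h => ?_, fun v i j => ?_, fun v i => ?_⟩
    · simp [a1 v h, b1 v h]
    · simp only [Pi.add_apply]; linarith [a2 v i j, b2 v i j]
    · simp only [Pi.add_apply, add_mul, Finset.sum_add_distrib]; linarith [a3 v i, b3 v i]
  smul_mem' := by
    rintro c g ⟨b1, b2, b3⟩
    refine ⟨fun v h => ?_, fun v i j => ?_, fun v i => ?_⟩
    · simp [b1 v h]
    · simp only [Pi.smul_apply, smul_eq_mul]; rw [b2 v i j]; ring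
    · simp only [Pi.smul_apply, smul_eq_mul, mul_assoc, ← Finset.mul_sum, b3 v i, mul_zero]

theorem lk_skew {n : ℕ} {K : Cx n} {p : Fin n → Fin 5 → ℝ} {f : Fin n → Fin 6 → Fin 6 → ℝ}
    (hf : f ∈ lkPsi K p) (v : Fin n) (x y : Fin 6 → ℝ) :
    ∑ i, (∑ j, f v i j * x j) * y i = - ∑ i, (∑ j, f v i j * y j) * x i := by
  simp only [Finset.sum_mul]
  rw [Finset.sum_comm, ← Finset.sum_neg_distrib]
  refine Finset.sum_congr rfl fun i _ => ?_
  rw [← Finset.sum_neg_distrib]
  refine Finset.sum_congr rfl fun j _ => ?_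
  rw [hf.2.1 v j i]; ring

theorem lk_skew_self {n : ℕ} {K : Cx n} {p : Fin n → Fin 5 → ℝ} {f : Fin n → Fin 6 → Fin 6 → ℝ}
    (hf : f ∈ lkPsi K p) (v : Fin n) (x : Fin 6 → ℝ) :
    ∑ i, (∑ j, f v i j * x j) * x i = 0 := by
  have := lk_skew hf v x x
  linarith

theorem lk_mem_Ye {n : ℕ} {K : Cx n} {p : Fin n → Fin 5 → ℝ} {f : Fin n → Fin 6 → Fin 6 → ℝ}
    (hf : f ∈ lkPsi K p) (e : Finset (Fin n)) (he : e.card = 2) :
    (fun i => ∑ u ∈ e, ∑ v ∈ e, ∑ j, f u i j * qv p v j) ∈ lkYe p e := by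
  obtain ⟨u, v, huv, rfl⟩ := Finset.card_eq_two.1 he
  intro x hx
  have key : ∀ i, ∑ u' ∈ ({u, v} : Finset (Fin n)), ∑ v' ∈ ({u, v} : Finset (Fin n)),
      ∑ j, f u' i j * qv p v' j = ∑ j, f u i j * qv p v j + ∑ j, f v i j * qv p u j := by
    intro i
    rw [Finset.sum_pair huv, Finset.sum_pair huv, Finset.sum_pair huv, hf.2.2 u i, hf.2.2 v i]
    ring
  simp only [key, add_mul, Finset.sum_add_distrib]
  rcases Finset.mem_insert.1 hx with rfl | hx
  · rw [lk_skew_self hf v, lk_skew hf x (qv p v) (qv p x)]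
    simp [hf.2.2 x]
  · rw [Finset.mem_singleton] at hx
    subst hx
    rw [lk_skew_self hf u, lk_skew hf x (qv p u) (qv p x)]
    simp [hf.2.2 x]

/-- the map from vertex data to edge labels -/
def lkLam {n : ℕ} (K : Cx n) (p : Fin n → Fin 5 → ℝ) : lkPsi K p →ₗ[ℝ] lkY K p where
  toFun f := fun e => ⟨_, lk_mem_Ye f.2 e.1 (Finset.mem_filter.1 e.2).2⟩
  map_add' := by
    intro f g
    funext e
    apply Subtype.ext
    funext i
    show ∑ u ∈ e.1, ∑ v ∈ e.1, ∑ j, (f.1 u i j + g.1 u i j) * qv p v j =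
      ∑ u ∈ e.1, ∑ v ∈ e.1, ∑ j, f.1 u i j * qv p v j +
      ∑ u ∈ e.1, ∑ v ∈ e.1, ∑ j, g.1 u i j * qv p v j
    simp only [add_mul, Finset.sum_add_distrib]
  map_smul' := by
    intro c f
    funext e
    apply Subtype.ext
    funext i
    show ∑ u ∈ e.1, ∑ v ∈ e.1, ∑ j, (c * f.1 u i j) * qv p v j =
      c * ∑ u ∈ e.1, ∑ v ∈ e.1, ∑ j, f.1 u i j * qv p v j
    simp only [mul_assoc, ← Finset.mul_sum]

theorem lkLam_apply {n : ℕ} (K : Cx n) (p : Fin n → Fin 5 → ℝ) (f : lkPsi K p) (u v : Fin n)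
    (huv : u ≠ v) (h : ({u, v} : Finset (Fin n)) ∈ lkF K 2) (i : Fin 6) :
    (lkLam K p f ⟨{u, v}, h⟩).1 i = ∑ j, f.1 u i j * qv p v j + ∑ j, f.1 v i j * qv p u j := by
  show ∑ u' ∈ ({u, v} : Finset (Fin n)), ∑ v' ∈ ({u, v} : Finset (Fin n)),
      ∑ j, f.1 u' i j * qv p v' j = _
  rw [Finset.sum_pair huv, Finset.sum_pair huv, Finset.sum_pair huv, f.2.2.2 u i, f.2.2.2 v i]
  ring

/-- orthogonality -/
theorem lk_orth {n : ℕ} (K : Cx n) (p : Fin n → Fin 5 → ℝ) (f : lkPsi K p)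
    (b : (lkF K 3) → ℝ) : lkB K p b (lkLam K p f) = 0 := by
  rw [lkB_apply]
  have h1 : ∀ u v w, lkEmb K b u v w * ∑ i, lkEmbY K p (lkLam K p f) u v i * qv p w i =
      lkEmb K b u v w * (∑ i, (∑ j, f.1 u i j * qv p v j) * qv p w i +
        ∑ i, (∑ j, f.1 v i j * qv p u j) * qv p w i) := by
    intro u v w
    by_cases h : ({u, v, w} : Finset (Fin n)) ∈ lkF K 3
    · have h' := Finset.mem_filter.1 h
      have huv : u ≠ v := by
        rintro rfl
        have := h'.2
        rw [Finset.insert_eq_of_mem (by simp)] at this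
        have h2 := Finset.card_le_two (a := u) (b := w)
        omega
      have h2 : ({u, v} : Finset (Fin n)) ∈ lkF K 2 := by
        refine Finset.mem_filter.2 ⟨K.down _ h'.1 _ ?_, Finset.card_pair huv⟩
        intro x hx
        simp only [Finset.mem_insert, Finset.mem_singleton] at hx ⊢
        tauto
      congr 1
      rw [← Finset.sum_add_distrib]
      refine Finset.sum_congr rfl fun i _ => ?_
      rw [lkEmbY_apply, dif_pos h2, lkLam_apply K p f u v huv h2, add_mul]
    · rw [lkEmb_apply, dif_neg h]; simp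
  simp only [h1, mul_add, Finset.sum_add_distrib]
  have h2 : ∀ u, ∑ v, ∑ w, lkEmb K b u v w * ∑ i, (∑ j, f.1 u i j * qv p v j) * qv p w i = 0 := by
    intro u
    have h3 : ∑ v, ∑ w, lkEmb K b u v w * ∑ i, (∑ j, f.1 u i j * qv p v j) * qv p w i =
        - ∑ v, ∑ w, lkEmb K b u v w * ∑ i, (∑ j, f.1 u i j * qv p v j) * qv p w i := by
      conv_lhs => rw [Finset.sum_comm]
      rw [← Finset.sum_neg_distrib]
      refine Finset.sum_congr rfl fun v _ => ?_
      rw [← Finset.sum_neg_distrib]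
      refine Finset.sum_congr rfl fun w _ => ?_
      rw [lkEmb_congr K b u w v u v w (by rw [Finset.pair_comm]), lk_skew f.2 u (qv p w) (qv p v)]
      ring
    linarith
  have h4 : ∑ u, ∑ v, ∑ w, lkEmb K b u v w * ∑ i, (∑ j, f.1 u i j * qv p v j) * qv p w i = 0 :=
    Finset.sum_eq_zero fun u _ => h2 u
  have h5 : ∑ u, ∑ v, ∑ w, lkEmb K b u v w * ∑ i, (∑ j, f.1 v i j * qv p u j) * qv p w i = 0 := by
    rw [Finset.sum_comm, ← h4]
    refine Finset.sum_congr rfl fun v _ => Finset.sum_congr rfl fun u _ =>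
      Finset.sum_congr rfl fun w _ => ?_
    rw [lkEmb_congr K b u v w v u w (by rw [Finset.insert_comm])]
  rw [h4, h5, add_zero]

/-- pairs of coordinates -/
abbrev lkP : Type := {x : Fin 5 × Fin 5 // x.1 < x.2}

theorem lk_card_P : Fintype.card lkP = 10 := by decide

/-- the skew matrix given by its upper part -/
def lkS (g : lkP → ℝ) (i j : Fin 5) : ℝ :=
  if h : i < j then g ⟨(i, j), h⟩ else if h : j < i then - g ⟨(j, i), h⟩ else 0

theorem lkS_skew (g : lkP → ℝ) (i j : Fin 5) : lkS g i j = - lkS g j i := by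
  unfold lkS
  rcases lt_trichotomy i j with h | h | h
  · rw [dif_pos h, dif_neg (not_lt.2 h.le), dif_pos h, neg_neg]
  · subst h; simp
  · rw [dif_neg (not_lt.2 h.le), dif_pos h, dif_pos h]

theorem lkS_add (g g' : lkP → ℝ) (i j : Fin 5) : lkS (g + g') i j = lkS g i j + lkS g' i j := by
  unfold lkS
  rcases lt_trichotomy i j with h | h | h
  · simp only [dif_pos h, Pi.add_apply]
  · subst h; simp
  · simp only [dif_neg (not_lt.2 h.le), dif_pos h, Pi.add_apply]; ring

theorem lkS_smul (c : ℝ) (g : lkP → ℝ) (i j : Fin 5) : lkS (c • g) i j = c * lkS g i j := by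
  unfold lkS
  rcases lt_trichotomy i j with h | h | h
  · simp only [dif_pos h, Pi.smul_apply, smul_eq_mul]
  · subst h; simp
  · simp only [dif_neg (not_lt.2 h.le), dif_pos h, Pi.smul_apply, smul_eq_mul]; ring

/-- extension to a skew form killing `(p, 1)` -/
def lkE (p : Fin 5 → ℝ) (S : Fin 5 → Fin 5 → ℝ) (i j : Fin 6) : ℝ :=
  Fin.lastCases (motive := fun _ => ℝ)
    (Fin.lastCases (motive := fun _ => ℝ) 0 (fun j' => ∑ k, S j' k * p k) j)
    (fun i' => Fin.lastCases (motive := fun _ => ℝ) (-(∑ k, S i' k * p k)) (fun j' => S i' j') j) i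

theorem lkE_cc (p : Fin 5 → ℝ) (S : Fin 5 → Fin 5 → ℝ) (i j : Fin 5) :
    lkE p S i.castSucc j.castSucc = S i j := by
  simp only [lkE, Fin.lastCases_castSucc]

theorem lkE_cl (p : Fin 5 → ℝ) (S : Fin 5 → Fin 5 → ℝ) (i : Fin 5) :
    lkE p S i.castSucc (Fin.last 5) = -(∑ k, S i k * p k) := by
  simp only [lkE, Fin.lastCases_castSucc, Fin.lastCases_last]

theorem lkE_lc (p : Fin 5 → ℝ) (S : Fin 5 → Fin 5 → ℝ) (j : Fin 5) :
    lkE p S (Fin.last 5) j.castSucc = ∑ k, S j k * p k := by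
  simp only [lkE, Fin.lastCases_castSucc, Fin.lastCases_last]

theorem lkE_ll (p : Fin 5 → ℝ) (S : Fin 5 → Fin 5 → ℝ) :
    lkE p S (Fin.last 5) (Fin.last 5) = 0 := by
  simp only [lkE, Fin.lastCases_last]

theorem lkE_skew (p : Fin 5 → ℝ) (S : Fin 5 → Fin 5 → ℝ) (hS : ∀ i j, S i j = - S j i)
    (i j : Fin 6) : lkE p S i j = - lkE p S j i := by
  refine Fin.lastCases ?_ (fun i' => ?_) i
  · refine Fin.lastCases ?_ (fun j' => ?_) j
    · rw [lkE_ll]; simp
    · rw [lkE_lc, lkE_cl]; simp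
  · refine Fin.lastCases ?_ (fun j' => ?_) j
    · rw [lkE_lc, lkE_cl]
    · rw [lkE_cc, lkE_cc]; exact hS _ _

theorem lk_qv_c {n : ℕ} (p : Fin n → Fin 5 → ℝ) (v : Fin n) (i : Fin 5) :
    qv p v i.castSucc = p v i := by
  simp [qv]

theorem lk_qv_l {n : ℕ} (p : Fin n → Fin 5 → ℝ) (v : Fin n) :
    qv p v (Fin.last 5) = 1 := by
  simp [qv]

theorem lkE_qv {n : ℕ} (p : Fin n → Fin 5 → ℝ) (v : Fin n) (S : Fin 5 → Fin 5 → ℝ)
    (hS : ∀ i j, S i j = - S j i) (i : Fin 6) : ∑ j, lkE (p v) S i j * qv p v j = 0 := by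
  rw [Fin.sum_univ_castSucc, lk_qv_l]
  simp only [lk_qv_c]
  refine Fin.lastCases ?_ (fun i' => ?_) i
  · simp only [lkE_lc, lkE_ll, zero_mul, add_zero]
    have h : ∑ j, (∑ k, S j k * p v k) * p v j = - ∑ j, (∑ k, S j k * p v k) * p v j := by
      conv_lhs => simp only [Finset.sum_mul]; rw [Finset.sum_comm]
      rw [← Finset.sum_neg_distrib]
      refine Finset.sum_congr rfl fun k _ => ?_
      rw [Finset.sum_mul, ← Finset.sum_neg_distrib]
      refine Finset.sum_congr rfl fun j _ => ?_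
      rw [hS j k]; ring
    linarith
  · simp only [lkE_cc, lkE_cl, mul_one]
    ring

theorem lkE_add (p : Fin 5 → ℝ) (S S' : Fin 5 → Fin 5 → ℝ) (i j : Fin 6) :
    lkE p (fun a b => S a b + S' a b) i j = lkE p S i j + lkE p S' i j := by
  refine Fin.lastCases ?_ (fun i' => ?_) i
  · refine Fin.lastCases ?_ (fun j' => ?_) j
    · simp only [lkE_ll, add_zero]
    · simp only [lkE_lc, add_mul, Finset.sum_add_distrib]
  · refine Fin.lastCases ?_ (fun j' => ?_) j
    · simp only [lkE_cl, add_mul, Finset.sum_add_distrib]; ring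
    · simp only [lkE_cc]

theorem lkE_smul (p : Fin 5 → ℝ) (c : ℝ) (S : Fin 5 → Fin 5 → ℝ) (i j : Fin 6) :
    lkE p (fun a b => c * S a b) i j = c * lkE p S i j := by
  refine Fin.lastCases ?_ (fun i' => ?_) i
  · refine Fin.lastCases ?_ (fun j' => ?_) j
    · simp only [lkE_ll, mul_zero]
    · simp only [lkE_lc, mul_assoc, Finset.mul_sum]
  · refine Fin.lastCases ?_ (fun j' => ?_) j
    · simp only [lkE_cl, mul_assoc, ← Finset.mul_sum]; ring
    · simp only [lkE_cc]

theorem lk_sing {n : ℕ} (K : Cx n) (v : Fin n) :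
    ({v} : Finset (Fin n)) ∈ lkF K 1 ↔ {v} ∈ K.faces := by
  simp [lkF]

/-- parametrization of vertex data -/
def lkG {n : ℕ} (K : Cx n) (p : Fin n → Fin 5 → ℝ) :
    ((lkF K 1) → lkP → ℝ) →ₗ[ℝ] lkPsi K p where
  toFun g := ⟨fun v => if h : ({v} : Finset (Fin n)) ∈ lkF K 1 then
      lkE (p v) (fun a b => lkS (g ⟨_, h⟩) a b) else 0, by
    refine ⟨fun v hv => ?_, fun v i j => ?_, fun v i => ?_⟩
    · exact dif_neg (by rwa [lk_sing])
    · by_cases h : ({v} : Finset (Fin n)) ∈ lkF K 1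
      · simp only [dif_pos h]
        exact lkE_skew _ _ (lkS_skew _) i j
      · simp only [dif_neg h]; simp
    · by_cases h : ({v} : Finset (Fin n)) ∈ lkF K 1
      · simp only [dif_pos h]
        exact lkE_qv p v _ (lkS_skew _) i
      · simp only [dif_neg h]; simp⟩
  map_add' := by
    intro g g'
    apply Subtype.ext
    funext v i j
    show (if h : ({v} : Finset (Fin n)) ∈ lkF K 1 then
      lkE (p v) (fun a b => lkS (g ⟨_, h⟩ + g' ⟨_, h⟩) a b) else 0) i j =
      (if h : ({v} : Finset (Fin n)) ∈ lkF K 1 then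
        lkE (p v) (fun a b => lkS (g ⟨_, h⟩) a b) else 0) i j +
      (if h : ({v} : Finset (Fin n)) ∈ lkF K 1 then
        lkE (p v) (fun a b => lkS (g' ⟨_, h⟩) a b) else 0) i j
    by_cases h : ({v} : Finset (Fin n)) ∈ lkF K 1
    · simp only [dif_pos h, lkS_add]
      exact lkE_add _ _ _ _ _
    · simp only [dif_neg h]; simp
  map_smul' := by
    intro c g
    apply Subtype.ext
    funext v i j
    show (if h : ({v} : Finset (Fin n)) ∈ lkF K 1 then
      lkE (p v) (fun a b => lkS (c • g ⟨_, h⟩) a b) else 0) i j = c *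
      (if h : ({v} : Finset (Fin n)) ∈ lkF K 1 then
        lkE (p v) (fun a b => lkS (g ⟨_, h⟩) a b) else 0) i j
    by_cases h : ({v} : Finset (Fin n)) ∈ lkF K 1
    · simp only [dif_pos h, lkS_smul]
      exact lkE_smul _ _ _ _ _
    · simp only [dif_neg h]; simp

theorem lkG_apply {n : ℕ} (K : Cx n) (p : Fin n → Fin 5 → ℝ) (g : (lkF K 1) → lkP → ℝ)
    (v : Fin n) (h : ({v} : Finset (Fin n)) ∈ lkF K 1) :
    (lkG K p g).1 v = lkE (p v) (fun a b => lkS (g ⟨_, h⟩) a b) := by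
  show (if h : ({v} : Finset (Fin n)) ∈ lkF K 1 then
      lkE (p v) (fun a b => lkS (g ⟨_, h⟩) a b) else 0) = _
  rw [dif_pos h]

theorem lkG_inj {n : ℕ} (K : Cx n) (p : Fin n → Fin 5 → ℝ) : Function.Injective (lkG K p) := by
  rw [← LinearMap.ker_eq_bot, LinearMap.ker_eq_bot']
  intro g hg
  funext V x
  obtain ⟨V, hV⟩ := V
  obtain ⟨v, rfl⟩ := Finset.card_eq_one.1 (Finset.mem_filter.1 hV).2
  have h1 := lkG_apply K p g v hV
  rw [hg] at h1
  have h2 := congrFun (congrFun h1 x.1.1.castSucc) x.1.2.castSucc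
  rw [lkE_cc] at h2
  simp only [lkS, dif_pos x.2] at h2
  simpa using h2.symm

theorem lk_finrank_Psi {n : ℕ} (K : Cx n) (p : Fin n → Fin 5 → ℝ) :
    10 * K.f 0 ≤ Module.finrank ℝ (lkPsi K p) := by
  have h := LinearMap.finrank_le_finrank_of_injective (lkG_inj K p)
  have h2 : Module.finrank ℝ ((lkF K 1) → lkP → ℝ) = 10 * K.f 0 := by
    rw [Module.finrank_pi_fintype]
    simp only [Module.finrank_fintype_fun_eq_card, lk_card_P, Finset.sum_const, Finset.card_univ,
      Fintype.card_coe, smul_eq_mul]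
    rw [mul_comm]
    rfl
  rw [← h2]
  exact h

theorem lk_finrank_ker {n : ℕ} (K : Cx n) (p : Fin n → Fin 5 → ℝ) :
    Module.finrank ℝ (LinearMap.ker (lkLam K p)) ≤ Module.finrank ℝ (Kos K p) := by
  have h1 : (LinearMap.ker (lkLam K p)).map (lkPsi K p).subtype ≤ Kos K p := by
    rintro _ ⟨f, hf, rfl⟩
    refine ⟨f.2.1, f.2.2.1, f.2.2.2, ?_⟩
    intro u v huv h i
    have h2 : ({u, v} : Finset (Fin n)) ∈ lkF K 2 :=
      Finset.mem_filter.2 ⟨h, Finset.card_pair huv⟩
    have h3 := lkLam_apply K p f u v huv h2 i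
    rw [LinearMap.mem_ker.1 hf] at h3
    simpa using h3.symm
  have h2 := Submodule.finrank_mono h1
  have h3 := LinearEquiv.finrank_eq (Submodule.equivMapOfInjective (lkPsi K p).subtype
    Subtype.val_injective (LinearMap.ker (lkLam K p)))
  omega

theorem lk_finrank_Y {n : ℕ} (K : Cx n) (p : Fin n → Fin 5 → ℝ)
    (hp : ∀ F : Finset (Fin n), F.card ≤ 6 → AI F p) :
    Module.finrank ℝ (lkY K p) ≤ 4 * K.f 1 := by
  have h1 : Module.finrank ℝ (lkY K p) = ∑ e : (lkF K 2), Module.finrank ℝ (lkYe p e.1) :=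
    Module.finrank_pi_fintype ℝ
  rw [h1]
  calc ∑ e : (lkF K 2), Module.finrank ℝ (lkYe p e.1) ≤ ∑ e : (lkF K 2), 4 := by
        refine Finset.sum_le_sum fun e _ => ?_
        have he := (Finset.mem_filter.1 e.2).2
        exact lk_finrank_Ye p e.1 he (hp _ (by omega))
    _ = 4 * K.f 1 := by
        simp only [Finset.sum_const, Finset.card_univ, Fintype.card_coe, smul_eq_mul]
        rw [mul_comm]
        rfl

theorem lk_cond {n : ℕ} (K : Cx n) (p : Fin n → Fin 5 → ℝ) (b : (lkF K 3) → ℝ)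
    (hb : b ∈ LinearMap.ker (lkB K p)) (u v : Fin n) (huv : u ≠ v)
    (h : ({u, v} : Finset (Fin n)) ∈ K.faces) (y : Fin 6 → ℝ)
    (h1 : ∑ i, y i * qv p u i = 0) (h2 : ∑ i, y i * qv p v i = 0) :
    ∑ w, lkEmb K b u v w * ∑ i, y i * qv p w i = 0 := by
  classical
  have he : ({u, v} : Finset (Fin n)) ∈ lkF K 2 := Finset.mem_filter.2 ⟨h, Finset.card_pair huv⟩
  have hy : y ∈ lkYe p {u, v} := by
    intro x hx
    rcases Finset.mem_insert.1 hx with rfl | hx
    · exact h1
    · rw [Finset.mem_singleton] at hx; subst hx; exact h2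
  have h0 := LinearMap.congr_fun (LinearMap.mem_ker.1 hb)
    (Pi.single (⟨{u, v}, he⟩ : (lkF K 2)) (⟨y, hy⟩ : lkYe p {u, v}))
  rw [lkB_apply, LinearMap.zero_apply] at h0
  have hval : ∀ a c, lkEmbY K p (Pi.single (⟨{u, v}, he⟩ : (lkF K 2))
      (⟨y, hy⟩ : lkYe p {u, v})) a c = if ({a, c} : Finset (Fin n)) = {u, v} then y else 0 := by
    intro a c
    rw [lkEmbY_apply]
    by_cases hac : ({a, c} : Finset (Fin n)) = {u, v}
    · rw [if_pos hac]
      have : ({a, c} : Finset (Fin n)) ∈ lkF K 2 := hac ▸ he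
      rw [dif_pos this]
      have h5 : (⟨{a, c}, this⟩ : (lkF K 2)) = ⟨{u, v}, he⟩ := Subtype.ext hac
      have key : ∀ e : (lkF K 2), e = ⟨{u, v}, he⟩ →
          ((Pi.single (⟨{u, v}, he⟩ : (lkF K 2)) (⟨y, hy⟩ : lkYe p {u, v}) : lkY K p) e).1 = y := by
        rintro e rfl
        rw [Pi.single_eq_same]
      exact key _ h5
    · rw [if_neg hac]
      by_cases h4 : ({a, c} : Finset (Fin n)) ∈ lkF K 2
      · rw [dif_pos h4, Pi.single_eq_of_ne]
        · rfl
        · intro h5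
          exact hac (congrArg Subtype.val h5)
      · rw [dif_neg h4]
  simp only [hval] at h0
  have hterm : ∀ a c, ∑ w, lkEmb K b a c w * ∑ i, (if ({a, c} : Finset (Fin n)) = {u, v} then y
      else 0) i * qv p w i = (if ({a, c} : Finset (Fin n)) = {u, v} then
        ∑ w, lkEmb K b u v w * ∑ i, y i * qv p w i else 0) := by
    intro a c
    by_cases hac : ({a, c} : Finset (Fin n)) = {u, v}
    · rw [if_pos hac, if_pos hac]
      refine Finset.sum_congr rfl fun w _ => ?_
      rw [lkEmb_congr K b a c w u v w]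
      have : ({a, c, w} : Finset (Fin n)) = insert w {a, c} := by
        ext x; simp only [Finset.mem_insert, Finset.mem_singleton]; tauto
      rw [this, hac]
      ext x; simp only [Finset.mem_insert, Finset.mem_singleton]; tauto
    · rw [if_neg hac, if_neg hac]
      simp
  simp only [hterm] at h0
  set s := ∑ w, lkEmb K b u v w * ∑ i, y i * qv p w i with hs
  have hcount : ∀ a c, (if ({a, c} : Finset (Fin n)) = {u, v} then s else 0) =
      (if a = u ∧ c = v then s else 0) + (if a = v ∧ c = u then s else 0) := by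
    intro a c
    by_cases h6 : a = u ∧ c = v
    · obtain ⟨rfl, rfl⟩ := h6
      rw [if_pos rfl, if_pos ⟨rfl, rfl⟩, if_neg (by rintro ⟨rfl, -⟩; exact huv rfl), add_zero]
    · by_cases h7 : a = v ∧ c = u
      · obtain ⟨rfl, rfl⟩ := h7
        rw [if_pos (Finset.pair_comm _ _), if_neg h6, if_pos ⟨rfl, rfl⟩, zero_add]
      · rw [if_neg h6, if_neg h7, if_neg, add_zero]
        intro h8
        have ha : a ∈ ({u, v} : Finset (Fin n)) := h8 ▸ (by simp)
        have hc : c ∈ ({u, v} : Finset (Fin n)) := h8 ▸ (by simp)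
        have hu : u ∈ ({a, c} : Finset (Fin n)) := h8 ▸ (by simp)
        have hv : v ∈ ({a, c} : Finset (Fin n)) := h8 ▸ (by simp)
        simp only [Finset.mem_insert, Finset.mem_singleton] at ha hc hu hv
        rcases ha with rfl | rfl
        · rcases hv with rfl | rfl
          · exact huv rfl
          · exact h6 ⟨rfl, rfl⟩
        · rcases hu with rfl | rfl
          · exact huv rfl
          · exact h7 ⟨rfl, rfl⟩
  simp only [hcount, Finset.sum_add_distrib, ite_and, Finset.sum_ite_eq', Finset.mem_univ,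
    if_true, Finset.sum_ite_irrel, Finset.sum_const_zero] at h0
  linarith

/-- TARGET: lower bound for the dimension of the squarefree part of the 3-stresses -/
theorem exists_Lk {n : ℕ} (K : Cx n) (p : Fin n → Fin 5 → ℝ)
    (hp : ∀ F : Finset (Fin n), F.card ≤ 6 → AI F p) :
    ∃ L : Submodule ℝ (Fin n → Fin n → Fin n → ℝ),
    (∀ b ∈ L, (∀ u v w, b u v w = b v u w) ∧ (∀ u v w, b u v w = b u w v) ∧
      (∀ u v, b u u v = 0) ∧
      (∀ u v w, ({u, v, w} : Finset (Fin n)) ∉ K.faces → b u v w = 0) ∧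
      ∀ u v, u ≠ v → ({u, v} : Finset (Fin n)) ∈ K.faces → ∀ y : Fin 6 → ℝ,
        ∑ i, y i * qv p u i = 0 → ∑ i, y i * qv p v i = 0 →
        ∑ w, b u v w * ∑ i, y i * qv p w i = 0) ∧
    K.f 2 + 10 * K.f 0 ≤ Module.finrank ℝ L + Module.finrank ℝ (Kos K p) + 4 * K.f 1 := by
  refine ⟨(LinearMap.ker (lkB K p)).map (lkEmb K), ?_, ?_⟩
  · rintro _ ⟨b, hb, rfl⟩
    refine ⟨fun u v w => lkEmb_congr K b _ _ _ _ _ _ (by rw [Finset.insert_comm]),
      fun u v w => lkEmb_congr K b _ _ _ _ _ _ (by rw [Finset.pair_comm]), fun u v => ?_,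
      fun u v w h => ?_, fun u v huv h y h1 h2 => lk_cond K p b hb u v huv h y h1 h2⟩
    · rw [lkEmb_apply, dif_neg]
      intro h
      have h2 := (Finset.mem_filter.1 h).2
      rw [Finset.insert_eq_of_mem (by simp)] at h2
      have h3 := Finset.card_le_two (a := u) (b := v)
      omega
    · rw [lkEmb_apply, dif_neg]
      intro h2
      exact h (Finset.mem_filter.1 h2).1
  · have h1 := LinearEquiv.finrank_eq (Submodule.equivMapOfInjective (lkEmb K)
      (lkEmb_inj K) (LinearMap.ker (lkB K p)))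
    have h2 := LinearMap.finrank_range_add_finrank_ker (lkB K p)
    have h3 : Module.finrank ℝ ((lkF K 3) → ℝ) = K.f 2 := by
      rw [Module.finrank_fintype_fun_eq_card, Fintype.card_coe]; rfl
    have h4 := LinearMap.finrank_range_add_finrank_ker (lkLam K p)
    have h5 := lk_finrank_Psi K p
    have h6 := lk_finrank_ker K p
    have h7 := lk_finrank_Y K p hp
    have h8 : LinearMap.range (lkB K p) ≤ (LinearMap.range (lkLam K p)).dualAnnihilator := by
      rintro _ ⟨b, rfl⟩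
      rw [Submodule.mem_dualAnnihilator]
      rintro _ ⟨f, rfl⟩
      exact lk_orth K p f b
    have h9 : Module.finrank ℝ (LinearMap.range (lkB K p)) ≤
        Module.finrank ℝ ((LinearMap.range (lkLam K p)).dualAnnihilator) :=
      Submodule.finrank_mono h8
    have h10 := Subspace.finrank_add_finrank_dualAnnihilator_eq (LinearMap.range (lkLam K p))
    rw [← h1]
    rw [h3] at h2
    have h11 : Module.finrank ℝ (LinearMap.range (lkLam K p)) +
        Module.finrank ℝ (LinearMap.range (lkB K p)) ≤ Module.finrank ℝ (lkY K p) := by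
      rw [← h10]
      exact Nat.add_le_add_left h9 _
    omega

end Pool.Agent.Helper585.Wk
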