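import Mathlib

set_option autoImplicit false

def G10817 : ℕ → ℕ
  | 0 => 0
  | 1 => 1
  | (w + 2) => (w + 2) + G10817 w

theorem G10817_mono : Monotone G10817 := by
  refine monotone_nat_of_le_succ fun n => ?_
  induction n using Nat.twoStepInduction with
  | zero => simp [G10817]
  | one => simp [G10817]
  | more n ih _ =>
    simp only [G10817] at *
    omega

theorem rn_10817 {V V' : Type*} [AddCommGroup V] [Module ℝ V] [AddCommGroup V'] [Module ℝ V']
    [FiniteDimensional ℝ V] (f : V →ₗ[ℝ] V') (p : Submodule ℝ V) :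
    Module.finrank ℝ (p.map f) + Module.finrank ℝ (p ⊓ LinearMap.ker f : Submodule ℝ V) =
      Module.finrank ℝ p := by
  have h1 := LinearMap.finrank_range_add_finrank_ker (f.domRestrict p)
  rw [LinearMap.range_domRestrict, LinearMap.ker_domRestrict] at h1
  have h2 : Module.finrank ℝ (p ⊓ LinearMap.ker f : Submodule ℝ V) =
      Module.finrank ℝ (Submodule.comap p.subtype (LinearMap.ker f)) := by
    rw [← Submodule.map_comap_subtype]
    exact Submodule.finrank_map_subtype_eq _ _
  rw [h2]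
  exact h1

/-- evaluation -/
def ev_10817 {n : ℕ} (l : Fin n → ℝ) : (Fin n → Fin n → ℝ) →ₗ[ℝ] (Fin n → ℝ) where
  toFun B u := ∑ v, B u v * l v
  map_add' B B' := by
    funext u
    simp [add_mul, Finset.sum_add_distrib]
  map_smul' c B := by
    funext u
    simp [Finset.mul_sum, mul_assoc]

/-- contraction -/
def con_10817 {n : ℕ} (l : Fin n → ℝ) :
    (Fin n → Fin n → Fin n → ℝ) →ₗ[ℝ] (Fin n → Fin n → ℝ) where
  toFun τ := ∑ u, l u • τ u
  map_add' τ τ' := by
    simp [Finset.sum_add_distrib]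
  map_smul' c τ := by
    simp only [Pi.smul_apply, RingHom.id_apply, Finset.smul_sum]
    refine Finset.sum_congr rfl fun u _ => ?_
    rw [smul_comm]

theorem dep_10817 {n : ℕ} (W : Submodule ℝ (Fin n → Fin n → ℝ)) (l : Fin n → ℝ)
    (h : Module.finrank ℝ (W.map (ev_10817 l)) ≤ 1) {B B' : Fin n → Fin n → ℝ} (hB : B ∈ W)
    (hB' : B' ∈ W) (i j : Fin n) :
    (∑ v, B i v * l v) * (∑ v, B' j v * l v) = (∑ v, B j v * l v) * (∑ v, B' i v * l v) := by
  obtain ⟨v, hv⟩ := finrank_le_one_iff.1 h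
  obtain ⟨c, hc⟩ := hv ⟨ev_10817 l B, Submodule.mem_map_of_mem hB⟩
  obtain ⟨c', hc'⟩ := hv ⟨ev_10817 l B', Submodule.mem_map_of_mem hB'⟩
  have h1 : ∀ i, (∑ v, B i v * l v) = c * (v : Fin n → ℝ) i := by
    intro i
    have := congrFun (congrArg Subtype.val hc) i
    exact this.symm
  have h2 : ∀ i, (∑ v, B' i v * l v) = c' * (v : Fin n → ℝ) i := by
    intro i
    have := congrFun (congrArg Subtype.val hc') i
    exact this.symm
  rw [h1, h1, h2, h2]
  ring

/-- a symmetric matrix all of whose values are multiples of `a` -/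
theorem sym_rank_one_10817 {n : ℕ} {B : Fin n → Fin n → ℝ} (hs : ∀ u v, B u v = B v u)
    {a : Fin n → ℝ} {j0 : Fin n} (ha : a j0 ≠ 0)
    (h : ∀ m : Fin n → ℝ, ∀ i j, (∑ v, B i v * m v) * a j = (∑ v, B j v * m v) * a i) :
    ∃ κ : ℝ, ∀ i j, B i j = κ * a i * a j := by
  have h1 : ∀ i j k, B i k * a j = B j k * a i := by
    intro i j k
    have := h (Pi.single k 1) i j
    simpa [Pi.single_apply] using this
  refine ⟨B j0 j0 / (a j0 * a j0), fun i j => ?_⟩
  have h2 : B i j = B j0 j * a i / a j0 := by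
    have := h1 i j0 j
    field_simp
    linarith
  have h3 : B j0 j = B j0 j0 * a j / a j0 := by
    have := h1 j j0 j0
    rw [hs j0 j]
    field_simp
    linarith
  rw [h2, h3]
  field_simp

theorem exists_rank_two_10817 {n : ℕ} (W : Submodule ℝ (Fin n → Fin n → ℝ))
    (hW : ∀ B ∈ W, ∀ u v, B u v = B v u) (h2 : 2 ≤ Module.finrank ℝ W) :
    ∃ l : Fin n → ℝ, 2 ≤ Module.finrank ℝ (W.map (ev_10817 l)) := by
  by_contra hcon
  push Not at hcon
  have hle : ∀ l, Module.finrank ℝ (W.map (ev_10817 l)) ≤ 1 := fun l => by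
    have := hcon l
    omega
  have hne : W ≠ ⊥ := by
    rintro rfl
    rw [finrank_bot] at h2
    omega
  obtain ⟨B1, hB1, hB10⟩ := Submodule.exists_mem_ne_zero_of_ne_bot hne
  obtain ⟨i0, j0, hij⟩ : ∃ i j, B1 i j ≠ 0 := by
    by_contra hall
    push Not at hall
    exact hB10 (funext fun i => funext fun j => hall i j)
  obtain ⟨l0, hl0⟩ : ∃ l0 : Fin n → ℝ, l0 = Pi.single j0 1 := ⟨_, rfl⟩
  obtain ⟨a, ha⟩ : ∃ a : Fin n → ℝ, a = fun u => ∑ v, B1 u v * l0 v := ⟨_, rfl⟩
  have hai : a i0 ≠ 0 := by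
    rw [ha, hl0]
    simpa [Pi.single_apply] using hij
  -- an element of the kernel
  have hrn := rn_10817 (ev_10817 l0) W
  have hker : (W ⊓ LinearMap.ker (ev_10817 l0) : Submodule ℝ _) ≠ ⊥ := by
    intro h0
    rw [h0, finrank_bot] at hrn
    have := hle l0
    omega
  obtain ⟨B, ⟨hBW, hBk⟩, hB0⟩ := Submodule.exists_mem_ne_zero_of_ne_bot hker
  have hBl : ∀ i, ∑ v, B i v * l0 v = 0 := fun i => congrFun (LinearMap.mem_ker.1 hBk) i
  have hpar : ∀ m : Fin n → ℝ, ∀ i j, (∑ v, B i v * m v) * a j = (∑ v, B j v * m v) * a i := by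
    intro m i j
    have e1 := dep_10817 W (fun v => l0 v + m v) (hle _) hBW hB1 i j
    have e2 := dep_10817 W (fun v => l0 v - m v) (hle _) hBW hB1 i j
    simp only [mul_add, mul_sub, Finset.sum_add_distrib, Finset.sum_sub_distrib, hBl] at e1 e2
    have ha' : ∀ u, ∑ v, B1 u v * l0 v = a u := fun u => by rw [ha]
    rw [ha', ha'] at e1 e2
    linarith
  obtain ⟨κ, hκ⟩ := sym_rank_one_10817 (hW B hBW) hai hpar
  have hκ0 : κ ≠ 0 := by
    rintro rfl
    apply hB0
    funext i j
    rw [hκ]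
    simp
  have hdot : ∀ m : Fin n → ℝ, ∀ i, ∑ v, B i v * m v = κ * a i * ∑ v, a v * m v := by
    intro m i
    rw [Finset.mul_sum]
    refine Finset.sum_congr rfl fun v _ => ?_
    rw [hκ]
    ring
  have hal0 : ∑ v, a v * l0 v = 0 := by
    have h1 := hBl i0
    rw [hdot] at h1
    rcases mul_eq_zero.1 h1 with h3 | h3
    · rcases mul_eq_zero.1 h3 with h4 | h4
      · exact absurd h4 hκ0
      · exact absurd h4 hai
    · exact h3
  have hpar1 : ∀ m : Fin n → ℝ, (∑ v, a v * m v) ≠ 0 → ∀ i j,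
      (∑ v, B1 i v * m v) * a j = (∑ v, B1 j v * m v) * a i := by
    intro m hm i j
    have e1 := dep_10817 W m (hle _) hBW hB1 i j
    rw [hdot, hdot] at e1
    have hne : κ * ∑ v, a v * m v ≠ 0 := mul_ne_zero hκ0 hm
    apply mul_left_cancel₀ hne
    linarith
  have haa : 0 < ∑ v, a v * a v := by
    refine Finset.sum_pos' (fun v _ => mul_self_nonneg _) ⟨i0, Finset.mem_univ _, ?_⟩
    exact mul_self_pos.2 hai
  have hpar2 : ∀ m : Fin n → ℝ, ∀ i j,
      (∑ v, B1 i v * m v) * a j = (∑ v, B1 j v * m v) * a i := by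
    intro m i j
    by_cases hm : ∑ v, a v * m v = 0
    · have e1 := hpar1 (fun v => m v + a v) (by
        simp only [mul_add, Finset.sum_add_distrib, hm, zero_add]
        exact haa.ne') i j
      have e2 := hpar1 a haa.ne' i j
      simp only [mul_add, Finset.sum_add_distrib] at e1
      linarith
    · exact hpar1 m hm i j
  obtain ⟨κ1, hκ1⟩ := sym_rank_one_10817 (hW B1 hB1) hai hpar2
  apply hai
  rw [ha]
  simp only
  have : ∑ v, B1 i0 v * l0 v = κ1 * a i0 * ∑ v, a v * l0 v := by
    rw [Finset.mul_sum]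
    refine Finset.sum_congr rfl fun v _ => ?_
    rw [hκ1]
    ring
  rw [this, hal0, mul_zero]

theorem growth_aux_10817 {n : ℕ} (w : ℕ) : ∀ (W : Submodule ℝ (Fin n → Fin n → ℝ))
    (_ : ∀ B ∈ W, ∀ u v, B u v = B v u) (T : Submodule ℝ (Fin n → Fin n → Fin n → ℝ))
    (_ : ∀ B ∈ T, (∀ u v w, B u v w = B v u w) ∧ (∀ u v w, B u v w = B u w v) ∧ ∀ u, B u ∈ W)
    (_ : Module.finrank ℝ W = w), Module.finrank ℝ T ≤ G10817 w := by
  induction w using Nat.strong_induction_on with
  | _ w ih =>
    intro W hW T hT hw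
    -- the reduction step
    have hred : ∀ l : Fin n → ℝ, Module.finrank ℝ T ≤
        w + Module.finrank ℝ (T ⊓ LinearMap.ker (con_10817 l) : Submodule ℝ _) := by
      intro l
      rw [← rn_10817 (con_10817 l) T]
      have : Module.finrank ℝ (T.map (con_10817 l)) ≤ w := by
        rw [← hw]
        refine Submodule.finrank_mono ?_
        rintro _ ⟨τ, hτ, rfl⟩
        change ∑ u, l u • τ u ∈ W
        exact Submodule.sum_mem _ fun u _ => Submodule.smul_mem _ _ ((hT τ hτ).2.2 u)
      omega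
    have hW2 : ∀ l : Fin n → ℝ, ∀ B ∈ (W ⊓ LinearMap.ker (ev_10817 l) : Submodule ℝ _),
        ∀ u v, B u v = B v u := fun l B hB => hW B hB.1
    have hT2 : ∀ l : Fin n → ℝ, ∀ B ∈ (T ⊓ LinearMap.ker (con_10817 l) : Submodule ℝ _),
        (∀ u v w, B u v w = B v u w) ∧ (∀ u v w, B u v w = B u w v) ∧
          ∀ u, B u ∈ (W ⊓ LinearMap.ker (ev_10817 l) : Submodule ℝ _) := by
      rintro l B ⟨hBT, hBk⟩
      obtain ⟨h1, h2, h3⟩ := hT B hBT
      refine ⟨h1, h2, fun u => ⟨h3 u, ?_⟩⟩
      rw [SetLike.mem_coe, LinearMap.mem_ker]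
      funext v
      have h4 := congrFun (congrFun (LinearMap.mem_ker.1 hBk) u) v
      simp only [con_10817, LinearMap.coe_mk, AddHom.coe_mk, Finset.sum_apply, Pi.smul_apply,
        smul_eq_mul, Pi.zero_apply] at h4
      change ∑ w, B u v w * l w = 0
      rw [← h4]
      refine Finset.sum_congr rfl fun x _ => ?_
      rw [h2 u v x, h1 u x v, mul_comm]
    have hle2 : ∀ l : Fin n → ℝ, 1 ≤ Module.finrank ℝ (W.map (ev_10817 l)) →
        Module.finrank ℝ T ≤ w + G10817 (w - Module.finrank ℝ (W.map (ev_10817 l))) := by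
      intro l hl
      have hrn := rn_10817 (ev_10817 l) W
      have h5 := ih (Module.finrank ℝ (W ⊓ LinearMap.ker (ev_10817 l) : Submodule ℝ _))
        (by omega) _ (hW2 l) _ (hT2 l) rfl
      have h6 := hred l
      have h7 : Module.finrank ℝ (W ⊓ LinearMap.ker (ev_10817 l) : Submodule ℝ _) =
          w - Module.finrank ℝ (W.map (ev_10817 l)) := by omega
      rw [h7] at h5
      omega
    rcases Nat.lt_or_ge w 2 with hw2 | hw2
    · interval_cases w
      · -- W = ⊥
        have hbot : W = ⊥ := Submodule.finrank_eq_zero.1 hw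
        have hTbot : T = ⊥ := by
          rw [Submodule.eq_bot_iff]
          intro B hB
          funext u
          have := (hT B hB).2.2 u
          rw [hbot] at this
          exact (Submodule.mem_bot ℝ).1 this
        rw [hTbot, finrank_bot]
        exact Nat.zero_le _
      · have hne : W ≠ ⊥ := by
          rintro rfl
          rw [finrank_bot] at hw
          omega
        obtain ⟨B1, hB1, hB10⟩ := Submodule.exists_mem_ne_zero_of_ne_bot hne
        obtain ⟨i0, j0, hij⟩ : ∃ i j, B1 i j ≠ 0 := by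
          by_contra hall
          push Not at hall
          exact hB10 (funext fun i => funext fun j => hall i j)
        have h1 : 1 ≤ Module.finrank ℝ (W.map (ev_10817 (Pi.single j0 1))) := by
          rw [Nat.one_le_iff_ne_zero]
          intro h0
          have h3 := Submodule.finrank_eq_zero.1 h0
          have h4 : ev_10817 (Pi.single j0 1) B1 ∈ W.map (ev_10817 (Pi.single j0 1)) :=
            Submodule.mem_map_of_mem hB1
          rw [h3, Submodule.mem_bot] at h4
          have h5 := congrFun h4 i0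
          apply hij
          simpa [ev_10817, Pi.single_apply] using h5
        have h2 := hle2 _ h1
        have h3 : 1 - Module.finrank ℝ (W.map (ev_10817 (Pi.single j0 1))) = 0 := by omega
        rw [h3] at h2
        simpa [G10817] using h2
    · obtain ⟨l, hl⟩ := exists_rank_two_10817 W hW (by omega)
      have h2 := hle2 l (by omega)
      obtain ⟨w', rfl⟩ : ∃ w', w = w' + 2 := ⟨w - 2, by omega⟩
      have h3 : G10817 (w' + 2 - Module.finrank ℝ (W.map (ev_10817 l))) ≤ G10817 w' :=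
        G10817_mono (by omega)
      simp only [G10817]
      omega

/-- TARGET: growth of spaces of symmetric tensors -/
theorem growth {n : ℕ} (W : Submodule ℝ (Fin n → Fin n → ℝ))
    (hW : ∀ B ∈ W, ∀ u v, B u v = B v u) (T : Submodule ℝ (Fin n → Fin n → Fin n → ℝ))
    (hT : ∀ B ∈ T, (∀ u v w, B u v w = B v u w) ∧ (∀ u v w, B u v w = B u w v) ∧ ∀ u, B u ∈ W)
    (h : Module.finrank ℝ W ≤ 5) : Module.finrank ℝ T ≤ 9 := by
  have h1 := growth_aux_10817 _ W hW T hT rfl
  have h2 := G10817_mono h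
  have h3 : G10817 5 = 9 := by simp [G10817]
  omega
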