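import Pool.Agent.Helper585.Wk.Str
import Pool.Agent.Helper585.Wk.Fog7
import Pool.Agent.Helper585.Wk.Rig2
import Pool.Agent.Helper585.Wk.Rig3
import Pool.Agent.Helper585.Wk.Rig4
import Pool.Agent.Helper585.Wk.StrL2
import Pool.Agent.Helper585.Wk.StrL3a
import Pool.Agent.Helper585.Wk.StrL3b
import Pool.Agent.Helper585.Wk.StrL3c
import Pool.Agent.Helper585.Wk.StrL4

set_option autoImplicit false
namespace Pool.Agent.Helper585.Wk

section lib
variable {V : Type} [Fintype V] [DecidableEq V]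

end lib

/-- TARGET 1 -/
theorem rigPred_GR {V : Type} [Fintype V] [DecidableEq V] :
    RigPred (V := V) GR := by
  refine ⟨?_, ?_, ?_, ?_⟩
  · rintro G G' S h ⟨P, hP, hR⟩
    refine ⟨P, hP, fun p hp m hm => hR p hp m (fun u hu v hv huv => hm u hu v hv (h u hu v hv huv))⟩
  · exact fun G S hS hG => GR_complete G S hS hG
  · exact fun G S S' h h' hSS => GR_glue G S S' h h' hSS
  · exact fun G' G S u v N h hu hv hN huN hN4 hadj huv h1 h2 =>
      GR_split G' G S u v N h hu hv hN huN hN4 hadj huv h1 h2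

/-- TARGET 2 -/
theorem exists_rigid {n : ℕ} (K : Cx n) (hK : Pseudo K) :
    ∃ p : Fin n → Fin 5 → ℝ, Rig K.graph K.verts p ∧ ∀ F : Finset (Fin n), F.card ≤ 6 → AI F p := by
  have hmem : ∀ F, F ∈ K.facets ↔ F ∈ K.faces ∧ F.card = 5 := fun F => Finset.mem_filter
  have hmin : MinCycle K.facets := by
    refine ⟨⟨fun F hF => ((hmem F).1 hF).2, fun t ht => ?_⟩, ?_, fun Z hZ hne hc => ?_⟩
    · by_cases h : ∃ F ∈ K.facets, t ⊆ F
      · obtain ⟨F, hF, htF⟩ := h
        have htf : t ∈ K.faces := K.down F ((hmem F).1 hF).1 t htF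
        have h2 := hK.two t htf ht
        have h3 : K.facets.filter (fun F => t ⊆ F) =
            K.faces.filter (fun F => t ⊆ F ∧ F.card = 5) := by
          ext F
          simp only [Finset.mem_filter, hmem]
          tauto
        rw [h3, h2]
        exact even_two
      · have h3 : K.facets.filter (fun F => t ⊆ F) = ∅ := by
          rw [Finset.filter_eq_empty_iff]
          intro F hF htF
          exact h ⟨F, hF, htF⟩
        rw [h3]
        exact Even.zero
    · obtain ⟨F, hF, -, hF5⟩ := hK.pure ∅ K.empty_mem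
      exact ⟨F, (hmem F).2 ⟨hF, hF5⟩⟩
    · exact hK.conn Z hZ hne hc.2
  obtain ⟨p, hp, hAI⟩ := exists_good _ _ (fog GR rigPred_GR K.facets hmin)
  have hverts : K.verts = K.facets.biUnion id := by
    ext v
    simp only [Cx.verts, Finset.mem_filter, Finset.mem_univ, true_and, Finset.mem_biUnion, id]
    constructor
    · intro hv
      obtain ⟨F, hF, hvF, hF5⟩ := hK.pure _ hv
      exact ⟨F, (hmem F).2 ⟨hF, hF5⟩, hvF (Finset.mem_singleton_self v)⟩
    · rintro ⟨F, hF, hvF⟩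
      exact K.down F ((hmem F).1 hF).1 _ (Finset.singleton_subset_iff.2 hvF)
  refine ⟨p, ?_, hAI⟩
  rw [hverts]
  intro m hm
  apply hp m
  intro u hu v hv huv
  apply hm u hu v hv
  obtain ⟨hne, F, hF, huF, hvF⟩ := huv
  refine ⟨hne, K.down F ((hmem F).1 hF).1 _ ?_⟩
  intro x hx
  rcases Finset.mem_insert.1 hx with rfl | hx
  · exact huF
  · rw [Finset.mem_singleton.1 hx]; exact hvF

/-- TARGET 3 -/
theorem g2_nonneg {n : ℕ} (K : Cx n) (hK : Pseudo K) : 5 * K.f 0 ≤ K.f 1 + 15 := by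
  obtain ⟨p, hp, -⟩ := exists_rigid K hK
  have := T2_le K p hp
  omega

/-- TARGET 4 -/
theorem g2_six {n : ℕ} (K : Cx n) (hK : Pseudo K) (h : 4 * K.f 1 + 30 ≤ K.f 2 + 10 * K.f 0) :
    5 * K.f 0 ≤ K.f 1 + 9 := by
  by_contra hcon
  obtain ⟨p, hp, hAI⟩ := exists_rigid K hK
  have h2 := T2_le K p hp
  have h3 : Module.finrank ℝ (T2 K p) ≤ 5 := by omega
  have h4 : Module.finrank ℝ (T3 K p) ≤ 9 := by
    refine growth (T2 K p) (fun B hB => hB.1) (T3 K p) (fun B hB => ⟨hB.1, hB.2.1, fun u => ?_⟩) h3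
    obtain ⟨b1, b2, b3, b4, b5⟩ := hB
    refine ⟨fun v w => b2 u v w, fun v w hvw => b3 u v w (fun h => hvw ?_), fun v => b4 u v,
      fun v i => b5 u v i⟩
    exact K.down _ h _ (Finset.subset_insert _ _)
  obtain ⟨L, hL, hL2⟩ := exists_Lk K p hAI
  have h5 := Lk_le_T3 K p hAI L hL
  have h6 := Kos_le K hK p hAI
  omega

end Pool.Agent.Helper585.Wk
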