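import Pool.Agent.Helper585.Wk.Str
import Pool.Agent.Helper611.UMan

set_option autoImplicit false

/-! Bridge to the library on simplicial complexes. -/

namespace Pool.Agent.Helper585.Wk

open Pool.Agent.Helper611

/-- the same complex, for the library of helper611; its `realization` is `K.space` -/
def Cx.toZ {n : ℕ} (K : Cx n) : ZBase.Cx (Fin n) := ⟨K.faces, K.empty_mem, K.down⟩

theorem realization_toZ {n : ℕ} (K : Cx n) : ZBase.realization K.toZ = K.space := rfl

/-- every point of the space of `K` has a Euclidean chart of dimension 4 -/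
def Cx.Charts {n : ℕ} (K : Cx n) : Prop :=
  ∀ x : K.space, ∃ c : OpenPartialHomeomorph K.space (EuclideanSpace ℝ (Fin 4)), x ∈ c.source

/-- local acyclicity -/
def Cx.LAcy {n : ℕ} (K : Cx n) : Prop :=
  ∀ (τ : Finset (Fin n)) (k : ℕ), τ.Nonempty → k ≤ 4 → ZBase.Acy K.toZ ℤ τ k

/-- facets containing `τ` -/
def Cx.fac {n : ℕ} (K : Cx n) (τ : Finset (Fin n)) : Finset (Finset (Fin n)) :=
  K.faces.filter (fun F => τ ⊆ F ∧ F.card = 5)

end Pool.Agent.Helper585.Wk
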