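import Pool.Agent.Helper585.Wk.Top
import Pool.Agent.Helper514.IoD

set_option autoImplicit false
namespace Pool.Agent.Helper585.Wk

open Metric Topology Filter in
/-- the parametrisation of the union of two facets -/
noncomputable def two_facets_phi {n : ℕ} (a : Fin 4 → Fin n) (v1 v2 : Fin n)
    (w : EuclideanSpace ℝ (Fin 4)) : Fin n → ℝ := fun v =>
  (∑ i, if a i = v then w i + min (1 - ∑ j, w j) 0 / 2 else 0) +
    (if v = v1 then max (1 - ∑ j, w j) 0 else 0) +
    (if v = v2 then max (-(1 - ∑ j, w j)) 0 else 0)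

theorem two_facets_phi_cont {n : ℕ} (a : Fin 4 → Fin n) (v1 v2 : Fin n) :
    Continuous (two_facets_phi a v1 v2) := by
  unfold two_facets_phi
  refine continuous_pi fun v => ?_
  refine Continuous.add (Continuous.add ?_ ?_) ?_
  · refine continuous_finsetSum _ fun i _ => ?_
    split_ifs
    · fun_prop
    · exact continuous_const
  · split_ifs
    · fun_prop
    · exact continuous_const
  · split_ifs
    · fun_prop
    · exact continuous_const

theorem two_facets_phi_a {n : ℕ} (a : Fin 4 → Fin n) (ha : Function.Injective a) (v1 v2 : Fin n)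
    (w : EuclideanSpace ℝ (Fin 4)) (j : Fin 4) (h1 : a j ≠ v1) (h2 : a j ≠ v2) :
    two_facets_phi a v1 v2 w (a j) = w j + min (1 - ∑ j, w j) 0 / 2 := by
  unfold two_facets_phi
  rw [if_neg h1, if_neg h2, Finset.sum_eq_single j]
  · rw [if_pos rfl, add_zero, add_zero]
  · intro i _ hij
    rw [if_neg (fun h => hij (ha h))]
  · intro h; exact absurd (Finset.mem_univ j) h

theorem two_facets_phi_v {n : ℕ} (a : Fin 4 → Fin n) (v1 v2 v : Fin n)
    (w : EuclideanSpace ℝ (Fin 4)) (h : ∀ i, a i ≠ v) :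
    two_facets_phi a v1 v2 w v = (if v = v1 then max (1 - ∑ j, w j) 0 else 0) +
    (if v = v2 then max (-(1 - ∑ j, w j)) 0 else 0) := by
  unfold two_facets_phi
  rw [Finset.sum_eq_zero (fun i _ => if_neg (h i)), zero_add]

theorem two_facets_phi_sum {n : ℕ} (a : Fin 4 → Fin n) (v1 v2 : Fin n)
    (w : EuclideanSpace ℝ (Fin 4)) : ∑ v, two_facets_phi a v1 v2 w v = 1 := by
  unfold two_facets_phi
  rw [Finset.sum_add_distrib, Finset.sum_add_distrib, Finset.sum_comm]
  simp only [Finset.sum_ite_eq, Finset.sum_ite_eq', Finset.mem_univ, if_true]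
  rw [Finset.sum_add_distrib, Finset.sum_const, Finset.card_univ, Fintype.card_fin]
  set s := ∑ j, w j
  rcases le_total (1 - s) 0 with h | h
  · rw [min_eq_left h, max_eq_right h, max_eq_left (by linarith)]
    simp only [nsmul_eq_mul]; push_cast; ring
  · rw [min_eq_right h, max_eq_left h, max_eq_right (by linarith)]
    simp only [nsmul_eq_mul]; push_cast; ring

theorem two_facets_phi_inj {n : ℕ} (a : Fin 4 → Fin n) (ha : Function.Injective a)
    (v1 v2 : Fin n) (h1 : ∀ i, a i ≠ v1) (h2 : ∀ i, a i ≠ v2) (h12 : v1 ≠ v2) :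
    Function.Injective (two_facets_phi a v1 v2) := by
  intro w w' h
  have hs : (1 - ∑ j, w j) = (1 - ∑ j, w' j) := by
    have e1 := congrFun h v1
    have e2 := congrFun h v2
    rw [two_facets_phi_v a v1 v2 v1 w h1, two_facets_phi_v a v1 v2 v1 w' h1, if_pos rfl,
      if_neg h12, if_pos rfl, if_neg h12] at e1
    rw [two_facets_phi_v a v1 v2 v2 w h2, two_facets_phi_v a v1 v2 v2 w' h2, if_pos rfl,
      if_neg h12.symm, if_pos rfl, if_neg h12.symm] at e2
    generalize (1 - ∑ j, w j) = s at e1 e2 ⊢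
    generalize (1 - ∑ j, w' j) = s' at e1 e2 ⊢
    rcases le_total s 0 with g | g <;> rcases le_total s' 0 with g' | g' <;>
      simp only [max_eq_left, max_eq_right, g, g', neg_nonneg, neg_nonpos, add_zero, zero_add]
        at e1 e2 <;> linarith
  ext j
  have e := congrFun h (a j)
  rw [two_facets_phi_a a ha v1 v2 w j (h1 j) (h2 j), two_facets_phi_a a ha v1 v2 w' j (h1 j) (h2 j),
    hs] at e
  linarith

open Metric Topology Filter in
theorem two_facets_le {n : ℕ} (K : Cx n) (hch : K.Charts)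
    (t : Finset (Fin n)) (ht : t ∈ K.faces) (h4 : t.card = 4) : (K.fac t).card ≤ 2 := by
  classical
  by_contra hcon
  rw [not_le, Finset.two_lt_card_iff] at hcon
  obtain ⟨F1, F2, F3, h1, h2, h3, h12, h13, h23⟩ := hcon
  have hF : ∀ F ∈ K.fac t, F ∈ K.faces ∧ ∃ v, v ∉ t ∧ insert v t = F := by
    intro F hF
    unfold Cx.fac at hF
    rw [Finset.mem_filter] at hF
    obtain ⟨v, hv, hv'⟩ := Finset.exists_eq_insert_iff.2 ⟨hF.2.1, by rw [h4, hF.2.2]⟩
    exact ⟨hF.1, v, hv, hv'⟩
  obtain ⟨hf1, v1, hv1, rfl⟩ := hF F1 h1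
  obtain ⟨hf2, v2, hv2, rfl⟩ := hF F2 h2
  obtain ⟨hf3, v3, hv3, rfl⟩ := hF F3 h3
  have e12 : v1 ≠ v2 := fun h => h12 (by rw [h])
  have e13 : v1 ≠ v3 := fun h => h13 (by rw [h])
  have e23 : v2 ≠ v3 := fun h => h23 (by rw [h])
  let a : Fin 4 → Fin n := t.orderEmbOfFin h4
  have hainj : Function.Injective a := (t.orderEmbOfFin h4).injective
  have hamem : ∀ i, a i ∈ t := fun i => t.orderEmbOfFin_mem h4 i
  have hat : ∀ v ∈ t, ∃ i, a i = v := by
    intro v hv
    have : v ∈ Set.range (t.orderEmbOfFin h4) := by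
      rw [Finset.range_orderEmbOfFin]; exact hv
    exact this
  have ha1 : ∀ i, a i ≠ v1 := fun i h => hv1 (h ▸ hamem i)
  have ha2 : ∀ i, a i ≠ v2 := fun i h => hv2 (h ▸ hamem i)
  have ha3 : ∀ i, a i ≠ v3 := fun i h => hv3 (h ▸ hamem i)
  let phi := two_facets_phi a v1 v2
  let w0 : EuclideanSpace ℝ (Fin 4) := WithLp.toLp 2 (fun _ => 1/4)
  let x : Fin n → ℝ := phi w0
  have hs0 : (1 - ∑ j, w0 j) = 0 := by
    simp [w0]
  -- membership
  have hmem : ∀ w ∈ closedBall w0 (1/16), phi w ∈ K.space := by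
    intro w hw
    rw [mem_closedBall, dist_eq_norm] at hw
    have hwi : ∀ i, |w i - 1/4| ≤ 1/16 := by
      intro i
      have := (PiLp.norm_apply_le (w - w0) i).trans hw
      rw [Real.norm_eq_abs] at this
      simpa [w0] using this
    have hsb : |1 - ∑ j, w j| ≤ 1/4 := by
      have e : 1 - ∑ j, w j = ∑ j, (1/4 - w j) := by
        rw [Finset.sum_sub_distrib]; simp
      rw [e]
      refine (Finset.abs_sum_le_sum_abs _ _).trans ?_
      have : ∑ j : Fin 4, |1/4 - w j| ≤ ∑ j : Fin 4, (1/16 : ℝ) :=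
        Finset.sum_le_sum fun j _ => by rw [abs_sub_comm]; exact hwi j
      refine this.trans ?_
      simp; norm_num
    refine ⟨?_, two_facets_phi_sum a v1 v2 w, ?_⟩
    · intro v
      by_cases hv : v ∈ t
      · obtain ⟨i, rfl⟩ := hat v hv
        show 0 ≤ two_facets_phi a v1 v2 w (a i)
        rw [two_facets_phi_a a hainj v1 v2 w i (ha1 i) (ha2 i)]
        have g1 := (abs_le.1 (hwi i)).1
        have g2 := (abs_le.1 hsb).1
        have g3 : -(1/4) ≤ min (1 - ∑ j, w j) 0 := le_min g2 (by norm_num)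
        linarith
      · have hv' : ∀ i, a i ≠ v := fun i h => hv (h ▸ hamem i)
        show 0 ≤ two_facets_phi a v1 v2 w v
        rw [two_facets_phi_v a v1 v2 v w hv']
        refine add_nonneg ?_ ?_
        · split_ifs
          · exact le_max_right _ _
          · exact le_rfl
        · split_ifs
          · exact le_max_right _ _
          · exact le_rfl
    · rcases le_total 0 (1 - ∑ j, w j) with g | g
      · refine ⟨insert v1 t, hf1, fun v hv => ?_⟩
        rw [Finset.mem_insert, not_or] at hv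
        have hv' : ∀ i, a i ≠ v := fun i h => hv.2 (h ▸ hamem i)
        show two_facets_phi a v1 v2 w v = 0
        rw [two_facets_phi_v a v1 v2 v w hv', if_neg hv.1, max_eq_right (by linarith)]
        simp
      · refine ⟨insert v2 t, hf2, fun v hv => ?_⟩
        rw [Finset.mem_insert, not_or] at hv
        have hv' : ∀ i, a i ≠ v := fun i h => hv.2 (h ▸ hamem i)
        show two_facets_phi a v1 v2 w v = 0
        rw [two_facets_phi_v a v1 v2 v w hv', if_neg hv.1, max_eq_right (by linarith)]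
        simp
  have hw0 : w0 ∈ closedBall w0 (1/16) := mem_closedBall_self (by norm_num)
  have hx : x ∈ K.space := hmem w0 hw0
  let X : K.space := ⟨x, hx⟩
  let g : EuclideanSpace ℝ (Fin 4) → K.space := fun w =>
    if h : phi w ∈ K.space then ⟨phi w, h⟩ else X
  have hg : ∀ w ∈ closedBall w0 (1/16), (g w).1 = phi w := by
    intro w hw
    simp only [g, dif_pos (hmem w hw)]
  have hgX : g w0 = X := Subtype.ext (hg w0 hw0)
  have hgc : ContinuousOn g (closedBall w0 (1/16)) := by
    rw [Topology.IsInducing.subtypeVal.continuousOn_iff]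
    exact (two_facets_phi_cont a v1 v2).continuousOn.congr (fun w hw => hg w hw)
  obtain ⟨c, hc⟩ := hch X
  have hgat : ContinuousAt g w0 := hgc.continuousAt (closedBall_mem_nhds w0 (by norm_num))
  have hU : g ⁻¹' c.source ∩ closedBall w0 (1/16) ∈ 𝓝 w0 := by
    refine inter_mem (hgat ?_) (closedBall_mem_nhds w0 (by norm_num))
    rw [hgX]
    exact c.open_source.mem_nhds hc
  obtain ⟨r, hr, hrU⟩ := nhds_basis_closedBall.mem_iff.1 hU
  have hfc : ContinuousOn (fun w => c (g w)) (closedBall w0 r) :=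
    c.continuousOn.comp (hgc.mono fun w hw => (hrU hw).2) (fun w hw => (hrU hw).1)
  have hfi : Set.InjOn (fun w => c (g w)) (closedBall w0 r) := by
    intro w hw w' hw' h
    have e1 : g w = g w' := c.injOn (hrU hw).1 (hrU hw').1 h
    have e2 := congrArg Subtype.val e1
    rw [hg w (hrU hw).2, hg w' (hrU hw').2] at e2
    exact two_facets_phi_inj a hainj v1 v2 ha1 ha2 e12 e2
  have hnh := Pool.Agent.Helper514.IoD.image_mem_nhds (fun w => c (g w)) w0 r hr hfc hfi
  simp only [hgX] at hnh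
  -- the sequence
  let p : ℕ → (Fin n → ℝ) := fun k v => (1 - 1 / ((k : ℝ) + 1)) * x v +
    (1 / ((k : ℝ) + 1)) * (if v = v3 then 1 else 0)
  have hk1 : ∀ k : ℕ, 0 < 1 / ((k : ℝ) + 1) := fun k => by positivity
  have hk2 : ∀ k : ℕ, 1 / ((k : ℝ) + 1) ≤ 1 := fun k => by
    rw [div_le_one (by positivity)]
    have : (0 : ℝ) ≤ k := Nat.cast_nonneg k
    linarith
  have hpm : ∀ k, p k ∈ K.space := by
    intro k
    refine ⟨?_, ?_, insert v3 t, hf3, ?_⟩
    · intro v
      have e1 := hx.1 v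
      have e2 := hk1 k
      have e3 := hk2 k
      show 0 ≤ (1 - 1 / ((k : ℝ) + 1)) * x v + (1 / ((k : ℝ) + 1)) * (if v = v3 then 1 else 0)
      refine add_nonneg (mul_nonneg (by linarith) e1) (mul_nonneg e2.le ?_)
      split_ifs <;> norm_num
    · show ∑ v, ((1 - 1 / ((k : ℝ) + 1)) * x v + (1 / ((k : ℝ) + 1)) * (if v = v3 then 1 else 0)) = 1
      rw [Finset.sum_add_distrib, ← Finset.mul_sum, ← Finset.mul_sum, hx.2.1]
      simp
    · intro v hv
      rw [Finset.mem_insert, not_or] at hv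
      have hv' : ∀ i, a i ≠ v := fun i h => hv.2 (h ▸ hamem i)
      have e1 : x v = 0 := by
        show two_facets_phi a v1 v2 w0 v = 0
        rw [two_facets_phi_v a v1 v2 v w0 hv', hs0]
        simp
      show (1 - 1 / ((k : ℝ) + 1)) * x v + (1 / ((k : ℝ) + 1)) * (if v = v3 then 1 else 0) = 0
      rw [e1, if_neg hv.1]
      simp
  let P : ℕ → K.space := fun k => ⟨p k, hpm k⟩
  have hP : Tendsto P atTop (𝓝 X) := by
    rw [tendsto_subtype_rng, tendsto_pi_nhds]
    intro v
    have e1 : Tendsto (fun k : ℕ => 1 / ((k : ℝ) + 1)) atTop (𝓝 0) :=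
      tendsto_one_div_add_atTop_nhds_zero_nat
    have e2 := ((tendsto_const_nhds (x := (1 : ℝ))).sub e1).mul_const (x v)
    have e3 := e1.mul_const (if v = v3 then (1 : ℝ) else 0)
    have e4 := e2.add e3
    simp only [sub_zero, one_mul, zero_mul, add_zero] at e4
    exact e4
  have hev1 : ∀ᶠ k in atTop, c (P k) ∈ (fun w => c (g w)) '' closedBall w0 r :=
    (c.continuousAt hc).tendsto.comp hP hnh
  have hev2 : ∀ᶠ k in atTop, P k ∈ c.source := hP (c.open_source.mem_nhds hc)
  obtain ⟨k, ⟨w, hw, hwk⟩, hk⟩ := (hev1.and hev2).exists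
  have e1 : g w = P k := c.injOn (hrU hw).1 hk hwk
  have e2 : (g w).1 v3 = (P k).1 v3 := congrArg (fun y : K.space => y.1 v3) e1
  rw [hg w (hrU hw).2] at e2
  have e3 : phi w v3 = 0 := by
    show two_facets_phi a v1 v2 w v3 = 0
    rw [two_facets_phi_v a v1 v2 v3 w ha3, if_neg e13.symm, if_neg e23.symm, add_zero]
  have e4 : (P k).1 v3 = 1 / ((k : ℝ) + 1) := by
    show (1 - 1 / ((k : ℝ) + 1)) * x v3 + (1 / ((k : ℝ) + 1)) * (if v3 = v3 then 1 else 0) = _
    have e5 : x v3 = 0 := by
      show two_facets_phi a v1 v2 w0 v3 = 0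
      rw [two_facets_phi_v a v1 v2 v3 w0 ha3, if_neg e13.symm, if_neg e23.symm, add_zero]
    rw [e5]
    simp
  rw [e3, e4] at e2
  exact (hk1 k).ne e2

open Metric Topology Filter in
theorem two_facets_ge {n : ℕ} (K : Cx n) (hch : K.Charts) (hdim : ∀ σ ∈ K.faces, σ.card ≤ 5)
    (t : Finset (Fin n)) (ht : t ∈ K.faces) (h4 : t.card = 4) : 2 ≤ (K.fac t).card := by
  classical
  by_contra hcon
  have hcon' : (K.fac t).card ≤ 1 := by omega
  have hF : ∃ F : Finset (Fin n), t ⊆ F ∧ F.card ≤ 5 ∧ ∀ σ ∈ K.faces, t ⊆ σ → σ ⊆ F := by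
    by_cases he : (K.fac t) = ∅
    · refine ⟨t, subset_rfl, by omega, fun σ hσ hts => ?_⟩
      have h5 := hdim σ hσ
      have h6 : σ.card ≠ 5 := fun h => by
        have : σ ∈ K.fac t := Finset.mem_filter.2 ⟨hσ, hts, h⟩
        rw [he] at this; exact absurd this (Finset.notMem_empty _)
      rw [Finset.eq_of_subset_of_card_le hts (by omega)]
    · obtain ⟨F, hF⟩ := Finset.card_eq_one.1
        (le_antisymm hcon' (Finset.card_pos.2 (Finset.nonempty_iff_ne_empty.2 he)))
      have hF0 : F ∈ K.fac t := by rw [hF]; exact Finset.mem_singleton_self _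
      have hF1 := Finset.mem_filter.1 hF0
      refine ⟨F, hF1.2.1, hF1.2.2.le, fun σ hσ hts => ?_⟩
      have h5 := hdim σ hσ
      by_cases h6 : σ.card = 5
      · have : σ ∈ K.fac t := Finset.mem_filter.2 ⟨hσ, hts, h6⟩
        rw [hF, Finset.mem_singleton] at this; rw [this]
      · have : t = σ := Finset.eq_of_subset_of_card_le hts (by
          have := Finset.card_le_card hts; omega)
        rw [← this]; exact hF1.2.1
  obtain ⟨F, htF, hFc, hFσ⟩ := hF
  let a : Fin 4 → Fin n := t.orderEmbOfFin h4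
  have hainj : Function.Injective a := (t.orderEmbOfFin h4).injective
  have hamem : ∀ i, a i ∈ t := fun i => t.orderEmbOfFin_mem h4 i
  have hat : ∀ v ∈ t, ∃ i, a i = v := by
    intro v hv
    have : v ∈ Set.range (t.orderEmbOfFin h4) := by
      rw [Finset.range_orderEmbOfFin]; exact hv
    exact this
  have hsum : ∀ y : Fin n → ℝ, ∑ i, y (a i) = ∑ v ∈ t, y v := by
    intro y
    rw [← Finset.map_orderEmbOfFin_univ t h4, Finset.sum_map]
    rfl
  let x : Fin n → ℝ := fun v => if v ∈ t then 1/4 else 0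
  have hx : x ∈ K.space := by
    refine ⟨?_, ?_, t, ht, ?_⟩
    · intro v
      show 0 ≤ if v ∈ t then (1/4 : ℝ) else 0
      split_ifs <;> norm_num
    · show ∑ v, (if v ∈ t then (1/4 : ℝ) else 0) = 1
      rw [← Finset.sum_filter]
      simp [h4]
    · intro v hv
      show (if v ∈ t then (1/4 : ℝ) else 0) = 0
      rw [if_neg hv]
  let X : K.space := ⟨x, hx⟩
  let N : Set K.space := {y | ∀ v ∈ t, 0 < y.1 v}
  have hNo : IsOpen N := by
    have : N = ⋂ v ∈ t, {y : K.space | 0 < y.1 v} := by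
      ext y; simp [N]
    rw [this]
    refine isOpen_biInter_finset fun v _ => ?_
    exact isOpen_lt continuous_const ((continuous_apply v).comp continuous_subtype_val)
  have hXN : X ∈ N := by
    intro v hv
    show 0 < if v ∈ t then (1/4 : ℝ) else 0
    rw [if_pos hv]; norm_num
  have hNF : ∀ y ∈ N, ∀ v, v ∉ F → y.1 v = 0 := by
    intro y hy v hv
    obtain ⟨_, _, σ, hσ, hσ0⟩ := y.2
    have htσ : t ⊆ σ := by
      intro u hu
      by_contra hus
      exact (hy u hu).ne' (hσ0 u hus)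
    exact hσ0 v fun h => hv (hFσ σ hσ htσ h)
  have hNinj : ∀ y ∈ N, ∀ y' ∈ N, (∀ v ∈ t, y.1 v = y'.1 v) → y = y' := by
    intro y hy y' hy' h
    apply Subtype.ext
    funext v
    by_cases hv : v ∈ t
    · exact h v hv
    by_cases hvF : v ∈ F
    · have hFe : insert v t = F := Finset.eq_of_subset_of_card_le
        (Finset.insert_subset hvF htF) (by rw [Finset.card_insert_of_notMem hv, h4]; exact hFc)
      have hs : ∀ z ∈ N, z.1 v + ∑ u ∈ t, z.1 u = 1 := by
        intro z hz
        rw [← Finset.sum_insert hv, hFe, ← z.2.2.1]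
        exact Finset.sum_subset (Finset.subset_univ _) fun u _ hu => hNF z hz u hu
      have e1 := hs y hy
      have e2 := hs y' hy'
      rw [Finset.sum_congr rfl h] at e1
      linarith
    · rw [hNF y hy v hvF, hNF y' hy' v hvF]
  obtain ⟨c, hc⟩ := hch X
  have hcX : c X ∈ c.target := c.map_source hc
  have hsymX : c.symm (c X) = X := c.left_inv hc
  have hU : c.target ∩ c.symm ⁻¹' N ∈ 𝓝 (c X) := by
    refine inter_mem (c.open_target.mem_nhds hcX) ((c.symm.continuousAt hcX) ?_)
    rw [hsymX]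
    exact hNo.mem_nhds hXN
  obtain ⟨r, hr, hrU⟩ := nhds_basis_closedBall.mem_iff.1 hU
  let ψ : K.space → EuclideanSpace ℝ (Fin 4) := fun y => WithLp.toLp 2 (fun i => y.1 (a i))
  have hψ : Continuous ψ := by
    refine (PiLp.continuous_toLp 2 _).comp (continuous_pi fun i => ?_)
    exact (continuous_apply (a i)).comp continuous_subtype_val
  have hfc : ContinuousOn (fun w => ψ (c.symm w)) (closedBall (c X) r) :=
    hψ.comp_continuousOn (c.symm.continuousOn.mono fun w hw => (hrU hw).1)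
  have hfi : Set.InjOn (fun w => ψ (c.symm w)) (closedBall (c X) r) := by
    intro w hw w' hw' h
    have e1 : c.symm w = c.symm w' := by
      refine hNinj _ (hrU hw).2 _ (hrU hw').2 fun v hv => ?_
      obtain ⟨i, rfl⟩ := hat v hv
      exact congrArg (fun z : EuclideanSpace ℝ (Fin 4) => z i) h
    exact c.symm.injOn (hrU hw).1 (hrU hw').1 e1
  have hnh := Pool.Agent.Helper514.IoD.image_mem_nhds (fun w => ψ (c.symm w)) (c X) r hr hfc hfi
  simp only [hsymX] at hnh
  let Q : ℕ → EuclideanSpace ℝ (Fin 4) := fun k => WithLp.toLp 2 (fun i => x (a i) + 1 / ((k : ℝ) + 1))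
  have hQ : Tendsto Q atTop (𝓝 (ψ X)) := by
    refine ((PiLp.continuous_toLp 2 _).tendsto _).comp (tendsto_pi_nhds.2 fun i => ?_)
    have e1 : Tendsto (fun k : ℕ => 1 / ((k : ℝ) + 1)) atTop (𝓝 0) :=
      tendsto_one_div_add_atTop_nhds_zero_nat
    have e2 := e1.const_add (x (a i))
    rw [add_zero] at e2
    exact e2
  obtain ⟨k, w, hw, hwk⟩ := (hQ.eventually hnh).exists
  have e1 : ∑ i, (c.symm w).1 (a i) = ∑ i, (x (a i) + 1 / ((k : ℝ) + 1)) := by
    refine Finset.sum_congr rfl fun i _ => ?_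
    exact congrArg (fun z : EuclideanSpace ℝ (Fin 4) => z i) hwk
  rw [hsum, Finset.sum_add_distrib, hsum] at e1
  have e2 : ∑ v ∈ t, (c.symm w).1 v ≤ 1 := by
    rw [← (c.symm w).2.2.1]
    exact Finset.sum_le_sum_of_subset_of_nonneg (Finset.subset_univ _)
      fun v _ _ => (c.symm w).2.1 v
  have e3 : ∑ v ∈ t, x v = 1 := by
    rw [← hx.2.1]
    refine Finset.sum_subset (Finset.subset_univ _) fun v _ hv => ?_
    show (if v ∈ t then (1/4 : ℝ) else 0) = 0
    rw [if_neg hv]
  have e4 : 0 < ∑ i : Fin 4, 1 / ((k : ℝ) + 1) :=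
    Finset.sum_pos (fun i _ => by positivity) Finset.univ_nonempty
  rw [e3] at e1
  linarith

/-- TARGET: in a 4-manifold every tetrahedron is in exactly two facets (invariance of domain) -/
theorem two_facets {n : ℕ} (K : Cx n) (hch : K.Charts) (hdim : ∀ σ ∈ K.faces, σ.card ≤ 5)
    (t : Finset (Fin n)) (ht : t ∈ K.faces) (h4 : t.card = 4) : (K.fac t).card = 2 :=
  le_antisymm (two_facets_le K hch t ht h4) (two_facets_ge K hch hdim t ht h4)

end Pool.Agent.Helper585.Wk
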