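import Pool.Agent.Helper585.Wk.Top

set_option autoImplicit false
namespace Pool.Agent.Helper585.Wk
open Pool.Agent.Helper611

/-- TARGET 1 -/
theorem dim_of_charts {n : ℕ} (K : Cx n) (h : K.Charts) : ∀ σ ∈ K.faces, σ.card ≤ 5 := by
  intro σ hσ
  refine UMan.dim_le (n := 4) K.toZ (id : EuclideanSpace ℝ (Fin 4) → _) Topology.IsEmbedding.id Set.univ isOpen_univ
    (by rw [Set.range_id]) ?_ h σ hσ
  rintro U _ ⟨a, ha⟩
  exact ⟨a, ha, Set.mem_univ _⟩

/-- TARGET 2 -/
theorem lacy_of_charts {n : ℕ} (K : Cx n) (h : K.Charts) : K.LAcy := by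
  intro τ k hτ hk
  exact UMan.acy_E K.toZ h τ hτ k hk

/-- TARGET 3: purity -/
theorem pure_of_lacy {n : ℕ} (K : Cx n) (h : K.LAcy) (hd : ∀ σ ∈ K.faces, σ.card ≤ 5)
    (σ : Finset (Fin n)) (hσ : σ ∈ K.faces) (hne : σ.Nonempty) :
    ∃ F ∈ K.faces, σ ⊆ F ∧ F.card = 5 := by
  classical
  have key : ∀ m : ℕ, ∀ s : Finset (Fin n), s ∈ K.faces → s.Nonempty → 5 - s.card = m →
      ∃ F ∈ K.faces, s ⊆ F ∧ F.card = 5 := by
    intro m
    induction m with
    | zero =>
      intro s hs _ h5
      exact ⟨s, hs, subset_rfl, by have := hd s hs; omega⟩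
    | succ m ih =>
      intro s hs hsn h5
      have hc4 : s.card ≤ 4 := by omega
      obtain ⟨b, hb1, hb2⟩ := h s s.card hsn hc4 (Pi.single s 1) (by
        intro t ht
        by_cases hts : t = s
        · subst hts
          exact ⟨hs, subset_rfl, rfl⟩
        · exact absurd (Pi.single_eq_of_ne hts _) ht) (by
        intro ρ hρ
        refine Finset.sum_eq_zero fun x hx => ?_
        have hx' : x ∉ ρ := Finset.mem_compl.1 hx
        have hne : insert x ρ ≠ s := by
          intro he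
          exact hx' (hρ (he ▸ Finset.mem_insert_self x ρ))
        rw [Pi.single_eq_of_ne hne, smul_zero])
      have h1 : ZBase.bd b s = 1 := by
        rw [hb2 s subset_rfl, Pi.single_eq_same]
      have h2 : ∃ x ∈ sᶜ, b (insert x s) ≠ 0 := by
        by_contra hcon
        push Not at hcon
        have : ZBase.bd b s = 0 := Finset.sum_eq_zero fun x hx => by rw [hcon x hx, smul_zero]
        rw [h1] at this
        exact one_ne_zero this
      obtain ⟨x, hx, hbx⟩ := h2
      obtain ⟨h3, h4, h6⟩ := hb1 _ hbx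
      obtain ⟨F, hF, hsF, hF5⟩ := ih (insert x s) h3 (Finset.insert_nonempty x s) (by omega)
      exact ⟨F, hF, (Finset.subset_insert x s).trans hsF, hF5⟩
  exact key _ σ hσ hne rfl

end Pool.Agent.Helper585.Wk
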