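import Pool.Agent.Helper585.Wk.Top

set_option autoImplicit false
namespace Pool.Agent.Helper585.Wk
open Pool.Agent.Helper611

open ZBase in
theorem star_conn_single {n : ℕ} (σ : Finset (Fin n)) (v : Fin n) (hv : v ∉ σ) (f : Fin n → ℤ) :
    ∑ x ∈ σᶜ, f x * (if insert x σ = insert v σ then f v else 0) = f v * f v := by
  rw [Finset.sum_eq_single v]
  · simp
  · intro x hx hxv
    rw [if_neg, mul_zero]
    intro h
    have h1 : x ∈ insert v σ := h ▸ Finset.mem_insert_self x σ
    rcases Finset.mem_insert.1 h1 with h2 | h2
    · exact hxv h2
    · exact Finset.mem_compl.1 hx h2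
  · intro h
    exact absurd (Finset.mem_compl.2 hv) h

theorem star_conn_fac {n : ℕ} (K : Cx n) {σ F : Finset (Fin n)} :
    F ∈ K.fac σ ↔ F ∈ K.faces ∧ σ ⊆ F ∧ F.card = 5 := by
  unfold Cx.fac
  rw [Finset.mem_filter]

open ZBase in
/-- TARGET: stars of nonempty faces are strongly connected -/
theorem star_conn {n : ℕ} (K : Cx n) (h : K.LAcy) (hd : ∀ σ ∈ K.faces, σ.card ≤ 5)
    (hpure : ∀ σ ∈ K.faces, σ.Nonempty → ∃ F ∈ K.faces, σ ⊆ F ∧ F.card = 5)
    (htwo : ∀ t ∈ K.faces, t.card = 4 → (K.fac t).card = 2)
    (τ : Finset (Fin n)) (hτ : τ.Nonempty)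
    (Z : Finset (Finset (Fin n))) (hZ : Z ⊆ K.fac τ)
    (hZe : ∀ t : Finset (Fin n), t.card = 4 → τ ⊆ t → Even (Z.filter (fun F => t ⊆ F)).card) :
    Z = ∅ ∨ Z = K.fac τ := by
  classical
  have claim : ∀ m : ℕ, ∀ σ ∈ K.faces, τ ⊆ σ → σ.card + m = 5 →
      (∀ F ∈ K.fac σ, F ∈ Z) ∨ (∀ F ∈ K.fac σ, F ∉ Z) := by
    intro m
    induction m using Nat.strong_induction_on with
    | _ m ih =>
    intro σ hσ hτσ hcard
    rcases Nat.lt_or_ge m 2 with hm | hm
    · rcases Nat.lt_or_ge m 1 with hm0 | hm1
      · -- `card σ = 5`
        have hc : σ.card = 5 := by omega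
        have : ∀ F ∈ K.fac σ, F = σ := by
          intro F hF
          rw [star_conn_fac] at hF
          exact (Finset.eq_of_subset_of_card_le hF.2.1 (by omega)).symm
        by_cases hs : σ ∈ Z
        · left; intro F hF; rw [this F hF]; exact hs
        · right; intro F hF; rw [this F hF]; exact hs
      · -- `card σ = 4`
        have hc : σ.card = 4 := by omega
        have h2 := htwo σ hσ hc
        have he := hZe σ hc hτσ
        have hsub : Z.filter (fun F => σ ⊆ F) ⊆ K.fac σ := by
          intro F hF
          rw [Finset.mem_filter] at hF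
          have := hZ hF.1
          rw [star_conn_fac] at this ⊢
          exact ⟨this.1, hF.2, this.2.2⟩
        have hle := Finset.card_le_card hsub
        rw [h2] at hle
        obtain ⟨r, hr⟩ := he
        have : (Z.filter (fun F => σ ⊆ F)).card = 0 ∨ (Z.filter (fun F => σ ⊆ F)).card = 2 := by omega
        rcases this with h0 | h0
        · right
          intro F hF hFZ
          rw [Finset.card_eq_zero] at h0
          have : F ∈ Z.filter (fun F => σ ⊆ F) :=
            Finset.mem_filter.2 ⟨hFZ, ((star_conn_fac K).1 hF).2.1⟩
          rw [h0] at this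
          exact absurd this (Finset.notMem_empty F)
        · left
          intro F hF
          have := Finset.eq_of_subset_of_card_le hsub (by omega)
          rw [← this] at hF
          exact (Finset.mem_filter.1 hF).1
    · by_contra hcon
      push Not at hcon
      obtain ⟨⟨F2, hF2, hF2Z⟩, ⟨F1, hF1, hF1Z⟩⟩ := hcon
      have hσne : σ.Nonempty := hτ.mono hτσ
      -- monotonicity of `fac`
      have hfac : ∀ {a b : Finset (Fin n)}, a ⊆ b → K.fac b ⊆ K.fac a := by
        intro a b hab F hF
        rw [star_conn_fac] at hF ⊢
        exact ⟨hF.1, hab.trans hF.2.1, hF.2.2⟩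
      let T : Finset (Fin n) → Prop := fun ρ => ∃ F ∈ K.fac ρ, F ∈ Z
      have hTm : ∀ {a b : Finset (Fin n)}, a ⊆ b → T b → T a := by
        rintro a b hab ⟨F, hF, hFZ⟩
        exact ⟨F, hfac hab hF, hFZ⟩
      -- for faces with `card σ + 1` elements the type is unambiguous
      have htype : ∀ ρ ∈ K.faces, τ ⊆ ρ → ρ.card = σ.card + 1 → T ρ → ∀ F ∈ K.fac ρ, F ∈ Z := by
        intro ρ hρ hτρ hc hT
        rcases ih (m - 1) (by omega) ρ hρ hτρ (by omega) with h1 | h1
        · exact h1
        · obtain ⟨F, hF, hFZ⟩ := hT
          exact absurd hFZ (h1 F hF)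
      have hx : ∀ F ∈ K.fac σ, ∃ v ∈ F, v ∉ σ := by
        intro F hF
        rw [star_conn_fac] at hF
        by_contra hcon
        push Not at hcon
        have := Finset.card_le_card (show F ⊆ σ from hcon)
        omega
      obtain ⟨v, hvF, hv⟩ := hx F1 hF1
      obtain ⟨w, hwF, hw⟩ := hx F2 hF2
      have hs1F : insert v σ ⊆ F1 :=
        Finset.insert_subset hvF ((star_conn_fac K).1 hF1).2.1
      have hs2F : insert w σ ⊆ F2 :=
        Finset.insert_subset hwF ((star_conn_fac K).1 hF2).2.1
      have hs1 : insert v σ ∈ K.faces := K.down F1 ((star_conn_fac K).1 hF1).1 _ hs1F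
      have hs2 : insert w σ ∈ K.faces := K.down F2 ((star_conn_fac K).1 hF2).1 _ hs2F
      have hT1 : T (insert v σ) :=
        ⟨F1, (star_conn_fac K).2 ⟨((star_conn_fac K).1 hF1).1, hs1F, ((star_conn_fac K).1 hF1).2.2⟩,
          hF1Z⟩
      have hc2 : (insert w σ).card = σ.card + 1 := Finset.card_insert_of_notMem hw
      have hc1 : (insert v σ).card = σ.card + 1 := Finset.card_insert_of_notMem hv
      have hT2 : ¬ T (insert w σ) := by
        intro hT
        have := htype _ hs2 (hτσ.trans (Finset.subset_insert _ _)) hc2 hT F2
          ((star_conn_fac K).2 ⟨((star_conn_fac K).1 hF2).1, hs2F, ((star_conn_fac K).1 hF2).2.2⟩)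
        exact hF2Z this
      have hne : insert v σ ≠ insert w σ := by
        intro heq
        rw [heq] at hT1
        exact hT2 hT1
      -- the cycle
      let c : Finset (Fin n) → ℤ := fun ρ =>
        (if ρ = insert v σ then sgn v σ else 0) - (if ρ = insert w σ then sgn w σ else 0)
      have hcsupp : ∀ ρ, c ρ ≠ 0 → ρ ∈ K.faces ∧ σ ⊆ ρ ∧ ρ.card = σ.card + 1 := by
        intro ρ hρ
        by_cases e1 : ρ = insert v σ
        · rw [e1]; exact ⟨hs1, Finset.subset_insert _ _, hc1⟩
        · by_cases e2 : ρ = insert w σ
          · rw [e2]; exact ⟨hs2, Finset.subset_insert _ _, hc2⟩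
          · exact absurd (by simp only [c, if_neg e1, if_neg e2, sub_zero]) hρ
      have hcyc : ∀ ρ, σ ⊆ ρ → bd c ρ = 0 := by
        intro ρ hρ
        by_cases hρσ : ρ = σ
        · subst hρσ
          unfold bd
          simp only [c, smul_eq_mul, mul_sub, Finset.sum_sub_distrib]
          rw [star_conn_single ρ v hv (fun x => sgn x ρ), star_conn_single ρ w hw (fun x => sgn x ρ),
            sgn_mul_self, sgn_mul_self, sub_self]
        · unfold bd
          refine Finset.sum_eq_zero fun x hx => ?_
          have hcx : c (insert x ρ) = 0 := by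
            by_contra hcon
            have h3 := (hcsupp _ hcon).2.2
            rw [Finset.card_insert_of_notMem (Finset.mem_compl.1 hx)] at h3
            exact hρσ (Finset.eq_of_subset_of_card_le hρ (by omega)).symm
          rw [hcx, smul_zero]
      obtain ⟨b, hb, hbc⟩ := h σ (σ.card + 1) hσne (by omega) c hcsupp hcyc
      let b2 : Finset (Fin n) → ℤ := fun ρ => if T ρ then b ρ else 0
      have hb2 : ∀ x ∈ σᶜ, bd b2 (insert x σ) = if insert x σ = insert v σ then sgn v σ else 0 := by
        intro x hx
        have hxσ := Finset.mem_compl.1 hx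
        have hcx : (insert x σ).card = σ.card + 1 := Finset.card_insert_of_notMem hxσ
        have hσx : σ ⊆ insert x σ := Finset.subset_insert _ _
        by_cases hf : insert x σ ∈ K.faces
        · have e1 : bd b2 (insert x σ) = if T (insert x σ) then bd b (insert x σ) else 0 := by
            unfold bd
            have hterm : ∀ y ∈ (insert x σ)ᶜ, sgn y (insert x σ) • b2 (insert y (insert x σ)) =
                if T (insert x σ) then sgn y (insert x σ) • b (insert y (insert x σ)) else 0 := by
              intro y hy
              by_cases hby : b (insert y (insert x σ)) = 0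
              · simp only [b2, hby]
                simp
              · have hyf := (hb _ hby).1
                have hiff : T (insert y (insert x σ)) ↔ T (insert x σ) := by
                  constructor
                  · exact hTm (Finset.subset_insert _ _)
                  · intro hT
                    obtain ⟨F, hF, hyF, hF5⟩ := hpure _ hyf (Finset.insert_nonempty _ _)
                    have hFf : F ∈ K.fac (insert y (insert x σ)) :=
                      (star_conn_fac K).2 ⟨hF, hyF, hF5⟩
                    exact ⟨F, hFf, htype _ hf (hτσ.trans hσx) hcx hT F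
                      (hfac (Finset.subset_insert _ _) hFf)⟩
                simp only [b2]
                by_cases hT : T (insert x σ)
                · rw [if_pos hT, if_pos (hiff.2 hT)]
                · rw [if_neg hT, if_neg (fun h => hT (hiff.1 h)), smul_zero]
            rw [Finset.sum_congr rfl hterm]
            by_cases hT : T (insert x σ)
            · simp only [if_pos hT]
            · simp only [if_neg hT, Finset.sum_const_zero]
          rw [e1, hbc _ hσx]
          by_cases ev : insert x σ = insert v σ
          · rw [ev, if_pos hT1, if_pos rfl]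
            simp only [c, if_pos, if_neg hne, sub_zero]
          · rw [if_neg ev]
            by_cases hT : T (insert x σ)
            · have ew : insert x σ ≠ insert w σ := fun heq => hT2 (heq ▸ hT)
              rw [if_pos hT]
              simp only [c, if_neg ev, if_neg ew, sub_zero]
            · rw [if_neg hT]
        · have hnv : insert x σ ≠ insert v σ := fun heq => hf (by rw [heq]; exact hs1)
          rw [if_neg hnv]
          unfold bd
          refine Finset.sum_eq_zero fun y hy => ?_
          have hby : b (insert y (insert x σ)) = 0 := by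
            by_contra hcon
            exact hf (K.down _ (hb _ hcon).1 _ (Finset.subset_insert _ _))
          simp only [b2, hby, ite_self, smul_zero]
      have hfin := bd_bd b2 σ
      have e3 : bd (bd b2) σ = ∑ x ∈ σᶜ, sgn x σ * (if insert x σ = insert v σ then sgn v σ else 0) := by
        conv_lhs => unfold bd
        exact Finset.sum_congr rfl fun x hx => by
          have := hb2 x hx
          unfold bd at this
          rw [this, smul_eq_mul]
      rw [e3, star_conn_single σ v hv (fun x => sgn x σ), sgn_mul_self] at hfin
      exact one_ne_zero hfin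
  by_cases hτf : τ ∈ K.faces
  · rcases claim (5 - τ.card) τ hτf subset_rfl (by have := hd τ hτf; omega) with h1 | h1
    · right
      exact Finset.Subset.antisymm hZ h1
    · left
      rw [Finset.eq_empty_iff_forall_notMem]
      intro F hF
      exact h1 F (hZ hF) hF
  · left
    rw [Finset.eq_empty_iff_forall_notMem]
    intro F hF
    have := (star_conn_fac K).1 (hZ hF)
    exact hτf (K.down F this.1 τ this.2.1)

end Pool.Agent.Helper585.Wk
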