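import Pool.Agent.Helper585.Wk.Top
import Pool.Agent.Helper585.Wk.Top1a
import Pool.Agent.Helper585.Wk.Top1b
import Pool.Agent.Helper585.Wk.Top1c

set_option autoImplicit false
namespace Pool.Agent.Helper585.Wk
open Pool.Agent.Helper611

theorem job11380_nonempty_of {n : ℕ} (K : Cx n) (x : Fin n → ℝ) (hx : x ∈ K.space)
    (σ : Finset (Fin n)) (hσ : ∀ v, v ∉ σ → x v = 0) : σ.Nonempty := by
  by_contra h
  rw [Finset.not_nonempty_iff_eq_empty] at h
  subst h
  have h1 := hx.2.1
  have h2 : ∑ v, x v = 0 := Finset.sum_eq_zero (fun v _ => hσ v (Finset.notMem_empty v))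
  rw [h2] at h1
  exact zero_ne_one h1

theorem job11380_vertex {n : ℕ} (K : Cx n) (F : Finset (Fin n)) (hF : F ∈ K.faces) (v : Fin n)
    (hv : v ∈ F) : (Pi.single v 1 : Fin n → ℝ) ∈ K.space := by
  refine ⟨?_, ?_, F, hF, ?_⟩
  · intro u
    by_cases h : u = v
    · subst h; simp
    · simp [Pi.single_eq_of_ne h]
  · simp
  · intro u hu
    have : u ≠ v := fun h => hu (h ▸ hv)
    simp [Pi.single_eq_of_ne this]

/-- TARGET 1 -/
theorem pseudo_of_charts {n : ℕ} (K : Cx n) (h : K.Charts) (hc : ConnectedSpace K.space) :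
    Pseudo K := by
  classical
  have hdim := dim_of_charts K h
  have hlacy := lacy_of_charts K h
  have hpure := pure_of_lacy K hlacy hdim
  have htwo := two_facets K h hdim
  have hstar := star_conn K hlacy hdim hpure htwo
  refine ⟨hdim, ?_, ?_, ?_⟩
  · intro σ hσ
    by_cases hne : σ.Nonempty
    · exact hpure σ hσ hne
    · rw [Finset.not_nonempty_iff_eq_empty] at hne
      subst hne
      obtain ⟨x⟩ := hc.toNonempty
      obtain ⟨τ, hτ, hτx⟩ := x.2.2.2
      obtain ⟨F, hF, _, h5⟩ := hpure τ hτ (job11380_nonempty_of K x.1 x.2 τ hτx)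
      exact ⟨F, hF, Finset.empty_subset _, h5⟩
  · intro t ht h4
    exact htwo t ht h4
  · intro Z hZ hZne hZe
    -- all or none of the facets containing a nonempty face
    have hall : ∀ τ : Finset (Fin n), τ.Nonempty →
        Z.filter (fun F => τ ⊆ F) = ∅ ∨ Z.filter (fun F => τ ⊆ F) = K.fac τ := by
      intro τ hτ
      apply hstar τ hτ
      · intro F hF
        rw [Finset.mem_filter] at hF
        have h1 := hZ hF.1
        rw [Finset.mem_filter] at h1
        unfold Cx.fac
        rw [Finset.mem_filter]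
        exact ⟨h1.1, hF.2, h1.2⟩
      · intro t ht hτt
        have : (Z.filter (fun F => τ ⊆ F)).filter (fun F => t ⊆ F) = Z.filter (fun F => t ⊆ F) := by
          ext F
          simp only [Finset.mem_filter]
          constructor
          · rintro ⟨⟨h1, _⟩, h2⟩
            exact ⟨h1, h2⟩
          · rintro ⟨h1, h2⟩
            exact ⟨⟨h1, hτt.trans h2⟩, h2⟩
        rw [this]
        exact hZe t ht
    let C : Finset (Fin n) → Set K.space := fun F => {x | ∀ v, v ∉ F → x.1 v = 0}
    have hCcl : ∀ F, IsClosed (C F) := by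
      intro F
      have : C F = ⋂ v, ⋂ (_ : v ∉ F), {x : K.space | x.1 v = 0} := by
        ext x
        simp [C]
      rw [this]
      apply isClosed_iInter
      intro v
      apply isClosed_iInter
      intro _
      exact isClosed_eq ((continuous_apply v).comp continuous_subtype_val) continuous_const
    have hCne : ∀ F ∈ K.faces, F.card = 5 → (C F).Nonempty := by
      intro F hF h5
      obtain ⟨v, hv⟩ := Finset.card_pos.mp (by rw [h5]; norm_num : 0 < F.card)
      refine ⟨⟨Pi.single v 1, job11380_vertex K F hF v hv⟩, ?_⟩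
      intro u hu
      have : u ≠ v := fun h => hu (h ▸ hv)
      simp [Pi.single_eq_of_ne this]
    apply Finset.Subset.antisymm hZ
    intro F2 hF2
    by_contra hF2Z
    obtain ⟨F1, hF1⟩ := hZne
    have hF1' := hZ hF1
    rw [Finset.mem_filter] at hF1' hF2
    let A : Set K.space := ⋃ F ∈ Z, C F
    let B : Set K.space := ⋃ F ∈ (K.faces.filter (fun F => F.card = 5)) \ Z, C F
    have hA : IsClosed A := isClosed_biUnion_finset (fun F _ => hCcl F)
    have hB : IsClosed B := isClosed_biUnion_finset (fun F _ => hCcl F)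
    have hcov : (Set.univ : Set K.space) ⊆ A ∪ B := by
      intro x _
      obtain ⟨τ, hτ, hτx⟩ := x.2.2.2
      obtain ⟨F, hF, hτF, h5⟩ := hpure τ hτ (job11380_nonempty_of K x.1 x.2 τ hτx)
      have hx : x ∈ C F := fun v hv => hτx v (fun h => hv (hτF h))
      by_cases hFZ : F ∈ Z
      · exact Or.inl (Set.mem_biUnion hFZ hx)
      · refine Or.inr (Set.mem_biUnion (show F ∈ ((K.faces.filter (fun F => F.card = 5)) \ Z : Finset _) from ?_) hx)
        rw [Finset.mem_sdiff, Finset.mem_filter]
        exact ⟨⟨hF, h5⟩, hFZ⟩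
    have hAne : ((Set.univ : Set K.space) ∩ A).Nonempty := by
      obtain ⟨x, hx⟩ := hCne F1 hF1'.1 hF1'.2
      exact ⟨x, trivial, Set.mem_biUnion hF1 hx⟩
    have hBne : ((Set.univ : Set K.space) ∩ B).Nonempty := by
      obtain ⟨x, hx⟩ := hCne F2 hF2.1 hF2.2
      refine ⟨x, trivial, Set.mem_biUnion (show F2 ∈ ((K.faces.filter (fun F => F.card = 5)) \ Z : Finset _) from ?_) hx⟩
      rw [Finset.mem_sdiff, Finset.mem_filter]
      exact ⟨hF2, hF2Z⟩
    obtain ⟨x, _, hxA, hxB⟩ := isPreconnected_closed_iff.mp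
      (isPreconnected_univ (α := K.space)) A B hA hB hcov hAne hBne
    simp only [A, B, Set.mem_iUnion] at hxA hxB
    obtain ⟨G1, hG1, hx1⟩ := hxA
    obtain ⟨G2, hG2, hx2⟩ := hxB
    rw [Finset.mem_sdiff, Finset.mem_filter] at hG2
    let τ : Finset (Fin n) := Finset.univ.filter (fun v => x.1 v ≠ 0)
    have hτne : τ.Nonempty := by
      apply job11380_nonempty_of K x.1 x.2
      intro v hv
      by_contra hne
      exact hv (by simp [τ, hne])
    have hτ1 : τ ⊆ G1 := by
      intro v hv
      by_contra hne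
      have := hx1 v hne
      simp only [τ, Finset.mem_filter, Finset.mem_univ, true_and] at hv
      exact hv this
    have hτ2 : τ ⊆ G2 := by
      intro v hv
      by_contra hne
      have := hx2 v hne
      simp only [τ, Finset.mem_filter, Finset.mem_univ, true_and] at hv
      exact hv this
    rcases hall τ hτne with h0 | h0
    · have : G1 ∈ Z.filter (fun F => τ ⊆ F) := Finset.mem_filter.mpr ⟨hG1, hτ1⟩
      rw [h0] at this
      exact Finset.notMem_empty _ this
    · have : G2 ∈ K.fac τ := by
        unfold Cx.fac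
        rw [Finset.mem_filter]
        exact ⟨hG2.1.1, hτ2, hG2.1.2⟩
      rw [← h0, Finset.mem_filter] at this
      exact hG2.2 this.1

/-- TARGET 2 -/
theorem charts_of_manifold {n : ℕ} (K : Cx n) (M : Type) [TopologicalSpace M]
    (hM : ClosedManifold 4 M) (h : IsTriangulation M K) : K.Charts ∧ ConnectedSpace K.space := by
  obtain ⟨e⟩ := h
  constructor
  · intro x
    obtain ⟨c, hc⟩ := hM.charts (e x)
    refine ⟨e.toOpenPartialHomeomorph.trans c, ?_⟩
    simpa using hc
  · have := hM.connected
    exact e.symm.surjective.connectedSpace e.symm.continuous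

/-- TARGET 3: charts are transported by homeomorphisms -/
theorem charts_congr {n m : ℕ} (K : Cx n) (L : Cx m) (e : K.space ≃ₜ L.space) (h : K.Charts) :
    L.Charts := by
  intro y
  obtain ⟨c, hc⟩ := h (e.symm y)
  refine ⟨e.symm.toOpenPartialHomeomorph.trans c, ?_⟩
  simpa using hc

/-- TARGET 4 -/
theorem manifold_of_charts {n : ℕ} (K : Cx n) (h : K.Charts) (hc : ConnectedSpace K.space) :
    ClosedManifold 4 K.space := by
  refine ⟨?_, inferInstance, hc, h⟩
  exact isCompact_iff_compactSpace.1 (ZBase.realization_compact K.toZ)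

end Pool.Agent.Helper585.Wk
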