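import Pool.Agent.Helper585.Wk.Lst
import Pool.Agent.Helper585.Wk.Top
import Pool.Agent.Helper585.Wk.Top1d
import Pool.Agent.Helper585.Wk.StrL5
import Pool.Agent.Helper585.Wk.GeoC5

set_option autoImplicit false
namespace Pool.Agent.Helper585.Wk

theorem adm_neg15_aux (M : Type) [TopologicalSpace M] (hM : ClosedManifold 4 M) :
    Adm 4 M (-15) := by
  intro n K hK
  obtain ⟨h1, h2⟩ := charts_of_manifold K M hM hK
  have h3 := g2_nonneg K (pseudo_of_charts K h1 h2)
  push_cast
  omega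

/-- TARGET 1: the invariant is finite -/
theorem exists_gamma (M : Type) [TopologicalSpace M] (hM : ClosedManifold 4 M) {n : ℕ} (K : Cx n)
    (hK : IsTriangulation M K) :
    ∃ g : ℤ, IsGamma 4 M g ∧ -15 ≤ g ∧ g ≤ (K.f 1 : ℤ) - 5 * K.f 0 := by
  have hub : ∀ z : ℤ, Adm 4 M z → z ≤ (K.f 1 : ℤ) - 5 * K.f 0 := by
    intro z hz
    have h := hz n K hK
    push_cast at h
    linarith
  have h15 := adm_neg15_aux M hM
  obtain ⟨g, hg1, hg2⟩ := Int.exists_greatest_of_bdd (P := fun k => Adm 4 M k) ⟨_, hub⟩ ⟨-15, h15⟩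
  exact ⟨g, ⟨hg1, fun z hz => hg2 z hz⟩, hg2 _ h15, hub g hg1⟩

theorem adm_congr_aux (M N : Type) [TopologicalSpace M] [TopologicalSpace N] (e : M ≃ₜ N) (k : ℤ)
    (h : Adm 4 M k) : Adm 4 N k := by
  intro n K hK
  obtain ⟨f⟩ := hK
  exact h n K ⟨f.trans e.symm⟩

/-- TARGET 2: homeomorphism invariance -/
theorem isGamma_congr (M N : Type) [TopologicalSpace M] [TopologicalSpace N] (e : M ≃ₜ N) (g : ℤ)
    (h : IsGamma 4 M g) : IsGamma 4 N g := by
  refine ⟨adm_congr_aux M N e g h.1, ?_⟩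
  intro k hk
  exact h.2 (adm_congr_aux N M e.symm k hk)

/-- TARGET 3 -/
theorem closedManifold_congr (M N : Type) [TopologicalSpace M] [TopologicalSpace N] (e : M ≃ₜ N)
    (h : ClosedManifold 4 M) : ClosedManifold 4 N := by
  have h1 := h.compact
  have h2 := h.hausdorff
  have h3 := h.connected
  refine ⟨e.compactSpace, e.t2Space, e.surjective.connectedSpace e.continuous, ?_⟩
  intro y
  obtain ⟨c, hc⟩ := h.charts (e.symm y)
  exact ⟨e.symm.transOpenPartialHomeomorph c, hc⟩

/-- TARGET 4 -/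
theorem sphere_manifold : ClosedManifold 4 (Metric.sphere (0 : EuclideanSpace ℝ (Fin 5)) 1) := by
  have hfact : Fact (Module.finrank ℝ (EuclideanSpace ℝ (Fin 5)) = 4 + 1) := ⟨by simp⟩
  refine ⟨isCompact_iff_compactSpace.mp (isCompact_sphere _ _), inferInstance, ?_, ?_⟩
  · refine isConnected_iff_connectedSpace.mp (isConnected_sphere ?_ _ zero_le_one)
    rw [← Module.finrank_eq_rank, finrank_euclideanSpace_fin]
    norm_num
  · intro x
    exact ⟨chartAt (EuclideanSpace ℝ (Fin 4)) x, mem_chart_source _ x⟩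

/-- TARGET 5: the value for the sphere -/
theorem gamma_sphere : IsGamma 4 (Metric.sphere (0 : EuclideanSpace ℝ (Fin 5)) 1) (-15) := by
  have hK : IsTriangulation (Metric.sphere (0 : EuclideanSpace ℝ (Fin 5)) 1)
      (bdS (Finset.univ : Finset (Fin 6))) := bdS_sphere (d := 4) Finset.univ (by simp)
  obtain ⟨g, hg1, hg2, hg3⟩ := exists_gamma _ sphere_manifold _ hK
  have f0 : (bdS (Finset.univ : Finset (Fin 6))).f 0 = 6 := by
    unfold Cx.f bdS
    decide +kernel
  have f1 : (bdS (Finset.univ : Finset (Fin 6))).f 1 = 15 := by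
    unfold Cx.f bdS
    decide +kernel
  rw [f0, f1] at hg3
  have : g = -15 := by
    push_cast at hg3
    omega
  rwa [this] at hg1

end Pool.Agent.Helper585.Wk
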