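import Pool.Agent.Helper585.Wk.Lst

set_option autoImplicit false
namespace Pool.Agent.Helper585.Wk

theorem relabel_mem {n : ℕ} (K K' : Cx n) (f g : Fin n → Fin n)
    (hf : ∀ σ ∈ K.faces, σ.image f ∈ K'.faces) (hg : ∀ σ ∈ K'.faces, σ.image g ∈ K.faces)
    (hfg : ∀ v, {v} ∈ K.faces → g (f v) = v) (hgf : ∀ v, {v} ∈ K'.faces → f (g v) = v)
    (x : Fin n → ℝ) (hx : x ∈ K.space) :
    (fun w => if {w} ∈ K'.faces then x (g w) else 0) ∈ K'.space := by
  obtain ⟨h1, h2, σ, hσ, h3⟩ := hx
  have hv : ∀ v, {v} ∉ K.faces → x v = 0 := by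
    intro v hv
    by_contra h0
    have : v ∈ σ := by
      by_contra h4
      exact h0 (h3 v h4)
    exact hv (K.down σ hσ {v} (Finset.singleton_subset_iff.mpr this))
  have hfv : ∀ v, {v} ∈ K.faces → {f v} ∈ K'.faces := by
    intro v hv
    have := hf _ hv
    rwa [Finset.image_singleton] at this
  have hgv : ∀ v, {v} ∈ K'.faces → {g v} ∈ K.faces := by
    intro v hv
    have := hg _ hv
    rwa [Finset.image_singleton] at this
  refine ⟨fun w => ?_, ?_, σ.image f, hf σ hσ, fun w hw => ?_⟩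
  · dsimp only
    split_ifs
    · exact h1 _
    · exact le_rfl
  · rw [← Finset.sum_filter]
    have h4 : ∑ v, x v = ∑ v ∈ Finset.univ.filter (fun v => ({v} : Finset (Fin n)) ∈ K.faces), x v := by
      rw [Finset.sum_filter]
      apply Finset.sum_congr rfl
      intro v _
      split_ifs with h5
      · rfl
      · exact hv v h5
    rw [← h2, h4]
    apply Finset.sum_nbij' g f
    · intro w hw
      rw [Finset.mem_filter] at hw ⊢
      exact ⟨Finset.mem_univ _, hgv w hw.2⟩
    · intro w hw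
      rw [Finset.mem_filter] at hw ⊢
      exact ⟨Finset.mem_univ _, hfv w hw.2⟩
    · intro w hw
      rw [Finset.mem_filter] at hw
      exact hgf w hw.2
    · intro w hw
      rw [Finset.mem_filter] at hw
      exact hfg w hw.2
    · intro w hw
      rfl
  · dsimp only
    split_ifs with h5
    · apply h3
      intro h6
      exact hw (Finset.mem_image.mpr ⟨g w, h6, hgf w h5⟩)
    · rfl

theorem relabel_cont {n : ℕ} (K' : Cx n) (g : Fin n → Fin n) :
    Continuous (fun x : Fin n → ℝ => (fun w => if {w} ∈ K'.faces then x (g w) else 0 : Fin n → ℝ)) := by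
  apply continuous_pi
  intro w
  by_cases h : {w} ∈ K'.faces
  · simp only [h, if_true]
    exact continuous_apply _
  · simp only [h, if_false]
    exact continuous_const

theorem relabel_inv {n : ℕ} (K K' : Cx n) (f g : Fin n → Fin n)
    (hf : ∀ σ ∈ K.faces, σ.image f ∈ K'.faces)
    (hfg : ∀ v, {v} ∈ K.faces → g (f v) = v)
    (x : Fin n → ℝ) (hx : x ∈ K.space) :
    (fun v => if {v} ∈ K.faces then (if {f v} ∈ K'.faces then x (g (f v)) else 0) else 0) = x := by
  obtain ⟨h1, h2, σ, hσ, h3⟩ := hx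
  funext v
  by_cases hv : {v} ∈ K.faces
  · have h4 := hf _ hv
    rw [Finset.image_singleton] at h4
    rw [if_pos hv, if_pos h4, hfg v hv]
  · rw [if_neg hv]
    symm
    apply h3
    intro h4
    exact hv (K.down σ hσ {v} (Finset.singleton_subset_iff.mpr h4))

/-- TARGET 1: relabelling the vertices -/
theorem relabel_homeo {n : ℕ} (K K' : Cx n) (f g : Fin n → Fin n)
    (hf : ∀ σ ∈ K.faces, σ.image f ∈ K'.faces) (hg : ∀ σ ∈ K'.faces, σ.image g ∈ K.faces)
    (hfg : ∀ v, {v} ∈ K.faces → g (f v) = v) (hgf : ∀ v, {v} ∈ K'.faces → f (g v) = v) :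
    Nonempty (K.space ≃ₜ K'.space) := by
  refine ⟨{
    toFun := fun x => ⟨_, relabel_mem K K' f g hf hg hfg hgf x.1 x.2⟩
    invFun := fun x => ⟨_, relabel_mem K' K g f hg hf hgf hfg x.1 x.2⟩
    left_inv := ?_
    right_inv := ?_
    continuous_toFun := ?_
    continuous_invFun := ?_ }⟩
  · intro x
    exact Subtype.ext (relabel_inv K K' f g hf hfg x.1 x.2)
  · intro x
    exact Subtype.ext (relabel_inv K' K g f hg hgf x.1 x.2)
  · exact Continuous.subtype_mk ((relabel_cont K' g).comp continuous_subtype_val) _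
  · exact Continuous.subtype_mk ((relabel_cont K f).comp continuous_subtype_val) _

theorem foldl_testBit (t : List ℕ) (L : List ℕ) (acc j : ℕ) :
    (L.foldl (fun acc i => acc ||| (1 <<< (t.getD i 0))) acc).testBit j = true ↔
      acc.testBit j = true ∨ ∃ i ∈ L, t.getD i 0 = j := by
  induction L generalizing acc with
  | nil => simp
  | cons a L ih =>
    rw [List.foldl_cons, ih, Nat.testBit_or, Bool.or_eq_true, Nat.one_shiftLeft,
      Nat.testBit_two_pow, decide_eq_true_eq]
    constructor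
    · rintro ((h | h) | ⟨i, hi, h⟩)
      · exact Or.inl h
      · exact Or.inr ⟨a, List.mem_cons_self, h⟩
      · exact Or.inr ⟨i, List.mem_cons_of_mem _ hi, h⟩
    · rintro (h | ⟨i, hi, h⟩)
      · exact Or.inl (Or.inl h)
      · rcases List.mem_cons.mp hi with h' | h'
        · exact Or.inl (Or.inr (by rw [← h']; exact h))
        · exact Or.inr ⟨i, h', h⟩

theorem mem_bits {n m : ℕ} (v : Fin n) (h : v ∈ dec n m) : v.1 ∈ bits n m := by
  unfold dec at h
  rw [Finset.mem_filter] at h
  unfold bits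
  rw [List.mem_filter, List.mem_range]
  exact ⟨v.2, h.2⟩

theorem rel_faces (n : ℕ) (t l l' : List ℕ)
    (h1 : ∀ F ∈ l, relM n t F ∈ l') (h2 : ∀ F ∈ l, ∀ i ∈ bits n F, t.getD i 0 < n) :
    ∀ σ ∈ (ofL n l).faces, σ.image (fun v : Fin n => if h : t.getD v.1 0 < n then (⟨t.getD v.1 0, h⟩ : Fin n) else v)
      ∈ (ofL n l').faces := by
  intro σ hσ
  unfold ofL at hσ ⊢
  rw [Finset.mem_filter] at hσ ⊢
  refine ⟨Finset.mem_univ _, ?_⟩
  rcases hσ.2 with h | ⟨m, hm, h⟩
  · left
    rw [h, Finset.image_empty]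
  · right
    refine ⟨relM n t m, h1 m hm, ?_⟩
    intro w hw
    rw [Finset.mem_image] at hw
    obtain ⟨v, hv, rfl⟩ := hw
    have hb := mem_bits v (h hv)
    have ht := h2 m hm v.1 hb
    rw [dif_pos ht]
    unfold dec
    rw [Finset.mem_filter]
    refine ⟨Finset.mem_univ _, ?_⟩
    unfold relM
    rw [foldl_testBit]
    exact Or.inr ⟨v.1, hb, rfl⟩

/-- TARGET 2 -/
theorem relOK_homeo (n : ℕ) (t s l l' : List ℕ) (h : relOK n t s l l' = true) (hn : 0 < n) :
    Nonempty ((ofL n l).space ≃ₜ (ofL n l').space) := by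
  unfold relOK at h
  simp only [Bool.and_eq_true, List.all_eq_true, List.contains_iff_mem, decide_eq_true_eq,
    beq_iff_eq] at h
  obtain ⟨⟨⟨h1, h2⟩, h3⟩, h4⟩ := h
  apply relabel_homeo (ofL n l) (ofL n l')
    (fun v : Fin n => if h : t.getD v.1 0 < n then (⟨t.getD v.1 0, h⟩ : Fin n) else v)
    (fun v : Fin n => if h : s.getD v.1 0 < n then (⟨s.getD v.1 0, h⟩ : Fin n) else v)
    (rel_faces n t l l' h1 (fun F hF i hi => (h3 F hF i hi).1))
    (rel_faces n s l' l h2 (fun F hF i hi => (h4 F hF i hi).1))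
  · intro v hv
    unfold ofL at hv
    rw [Finset.mem_filter] at hv
    rcases hv.2 with h | ⟨m, hm, h⟩
    · exact absurd h (Finset.singleton_ne_empty v)
    · have hb := mem_bits v (h (Finset.mem_singleton_self v))
      obtain ⟨h5, h6⟩ := h3 m hm v.1 hb
      simp only [dif_pos h5, h6, v.2, dif_pos]
  · intro v hv
    unfold ofL at hv
    rw [Finset.mem_filter] at hv
    rcases hv.2 with h | ⟨m, hm, h⟩
    · exact absurd h (Finset.singleton_ne_empty v)
    · have hb := mem_bits v (h (Finset.mem_singleton_self v))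
      obtain ⟨h5, h6⟩ := h4 m hm v.1 hb
      simp only [dif_pos h5, h6, v.2, dif_pos]

end Pool.Agent.Helper585.Wk
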