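import Pool.Agent.Helper585.Wk.Lst

set_option autoImplicit false
namespace Pool.Agent.Helper585.Wk

theorem FlipData.symm' {n : ℕ} {K K' : Cx n} {A B : Finset (Fin n)} (h : FlipData K K' A B) :
    FlipData K' K B A where
  disj := h.disj.symm
  neA := h.neB
  neB := h.neA
  inK := fun σ hσ hB => by rw [Finset.union_comm]; exact h.inK' σ hσ hB
  inK' := fun σ hσ hA => by rw [Finset.union_comm]; exact h.inK σ hσ hA
  noB := h.noA
  noA := h.noB
  starK := fun σ hσ hA => h.starK' σ (by rw [Finset.union_comm]; exact hσ) hA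
  starK' := fun σ hσ hB => h.starK σ (by rw [Finset.union_comm]; exact hσ) hB
  same := fun σ hB hA => (h.same σ hA hB).symm

/-- minimum over `A` -/
noncomputable def mnA {n : ℕ} (A : Finset (Fin n)) (hA : A.Nonempty) (x : Fin n → ℝ) : ℝ :=
  A.inf' hA x

/-- the piecewise linear map -/
noncomputable def Fl {n : ℕ} (A B : Finset (Fin n)) (hA : A.Nonempty) (x : Fin n → ℝ) :
    Fin n → ℝ :=
  fun v => if v ∈ A then x v - mnA A hA x else
    if v ∈ B then x v + (A.card : ℝ) * mnA A hA x / (B.card : ℝ) else x v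

theorem continuous_mnA {n : ℕ} (A : Finset (Fin n)) (hA : A.Nonempty) :
    Continuous (mnA A hA) := by
  unfold mnA
  exact Continuous.finset_inf'_apply hA fun i _ => continuous_apply i

theorem continuous_Fl {n : ℕ} (A B : Finset (Fin n)) (hA : A.Nonempty) :
    Continuous (Fl A B hA) := by
  refine continuous_pi fun v => ?_
  unfold Fl
  have h1 := continuous_mnA A hA
  by_cases hvA : v ∈ A
  · simp only [if_pos hvA]
    exact (continuous_apply v).sub h1
  · simp only [if_neg hvA]
    by_cases hvB : v ∈ B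
    · simp only [if_pos hvB]
      exact (continuous_apply v).add ((continuous_const.mul h1).div_const _)
    · simp only [if_neg hvB]
      exact continuous_apply v

theorem mnA_le {n : ℕ} {A : Finset (Fin n)} (hA : A.Nonempty) (x : Fin n → ℝ) {v : Fin n}
    (hv : v ∈ A) : mnA A hA x ≤ x v := Finset.inf'_le _ hv

theorem exists_mnA {n : ℕ} {A : Finset (Fin n)} (hA : A.Nonempty) (x : Fin n → ℝ) :
    ∃ v ∈ A, mnA A hA x = x v := Finset.exists_mem_eq_inf' hA x

theorem mnA_nonneg {n : ℕ} {A : Finset (Fin n)} (hA : A.Nonempty) {x : Fin n → ℝ}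
    (hx : ∀ v, 0 ≤ x v) : 0 ≤ mnA A hA x := by
  obtain ⟨v, _, h⟩ := exists_mnA hA x
  rw [h]; exact hx v

/-- the support of a point of the space is a face -/
theorem supp_mem {n : ℕ} {K : Cx n} {x : Fin n → ℝ} (hx : x ∈ K.space) :
    Finset.univ.filter (fun v => x v ≠ 0) ∈ K.faces := by
  obtain ⟨_, _, σ, hσ, h⟩ := hx
  refine K.down σ hσ _ fun v hv => ?_
  by_contra hv'
  exact (Finset.mem_filter.1 hv).2 (h v hv')

theorem Fl_sum {n : ℕ} {K K' : Cx n} {A B : Finset (Fin n)} (h : FlipData K K' A B)
    (x : Fin n → ℝ) : ∑ v, Fl A B h.neA x v = ∑ v, x v := by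
  have h1 : ∀ v, Fl A B h.neA x v = x v - (if v ∈ A then mnA A h.neA x else 0) +
      (if v ∈ B then (A.card : ℝ) * mnA A h.neA x / (B.card : ℝ) else 0) := by
    intro v
    unfold Fl
    by_cases hvA : v ∈ A
    · have hvB : v ∉ B := Finset.disjoint_left.1 h.disj hvA
      simp [hvA, hvB]
    · by_cases hvB : v ∈ B <;> simp [hvA, hvB]
  have hb : (B.card : ℝ) ≠ 0 := by
    have := h.neB.card_pos
    positivity
  simp only [h1]
  rw [Finset.sum_add_distrib, Finset.sum_sub_distrib, Finset.sum_ite_mem, Finset.sum_ite_mem,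
    Finset.univ_inter, Finset.univ_inter, Finset.sum_const, Finset.sum_const, nsmul_eq_mul,
    nsmul_eq_mul, mul_div_cancel₀ _ hb]
  ring

theorem not_B_sub {n : ℕ} {K K' : Cx n} {A B : Finset (Fin n)} (h : FlipData K K' A B)
    {x : Fin n → ℝ} (hx : x ∈ K.space) : ∃ v ∈ B, x v = 0 := by
  by_contra hcon
  push Not at hcon
  refine h.noB (K.down _ (supp_mem hx) _ fun v hv => ?_)
  exact Finset.mem_filter.2 ⟨Finset.mem_univ _, hcon v hv⟩

theorem Fl_mem {n : ℕ} {K K' : Cx n} {A B : Finset (Fin n)} (h : FlipData K K' A B)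
    {x : Fin n → ℝ} (hx : x ∈ K.space) : Fl A B h.neA x ∈ K'.space := by
  have hx0 := hx.1
  have hm0 := mnA_nonneg h.neA hx0
  refine ⟨fun v => ?_, ?_, ?_⟩
  · unfold Fl
    split_ifs with h1 h2
    · have := mnA_le h.neA x h1
      linarith
    · have := hx0 v
      positivity
    · exact hx0 v
  · rw [Fl_sum h]
    exact hx.2.1
  · by_cases hA : A ⊆ Finset.univ.filter (fun v => x v ≠ 0)
    · have hin := h.inK _ (supp_mem hx) hA
      refine ⟨Finset.univ.filter (fun v => Fl A B h.neA x v ≠ 0), ?_, ?_⟩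
      · apply h.starK'
        · intro v hv
          by_contra hvU
          rw [Finset.mem_union, not_or] at hvU
          have h1 : Fl A B h.neA x v = x v := by
            unfold Fl; rw [if_neg hvU.1, if_neg hvU.2]
          have h2 := (Finset.mem_filter.1 hv).2
          rw [h1] at h2
          have h3 := hin (Finset.mem_filter.2 ⟨Finset.mem_univ v, h2⟩)
          rw [Finset.mem_union] at h3
          tauto
        · intro hsub
          obtain ⟨a, ha, hma⟩ := exists_mnA h.neA x
          have h1 := (Finset.mem_filter.1 (hsub ha)).2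
          apply h1
          unfold Fl
          rw [if_pos ha, hma, sub_self]
      · intro v hv
        by_contra h1
        exact hv (Finset.mem_filter.2 ⟨Finset.mem_univ v, h1⟩)
    · have hm : mnA A h.neA x = 0 := by
        rw [Finset.not_subset] at hA
        obtain ⟨a, ha, ha'⟩ := hA
        have h1 : x a = 0 := by
          by_contra h2
          exact ha' (Finset.mem_filter.2 ⟨Finset.mem_univ a, h2⟩)
        have h2 := mnA_le h.neA x ha
        linarith
      have hFl : Fl A B h.neA x = x := by
        funext v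
        unfold Fl
        rw [hm]
        split_ifs <;> simp
      rw [hFl]
      refine ⟨Finset.univ.filter (fun v => x v ≠ 0), ?_, ?_⟩
      · refine (h.same _ hA ?_).1 (supp_mem hx)
        intro hB
        exact h.noB (K.down _ (supp_mem hx) _ hB)
      · intro v hv
        by_contra h1
        exact hv (Finset.mem_filter.2 ⟨Finset.mem_univ v, h1⟩)

theorem Fl_Fl {n : ℕ} {K K' : Cx n} {A B : Finset (Fin n)} (h : FlipData K K' A B)
    {x : Fin n → ℝ} (hx : x ∈ K.space) : Fl B A h.neB (Fl A B h.neA x) = x := by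
  have ha : (A.card : ℝ) ≠ 0 := by
    have := h.neA.card_pos
    positivity
  have hb : (B.card : ℝ) ≠ 0 := by
    have := h.neB.card_pos
    positivity
  have hB : ∀ v ∈ B, Fl A B h.neA x v = x v + (A.card : ℝ) * mnA A h.neA x / (B.card : ℝ) := by
    intro v hv
    have hvA : v ∉ A := Finset.disjoint_right.1 h.disj hv
    unfold Fl
    rw [if_neg hvA, if_pos hv]
  obtain ⟨w, hw, hxw⟩ := not_B_sub h hx
  have hmB : mnA B h.neB (Fl A B h.neA x) = (A.card : ℝ) * mnA A h.neA x / (B.card : ℝ) := by
    apply le_antisymm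
    · refine (mnA_le h.neB _ hw).trans (le_of_eq ?_)
      rw [hB w hw, hxw, zero_add]
    · obtain ⟨u, hu, hmu⟩ := exists_mnA h.neB (Fl A B h.neA x)
      rw [hmu, hB u hu]
      have := hx.1 u
      linarith
  funext v
  by_cases hvB : v ∈ B
  · have h1 : Fl B A h.neB (Fl A B h.neA x) v =
        Fl A B h.neA x v - mnA B h.neB (Fl A B h.neA x) := by
      conv_lhs => unfold Fl
      rw [if_pos hvB]
      rfl
    rw [h1, hmB, hB v hvB]
    ring
  · by_cases hvA : v ∈ A
    · have h1 : Fl B A h.neB (Fl A B h.neA x) v =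
          Fl A B h.neA x v + (B.card : ℝ) * mnA B h.neB (Fl A B h.neA x) / (A.card : ℝ) := by
        conv_lhs => unfold Fl
        rw [if_neg hvB, if_pos hvA]
        rfl
      have h2 : Fl A B h.neA x v = x v - mnA A h.neA x := by
        unfold Fl; rw [if_pos hvA]
      rw [h1, hmB, h2]
      field_simp
      ring
    · have h1 : Fl B A h.neB (Fl A B h.neA x) v = Fl A B h.neA x v := by
        conv_lhs => unfold Fl
        rw [if_neg hvB, if_neg hvA]
        rfl
      have h2 : Fl A B h.neA x v = x v := by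
        unfold Fl; rw [if_neg hvA, if_neg hvB]
      rw [h1, h2]

/-- the homeomorphism of a flip -/
noncomputable def flipHomeo {n : ℕ} {K K' : Cx n} {A B : Finset (Fin n)}
    (h : FlipData K K' A B) : K.space ≃ₜ K'.space where
  toFun := fun x => ⟨Fl A B h.neA x.1, Fl_mem h x.2⟩
  invFun := fun y => ⟨Fl B A h.neB y.1, Fl_mem h.symm' y.2⟩
  left_inv := fun x => Subtype.ext (Fl_Fl h x.2)
  right_inv := fun y => Subtype.ext (Fl_Fl h.symm' y.2)
  continuous_toFun :=
    ((continuous_Fl A B h.neA).comp continuous_subtype_val).subtype_mk _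
  continuous_invFun :=
    ((continuous_Fl B A h.neB).comp continuous_subtype_val).subtype_mk _

/-- TARGET 1: a bistellar flip does not change the space -/
theorem flip_homeo {n : ℕ} (K K' : Cx n) (A B : Finset (Fin n)) (h : FlipData K K' A B) :
    Nonempty (K.space ≃ₜ K'.space) := ⟨flipHomeo h⟩

/-- TARGET 2: the same for the stellar subdivision of a facet, with the linear formula -/
theorem stellar_homeo {n : ℕ} (K K' : Cx n) (A : Finset (Fin n)) (b : Fin n)
    (h : FlipData K K' A {b}) :
    ∃ r : K'.space ≃ₜ K.space, ∀ (y : K'.space) (v : Fin n), (r y).1 v =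
      if v = b then 0 else if v ∈ A then y.1 v + y.1 b / A.card else y.1 v := by
  refine ⟨(flipHomeo h).symm, fun y v => ?_⟩
  have h1 : ((flipHomeo h).symm y).1 v = Fl {b} A h.neB y.1 v := rfl
  have h2 : mnA {b} h.neB y.1 = y.1 b := by
    unfold mnA
    exact Finset.inf'_singleton _
  rw [h1]
  unfold Fl
  rw [h2]
  by_cases hvb : v = b
  · subst hvb
    rw [if_pos (Finset.mem_singleton_self v), if_pos rfl, sub_self]
  · rw [if_neg (fun hh => hvb (Finset.mem_singleton.1 hh)), if_neg hvb, Finset.card_singleton,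
      Nat.cast_one, one_mul]

end Pool.Agent.Helper585.Wk
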