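import Pool.Agent.Helper585.Wk.Lst
import Pool.Agent.Helper585.Wk.GeoC1

set_option autoImplicit false
namespace Pool.Agent.Helper585.Wk

theorem mem_dec' {n m : ℕ} {i : Fin n} : i ∈ dec n m ↔ m.testBit i.1 = true := by
  simp [dec]

theorem subm_iff' {a b : ℕ} : subm a b = true ↔ ∀ i, a.testBit i = true → b.testBit i = true := by
  unfold subm
  rw [beq_iff_eq]
  constructor
  · intro h i hi
    have h2 := congrArg (fun z => Nat.testBit z i) h
    simp only [Nat.testBit_and, hi, Bool.true_and] at h2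
    exact h2
  · intro h
    apply Nat.eq_of_testBit_eq
    intro i
    rw [Nat.testBit_and]
    cases hi : a.testBit i
    · simp
    · rw [h i hi]; rfl

theorem lt_of_testBit' {n m i : ℕ} (hm : m < 2 ^ n) (hi : m.testBit i = true) : i < n := by
  by_contra hc
  push Not at hc
  have h1 : m < 2 ^ i := lt_of_lt_of_le hm (Nat.pow_le_pow_right (by norm_num) hc)
  rw [Nat.testBit_lt_two_pow h1] at hi
  exact absurd hi (by decide)

theorem subm_of_dec' {n a b : ℕ} (ha : a < 2 ^ n) (h : dec n a ⊆ dec n b) : subm a b = true := by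
  rw [subm_iff']
  intro i hi
  have hin := lt_of_testBit' ha hi
  exact mem_dec'.1 (h (mem_dec' (i := ⟨i, hin⟩).2 hi))

theorem dec_nonempty' {n a : ℕ} (ha : a < 2 ^ n) (h0 : a ≠ 0) : (dec n a).Nonempty := by
  by_contra hc
  rw [Finset.not_nonempty_iff_eq_empty] at hc
  apply h0
  apply Nat.eq_of_testBit_eq
  intro i
  rw [Nat.zero_testBit]
  cases hi : a.testBit i
  · rfl
  · exfalso
    have hin := lt_of_testBit' ha hi
    have h2 : (⟨i, hin⟩ : Fin n) ∈ dec n a := mem_dec'.2 hi
    rw [hc] at h2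
    simp at h2

theorem mem_rems' {n U B F : ℕ} : F ∈ rems n U B ↔ ∃ i, i < n ∧ B.testBit i = true ∧ F = U ^^^ (1 <<< i) := by
  unfold rems
  simp only [List.mem_map, List.mem_filter, List.mem_range]
  constructor
  · rintro ⟨i, ⟨h1, h2⟩, h3⟩
    exact ⟨i, h1, h2, h3.symm⟩
  · rintro ⟨i, h1, h2, h3⟩
    exact ⟨i, ⟨h1, h2⟩, h3.symm⟩

theorem mem_dec_xor' {n U i : ℕ} (hU : U.testBit i = true) (j : Fin n) :
    j ∈ dec n (U ^^^ (1 <<< i)) ↔ j ∈ dec n U ∧ j.1 ≠ i := by
  rw [mem_dec', mem_dec', Nat.testBit_xor, Nat.one_shiftLeft, Nat.testBit_two_pow]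
  by_cases h : i = j.1
  · subst h
    simp [hU]
  · have h' : j.1 ≠ i := fun e => h e.symm
    simp [h, h']

theorem dec_or' (n A B : ℕ) : dec n (A ||| B) = dec n A ∪ dec n B := by
  ext j
  rw [Finset.mem_union, mem_dec', mem_dec', mem_dec', Nat.testBit_or, Bool.or_eq_true]

theorem mem_ofL' {n : ℕ} {l : List ℕ} {σ : Finset (Fin n)} :
    σ ∈ (ofL n l).faces ↔ σ = ∅ ∨ ∃ m ∈ l, σ ⊆ dec n m := by
  simp [ofL]

/-- TARGET 1 -/
theorem flipL_data (n A B : ℕ) (l l' : List ℕ) (h : flipL n (A, B) l = some l') :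
    FlipData (ofL n l) (ofL n l') (dec n A) (dec n B) := by
  unfold flipL at h
  simp only at h
  rcases hc : ((A &&& B) == 0 && A != 0 && B != 0 && decide ((A ||| B).log2 < n) &&
    (rems n (A ||| B) B).all (fun F => l.contains F) &&
    (l.filter (fun F => subm A F)).all (fun F => (rems n (A ||| B) B).contains F) &&
    l.all (fun F => !(subm B F))) with _ | _
  · rw [hc] at h
    simp at h
  rw [hc] at h
  simp only [cond_true, Option.some.injEq] at h
  simp only [Bool.and_eq_true, beq_iff_eq, bne_iff_ne, ne_eq, decide_eq_true_eq, List.all_eq_true,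
    List.contains_iff_mem, Bool.not_eq_true', List.mem_filter] at hc
  obtain ⟨⟨⟨⟨⟨⟨hAB, hA0⟩, hB0⟩, hlog⟩, hrem⟩, hfil⟩, hnoB⟩ := hc
  have hU : A ||| B < 2 ^ n := by
    by_cases h0 : A ||| B = 0
    · rw [h0]; positivity
    · exact (Nat.log2_lt h0).1 hlog
  have hAn : A < 2 ^ n := lt_of_le_of_lt Nat.left_le_or hU
  have hBn : B < 2 ^ n := lt_of_le_of_lt Nat.right_le_or hU
  have hneA := dec_nonempty' hAn hA0
  have hneB := dec_nonempty' hBn hB0
  have hUA : ∀ i, A.testBit i = true → (A ||| B).testBit i = true := by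
    intro i hi
    rw [Nat.testBit_or, hi]; rfl
  have hUB : ∀ i, B.testBit i = true → (A ||| B).testBit i = true := by
    intro i hi
    rw [Nat.testBit_or, hi, Bool.or_true]
  have hsubB : ∀ F ∈ rems n (A ||| B) B, dec n F ⊆ dec n A ∪ dec n B := by
    intro F hF
    obtain ⟨i, hi, hBi, rfl⟩ := mem_rems'.1 hF
    intro j hj
    rw [← dec_or']
    exact ((mem_dec_xor' (hUB i hBi) j).1 hj).1
  have hsubA : ∀ F ∈ rems n (A ||| B) A, dec n F ⊆ dec n A ∪ dec n B := by
    intro F hF
    obtain ⟨i, hi, hAi, rfl⟩ := mem_rems'.1 hF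
    intro j hj
    rw [← dec_or']
    exact ((mem_dec_xor' (hUA i hAi) j).1 hj).1
  have hstar : ∀ σ, σ ⊆ dec n A ∪ dec n B → ¬ dec n B ⊆ σ → σ ∈ (ofL n l).faces := by
    intro σ hσ hB
    rw [Finset.not_subset] at hB
    obtain ⟨b, hb, hbσ⟩ := hB
    have hb' := mem_dec'.1 hb
    rw [mem_ofL']
    right
    refine ⟨(A ||| B) ^^^ (1 <<< b.1), hrem _ (mem_rems'.2 ⟨b.1, b.2, hb', rfl⟩), ?_⟩
    intro j hj
    rw [mem_dec_xor' (hUB b.1 hb')]
    refine ⟨?_, ?_⟩
    · rw [dec_or']
      exact hσ hj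
    · intro e
      apply hbσ
      have : j = b := Fin.ext e
      rw [← this]
      exact hj
  have hstar' : ∀ σ, σ ⊆ dec n A ∪ dec n B → ¬ dec n A ⊆ σ → σ ∈ (ofL n l').faces := by
    intro σ hσ hA
    rw [Finset.not_subset] at hA
    obtain ⟨b, hb, hbσ⟩ := hA
    have hb' := mem_dec'.1 hb
    rw [mem_ofL']
    right
    refine ⟨(A ||| B) ^^^ (1 <<< b.1), ?_, ?_⟩
    · rw [← h]
      exact List.mem_append_left _ (mem_rems'.2 ⟨b.1, b.2, hb', rfl⟩)
    intro j hj
    rw [mem_dec_xor' (hUA b.1 hb')]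
    refine ⟨?_, ?_⟩
    · rw [dec_or']
      exact hσ hj
    · intro e
      apply hbσ
      have : j = b := Fin.ext e
      rw [← this]
      exact hj
  refine ⟨?_, hneA, hneB, ?_, ?_, ?_, ?_, hstar, hstar', ?_⟩
  · rw [Finset.disjoint_left]
    intro i h1 h2
    have h3 : (A &&& B).testBit i.1 = true := by
      rw [Nat.testBit_and, mem_dec'.1 h1, mem_dec'.1 h2]; rfl
    rw [hAB, Nat.zero_testBit] at h3
    exact absurd h3 (by decide)
  · intro σ hσ hAσ
    rcases mem_ofL'.1 hσ with h0 | ⟨F, hF, hσF⟩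
    · rw [h0]
      exact Finset.empty_subset _
    · have h1 := subm_of_dec' hAn (hAσ.trans hσF)
      exact hσF.trans (hsubB F (hfil F ⟨hF, h1⟩))
  · intro σ hσ hBσ
    rcases mem_ofL'.1 hσ with h0 | ⟨F, hF, hσF⟩
    · rw [h0]
      exact Finset.empty_subset _
    · rw [← h, List.mem_append, List.mem_filter] at hF
      rcases hF with hF | hF
      · exact hσF.trans (hsubA F hF)
      · have h1 := subm_of_dec' hBn (hBσ.trans hσF)
        rw [hnoB F hF.1] at h1
        exact absurd h1 (by decide)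
  · intro hB
    rcases mem_ofL'.1 hB with h0 | ⟨F, hF, hσF⟩
    · rw [h0] at hneB
      exact absurd hneB Finset.not_nonempty_empty
    · have h1 := subm_of_dec' hBn hσF
      rw [hnoB F hF] at h1
      exact absurd h1 (by decide)
  · intro hA
    rcases mem_ofL'.1 hA with h0 | ⟨F, hF, hσF⟩
    · rw [h0] at hneA
      exact absurd hneA Finset.not_nonempty_empty
    · rw [← h, List.mem_append, List.mem_filter] at hF
      rcases hF with hF | hF
      · obtain ⟨i, hi, hAi, rfl⟩ := mem_rems'.1 hF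
        have h2 : (⟨i, hi⟩ : Fin n) ∈ dec n A := mem_dec'.2 hAi
        have h3 := (mem_dec_xor' (hUA i hAi) ⟨i, hi⟩).1 (hσF h2)
        exact h3.2 rfl
      · have h1 := subm_of_dec' hAn hσF
        have h2 := hF.2
        rw [h1] at h2
        exact absurd h2 (by decide)
  · intro σ hA hB
    constructor
    · intro hσ
      rcases mem_ofL'.1 hσ with h0 | ⟨F, hF, hσF⟩
      · rw [mem_ofL']
        exact Or.inl h0
      · rcases hs : subm A F with _ | _
        · rw [mem_ofL']
          right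
          refine ⟨F, ?_, hσF⟩
          rw [← h, List.mem_append, List.mem_filter]
          right
          exact ⟨hF, by rw [hs]; rfl⟩
        · exact hstar' σ (hσF.trans (hsubB F (hfil F ⟨hF, hs⟩))) hA
    · intro hσ
      rcases mem_ofL'.1 hσ with h0 | ⟨F, hF, hσF⟩
      · rw [mem_ofL']
        exact Or.inl h0
      · rw [← h, List.mem_append, List.mem_filter] at hF
        rcases hF with hF | hF
        · exact hstar σ (hσF.trans (hsubA F hF)) hB
        · rw [mem_ofL']
          exact Or.inr ⟨F, hF.1, hσF⟩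

/-- TARGET 2 -/
theorem runL_homeo (n : ℕ) (ps : List (ℕ × ℕ)) (l l' : List ℕ) (h : runL n ps l = some l') :
    Nonempty ((ofL n l).space ≃ₜ (ofL n l').space) := by
  induction ps generalizing l with
  | nil =>
    simp only [runL, Option.some.injEq] at h
    rw [h]
    exact ⟨Homeomorph.refl _⟩
  | cons p ps ih =>
    simp only [runL] at h
    cases hp : flipL n p l with
    | none =>
      rw [hp] at h
      simp at h
    | some m =>
      rw [hp] at h
      simp only at h
      obtain ⟨e1⟩ := flip_homeo _ _ _ _ (flipL_data n p.1 p.2 l m hp)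
      obtain ⟨e2⟩ := ih m h
      exact ⟨e1.trans e2⟩

theorem Cx_ext' {n : ℕ} (K K' : Cx n) (h : K.faces = K'.faces) : K = K' := by
  cases K
  cases K'
  simp only at h
  subst h
  rfl

/-- TARGET 3 -/
theorem ofL_congr (n : ℕ) (l l' : List ℕ) (h : sameL l l' = true) : ofL n l = ofL n l' := by
  unfold sameL at h
  simp only [Bool.and_eq_true, List.all_eq_true, List.contains_iff_mem] at h
  apply Cx_ext'
  ext σ
  rw [mem_ofL', mem_ofL']
  constructor
  · rintro (h0 | ⟨F, hF, hs⟩)
    · exact Or.inl h0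
    · exact Or.inr ⟨F, h.1 F hF, hs⟩
  · rintro (h0 | ⟨F, hF, hs⟩)
    · exact Or.inl h0
    · exact Or.inr ⟨F, h.2 F hF, hs⟩

end Pool.Agent.Helper585.Wk
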