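import Pool.Agent.Helper585.Wk.Lst

set_option autoImplicit false
namespace Pool.Agent.Helper585.Wk

/-- the projection from the vertex `v` to the link -/
noncomputable def chLnk {n : ℕ} (v : Fin n) (x : Fin n → ℝ) : Fin n → ℝ :=
  fun i => if i = v then 0 else x i / (1 - x v)

theorem chLnkMem {n : ℕ} {K : Cx n} {v : Fin n} {x : Fin n → ℝ} (hx : x ∈ K.space)
    (h0 : 0 < x v) (h1 : x v < 1) : chLnk v x ∈ (K.link v).space := by
  obtain ⟨hn, hs, σ, hσ, hz⟩ := hx
  have hvσ : v ∈ σ := by
    by_contra hc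
    exact h0.ne' (hz v hc)
  refine ⟨?_, ?_, σ.erase v, ?_, ?_⟩
  · intro i
    unfold chLnk
    split_ifs
    · exact le_rfl
    · exact div_nonneg (hn i) (by linarith)
  · have h4 : x v + ∑ i ∈ Finset.univ.erase v, x i = 1 := by
      rw [Finset.add_sum_erase _ _ (Finset.mem_univ v), hs]
    have h5 : ∑ i ∈ Finset.univ.erase v, x i = 1 - x v := by linarith
    rw [← Finset.add_sum_erase _ _ (Finset.mem_univ v)]
    have h2 : chLnk v x v = 0 := by simp [chLnk]
    rw [h2, zero_add]
    have h3 : ∀ i ∈ Finset.univ.erase v, chLnk v x i = x i / (1 - x v) := by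
      intro i hi
      simp [chLnk, Finset.ne_of_mem_erase hi]
    rw [Finset.sum_congr rfl h3, ← Finset.sum_div, h5, div_self (by linarith)]
  · simp only [Cx.link]
    rw [Finset.mem_filter]
    refine ⟨Finset.mem_univ _, Or.inr ⟨Finset.notMem_erase v σ, ?_⟩⟩
    rw [Finset.insert_erase hvσ]
    exact hσ
  · intro i hi
    unfold chLnk
    split_ifs with h
    · rfl
    · rw [hz i (fun hc => hi (Finset.mem_erase.mpr ⟨h, hc⟩)), zero_div]

/-- the vertex `v` -/
noncomputable def chEv {n : ℕ} (v : Fin n) : Fin n → ℝ := fun i => if i = v then 1 else 0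

theorem chEvMem {n : ℕ} {K : Cx n} {v : Fin n} (hv : {v} ∈ K.faces) : chEv v ∈ K.space := by
  refine ⟨?_, ?_, {v}, hv, ?_⟩
  · intro i
    unfold chEv
    split_ifs <;> norm_num
  · simp [chEv]
  · intro i hi
    rw [Finset.mem_singleton] at hi
    simp [chEv, hi]

/-- the point at distance `t` from the vertex `v` on the ray to `p` -/
noncomputable def chCnp {n : ℕ} (v : Fin n) (t : ℝ) (p : Fin n → ℝ) : Fin n → ℝ :=
  fun i => (1 - t) * chEv v i + t * p i

theorem chLinkV {n : ℕ} {K : Cx n} {v : Fin n} {p : Fin n → ℝ} (hp : p ∈ (K.link v).space) :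
    p v = 0 := by
  obtain ⟨hn, hs, σ, hσ, hz⟩ := hp
  simp only [Cx.link] at hσ
  rw [Finset.mem_filter] at hσ
  rcases hσ.2 with h | ⟨h1, h2⟩
  · exact hz v (by rw [h]; exact Finset.notMem_empty v)
  · exact hz v h1

theorem chCnpMem {n : ℕ} {K : Cx n} {v : Fin n} {p : Fin n → ℝ} (hp : p ∈ (K.link v).space)
    {t : ℝ} (h0 : 0 ≤ t) (h1 : t ≤ 1) : chCnp v t p ∈ K.space := by
  obtain ⟨hn, hs, σ, hσ, hz⟩ := hp
  simp only [Cx.link] at hσ
  rw [Finset.mem_filter] at hσ
  rcases hσ.2 with h | ⟨h3, h2⟩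
  · exfalso
    have : ∑ i, p i = 0 := Finset.sum_eq_zero fun i _ => hz i (by rw [h]; exact Finset.notMem_empty i)
    rw [hs] at this
    exact one_ne_zero this
  · refine ⟨?_, ?_, insert v σ, h2, ?_⟩
    · intro i
      unfold chCnp
      have h5 : 0 ≤ chEv v i := by
        unfold chEv
        split_ifs <;> norm_num
      have := mul_nonneg (sub_nonneg.mpr h1) h5
      have := mul_nonneg h0 (hn i)
      linarith
    · unfold chCnp
      rw [Finset.sum_add_distrib, ← Finset.mul_sum, ← Finset.mul_sum, hs]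
      have : ∑ i, chEv v i = 1 := by simp [chEv]
      rw [this]
      ring
    · intro i hi
      rw [Finset.mem_insert, not_or] at hi
      unfold chCnp
      rw [hz i hi.2]
      simp [chEv, hi.1]

section chart
variable {n : ℕ} {K : Cx n} {v : Fin n}
  (h : (K.link v).space ≃ₜ Metric.sphere (0 : EuclideanSpace ℝ (Fin 4)) 1)

open Classical in
/-- the chart -/
noncomputable def chF (x : K.space) : EuclideanSpace ℝ (Fin 4) :=
  if hx : 0 < x.1 v ∧ x.1 v < 1 then
    (1 - x.1 v) • (h ⟨chLnk v x.1, chLnkMem x.2 hx.1 hx.2⟩ : EuclideanSpace ℝ (Fin 4)) else 0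

theorem chNrm {w : EuclideanSpace ℝ (Fin 4)} (hw : w ≠ 0) :
    ‖w‖⁻¹ • w ∈ Metric.sphere (0 : EuclideanSpace ℝ (Fin 4)) 1 := by
  rw [mem_sphere_zero_iff_norm, norm_smul, norm_inv, norm_norm,
    inv_mul_cancel₀ (norm_ne_zero_iff.mpr hw)]

open Classical in
/-- the inverse of the chart -/
noncomputable def chG (hv : {v} ∈ K.faces) (w : EuclideanSpace ℝ (Fin 4)) : K.space :=
  if hw : w ≠ 0 ∧ ‖w‖ < 1 then
    ⟨chCnp v ‖w‖ (h.symm ⟨‖w‖⁻¹ • w, chNrm hw.1⟩ : Fin n → ℝ),
      chCnpMem (h.symm ⟨‖w‖⁻¹ • w, chNrm hw.1⟩).2 (norm_nonneg _) hw.2.le⟩ else ⟨chEv v, chEvMem hv⟩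

theorem chLeOne (x : K.space) : x.1 v ≤ 1 := by
  obtain ⟨hn, hs, -⟩ := x.2
  rw [← hs]
  exact Finset.single_le_sum (fun i _ => hn i) (Finset.mem_univ v)

theorem chEqEv (x : K.space) (hx : x.1 v = 1) : x.1 = chEv v := by
  obtain ⟨hn, hs, -⟩ := x.2
  have h4 : x.1 v + ∑ i ∈ Finset.univ.erase v, x.1 i = 1 := by
    rw [Finset.add_sum_erase _ _ (Finset.mem_univ v), hs]
  have h5 : ∑ i ∈ Finset.univ.erase v, x.1 i = 0 := by linarith
  rw [Finset.sum_eq_zero_iff_of_nonneg (fun i _ => hn i)] at h5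
  funext i
  unfold chEv
  split_ifs with hi
  · rw [hi, hx]
  · exact h5 i (Finset.mem_erase.mpr ⟨hi, Finset.mem_univ i⟩)

theorem chF_norm (x : K.space) (hx : 0 < x.1 v) : ‖chF h x‖ = 1 - x.1 v := by
  unfold chF
  split_ifs with h1
  · rw [norm_smul, norm_eq_of_mem_sphere, mul_one, Real.norm_of_nonneg (by linarith [h1.2])]
  · have h2 : ¬ (x.1 v < 1) := fun h2 => h1 ⟨hx, h2⟩
    have h3 := chLeOne (v := v) x
    rw [norm_zero]
    linarith

theorem chG_v (hv : {v} ∈ K.faces) (w : EuclideanSpace ℝ (Fin 4)) (hw : ‖w‖ < 1) :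
    (chG h hv w).1 v = 1 - ‖w‖ := by
  unfold chG
  split_ifs with h1
  · change chCnp v ‖w‖ _ v = _
    unfold chCnp
    rw [chLinkV (h.symm ⟨‖w‖⁻¹ • w, chNrm h1.1⟩).2]
    simp [chEv]
  · have h2 : w = 0 := by
      by_contra hc
      exact h1 ⟨hc, hw⟩
    change chEv v v = _
    rw [h2]
    simp [chEv]

theorem chF_of (x : K.space) (hx : 0 < x.1 v ∧ x.1 v < 1) : chF h x =
    (1 - x.1 v) • (h ⟨chLnk v x.1, chLnkMem x.2 hx.1 hx.2⟩ : EuclideanSpace ℝ (Fin 4)) := by
  unfold chF
  rw [dif_pos hx]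

theorem chG_of (hv : {v} ∈ K.faces) (w : EuclideanSpace ℝ (Fin 4)) (hw : w ≠ 0 ∧ ‖w‖ < 1) :
    (chG h hv w).1 = chCnp v ‖w‖ (h.symm ⟨‖w‖⁻¹ • w, chNrm hw.1⟩ : Fin n → ℝ) := by
  unfold chG
  rw [dif_pos hw]

theorem chG_zero (hv : {v} ∈ K.faces) : (chG h hv 0).1 = chEv v := by
  unfold chG
  rw [dif_neg (fun hc => hc.1 rfl)]

theorem ch_left (hv : {v} ∈ K.faces) (x : K.space) (hx : 0 < x.1 v) :
    chG h hv (chF h x) = x := by
  rcases (chLeOne (v := v) x).lt_or_eq with h1 | h1
  · have hn := chF_norm h x hx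
    have hne : chF h x ≠ 0 := by
      rw [← norm_ne_zero_iff, hn]
      linarith
    apply Subtype.ext
    rw [chG_of h hv _ ⟨hne, by rw [hn]; linarith⟩]
    have h2 : (⟨‖chF h x‖⁻¹ • chF h x, chNrm hne⟩ :
        Metric.sphere (0 : EuclideanSpace ℝ (Fin 4)) 1) =
        h ⟨chLnk v x.1, chLnkMem x.2 hx h1⟩ := by
      apply Subtype.ext
      change ‖chF h x‖⁻¹ • chF h x = _
      rw [hn, chF_of h x ⟨hx, h1⟩, smul_smul, inv_mul_cancel₀ (by linarith), one_smul]
    rw [h2, h.symm_apply_apply, hn]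
    funext i
    simp only [chCnp, chEv, chLnk]
    have h3 : 1 - x.1 v ≠ 0 := by linarith
    split_ifs with hi
    · rw [hi]; ring
    · field_simp
      ring
  · have h2 : chF h x = 0 := by
      rw [← norm_eq_zero, chF_norm h x hx, h1, sub_self]
    rw [h2]
    apply Subtype.ext
    rw [chG_zero, chEqEv x h1]

theorem ch_right (hv : {v} ∈ K.faces) (w : EuclideanSpace ℝ (Fin 4)) (hw : ‖w‖ < 1) :
    chF h (chG h hv w) = w := by
  have h0 := chG_v h hv w hw
  by_cases hne : w = 0
  · have h5 : ‖chF h (chG h hv w)‖ = 0 := by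
      rw [chF_norm h _ (by rw [h0]; linarith), h0, hne, norm_zero]
      ring
    rw [norm_eq_zero.mp h5, hne]
  · have hpos : 0 < ‖w‖ := norm_pos_iff.mpr hne
    have h1 : 0 < (chG h hv w).1 v ∧ (chG h hv w).1 v < 1 := by
      rw [h0]
      constructor <;> linarith
    rw [chF_of h _ h1]
    have h2 : (⟨chLnk v (chG h hv w).1, chLnkMem (chG h hv w).2 h1.1 h1.2⟩ : (K.link v).space) =
        h.symm ⟨‖w‖⁻¹ • w, chNrm hne⟩ := by
      apply Subtype.ext
      change chLnk v (chG h hv w).1 = _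
      funext i
      unfold chLnk
      rw [h0]
      split_ifs with hi
      · rw [hi, chLinkV (h.symm ⟨‖w‖⁻¹ • w, chNrm hne⟩).2]
      · rw [chG_of h hv w ⟨hne, hw⟩]
        unfold chCnp
        simp only [chEv, if_neg hi]
        rw [sub_sub_cancel, mul_zero, zero_add, mul_div_cancel_left₀ _ hpos.ne']
    rw [h2, h.apply_symm_apply]
    change (1 - (chG h hv w).1 v) • (‖w‖⁻¹ • w) = w
    rw [h0]
    rw [smul_smul, sub_sub_cancel, mul_inv_cancel₀ hpos.ne', one_smul]

theorem chF_cont : ContinuousOn (chF h) {x | 0 < x.1 v} := by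
  have hcv : Continuous fun x : K.space => x.1 v :=
    (continuous_apply v).comp continuous_subtype_val
  intro x hx
  rcases (chLeOne (v := v) x).lt_or_eq with h1 | h1
  · apply ContinuousAt.continuousWithinAt
    have hV : IsOpen {x : K.space | 0 < x.1 v ∧ x.1 v < 1} :=
      (isOpen_lt continuous_const hcv).inter (isOpen_lt hcv continuous_const)
    have hc : ContinuousOn (chF h) {x : K.space | 0 < x.1 v ∧ x.1 v < 1} := by
      rw [continuousOn_iff_continuous_domRestrict]
      have he : Set.domRestrict {x : K.space | 0 < x.1 v ∧ x.1 v < 1} (chF h) = fun x =>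
          (1 - x.1.1 v) • (h ⟨chLnk v x.1.1, chLnkMem x.1.2 x.2.1 x.2.2⟩ :
            EuclideanSpace ℝ (Fin 4)) := by
        funext x
        exact chF_of h x.1 x.2
      rw [he]
      refine Continuous.smul (continuous_const.sub (hcv.comp continuous_subtype_val)) ?_
      refine continuous_subtype_val.comp (h.continuous.comp ?_)
      refine Continuous.subtype_mk ?_ _
      refine continuous_pi fun i => ?_
      unfold chLnk
      split_ifs with hi
      · exact continuous_const
      · refine Continuous.div ?_ ?_ ?_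
        · exact (continuous_apply i).comp (continuous_subtype_val.comp continuous_subtype_val)
        · exact continuous_const.sub (hcv.comp continuous_subtype_val)
        · intro x
          have := x.2.2
          intro h0
          linarith
    exact hc.continuousAt (hV.mem_nhds ⟨hx, h1⟩)
  · have h2 : chF h x = 0 := by
      rw [← norm_eq_zero, chF_norm h x hx, h1, sub_self]
    rw [ContinuousWithinAt, h2, tendsto_zero_iff_norm_tendsto_zero]
    have h3 : Filter.Tendsto (fun y : K.space => 1 - y.1 v) (nhdsWithin x {x | 0 < x.1 v})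
        (nhds 0) := by
      have h4 : Filter.Tendsto (fun y : K.space => 1 - y.1 v) (nhds x) (nhds (1 - x.1 v)) :=
        (continuous_const.sub hcv).tendsto x
      rw [h1, sub_self] at h4
      exact h4.mono_left nhdsWithin_le_nhds
    refine h3.congr' ?_
    filter_upwards [self_mem_nhdsWithin] with y hy
    exact (chF_norm h y hy).symm

theorem chG_cont (hv : {v} ∈ K.faces) :
    ContinuousOn (chG h hv) (Metric.ball (0 : EuclideanSpace ℝ (Fin 4)) 1) := by
  intro w hw
  rw [mem_ball_zero_iff] at hw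
  by_cases hne : w = 0
  · apply ContinuousAt.continuousWithinAt
    rw [ContinuousAt, tendsto_subtype_rng, hne, chG_zero, tendsto_pi_nhds]
    intro i
    rw [tendsto_iff_norm_sub_tendsto_zero]
    have h3 : Filter.Tendsto (fun y : EuclideanSpace ℝ (Fin 4) => ‖y‖) (nhds 0) (nhds 0) := by
      have := (continuous_norm (E := EuclideanSpace ℝ (Fin 4))).tendsto 0
      rwa [norm_zero] at this
    refine squeeze_zero' (Filter.Eventually.of_forall fun _ => norm_nonneg _) ?_ h3
    have hb : ∀ᶠ y : EuclideanSpace ℝ (Fin 4) in nhds 0, ‖y‖ < 1 :=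
      h3.eventually_lt_const one_pos
    filter_upwards [hb] with y hy
    by_cases hy0 : y = 0
    · rw [hy0, chG_zero, sub_self, norm_zero, norm_zero]
    · rw [chG_of h hv y ⟨hy0, hy⟩]
      set p := h.symm ⟨‖y‖⁻¹ • y, chNrm hy0⟩ with hp
      have hpi0 := p.2.1 i
      have hpi1 := chLeOne (v := i) p
      have e1 : chCnp v ‖y‖ (p : Fin n → ℝ) i - chEv v i = ‖y‖ * (p.1 i - chEv v i) := by
        unfold chCnp
        ring
      rw [e1, norm_mul, norm_norm]
      have e2 : ‖p.1 i - chEv v i‖ ≤ 1 := by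
        rw [Real.norm_eq_abs, abs_le]
        unfold chEv
        split_ifs <;> constructor <;> linarith
      calc ‖y‖ * ‖p.1 i - chEv v i‖ ≤ ‖y‖ * 1 := by gcongr
        _ = ‖y‖ := mul_one _
  · apply ContinuousAt.continuousWithinAt
    have hV : IsOpen {w : EuclideanSpace ℝ (Fin 4) | w ≠ 0 ∧ ‖w‖ < 1} :=
      isOpen_ne.inter (isOpen_lt continuous_norm continuous_const)
    have hc : ContinuousOn (chG h hv) {w : EuclideanSpace ℝ (Fin 4) | w ≠ 0 ∧ ‖w‖ < 1} := by
      rw [continuousOn_iff_continuous_domRestrict]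
      have he : Set.domRestrict {w : EuclideanSpace ℝ (Fin 4) | w ≠ 0 ∧ ‖w‖ < 1} (chG h hv) = fun w =>
          ⟨chCnp v ‖w.1‖ (h.symm ⟨‖w.1‖⁻¹ • w.1, chNrm w.2.1⟩ : Fin n → ℝ),
            chCnpMem (h.symm ⟨‖w.1‖⁻¹ • w.1, chNrm w.2.1⟩).2 (norm_nonneg _) w.2.2.le⟩ := by
        funext w
        apply Subtype.ext
        exact chG_of h hv w.1 w.2
      rw [he]
      refine Continuous.subtype_mk ?_ _
      refine continuous_pi fun i => ?_
      unfold chCnp
      have hn : Continuous fun w : {w : EuclideanSpace ℝ (Fin 4) | w ≠ 0 ∧ ‖w‖ < 1} => ‖w.1‖ :=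
        continuous_norm.comp continuous_subtype_val
      refine ((continuous_const.sub hn).mul continuous_const).add (hn.mul ?_)
      refine (continuous_apply i).comp (continuous_subtype_val.comp (h.symm.continuous.comp ?_))
      refine Continuous.subtype_mk ?_ _
      refine Continuous.smul (hn.inv₀ ?_) continuous_subtype_val
      intro w
      exact norm_ne_zero_iff.mpr w.2.1
    exact hc.continuousAt (hV.mem_nhds ⟨hne, hw⟩)

end chart

/-- TARGET: the open star of a vertex whose link is a 3-sphere is an open 4-ball -/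
theorem chart_of_link {n : ℕ} (K : Cx n) (v : Fin n) (hv : {v} ∈ K.faces)
    (h : Nonempty ((K.link v).space ≃ₜ Metric.sphere (0 : EuclideanSpace ℝ (Fin 4)) 1))
    (x : K.space) (hx : 0 < x.1 v) :
    ∃ c : OpenPartialHomeomorph K.space (EuclideanSpace ℝ (Fin 4)), x ∈ c.source := by
  obtain ⟨h⟩ := h
  have hcv : Continuous fun x : K.space => x.1 v :=
    (continuous_apply v).comp continuous_subtype_val
  exact ⟨{
    toFun := chF h
    invFun := chG h hv
    source := {x | 0 < x.1 v}
    target := Metric.ball 0 1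
    map_source' := fun y hy => by
      rw [mem_ball_zero_iff, chF_norm h y hy]
      have : 0 < y.1 v := hy
      linarith
    map_target' := fun w hw => by
      rw [mem_ball_zero_iff] at hw
      rw [Set.mem_ofPred_eq, chG_v h hv w hw]
      linarith
    left_inv' := fun y hy => ch_left h hv y hy
    right_inv' := fun w hw => ch_right h hv w (mem_ball_zero_iff.mp hw)
    open_source := isOpen_lt continuous_const hcv
    open_target := Metric.isOpen_ball
    continuousOn_toFun := chF_cont h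
    continuousOn_invFun := chG_cont h hv }, hx⟩

end Pool.Agent.Helper585.Wk
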