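import Pool.Agent.Helper585.Wk.Lst
import Pool.Agent.Helper585.Wk.Top
import Pool.Agent.Helper585.Wk.GeoC2
import Pool.Agent.Helper585.Wk.GeoC4
import Pool.Agent.Helper585.Wk.GeoC5

set_option autoImplicit false
namespace Pool.Agent.Helper585.Wk

theorem geoC6_ext {n : ℕ} {K K' : Cx n} (h : K.faces = K'.faces) : K = K' := by
  cases K; cases K'; cases h; rfl

theorem geoC6_mem_dec (n m : ℕ) (i : Fin n) : i ∈ dec n m ↔ m.testBit i.1 = true := by
  simp [dec]

theorem geoC6_dec_xor (n F : ℕ) (v : Fin n) (hv : F.testBit v.1 = true) :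
    dec n (F ^^^ (1 <<< v.1)) = (dec n F).erase v := by
  ext i
  rw [Finset.mem_erase, geoC6_mem_dec, geoC6_mem_dec, Nat.testBit_xor, Nat.shiftLeft_eq, one_mul,
    Nat.testBit_two_pow]
  by_cases h : i = v
  · subst h
    simp [hv]
  · have h' : ¬ v.1 = i.1 := fun e => h (Fin.ext e.symm)
    simp [h, h']

theorem geoC6_mem_ofL (n : ℕ) (l : List ℕ) (σ : Finset (Fin n)) :
    σ ∈ (ofL n l).faces ↔ σ = ∅ ∨ ∃ m ∈ l, σ ⊆ dec n m := by
  simp [ofL]

/-- TARGET 1 -/
theorem link_ofL (n : ℕ) (l : List ℕ) (v : Fin n) (hl : ∃ m ∈ l, m.testBit v.1 = true) :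
    (ofL n l).link v = ofL n (linkL v.1 l) := by
  apply geoC6_ext
  ext σ
  have h1 : σ ∈ ((ofL n l).link v).faces ↔ σ = ∅ ∨ (v ∉ σ ∧ insert v σ ∈ (ofL n l).faces) := by
    simp [Cx.link]
  rw [h1, geoC6_mem_ofL, geoC6_mem_ofL]
  refine or_congr Iff.rfl ?_
  constructor
  · rintro ⟨hvσ, h | ⟨m, hm, h⟩⟩
    · exact absurd h (Finset.insert_ne_empty _ _)
    · have hv : v ∈ dec n m := h (Finset.mem_insert_self _ _)
      rw [geoC6_mem_dec] at hv
      refine ⟨m ^^^ (1 <<< v.1), ?_, ?_⟩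
      · exact List.mem_map.2 ⟨m, List.mem_filter.2 ⟨hm, hv⟩, rfl⟩
      · rw [geoC6_dec_xor n m v hv, Finset.subset_erase]
        exact ⟨(Finset.subset_insert _ _).trans h, hvσ⟩
  · rintro ⟨m, hm, h⟩
    obtain ⟨F, hF, rfl⟩ := List.mem_map.1 hm
    obtain ⟨hFl, hFv⟩ := List.mem_filter.1 hF
    rw [geoC6_dec_xor n F v hFv, Finset.subset_erase] at h
    refine ⟨h.2, Or.inr ⟨F, hFl, ?_⟩⟩
    rw [Finset.insert_subset_iff]
    exact ⟨(geoC6_mem_dec n F v).2 hFv, h.1⟩

/-- TARGET 2 -/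
theorem rems_bdS (n s : ℕ) (hs : s.log2 < n) (h2 : 2 ≤ (bits n s).length) :
    ofL n (rems n s s) = bdS (dec n s) ∧ (dec n s).card = (bits n s).length := by
  constructor
  · apply geoC6_ext
    ext σ
    have h1 : σ ∈ (bdS (dec n s)).faces ↔ σ = ∅ ∨ σ ⊂ dec n s := by
      simp [bdS]
    rw [h1, geoC6_mem_ofL]
    refine or_congr Iff.rfl ?_
    constructor
    · rintro ⟨m, hm, h⟩
      obtain ⟨i, hi, rfl⟩ := List.mem_map.1 hm
      obtain ⟨hin, his⟩ := List.mem_filter.1 hi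
      have hin' : i < n := List.mem_range.1 hin
      have h2 := geoC6_dec_xor n s ⟨i, hin'⟩ his
      simp only at h2
      rw [h2] at h
      exact lt_of_le_of_lt h (Finset.erase_ssubset ((geoC6_mem_dec n s ⟨i, hin'⟩).2 his))
    · intro h
      obtain ⟨i, hi, hiσ⟩ := Finset.exists_of_ssubset h
      have his := (geoC6_mem_dec n s i).1 hi
      refine ⟨s ^^^ (1 <<< i.1), ?_, ?_⟩
      · exact List.mem_map.2 ⟨i.1, List.mem_filter.2 ⟨List.mem_range.2 i.2, his⟩, rfl⟩
      · rw [geoC6_dec_xor n s i his, Finset.subset_erase]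
        exact ⟨h.1, hiσ⟩
  · have h1 : (dec n s).map Fin.valEmbedding = (bits n s).toFinset := by
      ext i
      simp only [Finset.mem_map, List.mem_toFinset, bits, List.mem_filter, List.mem_range,
        geoC6_mem_dec, Fin.valEmbedding_apply]
      constructor
      · rintro ⟨a, ha, rfl⟩
        exact ⟨a.2, ha⟩
      · rintro ⟨hi, his⟩
        exact ⟨⟨i, hi⟩, his, rfl⟩
    have h2 : (bits n s).Nodup := List.Nodup.filter _ List.nodup_range
    rw [← Finset.card_map Fin.valEmbedding, h1, List.toFinset_card_of_nodup h2]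

/-- TARGET 3: charts from certificates for the vertex links -/
theorem charts_of_check (n : ℕ) (l : List ℕ) (cert : List (ℕ × List (ℕ × ℕ) × ℕ))
    (h : checkLinks n l cert = true) : (ofL n l).Charts := by
  intro x
  obtain ⟨hx0, hx1, σ, hσ, hσx⟩ := x.2
  have hex : ∃ v, 0 < x.1 v := by
    by_contra hc
    push Not at hc
    have : ∑ v, x.1 v = 0 := Finset.sum_eq_zero fun v _ => le_antisymm (hc v) (hx0 v)
    rw [this] at hx1
    exact zero_ne_one hx1
  obtain ⟨v, hv⟩ := hex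
  have hvσ : v ∈ σ := by
    by_contra hc
    exact hv.ne' (hσx v hc)
  have hvf : {v} ∈ (ofL n l).faces :=
    (ofL n l).down σ hσ _ (Finset.singleton_subset_iff.2 hvσ)
  have hm : ∃ m ∈ l, m.testBit v.1 = true := by
    rcases (geoC6_mem_ofL n l σ).1 hσ with h0 | ⟨m, hm, h1⟩
    · rw [h0] at hvσ
      exact absurd hvσ (Finset.notMem_empty v)
    · exact ⟨m, hm, (geoC6_mem_dec n m v).1 (h1 hvσ)⟩
  obtain ⟨hA, hB⟩ := Bool.and_eq_true_iff.1 h
  rw [List.all_eq_true] at hA hB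
  have hB' := hB v.1 (List.mem_range.2 v.2)
  have hcv : ∃ c ∈ cert, c.1 = v.1 := by
    rw [Bool.or_eq_true] at hB'
    rcases hB' with h1 | h1
    · exfalso
      obtain ⟨m, hml, hmv⟩ := hm
      have h2 : l.any (fun F => F.testBit v.1) = true := List.any_eq_true.2 ⟨m, hml, hmv⟩
      rw [h2] at h1
      exact absurd h1 (by decide)
    · obtain ⟨c, hc, hcv⟩ := List.any_eq_true.1 h1
      exact ⟨c, hc, by simpa using hcv⟩
  obtain ⟨c, hc, hcv⟩ := hcv
  have hck := hA c hc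
  have hlink : Nonempty (((ofL n l).link v).space ≃ₜ
      Metric.sphere (0 : EuclideanSpace ℝ (Fin 4)) 1) := by
    unfold checkLink at hck
    rw [hcv] at hck
    cases hr : runL n c.2.1 (linkL v.1 l) with
    | none => rw [hr] at hck; exact absurd hck (by simp)
    | some l' =>
      rw [hr] at hck
      simp only [Bool.and_eq_true, beq_iff_eq, decide_eq_true_eq] at hck
      obtain ⟨⟨h1, h2⟩, h3⟩ := hck
      obtain ⟨e1⟩ := runL_homeo n _ _ _ hr
      have e2 : ofL n l' = bdS (dec n c.2.2) :=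
        (ofL_congr n _ _ h1).trans (rems_bdS n c.2.2 h3 (by omega)).1
      have e3 : (dec n c.2.2).card = 3 + 2 := by
        rw [(rems_bdS n c.2.2 h3 (by omega)).2, h2]
      obtain ⟨e4⟩ := bdS_sphere (d := 3) (dec n c.2.2) e3
      rw [link_ofL n l v hm]
      rw [e2] at e1
      exact ⟨e1.trans e4⟩
  exact chart_of_link (ofL n l) v hvf hlink x hv

end Pool.Agent.Helper585.Wk
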