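import Pool.Agent.Helper585.Wk.Lst

set_option autoImplicit false
namespace Pool.Agent.Helper585.Wk

/-- the closed simplex with the vertices `dec n m` -/
def connected_of_list_D (n m : ℕ) : Set (Fin n → ℝ) :=
  {x | (∀ v, 0 ≤ x v) ∧ ∑ v, x v = 1 ∧ ∀ v, v ∉ dec n m → x v = 0}

theorem connected_of_list_convex (n m : ℕ) : Convex ℝ (connected_of_list_D n m) := by
  intro x hx y hy a b ha hb hab
  refine ⟨fun v => ?_, ?_, fun v hv => ?_⟩
  · simp only [Pi.add_apply, Pi.smul_apply, smul_eq_mul]
    have h1 := hx.1 v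
    have h2 := hy.1 v
    positivity
  · simp only [Pi.add_apply, Pi.smul_apply, smul_eq_mul, Finset.sum_add_distrib,
      ← Finset.mul_sum]
    rw [hx.2.1, hy.2.1]
    linarith
  · simp only [Pi.add_apply, Pi.smul_apply, smul_eq_mul]
    rw [hx.2.2 v hv, hy.2.2 v hv]
    ring

theorem connected_of_list_single (n m : ℕ) (v : Fin n) (hv : v ∈ dec n m) :
    (Pi.single v (1 : ℝ) : Fin n → ℝ) ∈ connected_of_list_D n m := by
  refine ⟨fun w => ?_, ?_, fun w hw => ?_⟩
  · by_cases h : w = v
    · subst h; simp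
    · simp [h]
  · simp
  · rw [Pi.single_eq_of_ne]
    rintro rfl
    exact hw hv

theorem connected_of_list_bit (n m : ℕ) (hm : m ≠ 0) (hb : m < 2 ^ n) :
    ∃ v : Fin n, m.testBit v.1 = true := by
  obtain ⟨i, hi⟩ := Nat.exists_testBit_of_ne_zero hm
  have hin : i < n := by
    by_contra hcon
    push Not at hcon
    have h1 : m < 2 ^ i := lt_of_lt_of_le hb (Nat.pow_le_pow_right (by norm_num) hcon)
    rw [Nat.testBit_lt_two_pow h1] at hi
    exact absurd hi (by simp)
  exact ⟨⟨i, hin⟩, hi⟩

theorem connected_of_list_gen (n : ℕ) (l : List ℕ) : ∀ (cur : ℕ) (S : Set (Fin n → ℝ)),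
    IsPreconnected S → (∀ v ∈ dec n cur, (Pi.single v (1 : ℝ) : Fin n → ℝ) ∈ S) →
    (∀ F ∈ l, F < 2 ^ n) → connL cur l = true →
    IsPreconnected (S ∪ ⋃ F ∈ l, connected_of_list_D n F) := by
  induction l with
  | nil =>
    intro cur S hS _ _ _
    simpa using hS
  | cons F l ih =>
    intro cur S hS hv hb h
    rw [connL, Bool.and_eq_true, bne_iff_ne] at h
    have hF : F < 2 ^ n := hb F (by simp)
    obtain ⟨v, hv'⟩ := connected_of_list_bit n (cur &&& F) h.1
      (lt_of_le_of_lt Nat.and_le_right hF)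
    rw [Nat.testBit_and, Bool.and_eq_true] at hv'
    have hv1 : v ∈ dec n cur := by simp [dec, hv'.1]
    have hv2 : v ∈ dec n F := by simp [dec, hv'.2]
    have hS' : IsPreconnected (S ∪ connected_of_list_D n F) :=
      IsPreconnected.union _ (hv v hv1) (connected_of_list_single n F v hv2) hS
        (connected_of_list_convex n F).isPreconnected
    have h2 := ih (cur ||| F) (S ∪ connected_of_list_D n F) hS' (fun w hw => by
      have hw' : cur.testBit w.1 = true ∨ F.testBit w.1 = true := by
        have : (cur ||| F).testBit w.1 = true := by simpa [dec] using hw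
        rw [Nat.testBit_or, Bool.or_eq_true] at this
        exact this
      rcases hw' with h3 | h3
      · exact Or.inl (hv w (by simp [dec, h3]))
      · exact Or.inr (connected_of_list_single n F w (by simp [dec, h3])))
      (fun G hG => hb G (by simp [hG])) h.2
    have heq : (S ∪ ⋃ G ∈ F :: l, connected_of_list_D n G) =
        (S ∪ connected_of_list_D n F) ∪ ⋃ G ∈ l, connected_of_list_D n G := by
      ext x
      simp only [Set.mem_union, Set.mem_iUnion, List.mem_cons, exists_prop]
      constructor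
      · rintro (hx | ⟨G, rfl | hG, hx⟩)
        · exact Or.inl (Or.inl hx)
        · exact Or.inl (Or.inr hx)
        · exact Or.inr ⟨G, hG, hx⟩
      · rintro ((hx | hx) | ⟨G, hG, hx⟩)
        · exact Or.inl hx
        · exact Or.inr ⟨F, Or.inl rfl, hx⟩
        · exact Or.inr ⟨G, Or.inr hG, hx⟩
    rw [heq]
    exact h2

theorem connected_of_list_space (n : ℕ) (L : List ℕ) :
    (ofL n L).space = ⋃ F ∈ L, connected_of_list_D n F := by
  ext x
  simp only [Set.mem_iUnion, exists_prop]
  constructor
  · rintro ⟨h1, h2, σ, hσ, h3⟩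
    have hσ' : σ = ∅ ∨ ∃ m ∈ L, σ ⊆ dec n m := by simpa [ofL] using hσ
    rcases hσ' with h | ⟨m, hm, h⟩
    · exfalso
      have : ∑ v, x v = 0 := Finset.sum_eq_zero (fun v _ => h3 v (by simp [h]))
      rw [this] at h2
      norm_num at h2
    · exact ⟨m, hm, h1, h2, fun v hv => h3 v (fun hv' => hv (h hv'))⟩
  · rintro ⟨m, hm, h1, h2, h3⟩
    refine ⟨h1, h2, dec n m, ?_, h3⟩
    simp only [ofL, Finset.mem_filter, Finset.mem_univ, true_and]
    exact Or.inr ⟨m, hm, subset_rfl⟩

/-- TARGET: connectedness from an ordering of the facets -/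
theorem connected_of_list (n m : ℕ) (l : List ℕ) (hm : m ≠ 0)
    (hb : ∀ F ∈ m :: l, F < 2 ^ n) (h : connL m l = true) :
    ConnectedSpace (ofL n (m :: l)).space := by
  have hspace : (ofL n (m :: l)).space =
      connected_of_list_D n m ∪ ⋃ F ∈ l, connected_of_list_D n F := by
    rw [connected_of_list_space]
    ext x
    simp only [Set.mem_union, Set.mem_iUnion, List.mem_cons, exists_prop]
    constructor
    · rintro ⟨G, rfl | hG, hx⟩
      · exact Or.inl hx
      · exact Or.inr ⟨G, hG, hx⟩
    · rintro (hx | ⟨G, hG, hx⟩)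
      · exact ⟨m, Or.inl rfl, hx⟩
      · exact ⟨G, Or.inr hG, hx⟩
  obtain ⟨v, hv⟩ := connected_of_list_bit n m hm (hb m (by simp))
  apply Subtype.connectedSpace
  rw [hspace]
  refine ⟨⟨_, Or.inl (connected_of_list_single n m v (by simp [dec, hv]))⟩, ?_⟩
  exact connected_of_list_gen n l m _ (connected_of_list_convex n m).isPreconnected
    (fun w hw => connected_of_list_single n m w hw) (fun F hF => hb F (by simp [hF])) h

end Pool.Agent.Helper585.Wk
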