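import Pool.Agent.Helper585.Wk.Defs
import Pool.Agent.Helper381.Cone
import Pool.Agent.Helper381.Order

set_option autoImplicit false

/-! The cover by open stars. -/

namespace Pool.Agent.Helper585.Wk

/-- the open star of `σ` -/
def Cx.star {n : ℕ} (K : Cx n) (σ : Finset (Fin n)) : Set K.space := {x | ∀ v ∈ σ, 0 < x.1 v}

/-- the cover of the space by the open stars of the nonempty faces -/
def Cx.cov {n : ℕ} (K : Cx n) : Set (Set K.space) :=
  {U | ∃ σ ∈ K.faces, σ.Nonempty ∧ U = K.star σ}

/-- Euler characteristic -/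
def Cx.chi {n : ℕ} (K : Cx n) : ℤ := ∑ i ∈ Finset.range n, (-1 : ℤ) ^ i * K.f i

end Pool.Agent.Helper585.Wk
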