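import Pool.Agent.Helper585.Wk.Lst
import Pool.Agent.Helper585.Wk.Eul

set_option autoImplicit false
namespace Pool.Agent.Helper585.Wk

theorem c8_shift (i j : ℕ) : (1 <<< i).testBit j = decide (i = j) := by
  rw [Nat.one_shiftLeft, Nat.testBit_two_pow]

theorem c8_mask (T : Finset ℕ) : ∃ x : ℕ, ∀ i, x.testBit i = decide (i ∈ T) := by
  classical
  induction T using Finset.induction_on with
  | empty => exact ⟨0, fun i => by simp⟩
  | insert a T ha ih =>
    obtain ⟨x, hx⟩ := ih
    refine ⟨x ||| (1 <<< a), fun i => ?_⟩
    rw [Nat.testBit_or, hx, c8_shift]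
    by_cases h : i = a
    · subst h; simp
    · have h' : ¬ a = i := fun e => h e.symm
      simp [h, h']

theorem c8_subK (is : List ℕ) (hn : is.Nodup) (k x : ℕ) :
    x ∈ subK k is ↔ ∃ T : Finset ℕ, T ⊆ is.toFinset ∧ T.card = k ∧
      ∀ i, x.testBit i = decide (i ∈ T) := by
  classical
  induction is generalizing k x with
  | nil =>
    cases k with
    | zero =>
      simp only [subK, List.mem_singleton]
      constructor
      · rintro rfl
        exact ⟨∅, by simp, rfl, fun i => by simp⟩
      · rintro ⟨T, h1, h2, h3⟩
        rw [Finset.card_eq_zero] at h2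
        subst h2
        apply Nat.eq_of_testBit_eq
        intro i
        rw [h3]
        simp
    | succ k =>
      simp only [subK, List.not_mem_nil, false_iff]
      rintro ⟨T, h1, h2, h3⟩
      simp only [List.toFinset_nil, Finset.subset_empty] at h1
      subst h1
      simp at h2
  | cons a is ih =>
    have hn' := List.nodup_cons.1 hn
    cases k with
    | zero =>
      simp only [subK, List.mem_singleton]
      constructor
      · rintro rfl
        exact ⟨∅, by simp, rfl, fun i => by simp⟩
      · rintro ⟨T, h1, h2, h3⟩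
        rw [Finset.card_eq_zero] at h2
        subst h2
        apply Nat.eq_of_testBit_eq
        intro i
        rw [h3]
        simp
    | succ k =>
      simp only [subK, List.mem_append, List.mem_map]
      constructor
      · rintro (⟨m, hm, rfl⟩ | hx)
        · obtain ⟨T, h1, h2, h3⟩ := (ih hn'.2 k m).1 hm
          have ha : a ∉ T := fun h => hn'.1 (List.mem_toFinset.1 (h1 h))
          refine ⟨insert a T, ?_, ?_, fun i => ?_⟩
          · rw [List.toFinset_cons]
            exact Finset.insert_subset_insert _ h1
          · rw [Finset.card_insert_of_notMem ha, h2]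
          · rw [Nat.testBit_or, h3, c8_shift]
            by_cases h : i = a
            · subst h; simp
            · have h' : ¬ a = i := fun e => h e.symm
              simp [h, h']
        · obtain ⟨T, h1, h2, h3⟩ := (ih hn'.2 (k + 1) x).1 hx
          refine ⟨T, ?_, h2, h3⟩
          rw [List.toFinset_cons]
          exact h1.trans (Finset.subset_insert _ _)
      · rintro ⟨T, h1, h2, h3⟩
        rw [List.toFinset_cons] at h1
        by_cases haT : a ∈ T
        · left
          refine ⟨x ^^^ (1 <<< a), ?_, ?_⟩
          · rw [ih hn'.2]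
            refine ⟨T.erase a, ?_, ?_, fun i => ?_⟩
            · intro i hi
              have hi' := Finset.mem_erase.1 hi
              exact (Finset.mem_insert.1 (h1 hi'.2)).resolve_left hi'.1
            · rw [Finset.card_erase_of_mem haT, h2]; rfl
            · rw [Nat.testBit_xor, h3, c8_shift]
              by_cases h : i = a
              · subst h; simp [haT]
              · have h' : ¬ a = i := fun e => h e.symm
                simp [h, h']
          · apply Nat.eq_of_testBit_eq
            intro i
            rw [Nat.testBit_or, Nat.testBit_xor, h3, c8_shift]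
            by_cases h : a = i
            · subst h; simp [haT]
            · simp [h]
        · right
          rw [ih hn'.2]
          refine ⟨T, ?_, h2, h3⟩
          intro i hi
          refine (Finset.mem_insert.1 (h1 hi)).resolve_left ?_
          rintro rfl
          exact haT hi

theorem c8_ddup_aux (l acc : List ℕ) (h : acc.Nodup) :
    (l.foldl (fun acc m => bif acc.contains m then acc else m :: acc) acc).Nodup ∧
    (l.foldl (fun acc m => bif acc.contains m then acc else m :: acc) acc).toFinset =
      acc.toFinset ∪ l.toFinset := by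
  induction l generalizing acc with
  | nil => exact ⟨h, by simp⟩
  | cons a l ih =>
    rw [List.foldl_cons]
    by_cases ha : a ∈ acc
    · have e : (bif acc.contains a then acc else a :: acc) = acc := by
        rw [List.contains_iff_mem.2 ha]; rfl
      rw [e]
      refine ⟨(ih acc h).1, ?_⟩
      rw [(ih acc h).2, List.toFinset_cons]
      ext x
      simp only [Finset.mem_union, Finset.mem_insert, List.mem_toFinset]
      constructor
      · rintro (h | h)
        · exact Or.inl h
        · exact Or.inr (Or.inr h)
      · rintro (h | rfl | h)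
        · exact Or.inl h
        · exact Or.inl ha
        · exact Or.inr h
    · have e : (bif acc.contains a then acc else a :: acc) = a :: acc := by
        have : acc.contains a = false := by
          rw [Bool.eq_false_iff]
          intro h'
          exact ha (List.contains_iff_mem.1 h')
        rw [this]; rfl
      rw [e]
      have h' : (a :: acc).Nodup := List.nodup_cons.2 ⟨ha, h⟩
      refine ⟨(ih _ h').1, ?_⟩
      rw [(ih _ h').2, List.toFinset_cons, List.toFinset_cons]
      ext x
      simp only [Finset.mem_union, Finset.mem_insert, List.mem_toFinset]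
      tauto

theorem c8_ddup (l : List ℕ) : (ddup l).length = l.toFinset.card := by
  have h := c8_ddup_aux l [] List.nodup_nil
  unfold ddup
  rw [← List.toFinset_card_of_nodup h.1, h.2]
  simp

theorem c8_bits_mem (n m i : ℕ) : i ∈ bits n m ↔ i < n ∧ m.testBit i = true := by
  unfold bits
  rw [List.mem_filter, List.mem_range]

theorem c8_bits_nodup (n m : ℕ) : (bits n m).Nodup := (List.nodup_range).filter _

theorem c8_dec_map (n m : ℕ) : (dec n m).map Fin.valEmbedding = (bits n m).toFinset := by
  ext i
  rw [List.mem_toFinset, c8_bits_mem, Finset.mem_map]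
  constructor
  · rintro ⟨j, hj, rfl⟩
    rw [dec, Finset.mem_filter] at hj
    exact ⟨j.2, hj.2⟩
  · rintro ⟨h1, h2⟩
    exact ⟨⟨i, h1⟩, by rw [dec, Finset.mem_filter]; exact ⟨Finset.mem_univ _, h2⟩, rfl⟩

theorem c8_dec_card (n m : ℕ) : (dec n m).card = (bits n m).length := by
  rw [← Finset.card_map Fin.valEmbedding, c8_dec_map,
    List.toFinset_card_of_nodup (c8_bits_nodup n m)]

theorem c8_mem_dec (n m : ℕ) (i : Fin n) : i ∈ dec n m ↔ m.testBit i.1 = true := by
  rw [dec, Finset.mem_filter]
  simp

/-- TARGET 1: counting the faces of a complex given by a list -/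
theorem f_ofL (n k : ℕ) (l : List ℕ) : (ofL n l).f k = fL n (k + 1) l := by
  classical
  unfold fL
  rw [c8_ddup]
  unfold Cx.f
  symm
  have key : ∀ x, x ∈ (l.flatMap (fun m => subK (k + 1) (bits n m))).toFinset ↔
      ∃ m ∈ l, ∃ T : Finset ℕ, T ⊆ (bits n m).toFinset ∧ T.card = k + 1 ∧
        ∀ i, x.testBit i = decide (i ∈ T) := by
    intro x
    rw [List.mem_toFinset, List.mem_flatMap]
    constructor
    · rintro ⟨m, hm, hx⟩
      exact ⟨m, hm, (c8_subK _ (c8_bits_nodup n m) _ _).1 hx⟩
    · rintro ⟨m, hm, hx⟩
      exact ⟨m, hm, (c8_subK _ (c8_bits_nodup n m) _ _).2 hx⟩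
  refine Finset.card_bij (fun x _ => dec n x) ?_ ?_ ?_
  · intro x hx
    obtain ⟨m, hm, T, h1, h2, h3⟩ := (key x).1 hx
    have hb : (bits n x).toFinset = T := by
      ext i
      rw [List.mem_toFinset, c8_bits_mem, h3, decide_eq_true_iff]
      constructor
      · exact fun h => h.2
      · intro h
        have := h1 h
        rw [List.mem_toFinset, c8_bits_mem] at this
        exact ⟨this.1, h⟩
    rw [Finset.mem_filter]
    refine ⟨?_, ?_⟩
    · show dec n x ∈ Finset.univ.filter (fun σ => σ = ∅ ∨ ∃ m ∈ l, σ ⊆ dec n m)
      rw [Finset.mem_filter]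
      refine ⟨Finset.mem_univ _, Or.inr ⟨m, hm, ?_⟩⟩
      intro i hi
      rw [c8_mem_dec, h3, decide_eq_true_iff] at hi
      have := h1 hi
      rw [List.mem_toFinset, c8_bits_mem] at this
      rw [c8_mem_dec]
      exact this.2
    · rw [← Finset.card_map Fin.valEmbedding, c8_dec_map, hb, h2]
  · intro x hx y hy hxy
    obtain ⟨m, hm, T, h1, h2, h3⟩ := (key x).1 hx
    obtain ⟨m', hm', T', h1', h2', h3'⟩ := (key y).1 hy
    apply Nat.eq_of_testBit_eq
    intro i
    by_cases hi : i < n
    · have e : (⟨i, hi⟩ : Fin n) ∈ dec n x ↔ (⟨i, hi⟩ : Fin n) ∈ dec n y := by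
        have hxy' : dec n x = dec n y := hxy
        rw [hxy']
      rw [c8_mem_dec, c8_mem_dec] at e
      exact Bool.eq_iff_iff.2 e
    · have e1 : i ∉ T := by
        intro h
        have := h1 h
        rw [List.mem_toFinset, c8_bits_mem] at this
        exact hi this.1
      have e2 : i ∉ T' := by
        intro h
        have := h1' h
        rw [List.mem_toFinset, c8_bits_mem] at this
        exact hi this.1
      rw [h3, h3']
      simp [e1, e2]
  · intro σ hσ
    rw [Finset.mem_filter] at hσ
    have hσ1 : σ = ∅ ∨ ∃ m ∈ l, σ ⊆ dec n m := by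
      have := hσ.1
      change σ ∈ Finset.univ.filter (fun σ => σ = ∅ ∨ ∃ m ∈ l, σ ⊆ dec n m) at this
      exact (Finset.mem_filter.1 this).2
    rcases hσ1 with h | ⟨m, hm, hsub⟩
    · exfalso
      have := hσ.2
      rw [h] at this
      simp at this
    · obtain ⟨x, hx⟩ := c8_mask (σ.map Fin.valEmbedding)
      refine ⟨x, ?_, ?_⟩
      · rw [key]
        refine ⟨m, hm, σ.map Fin.valEmbedding, ?_, ?_, hx⟩
        · rw [← c8_dec_map]
          exact Finset.map_subset_map.2 hsub
        · rw [Finset.card_map, hσ.2]
      · ext i
        rw [c8_mem_dec, hx, decide_eq_true_iff]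
        constructor
        · intro h
          obtain ⟨j, hj, hji⟩ := Finset.mem_map.1 h
          have : j = i := Fin.ext hji
          exact this ▸ hj
        · intro h
          exact Finset.mem_map.2 ⟨i, h, rfl⟩

/-- TARGET 2 -/
theorem chi_ofL (n : ℕ) (hn : 5 ≤ n) (l : List ℕ) (h : ∀ F ∈ l, (bits n F).length ≤ 5) :
    (ofL n l).chi = (fL n 1 l : ℤ) - fL n 2 l + fL n 3 l - fL n 4 l + fL n 5 l := by
  classical
  unfold Cx.chi
  have hz : ∀ i ∈ Finset.range n, i ∉ Finset.range 5 → (-1 : ℤ) ^ i * (ofL n l).f i = 0 := by
    intro i _ hi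
    rw [Finset.mem_range, not_lt] at hi
    have hf : (ofL n l).f i = 0 := by
      unfold Cx.f
      rw [Finset.card_eq_zero, Finset.filter_eq_empty_iff]
      intro σ hσ hc
      have hσ1 : σ = ∅ ∨ ∃ m ∈ l, σ ⊆ dec n m := by
        change σ ∈ Finset.univ.filter (fun σ => σ = ∅ ∨ ∃ m ∈ l, σ ⊆ dec n m) at hσ
        exact (Finset.mem_filter.1 hσ).2
      rcases hσ1 with h' | ⟨m, hm, hsub⟩
      · rw [h'] at hc
        simp at hc
      · have h1 := Finset.card_le_card hsub
        rw [c8_dec_card] at h1
        have h2 := h m hm
        omega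
    rw [hf]
    simp
  have hsub : Finset.range 5 ⊆ Finset.range n := Finset.range_subset_range.2 hn
  rw [← Finset.sum_subset hsub hz]
  simp only [Finset.sum_range_succ, Finset.sum_range_zero, f_ofL]
  ring

end Pool.Agent.Helper585.Wk
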