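import Pool.Agent.Helper585.Wk.Lst

set_option autoImplicit false
namespace Pool.Agent.Helper585.Wk

/-- barycentric coordinates on `ℝ⁴` -/
noncomputable def bary4 (u : EuclideanSpace ℝ (Fin 4)) : Fin 5 → ℝ :=
  Fin.snoc (α := fun _ => ℝ) (fun i : Fin 4 => u i) (1 - ∑ i, u i)

theorem bary4_castSucc (u : EuclideanSpace ℝ (Fin 4)) (i : Fin 4) :
    bary4 u i.castSucc = u i := by
  unfold bary4
  rw [Fin.snoc_castSucc]

theorem bary4_last (u : EuclideanSpace ℝ (Fin 4)) :
    bary4 u (Fin.last 4) = 1 - ∑ i, u i := by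
  unfold bary4
  rw [Fin.snoc_last]

theorem bary4_sum (u : EuclideanSpace ℝ (Fin 4)) : ∑ j, bary4 u j = 1 := by
  rw [Fin.sum_univ_castSucc, bary4_last]
  simp only [bary4_castSucc]
  ring

theorem continuous_bary4 (j : Fin 5) : Continuous fun u => bary4 u j := by
  refine Fin.lastCases ?_ (fun i => ?_) j
  · simp only [bary4_last]
    fun_prop
  · simp only [bary4_castSucc]
    fun_prop

theorem bary4_comb (a b : ℝ) (hab : a + b = 1) (u w : EuclideanSpace ℝ (Fin 4)) (j : Fin 5) :
    bary4 (a • u + b • w) j = a * bary4 u j + b * bary4 w j := by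
  refine Fin.lastCases ?_ (fun i => ?_) j
  · simp only [bary4_last]
    simp only [PiLp.add_apply, PiLp.smul_apply, smul_eq_mul, Finset.sum_add_distrib]
    rw [← Finset.mul_sum, ← Finset.mul_sum]
    linear_combination -hab
  · simp only [bary4_castSucc]
    simp

/-- inverse of the barycentric coordinates -/
noncomputable def ybar4 (w : Fin 5 → ℝ) : EuclideanSpace ℝ (Fin 4) :=
  WithLp.toLp 2 (fun i => w i.castSucc)

theorem continuous_ybar4 : Continuous ybar4 := by
  unfold ybar4
  fun_prop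

theorem ybar4_bary4 (u : EuclideanSpace ℝ (Fin 4)) : ybar4 (bary4 u) = u := by
  ext i
  unfold ybar4
  exact bary4_castSucc u i

theorem bary4_ybar4 (w : Fin 5 → ℝ) (hw : ∑ j, w j = 1) : bary4 (ybar4 w) = w := by
  funext j
  refine Fin.lastCases ?_ (fun i => ?_) j
  · rw [bary4_last]
    rw [Fin.sum_univ_castSucc] at hw
    have : ∑ i, ybar4 w i = ∑ i : Fin 4, w i.castSucc := rfl
    rw [this]
    linarith
  · rw [bary4_castSucc]
    rfl

/-- the standard simplex of `ℝ⁴` -/
def S4 : Set (EuclideanSpace ℝ (Fin 4)) := {u | ∀ j, 0 ≤ bary4 u j}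

theorem isClosed_S4 : IsClosed S4 := by
  have : S4 = ⋂ j, {u | 0 ≤ bary4 u j} := by
    ext u
    simp [S4]
  rw [this]
  exact isClosed_iInter fun j => isClosed_le continuous_const (continuous_bary4 j)

theorem convex_S4 : Convex ℝ S4 := by
  intro u hu w hw a b ha hb hab j
  rw [bary4_comb a b hab]
  have h1 := mul_nonneg ha (hu j)
  have h2 := mul_nonneg hb (hw j)
  linarith

theorem interior_S4 : interior S4 = {u | ∀ j, 0 < bary4 u j} := by
  apply Set.Subset.antisymm
  · intro u hu j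
    have hu' : u ∈ S4 := interior_subset hu
    rcases (hu' j).lt_or_eq with h | h
    · exact h
    exfalso
    set c : EuclideanSpace ℝ (Fin 4) := ybar4 (fun _ => 1 / 5) with hc
    have hcb : bary4 c j = 1 / 5 := by
      rw [hc, bary4_ybar4 _ (by simp)]
    have hcont : Continuous (fun t : ℝ => (1 + t) • u + (-t) • c) := by fun_prop
    have h0 : (fun t : ℝ => (1 + t) • u + (-t) • c) 0 ∈ interior S4 := by
      simpa using hu
    have hev : ∀ᶠ t in nhds (0 : ℝ), (fun t : ℝ => (1 + t) • u + (-t) • c) t ∈ interior S4 :=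
      hcont.continuousAt.eventually (isOpen_interior.mem_nhds h0)
    have hev2 : ∀ᶠ t in nhdsWithin (0 : ℝ) (Set.Ioi 0),
        (fun t : ℝ => (1 + t) • u + (-t) • c) t ∈ interior S4 := hev.filter_mono nhdsWithin_le_nhds
    obtain ⟨t, ht, htpos⟩ := (hev2.and self_mem_nhdsWithin).exists
    have h2 := interior_subset ht j
    simp only at h2
    rw [bary4_comb _ _ (by ring), ← h, hcb] at h2
    have htpos' : 0 < t := htpos
    linarith
  · refine interior_maximal (fun u hu j => (hu j).le) ?_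
    have : {u | ∀ j, 0 < bary4 u j} = ⋂ j, {u | 0 < bary4 u j} := by
      ext u
      simp
    rw [this]
    exact isOpen_iInter_of_finite fun j => isOpen_lt continuous_const (continuous_bary4 j)

theorem frontier_S4 : frontier S4 = {u | (∀ j, 0 ≤ bary4 u j) ∧ ∃ j, bary4 u j = 0} := by
  rw [frontier, isClosed_S4.closure_eq, interior_S4]
  ext u
  simp only [Set.mem_sdiff, Set.mem_ofPred_eq, not_forall, not_lt]
  constructor
  · rintro ⟨h1, j, hj⟩
    exact ⟨h1, j, le_antisymm hj (h1 j)⟩
  · rintro ⟨h1, j, hj⟩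
    exact ⟨h1, j, hj.le⟩

theorem bounded_S4 : Bornology.IsBounded S4 := by
  refine (Metric.isBounded_closedBall (x := (0 : EuclideanSpace ℝ (Fin 4))) (r := 1)).subset ?_
  intro u hu
  rw [mem_closedBall_zero_iff, EuclideanSpace.norm_eq]
  rw [Real.sqrt_le_iff]
  refine ⟨zero_le_one, ?_⟩
  rw [one_pow]
  have hsum : ∑ i, u i ≤ 1 := by
    have := hu (Fin.last 4)
    rw [bary4_last] at this
    linarith
  have hnn : ∀ i, 0 ≤ u i := fun i => by
    have := hu i.castSucc
    rwa [bary4_castSucc] at this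
  refine le_trans (Finset.sum_le_sum fun i _ => ?_) hsum
  have h1 : u i ≤ 1 := le_trans (Finset.single_le_sum (f := fun i => u i) (fun i _ => hnn i) (Finset.mem_univ i)) hsum
  rw [Real.norm_eq_abs, sq_abs]
  nlinarith [hnn i]

theorem nonempty_interior_S4 : (interior S4).Nonempty := by
  rw [interior_S4]
  refine ⟨ybar4 (fun _ => 1 / 5), fun j => ?_⟩
  rw [bary4_ybar4 _ (by simp)]
  norm_num

/-- TARGET: a geometric 4-simplex in the interior of a facet is a tame cell -/
theorem cell_of_simplex {n : ℕ} (K : Cx n) (F : Finset (Fin n)) (hF : F ∈ K.faces)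
    (hF5 : F.card = 5) (hmax : ∀ σ ∈ K.faces, F ⊆ σ → σ = F)
    (P : Fin 5 → Fin n → ℝ) (hP : ∀ j, P j ∈ K.space) (hpos : ∀ j, ∀ v ∈ F, 0 < P j v)
    (haff : ∀ c : Fin 5 → ℝ, ∑ j, c j = 0 → (∀ v, ∑ j, c j * P j v = 0) → ∀ j, c j = 0) :
    ∃ c : Cell 4 K.space,
      c.inter = {x | ∃ w : Fin 5 → ℝ, (∀ j, 0 < w j) ∧ ∑ j, w j = 1 ∧
        ∀ v, x.1 v = ∑ j, w j * P j v} ∧
      c.bdry = {x | ∃ w : Fin 5 → ℝ, (∀ j, 0 ≤ w j) ∧ ∑ j, w j = 1 ∧ (∃ j, w j = 0) ∧
        ∀ v, x.1 v = ∑ j, w j * P j v} := by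
  classical
  -- support
  have hsupp : ∀ x : Fin n → ℝ, x ∈ K.space → (∀ v ∈ F, 0 < x v) → ∀ v, v ∉ F → x v = 0 := by
    rintro x ⟨-, -, σ, hσ, hx⟩ hx' v hv
    have hFσ : F ⊆ σ := by
      intro a ha
      by_contra hcon
      exact (hx' a ha).ne' (hx a hcon)
    rw [hmax σ hσ hFσ] at hx
    exact hx v hv
  have hPoff : ∀ j v, v ∉ F → P j v = 0 := fun j v hv => hsupp _ (hP j) (hpos j) v hv
  have hPsum : ∀ j, ∑ v, P j v = 1 := fun j => (hP j).2.1
  -- the linear equivalence
  let Λ : (Fin 5 → ℝ) →ₗ[ℝ] (F → ℝ) :=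
    { toFun := fun c v => ∑ j, c j * P j v.1
      map_add' := by
        intro a b
        funext v
        simp only [Pi.add_apply, add_mul, Finset.sum_add_distrib]
      map_smul' := by
        intro a b
        funext v
        simp only [Pi.smul_apply, smul_eq_mul, RingHom.id_apply, Finset.mul_sum, mul_assoc] }
  have hΛ : ∀ c v, Λ c v = ∑ j, c j * P j v.1 := fun _ _ => rfl
  have hsumc : ∀ c : Fin 5 → ℝ, ∑ v, ∑ j, c j * P j v = ∑ j, c j := by
    intro c
    rw [Finset.sum_comm]
    refine Finset.sum_congr rfl fun j _ => ?_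
    rw [← Finset.mul_sum, hPsum, mul_one]
  have hinj : Function.Injective Λ := by
    rw [← LinearMap.ker_eq_bot, LinearMap.ker_eq_bot']
    intro c hc
    have h1 : ∀ v, ∑ j, c j * P j v = 0 := by
      intro v
      by_cases hv : v ∈ F
      · have := congrFun hc ⟨v, hv⟩
        rwa [hΛ] at this
      · refine Finset.sum_eq_zero fun j _ => ?_
        rw [hPoff j v hv, mul_zero]
    have h2 : ∑ j, c j = 0 := by
      rw [← hsumc]
      exact Finset.sum_eq_zero fun v _ => h1 v
    exact funext (haff c h2 h1)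
  have hfin : Module.finrank ℝ (Fin 5 → ℝ) = Module.finrank ℝ (F → ℝ) := by
    rw [Module.finrank_fintype_fun_eq_card, Module.finrank_fintype_fun_eq_card, Fintype.card_fin,
      Fintype.card_coe, hF5]
  let L : (Fin 5 → ℝ) ≃ₗ[ℝ] (F → ℝ) := Λ.linearEquivOfInjective hinj hfin
  have hL : ∀ c v, L c v = ∑ j, c j * P j v.1 := fun _ _ => rfl
  -- the maps
  let Φ : EuclideanSpace ℝ (Fin 4) → Fin n → ℝ := fun u v => ∑ j, bary4 u j * P j v
  have hΦc : Continuous Φ := by
    refine continuous_pi fun v => ?_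
    exact continuous_finsetSum _ fun j _ => (continuous_bary4 j).mul continuous_const
  let R : (Fin n → ℝ) → (F → ℝ) := fun x v => x v.1
  have hRc : Continuous R := by fun_prop
  let ψ : (Fin n → ℝ) → EuclideanSpace ℝ (Fin 4) := fun x => ybar4 (L.symm (R x))
  have hLc : Continuous L.symm := LinearMap.continuous_of_finiteDimensional (L.symm : (F → ℝ) →ₗ[ℝ] (Fin 5 → ℝ))
  have hψc : Continuous ψ := continuous_ybar4.comp (hLc.comp hRc)
  have hψΦ : ∀ u, ψ (Φ u) = u := by
    intro u
    have : R (Φ u) = L (bary4 u) := by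
      funext v
      rw [hL]
    change ybar4 (L.symm (R (Φ u))) = u
    rw [this, L.symm_apply_apply, ybar4_bary4]
  have hΦψ : ∀ x : Fin n → ℝ, x ∈ K.space → (∀ v ∈ F, 0 < x v) → Φ (ψ x) = x := by
    intro x hx hx'
    set c := L.symm (R x) with hc
    have hLcx : L c = R x := by rw [hc, L.apply_symm_apply]
    have h1 : ∀ v, ∑ j, c j * P j v = x v := by
      intro v
      by_cases hv : v ∈ F
      · have := congrFun hLcx ⟨v, hv⟩
        rw [hL] at this
        exact this
      · rw [hsupp x hx hx' v hv]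
        refine Finset.sum_eq_zero fun j _ => ?_
        rw [hPoff j v hv, mul_zero]
    have h2 : ∑ j, c j = 1 := by
      rw [← hsumc, Finset.sum_congr rfl fun v _ => h1 v]
      exact hx.2.1
    funext v
    change ∑ j, bary4 (ybar4 c) j * P j v = x v
    rw [bary4_ybar4 c h2]
    exact h1 v
  have hΦmem : ∀ u, (∀ v ∈ F, 0 < Φ u v) → Φ u ∈ K.space := by
    intro u hu
    have hoff : ∀ v, v ∉ F → Φ u v = 0 := by
      intro v hv
      refine Finset.sum_eq_zero fun j _ => ?_
      rw [hPoff j v hv, mul_zero]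
    refine ⟨fun v => ?_, ?_, F, hF, hoff⟩
    · by_cases hv : v ∈ F
      · exact (hu v hv).le
      · exact (hoff v hv).ge
    · change ∑ v, ∑ j, bary4 u j * P j v = 1
      rw [hsumc, bary4_sum]
  -- positivity on the simplex
  have hpos' : ∀ w : Fin 5 → ℝ, (∀ j, 0 ≤ w j) → ∑ j, w j = 1 → ∀ v ∈ F,
      0 < ∑ j, w j * P j v := by
    intro w hw hw1 v hv
    have h0 : ∀ j, 0 ≤ w j * P j v := fun j => mul_nonneg (hw j) (hpos j v hv).le
    refine lt_of_le_of_ne (Finset.sum_nonneg fun j _ => h0 j) fun hcon => ?_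
    have h1 := (Finset.sum_eq_zero_iff_of_nonneg fun j _ => h0 j).1 hcon.symm
    have h2 : ∀ j, w j = 0 := fun j => by
      rcases mul_eq_zero.1 (h1 j (Finset.mem_univ j)) with h | h
      · exact h
      · exact absurd h (hpos j v hv).ne'
    rw [Finset.sum_eq_zero fun j _ => h2 j] at hw1
    exact zero_ne_one hw1
  obtain ⟨H, hH1, hH2, hH3⟩ := exists_homeomorph_image_interior_closure_frontier_eq_unitBall
    convex_S4 nonempty_interior_S4 bounded_S4
  -- domain
  let U : Set (EuclideanSpace ℝ (Fin 4)) := {z | ∀ v ∈ F, 0 < Φ (H.symm z) v}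
  have hUo : IsOpen U := by
    have : U = ⋂ v ∈ F, {z | 0 < Φ (H.symm z) v} := by
      ext z
      simp [U]
    rw [this]
    refine isOpen_biInter_finset fun v _ => ?_
    exact isOpen_lt continuous_const ((continuous_apply v).comp (hΦc.comp H.symm.continuous))
  let V : Set K.space := {x | ∀ v ∈ F, 0 < x.1 v}
  have hVo : IsOpen V := by
    have : V = ⋂ v ∈ F, {x : K.space | 0 < x.1 v} := by
      ext z
      simp [V]
    rw [this]
    refine isOpen_biInter_finset fun v _ => ?_
    exact isOpen_lt continuous_const ((continuous_apply v).comp continuous_subtype_val)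
  let g : U ≃ₜ V :=
    { toFun := fun z => ⟨⟨Φ (H.symm z.1), hΦmem _ z.2⟩, z.2⟩
      invFun := fun x => ⟨H (ψ x.1.1), by
        intro v hv
        change 0 < Φ (H.symm (H (ψ x.1.1))) v
        rw [H.symm_apply_apply, hΦψ x.1.1 x.1.2 x.2]
        exact x.2 v hv⟩
      left_inv := by
        intro z
        apply Subtype.ext
        change H (ψ (Φ (H.symm z.1))) = z.1
        rw [hψΦ, H.apply_symm_apply]
      right_inv := by
        intro x
        apply Subtype.ext
        apply Subtype.ext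
        change Φ (H.symm (H (ψ x.1.1))) = x.1.1
        rw [H.symm_apply_apply, hΦψ x.1.1 x.1.2 x.2]
      continuous_toFun := by
        refine Continuous.subtype_mk (Continuous.subtype_mk ?_ _) _
        exact hΦc.comp (H.symm.continuous.comp continuous_subtype_val)
      continuous_invFun := by
        refine Continuous.subtype_mk ?_ _
        exact H.continuous.comp (hψc.comp (continuous_subtype_val.comp continuous_subtype_val)) }
  have hemb : Topology.IsOpenEmbedding (fun z : U => (g z).1) :=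
    hVo.isOpenEmbedding_subtypeVal.comp g.isOpenEmbedding
  have hball : Metric.closedBall (0 : EuclideanSpace ℝ (Fin 4)) 1 ⊆ U := by
    intro z hz v hv
    rw [← hH2, isClosed_S4.closure_eq] at hz
    obtain ⟨u, hu, rfl⟩ := hz
    change 0 < Φ (H.symm (H u)) v
    rw [H.symm_apply_apply]
    exact hpos' _ hu (bary4_sum u) v hv
  refine ⟨⟨U, hUo, hball, fun z => (g z).1, hemb⟩, ?_, ?_⟩
  · ext x
    constructor
    · rintro ⟨z, hz, rfl⟩
      have hz' : z.1 ∈ Metric.ball (0 : EuclideanSpace ℝ (Fin 4)) 1 := hz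
      rw [← hH1, interior_S4] at hz'
      obtain ⟨u, hu, huz⟩ := hz'
      refine ⟨bary4 u, hu, bary4_sum u, fun v => ?_⟩
      change Φ (H.symm z.1) v = _
      rw [← huz, H.symm_apply_apply]
    · rintro ⟨w, hw, hw1, hx⟩
      have hb := bary4_ybar4 w hw1
      have hΦx : Φ (ybar4 w) = x.1 := by
        funext v
        change ∑ j, bary4 (ybar4 w) j * P j v = x.1 v
        rw [hb, hx v]
      have hUm : H (ybar4 w) ∈ U := by
        intro v hv
        rw [H.symm_apply_apply, hΦx, hx v]
        exact hpos' w (fun j => (hw j).le) hw1 v hv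
      refine ⟨⟨H (ybar4 w), hUm⟩, ?_, ?_⟩
      · change H (ybar4 w) ∈ Metric.ball (0 : EuclideanSpace ℝ (Fin 4)) 1
        rw [← hH1, interior_S4]
        refine ⟨ybar4 w, fun j => ?_, rfl⟩
        rw [hb]
        exact hw j
      · apply Subtype.ext
        change Φ (H.symm (H (ybar4 w))) = x.1
        rw [H.symm_apply_apply, hΦx]
  · ext x
    constructor
    · rintro ⟨z, hz, rfl⟩
      have hz' : z.1 ∈ Metric.sphere (0 : EuclideanSpace ℝ (Fin 4)) 1 := hz
      rw [← hH3, frontier_S4] at hz'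
      obtain ⟨u, hu, huz⟩ := hz'
      refine ⟨bary4 u, hu.1, bary4_sum u, hu.2, fun v => ?_⟩
      change Φ (H.symm z.1) v = _
      rw [← huz, H.symm_apply_apply]
    · rintro ⟨w, hw, hw1, hw0, hx⟩
      have hb := bary4_ybar4 w hw1
      have hΦx : Φ (ybar4 w) = x.1 := by
        funext v
        change ∑ j, bary4 (ybar4 w) j * P j v = x.1 v
        rw [hb, hx v]
      have hUm : H (ybar4 w) ∈ U := by
        intro v hv
        rw [H.symm_apply_apply, hΦx, hx v]
        exact hpos' w hw hw1 v hv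
      refine ⟨⟨H (ybar4 w), hUm⟩, ?_, ?_⟩
      · change H (ybar4 w) ∈ Metric.sphere (0 : EuclideanSpace ℝ (Fin 4)) 1
        rw [← hH3, frontier_S4]
        refine ⟨ybar4 w, ⟨fun j => ?_, ?_⟩, rfl⟩
        · rw [hb]
          exact hw j
        · rw [hb]
          exact hw0
      · apply Subtype.ext
        change Φ (H.symm (H (ybar4 w))) = x.1
        rw [H.symm_apply_apply, hΦx]

end Pool.Agent.Helper585.Wk
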