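import Pool.Agent.Helper585.Wk.Lst
import Pool.Agent.Helper585.Wk.GeoC1
import Pool.Agent.Helper585.Wk.GeoC9a

set_option autoImplicit false
namespace Pool.Agent.Helper585.Wk

namespace C9b

/-- the linear map of a stellar subdivision of a facet -/
noncomputable def st {n : ℕ} (S : Finset (Fin n)) (b : Fin n) :
    (Fin n → ℝ) →ₗ[ℝ] (Fin n → ℝ) where
  toFun y v := if v = b then 0 else if v ∈ S then y v + y b / 5 else y v
  map_add' x y := by
    ext v
    simp only [Pi.add_apply]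
    split_ifs <;> ring
  map_smul' c x := by
    ext v
    simp only [Pi.smul_apply, smul_eq_mul, RingHom.id_apply]
    split_ifs <;> ring

theorem st_apply {n : ℕ} (S : Finset (Fin n)) (b : Fin n) (y : Fin n → ℝ) (v : Fin n) :
    st S b y v = if v = b then 0 else if v ∈ S then y v + y b / 5 else y v := rfl

theorem st_nonneg {n : ℕ} (S : Finset (Fin n)) (b : Fin n) (y : Fin n → ℝ) (hy : ∀ v, 0 ≤ y v)
    (v : Fin n) : 0 ≤ st S b y v := by
  rw [st_apply]
  have h1 := hy v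
  have h2 := hy b
  split_ifs
  · exact le_refl _
  · positivity
  · exact h1

theorem st_ge {n : ℕ} (S : Finset (Fin n)) (b : Fin n) (y : Fin n → ℝ)
    (v : Fin n) (hvb : v ≠ b) (hv : v ∈ S) : st S b y v = y v + y b / 5 := by
  rw [st_apply, if_neg hvb, if_pos hv]

/-- the point with coordinates `w` on the simplex `b` -/
noncomputable def pt {n : ℕ} (b : Fin 5 → Fin n) (w : Fin 5 → ℝ) : Fin n → ℝ :=
  ∑ j, w j • Pi.single (b j) (1 : ℝ)

theorem pt_apply {n : ℕ} (b : Fin 5 → Fin n) (w : Fin 5 → ℝ) (v : Fin n) :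
    pt b w v = ∑ j, if v = b j then w j else 0 := by
  rw [pt, Finset.sum_apply]
  refine Finset.sum_congr rfl fun j _ => ?_
  simp [Pi.single_apply]

theorem pt_b {n : ℕ} (b : Fin 5 → Fin n) (hb : Function.Injective b) (w : Fin 5 → ℝ) (i : Fin 5) :
    pt b w (b i) = w i := by
  rw [pt_apply, Finset.sum_eq_single i]
  · simp
  · intro j _ hj
    rw [if_neg]
    exact fun h => hj (hb h.symm)
  · intro h
    exact absurd (Finset.mem_univ i) h

theorem pt_out {n : ℕ} (b : Fin 5 → Fin n) (w : Fin 5 → ℝ) (v : Fin n) (hv : ∀ j, v ≠ b j) :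
    pt b w v = 0 := by
  rw [pt_apply]
  exact Finset.sum_eq_zero fun j _ => if_neg (hv j)

theorem pt_sum {n : ℕ} (b : Fin 5 → Fin n) (w : Fin 5 → ℝ) :
    ∑ v, pt b w v = ∑ j, w j := by
  simp_rw [pt_apply]
  rw [Finset.sum_comm]
  refine Finset.sum_congr rfl fun j _ => ?_
  simp

theorem pt_nonneg {n : ℕ} (b : Fin 5 → Fin n) (w : Fin 5 → ℝ) (hw : ∀ j, 0 ≤ w j) (v : Fin n) :
    0 ≤ pt b w v := by
  rw [pt_apply]
  refine Finset.sum_nonneg fun j _ => ?_
  split_ifs
  · exact hw j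
  · exact le_refl _

theorem eq_pt {n : ℕ} (b : Fin 5 → Fin n) (hb : Function.Injective b) (x : Fin n → ℝ)
    (hx : ∀ v, (∀ j, v ≠ b j) → x v = 0) : x = pt b (fun j => x (b j)) := by
  ext v
  by_cases hv : ∃ j, v = b j
  · obtain ⟨j, rfl⟩ := hv
    rw [pt_b b hb]
  · push Not at hv
    rw [hx v hv, pt_out b _ v hv]

end C9b

open C9b

/-- TARGET: after five successive stellar subdivisions the innermost facet is a tame cell -/
theorem inner_cell {n : ℕ} (K : Fin 6 → Cx n) (a b : Fin 5 → Fin n)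
    (ha : Function.Injective a) (hb : Function.Injective b) (hab : ∀ i j, a i ≠ b j)
    (hF : ∀ i : Fin 5, FlipData (K i.castSucc) (K i.succ)
      (Finset.univ.image (fun j => if j < i then b j else a j)) {b i}) :
    ∃ c : Cell 4 (K 5).space,
      c.inter = {x | ∀ j, 0 < x.1 (b j)} ∧
      c.bdry = {x | (∀ v, (∀ j, v ≠ b j) → x.1 v = 0) ∧ ∃ j, x.1 (b j) = 0} := by
  classical
  obtain ⟨S, hS⟩ : ∃ S : Fin 5 → Finset (Fin n), ∀ i, S i =
    Finset.univ.image (fun j => if j < i then b j else a j) := ⟨_, fun _ => rfl⟩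
  have hF' : ∀ i : Fin 5, FlipData (K i.castSucc) (K i.succ) (S i) {b i} := fun i => by
    rw [hS]; exact hF i
  have hinj : ∀ i : Fin 5, Function.Injective (fun j => if j < i then b j else a j) := by
    intro i j k hjk
    simp only at hjk
    split_ifs at hjk with h1 h2 h2
    · exact hb hjk
    · exact absurd hjk.symm (hab _ _)
    · exact absurd hjk (hab _ _)
    · exact ha hjk
  have hcard : ∀ i, (S i).card = 5 := by
    intro i
    rw [hS, Finset.card_image_of_injective _ (hinj i)]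
    rfl
  have hmem : ∀ i v, v ∈ S i ↔ ∃ j, (if j < i then b j else a j) = v := by
    intro i v
    rw [hS]
    simp
  have hbS : ∀ i j, j < i → b j ∈ S i := by
    intro i j h
    rw [hmem]
    exact ⟨j, if_pos h⟩
  have haS : ∀ i j, ¬ j < i → a j ∈ S i := by
    intro i j h
    rw [hmem]
    exact ⟨j, if_neg h⟩
  choose r hr using fun i : Fin 5 => stellar_homeo _ _ _ _ (hF' i)
  have hr' : ∀ (i : Fin 5) (y : (K i.succ).space), (r i y).1 = st (S i) (b i) y.1 := by
    intro i y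
    ext v
    rw [hr, st_apply, hcard]
    norm_num
  let R : (K 5).space ≃ₜ (K 0).space :=
    (r 4).trans ((r 3).trans ((r 2).trans ((r 1).trans (r 0))))
  let L : (Fin n → ℝ) →ₗ[ℝ] (Fin n → ℝ) :=
    st (S 0) (b 0) ∘ₗ (st (S 1) (b 1) ∘ₗ (st (S 2) (b 2) ∘ₗ (st (S 3) (b 3) ∘ₗ st (S 4) (b 4))))
  have hRL : ∀ y : (K 5).space, (R y).1 = L y.1 := by
    intro y
    show (r 0 (r 1 (r 2 (r 3 (r 4 y))))).1 = _
    rw [hr' 0, hr' 1, hr' 2, hr' 3, hr' 4]
    rfl
  have hLpt : ∀ w : Fin 5 → ℝ, ∀ v, L (pt b w) v = ∑ j, w j * L (Pi.single (b j) 1) v := by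
    intro w v
    rw [pt, map_sum, Finset.sum_apply]
    refine Finset.sum_congr rfl fun j _ => ?_
    rw [map_smul]
    rfl
  -- the simplex
  have hτ : Finset.univ.image b ∈ (K 5).faces := by
    refine (hF' 4).starK' _ ?_ ?_
    · intro v hv
      obtain ⟨j, _, rfl⟩ := Finset.mem_image.1 hv
      rw [Finset.mem_union, Finset.mem_singleton]
      by_cases hj : j = 4
      · right; rw [hj]
      · left
        apply hbS
        omega
    · intro h
      have h1 := h (haS 4 4 (lt_irrefl _))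
      obtain ⟨j, _, hj⟩ := Finset.mem_image.1 h1
      exact hab _ _ hj.symm
  have hspace : ∀ x : Fin n → ℝ, (∀ v, 0 ≤ x v) → ∑ v, x v = 1 →
      (∀ v, (∀ j, v ≠ b j) → x v = 0) → x ∈ (K 5).space := by
    intro x h1 h2 h3
    refine ⟨h1, h2, _, hτ, fun v hv => h3 v fun j hj => hv ?_⟩
    rw [hj]
    exact Finset.mem_image_of_mem _ (Finset.mem_univ j)
  have hptmem : ∀ w : Fin 5 → ℝ, (∀ j, 0 ≤ w j) → ∑ j, w j = 1 → pt b w ∈ (K 5).space := by
    intro w h1 h2
    exact hspace _ (pt_nonneg b w h1) (by rw [pt_sum, h2]) (pt_out b w)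
  have hsing : ∀ j, (Pi.single (b j) (1 : ℝ) : Fin n → ℝ) ∈ (K 5).space := by
    intro j
    refine hspace _ (fun v => ?_) ?_ ?_
    · by_cases h : v = b j
      · rw [h, Pi.single_eq_same]; norm_num
      · rw [Pi.single_eq_of_ne h]
    · simp
    · intro v hv
      exact Pi.single_eq_of_ne (hv j) _
  have hP : ∀ j, L (Pi.single (b j) (1 : ℝ)) ∈ (K 0).space := by
    intro j
    have h1 := hRL ⟨_, hsing j⟩
    rw [← h1]
    exact (R ⟨_, hsing j⟩).2
  -- the facet
  have hb0 : b 0 ∉ S 0 := by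
    intro h
    exact Finset.disjoint_left.1 (hF' 0).disj h (Finset.mem_singleton_self _)
  have hFK : S 0 ∈ (K 0).faces := by
    refine (hF' 0).starK _ Finset.subset_union_left ?_
    intro h
    exact hb0 (h (Finset.mem_singleton_self _))
  have hmax : ∀ σ ∈ (K 0).faces, S 0 ⊆ σ → σ = S 0 := by
    intro σ hσ h
    have h1 := (hF' 0).inK σ hσ h
    have h2 : b 0 ∉ σ := by
      intro h3
      exact (hF' 0).noB ((K 0).down σ hσ _ (Finset.singleton_subset_iff.2 h3))
    refine Finset.Subset.antisymm (fun v hv => ?_) h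
    rcases Finset.mem_union.1 (h1 hv) with h3 | h3
    · exact h3
    · rw [Finset.mem_singleton] at h3
      rw [h3] at hv
      exact absurd hv h2
  have hbne : ∀ i j : Fin 5, i ≠ j → b i ≠ b j := fun i j h h' => h (hb h')
  -- positivity
  have hst1 : ∀ (i j : Fin 5) (y : Fin n → ℝ), j < i → st (S i) (b i) y (b j) =
      y (b j) + y (b i) / 5 := by
    intro i j y h
    exact st_ge _ _ _ _ (hbne j i h.ne) (hbS i j h)
  have hpos : ∀ j, ∀ v ∈ S 0, 0 < L (Pi.single (b j) (1 : ℝ)) v := by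
    intro j v hv
    have hvb : v ≠ b 0 := fun h => hb0 (h ▸ hv)
    obtain ⟨y5, hy5⟩ : ∃ y, y = (Pi.single (b j) (1 : ℝ) : Fin n → ℝ) := ⟨_, rfl⟩
    obtain ⟨y4, hy4⟩ : ∃ y, y = st (S 4) (b 4) y5 := ⟨_, rfl⟩
    obtain ⟨y3, hy3⟩ : ∃ y, y = st (S 3) (b 3) y4 := ⟨_, rfl⟩
    obtain ⟨y2, hy2⟩ : ∃ y, y = st (S 2) (b 2) y3 := ⟨_, rfl⟩
    obtain ⟨y1, hy1⟩ : ∃ y, y = st (S 1) (b 1) y2 := ⟨_, rfl⟩
    have hL : L (Pi.single (b j) (1 : ℝ)) = st (S 0) (b 0) y1 := by
      rw [hy1, hy2, hy3, hy4, hy5]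
      rfl
    rw [hL, st_ge _ _ _ _ hvb hv]
    have p5 : ∀ v, 0 ≤ y5 v := by rw [hy5]; exact (hsing j).1
    have p4 : ∀ v, 0 ≤ y4 v := by rw [hy4]; exact st_nonneg _ _ _ p5
    have p3 : ∀ v, 0 ≤ y3 v := by rw [hy3]; exact st_nonneg _ _ _ p4
    have p2 : ∀ v, 0 ≤ y2 v := by rw [hy2]; exact st_nonneg _ _ _ p3
    have p1 : ∀ v, 0 ≤ y1 v := by rw [hy1]; exact st_nonneg _ _ _ p2
    have q5 : 0 < y5 (b j) := by rw [hy5, Pi.single_eq_same]; exact one_pos
    have e10 : y1 (b 0) = y2 (b 0) + y2 (b 1) / 5 := by rw [hy1, hst1 1 0 _ (by decide)]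
    have e20 : y2 (b 0) = y3 (b 0) + y3 (b 2) / 5 := by rw [hy2, hst1 2 0 _ (by decide)]
    have e21 : y2 (b 1) = y3 (b 1) + y3 (b 2) / 5 := by rw [hy2, hst1 2 1 _ (by decide)]
    have e30 : y3 (b 0) = y4 (b 0) + y4 (b 3) / 5 := by rw [hy3, hst1 3 0 _ (by decide)]
    have e31 : y3 (b 1) = y4 (b 1) + y4 (b 3) / 5 := by rw [hy3, hst1 3 1 _ (by decide)]
    have e32 : y3 (b 2) = y4 (b 2) + y4 (b 3) / 5 := by rw [hy3, hst1 3 2 _ (by decide)]
    have e40 : y4 (b 0) = y5 (b 0) + y5 (b 4) / 5 := by rw [hy4, hst1 4 0 _ (by decide)]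
    have e41 : y4 (b 1) = y5 (b 1) + y5 (b 4) / 5 := by rw [hy4, hst1 4 1 _ (by decide)]
    have e42 : y4 (b 2) = y5 (b 2) + y5 (b 4) / 5 := by rw [hy4, hst1 4 2 _ (by decide)]
    have e43 : y4 (b 3) = y5 (b 3) + y5 (b 4) / 5 := by rw [hy4, hst1 4 3 _ (by decide)]
    have q1 : 0 < y1 (b 0) := by
      rw [e10, e20, e21, e30, e31, e32, e40, e41, e42, e43]
      have s0 := p5 (b 0)
      have s1 := p5 (b 1)
      have s2 := p5 (b 2)
      have s3 := p5 (b 3)
      have s4 := p5 (b 4)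
      have : 0 < y5 (b 0) ∨ 0 < y5 (b 1) ∨ 0 < y5 (b 2) ∨ 0 < y5 (b 3) ∨ 0 < y5 (b 4) := by
        fin_cases j
        · exact Or.inl q5
        · exact Or.inr (Or.inl q5)
        · exact Or.inr (Or.inr (Or.inl q5))
        · exact Or.inr (Or.inr (Or.inr (Or.inl q5)))
        · exact Or.inr (Or.inr (Or.inr (Or.inr q5)))
      rcases this with h | h | h | h | h <;> linarith
    have := p1 v
    linarith
  -- affine independence
  have haff : ∀ c : Fin 5 → ℝ, ∑ j, c j = 0 →
      (∀ v, ∑ j, c j * L (Pi.single (b j) (1 : ℝ)) v = 0) → ∀ j, c j = 0 := by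
    intro c hc h j
    have hLc : L (pt b c) = 0 := by
      ext v
      rw [hLpt, h]
      rfl
    obtain ⟨M, hM, hcM⟩ : ∃ M : ℝ, 0 < M ∧ ∀ j, |c j| ≤ M := by
      refine ⟨1 + ∑ j, |c j|, ?_, fun j => ?_⟩
      · have : 0 ≤ ∑ j, |c j| := Finset.sum_nonneg fun j _ => abs_nonneg _
        linarith
      · have := Finset.single_le_sum (f := fun j => |c j|) (fun j _ => abs_nonneg _)
          (Finset.mem_univ j)
        linarith
    have hx1 := hptmem (fun _ => 1 / 5) (fun _ => by norm_num) (by simp)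
    have hx2 := hptmem (fun j => 1 / 5 + c j / (5 * M)) (fun j => by
      have h1 := neg_abs_le (c j)
      have h2 := hcM j
      have h3 : 1 / 5 + c j / (5 * M) = (M + c j) / (5 * M) := by field_simp
      rw [h3]
      apply div_nonneg <;> linarith) (by
      have h4 : ∑ j, c j / (5 * M) = 0 := by rw [← Finset.sum_div, hc, zero_div]
      rw [Finset.sum_add_distrib, h4]
      simp)
    have e1 : R ⟨_, hx1⟩ = R ⟨_, hx2⟩ := by
      apply Subtype.ext
      rw [hRL, hRL]
      ext v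
      rw [hLpt, hLpt]
      have h3 : ∀ j, (1 / 5 + c j / (5 * M)) * L (Pi.single (b j) (1 : ℝ)) v =
        1 / 5 * L (Pi.single (b j) (1 : ℝ)) v + 
          (c j * L (Pi.single (b j) (1 : ℝ)) v) / (5 * M) := fun j => by ring
      have h4 : ∑ j, (c j * L (Pi.single (b j) (1 : ℝ)) v) / (5 * M) = 0 := by
        rw [← Finset.sum_div, h, zero_div]
      simp_rw [h3]
      rw [Finset.sum_add_distrib, h4, add_zero]
    have e2 := congrArg Subtype.val (R.injective e1)
    have e3 := congrFun e2 (b j)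
    simp only at e3
    rw [pt_b b hb, pt_b b hb] at e3
    have e4 : c j / (5 * M) = 0 := by linarith
    rcases div_eq_zero_iff.1 e4 with h5 | h5
    · exact h5
    · exfalso
      linarith
  obtain ⟨c0, hi0, hb0'⟩ := cell_of_simplex (K 0) (S 0) hFK (hcard 0) hmax
    (fun j => L (Pi.single (b j) (1 : ℝ))) hP hpos haff
  have hRpt : ∀ (x : (K 5).space) (w : Fin 5 → ℝ), (∀ j, 0 ≤ w j) → ∑ j, w j = 1 →
      ((∀ v, (R x).1 v = ∑ j, w j * L (Pi.single (b j) (1 : ℝ)) v) ↔ x.1 = pt b w) := by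
    intro x w h1 h2
    have hw := hptmem w h1 h2
    constructor
    · intro h
      have e1 : R x = R ⟨_, hw⟩ := by
        apply Subtype.ext
        rw [hRL ⟨_, hw⟩]
        ext v
        rw [h v, hLpt]
      exact congrArg Subtype.val (R.injective e1)
    · intro h v
      rw [hRL, h, hLpt]
  refine ⟨⟨c0.U, c0.isOpen, c0.ball_subset, R.symm ∘ c0.toFun,
    R.symm.isOpenEmbedding.comp c0.emb⟩, ?_, ?_⟩
  · have h1 : ∀ x, x ∈ R.symm '' c0.inter ↔ R x ∈ c0.inter := by
      intro x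
      rw [← Homeomorph.preimage_symm, Homeomorph.symm_symm]
      rfl
    have h2 : (⟨c0.U, c0.isOpen, c0.ball_subset, R.symm ∘ c0.toFun,
      R.symm.isOpenEmbedding.comp c0.emb⟩ : Cell 4 (K 5).space).inter = R.symm '' c0.inter := by
      rw [Cell.inter, Cell.inter, Set.image_comp]
    rw [h2]
    ext x
    rw [h1, hi0]
    simp only [Set.mem_ofPred_eq]
    constructor
    · rintro ⟨w, hw, hw1, hx⟩ j
      rw [(hRpt x w (fun j => (hw j).le) hw1).1 hx, pt_b b hb]
      exact hw j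
    · intro hx
      obtain ⟨σ, hσ, hσx⟩ := x.2.2.2
      have hbσ : ∀ j, b j ∈ σ := by
        intro j
        by_contra h
        exact (hx j).ne' (hσx _ h)
      have hσ1 := (hF' 4).inK' σ hσ (Finset.singleton_subset_iff.2 (hbσ 4))
      have hσ2 : ¬ S 4 ⊆ σ := fun h => (hF' 4).noA ((K 5).down σ hσ _ h)
      have ha4 : a 4 ∉ σ := by
        intro h
        apply hσ2
        intro v hv
        obtain ⟨j, hj⟩ := (hmem 4 v).1 hv
        by_cases h4 : j < 4
        · rw [if_pos h4] at hj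
          rw [← hj]
          exact hbσ j
        · rw [if_neg h4] at hj
          have : j = 4 := by omega
          rw [← hj, this]
          exact h
      have hx0 : ∀ v, (∀ j, v ≠ b j) → x.1 v = 0 := by
        intro v hv
        apply hσx
        intro hvσ
        rcases Finset.mem_union.1 (hσ1 hvσ) with h | h
        · obtain ⟨j, hj⟩ := (hmem 4 v).1 h
          by_cases h4 : j < 4
          · rw [if_pos h4] at hj
            exact hv j hj.symm
          · rw [if_neg h4] at hj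
            have : j = 4 := by omega
            rw [← hj, this] at hvσ
            exact ha4 hvσ
        · exact hv 4 (Finset.mem_singleton.1 h)
      have e1 := eq_pt b hb x.1 hx0
      have e2 : ∑ j, x.1 (b j) = 1 := by
        rw [← pt_sum b (fun j => x.1 (b j)), ← e1]
        exact x.2.2.1
      exact ⟨fun j => x.1 (b j), hx, e2, (hRpt x _ (fun j => (hx j).le) e2).2 e1⟩
  · have h1 : ∀ x, x ∈ R.symm '' c0.bdry ↔ R x ∈ c0.bdry := by
      intro x
      rw [← Homeomorph.preimage_symm, Homeomorph.symm_symm]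
      rfl
    have h2 : (⟨c0.U, c0.isOpen, c0.ball_subset, R.symm ∘ c0.toFun,
      R.symm.isOpenEmbedding.comp c0.emb⟩ : Cell 4 (K 5).space).bdry = R.symm '' c0.bdry := by
      rw [Cell.bdry, Cell.bdry, Set.image_comp]
    rw [h2]
    ext x
    rw [h1, hb0']
    simp only [Set.mem_ofPred_eq]
    constructor
    · rintro ⟨w, hw, hw1, ⟨j, hj⟩, hx⟩
      have e1 := (hRpt x w hw hw1).1 hx
      refine ⟨fun v hv => ?_, j, ?_⟩
      · rw [e1, pt_out b w v hv]
      · rw [e1, pt_b b hb, hj]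
    · rintro ⟨hx0, j, hj⟩
      have e1 := eq_pt b hb x.1 hx0
      have e2 : ∑ j, x.1 (b j) = 1 := by
        rw [← pt_sum b (fun j => x.1 (b j)), ← e1]
        exact x.2.2.1
      have e3 : ∀ j, 0 ≤ x.1 (b j) := fun j => x.2.1 _
      exact ⟨fun j => x.1 (b j), e3, e2, ⟨j, hj⟩, (hRpt x _ e3 e2).2 e1⟩

end Pool.Agent.Helper585.Wk
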