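import Pool.Agent.Helper585.Wk.Top
import Pool.Agent.Helper585.Wk.Top1c

set_option autoImplicit false
namespace Pool.Agent.Helper585.Wk
open Pool.Agent.Helper611

section EL
open ZBase

variable {n : ℕ}

/-- functions supported on a finite set -/
def elS (S : Finset (Finset (Fin n))) : Submodule (ZMod 2) (Finset (Fin n) → ZMod 2) where
  carrier := {c | ∀ σ, σ ∉ S → c σ = 0}
  add_mem' := by
    intro a b ha hb σ hσ
    show a σ + b σ = 0
    rw [ha σ hσ, hb σ hσ, add_zero]
  zero_mem' := fun _ _ => rfl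
  smul_mem' := by
    intro r a ha σ hσ
    show r • a σ = 0
    rw [ha σ hσ, smul_zero]

/-- functions supported on `S` are functions on `S` -/
def elEquiv (S : Finset (Finset (Fin n))) : elS S ≃ₗ[ZMod 2] (S → ZMod 2) where
  toFun c := fun s => c.1 s.1
  map_add' _ _ := rfl
  map_smul' _ _ := rfl
  invFun g := ⟨fun σ => if h : σ ∈ S then g ⟨σ, h⟩ else 0, fun σ hσ => by
    show (if h : σ ∈ S then g ⟨σ, h⟩ else 0) = 0
    rw [dif_neg hσ]⟩
  left_inv c := by
    apply Subtype.ext
    funext σ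
    show (if h : σ ∈ S then c.1 σ else 0) = c.1 σ
    by_cases h : σ ∈ S
    · rw [dif_pos h]
    · rw [dif_neg h, c.2 σ h]
  right_inv g := by
    funext s
    show (if h : s.1 ∈ S then g ⟨s.1, h⟩ else 0) = g s
    rw [dif_pos s.2]

theorem elS_finrank (S : Finset (Finset (Fin n))) : Module.finrank (ZMod 2) (elS S) = S.card := by
  rw [(elEquiv S).finrank_eq, Module.finrank_fintype_fun_eq_card, Fintype.card_coe]

/-- the boundary, restricted to the sets containing `e` -/
def elD (e : Finset (Fin n)) :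
    (Finset (Fin n) → ZMod 2) →ₗ[ZMod 2] (Finset (Fin n) → ZMod 2) where
  toFun c ρ := if e ⊆ ρ then bd c ρ else 0
  map_add' a b := by
    funext ρ
    by_cases h : e ⊆ ρ
    · simp only [if_pos h, Pi.add_apply, bd_add]
    · simp only [if_neg h, Pi.add_apply, add_zero]
  map_smul' r a := by
    funext ρ
    by_cases h : e ⊆ ρ
    · simp only [if_pos h, Pi.smul_apply, RingHom.id_apply]
      unfold bd
      rw [Finset.smul_sum]
      refine Finset.sum_congr rfl fun x _ => ?_
      rw [Pi.smul_apply, smul_comm]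
    · simp only [if_neg h, Pi.smul_apply, RingHom.id_apply, smul_zero]

/-- the faces with `k` elements containing `e` -/
def elF (K : Cx n) (e : Finset (Fin n)) (k : ℕ) : Finset (Finset (Fin n)) :=
  K.faces.filter (fun σ => e ⊆ σ ∧ σ.card = k)

theorem elD_mem (K : Cx n) (e : Finset (Fin n)) (k : ℕ) (c : Finset (Fin n) → ZMod 2)
    (hc : c ∈ elS (elF K e (k + 1))) : elD e c ∈ elS (elF K e k) := by
  intro ρ hρ
  show (if e ⊆ ρ then bd c ρ else 0) = 0
  by_cases h : e ⊆ ρ
  · rw [if_pos h]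
    unfold bd
    refine Finset.sum_eq_zero fun x hx => ?_
    have hx' := Finset.mem_compl.1 hx
    have h0 : c (insert x ρ) = 0 := by
      refine hc _ fun h2 => hρ ?_
      have h3 := Finset.mem_filter.1 h2
      refine Finset.mem_filter.2 ⟨K.down _ h3.1 _ (Finset.subset_insert _ _), h, ?_⟩
      have h4 := h3.2.2
      rw [Finset.card_insert_of_notMem hx'] at h4
      omega
    rw [h0, smul_zero]
  · rw [if_neg h]

/-- boundary map between the chain spaces -/
def eld (K : Cx n) (e : Finset (Fin n)) (k : ℕ) :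
    elS (elF K e (k + 1)) →ₗ[ZMod 2] elS (elF K e k) :=
  ((elD e).domRestrict _).codRestrict _ (fun c => elD_mem K e k c.1 c.2)

theorem eld_apply (K : Cx n) (e : Finset (Fin n)) (k : ℕ) (c : elS (elF K e (k + 1)))
    (ρ : Finset (Fin n)) : (eld K e k c).1 ρ = if e ⊆ ρ then bd c.1 ρ else 0 := rfl

theorem el_exact (K : Cx n) (e : Finset (Fin n)) (k : ℕ) (h : Acy K.toZ (ZMod 2) e (k + 1)) :
    LinearMap.range (eld K e (k + 1)) = LinearMap.ker (eld K e k) := by
  apply le_antisymm
  · rintro _ ⟨c, rfl⟩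
    rw [LinearMap.mem_ker]
    apply Subtype.ext
    funext ρ
    rw [eld_apply]
    by_cases hρ : e ⊆ ρ
    · rw [if_pos hρ]
      have h1 : bd (eld K e (k + 1) c).1 ρ = bd (bd c.1) ρ := by
        refine bd_congr _ _ _ fun σ hσ => ?_
        rw [eld_apply, if_pos (hρ.trans hσ)]
      rw [h1, bd_bd]
      rfl
    · rw [if_neg hρ]
      rfl
  · intro c hc
    rw [LinearMap.mem_ker] at hc
    have hc' : ∀ ρ, e ⊆ ρ → bd c.1 ρ = 0 := by
      intro ρ hρ
      have h1 := congrFun (congrArg Subtype.val hc) ρ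
      rw [eld_apply, if_pos hρ] at h1
      exact h1
    obtain ⟨b, hb, hb2⟩ := h c.1 (by
      intro σ hσ
      have h1 : σ ∈ elF K e (k + 1) := by
        by_contra h2
        exact hσ (c.2 σ h2)
      have h3 := Finset.mem_filter.1 h1
      exact ⟨h3.1, h3.2.1, h3.2.2⟩) hc'
    refine ⟨⟨b, fun σ hσ => ?_⟩, ?_⟩
    · by_contra h1
      have h2 := hb σ h1
      exact hσ (Finset.mem_filter.2 ⟨h2.1, h2.2.1, h2.2.2⟩)
    · apply Subtype.ext
      funext ρ
      rw [eld_apply]
      by_cases hρ : e ⊆ ρ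
      · rw [if_pos hρ]; exact hb2 ρ hρ
      · rw [if_neg hρ]
        symm
        refine c.2 ρ fun h2 => hρ (Finset.mem_filter.1 h2).2.1

theorem el_top (K : Cx n) (e : Finset (Fin n)) (he2 : e.card = 2)
    (h : Acy K.toZ (ZMod 2) e 2) : LinearMap.range (eld K e 2) = ⊤ := by
  rw [eq_top_iff]
  intro c _
  obtain ⟨b, hb, hb2⟩ := h c.1 (by
    intro σ hσ
    have h1 : σ ∈ elF K e 2 := by
      by_contra h2
      exact hσ (c.2 σ h2)
    have h3 := Finset.mem_filter.1 h1
    exact ⟨h3.1, h3.2.1, h3.2.2⟩) (by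
    intro ρ hρ
    unfold bd
    refine Finset.sum_eq_zero fun x hx => ?_
    have hx' := Finset.mem_compl.1 hx
    have h0 : c.1 (insert x ρ) = 0 := by
      refine c.2 _ fun h2 => ?_
      have h3 := (Finset.mem_filter.1 h2).2.2
      rw [Finset.card_insert_of_notMem hx'] at h3
      have h4 := Finset.card_le_card hρ
      omega
    rw [h0, smul_zero])
  refine ⟨⟨b, fun σ hσ => ?_⟩, ?_⟩
  · by_contra h1
    have h2 := hb σ h1
    exact hσ (Finset.mem_filter.2 ⟨h2.1, h2.2.1, h2.2.2⟩)
  · apply Subtype.ext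
    funext ρ
    rw [eld_apply]
    by_cases hρ : e ⊆ ρ
    · rw [if_pos hρ]; exact hb2 ρ hρ
    · rw [if_neg hρ]
      symm
      refine c.2 ρ fun h2 => hρ (Finset.mem_filter.1 h2).2.1

theorem el_sgn (x : Fin n) (ρ : Finset (Fin n)) (a : ZMod 2) : sgn x ρ • a = a := by
  unfold sgn
  rcases neg_one_pow_eq_or ℤ (ρ.filter (· < x)).card with h | h
  · rw [h, one_smul]
  · rw [h, neg_smul, one_smul]
    revert a
    decide

/-- number of facets over `t` on which `c` is one, modulo two -/
theorem el_count (c : Finset (Fin n) → ZMod 2) (S : Finset (Finset (Fin n)))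
    (hS : ∀ σ, c σ = if σ ∈ S then 1 else 0) (m : ℕ) (hm : ∀ σ ∈ S, σ.card = m + 1)
    (t : Finset (Fin n)) (ht : t.card = m) :
    bd c t = ((S.filter (fun F => t ⊆ F)).card : ZMod 2) := by
  unfold bd
  have h1 : ∑ x ∈ tᶜ, sgn x t • c (insert x t) = ∑ x ∈ tᶜ, if insert x t ∈ S then (1 : ZMod 2) else 0 := by
    refine Finset.sum_congr rfl fun x _ => ?_
    rw [el_sgn, hS]
  rw [h1, Finset.sum_boole]
  congr 1
  refine Finset.card_bij (fun x _ => insert x t) ?_ ?_ ?_
  · intro x hx
    have hx' := Finset.mem_filter.1 hx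
    exact Finset.mem_filter.2 ⟨hx'.2, Finset.subset_insert _ _⟩
  · intro x hx y hy hxy
    have hx' := Finset.mem_compl.1 (Finset.mem_filter.1 hx).1
    have h2 : x ∈ insert y t := by
      have hxy' : insert x t = insert y t := hxy
      rw [← hxy']; exact Finset.mem_insert_self _ _
    rcases Finset.mem_insert.1 h2 with h3 | h3
    · exact h3
    · exact absurd h3 hx'
  · intro F hF
    obtain ⟨hF1, hF2⟩ := Finset.mem_filter.1 hF
    have h3 : (F \ t).card = 1 := by
      rw [Finset.card_sdiff_of_subset hF2, hm F hF1, ht]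
      omega
    obtain ⟨x, hx⟩ := Finset.card_eq_one.1 h3
    have hxF : x ∈ F \ t := by rw [hx]; exact Finset.mem_singleton_self x
    have hxF' := Finset.mem_sdiff.1 hxF
    have h4 : insert x t = F := by
      rw [← Finset.sdiff_union_of_subset hF2, hx]
      rfl
    refine ⟨x, Finset.mem_filter.2 ⟨Finset.mem_compl.2 hxF'.2, ?_⟩, h4⟩
    rw [h4]; exact hF1

theorem el_ker (K : Cx n) (h : K.LAcy) (hd : ∀ σ ∈ K.faces, σ.card ≤ 5)
    (hpure : ∀ σ ∈ K.faces, σ.Nonempty → ∃ F ∈ K.faces, σ ⊆ F ∧ F.card = 5)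
    (htwo : ∀ t ∈ K.faces, t.card = 4 → (K.fac t).card = 2)
    (e : Finset (Fin n)) (he : e ∈ K.faces) (hne : e.Nonempty) :
    Module.finrank (ZMod 2) (LinearMap.ker (eld K e 4)) = 1 := by
  classical
  have hfac : elF K e 5 = K.fac e := rfl
  obtain ⟨u, hu⟩ : ∃ u : Finset (Fin n) → ZMod 2, u = fun σ => if σ ∈ K.fac e then 1 else 0 :=
    ⟨_, rfl⟩
  have huS : u ∈ elS (elF K e (4 + 1)) := by
    intro σ hσ
    rw [hu]
    exact if_neg hσ
  have huk : (⟨u, huS⟩ : elS (elF K e (4 + 1))) ∈ LinearMap.ker (eld K e 4) := by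
    rw [LinearMap.mem_ker]
    apply Subtype.ext
    funext ρ
    rw [eld_apply]
    by_cases hρ : e ⊆ ρ
    · rw [if_pos hρ]
      show bd u ρ = 0
      by_cases hc : ρ.card = 4
      · rw [el_count u (K.fac e) (fun σ => by rw [hu]) 4
          (fun σ hσ => (Finset.mem_filter.1 hσ).2.2) ρ hc]
        by_cases hρf : ρ ∈ K.faces
        · have h1 : (K.fac e).filter (fun F => ρ ⊆ F) = K.fac ρ := by
            ext F
            simp only [Cx.fac, Finset.mem_filter]
            constructor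
            · rintro ⟨⟨h2, _, h4⟩, h5⟩
              exact ⟨h2, h5, h4⟩
            · rintro ⟨h2, h5, h4⟩
              exact ⟨⟨h2, hρ.trans h5, h4⟩, h5⟩
          rw [h1, htwo ρ hρf hc]
          decide
        · have h1 : (K.fac e).filter (fun F => ρ ⊆ F) = ∅ := by
            rw [Finset.filter_eq_empty_iff]
            intro F hF hFρ
            exact hρf (K.down F (Finset.mem_filter.1 hF).1 ρ hFρ)
          rw [h1]
          rfl
      · unfold bd
        refine Finset.sum_eq_zero fun x hx => ?_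
        have hx' := Finset.mem_compl.1 hx
        have h0 : u (insert x ρ) = 0 := by
          rw [hu]
          refine if_neg fun h2 => hc ?_
          have h3 := (Finset.mem_filter.1 h2).2.2
          rw [Finset.card_insert_of_notMem hx'] at h3
          omega
        rw [h0, smul_zero]
    · rw [if_neg hρ]
      rfl
  obtain ⟨F0, hF0, hF1, hF2⟩ := hpure e he hne
  have hF0' : F0 ∈ K.fac e := Finset.mem_filter.2 ⟨hF0, hF1, hF2⟩
  have hu0 : (⟨⟨u, huS⟩, huk⟩ : LinearMap.ker (eld K e 4)) ≠ 0 := by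
    intro h0
    have h1 : u F0 = 0 := congrFun (congrArg (fun z : LinearMap.ker (eld K e 4) => z.1.1) h0) F0
    rw [hu] at h1
    simp only [if_pos hF0'] at h1
    exact one_ne_zero h1
  rw [finrank_eq_one_iff_of_nonzero' _ hu0]
  intro c
  have hcz : ∀ t, e ⊆ t → bd c.1.1 t = 0 := by
    intro t ht
    have h1 := congrFun (congrArg Subtype.val (LinearMap.mem_ker.1 c.2)) t
    rw [eld_apply, if_pos ht] at h1
    exact h1
  obtain ⟨Z, hZ⟩ : ∃ Z : Finset (Finset (Fin n)), Z = (K.fac e).filter (fun F => c.1.1 F = 1) := ⟨_, rfl⟩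
  have hcZ : ∀ σ, c.1.1 σ = if σ ∈ Z then 1 else 0 := by
    intro σ
    by_cases hσ : σ ∈ K.fac e
    · by_cases h1 : c.1.1 σ = 1
      · rw [if_pos (by rw [hZ]; exact Finset.mem_filter.2 ⟨hσ, h1⟩), h1]
      · rw [if_neg (by rw [hZ]; exact fun h2 => h1 (Finset.mem_filter.1 h2).2)]
        revert h1
        generalize c.1.1 σ = a
        revert a
        decide
    · rw [if_neg (by rw [hZ]; exact fun h2 => hσ (Finset.mem_filter.1 h2).1)]
      exact c.1.2 σ hσ
  have hZs : Z ⊆ K.fac e := by rw [hZ]; exact Finset.filter_subset _ _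
  have key := star_conn K h hd hpure htwo e hne Z hZs (by
    intro t ht het
    have h1 := el_count c.1.1 Z hcZ 4 (fun σ hσ => (Finset.mem_filter.1 (hZs hσ)).2.2) t ht
    rw [hcz t het] at h1
    exact (ZMod.natCast_eq_zero_iff_even).1 h1.symm)
  rcases key with h1 | h1
  · refine ⟨0, ?_⟩
    rw [zero_smul]
    apply Subtype.ext
    apply Subtype.ext
    funext σ
    show (0 : ZMod 2) = c.1.1 σ
    rw [hcZ, h1, if_neg (Finset.notMem_empty σ)]
  · refine ⟨1, ?_⟩
    rw [one_smul]
    apply Subtype.ext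
    apply Subtype.ext
    funext σ
    show u σ = c.1.1 σ
    rw [hcZ, h1, hu]

end EL

/-- TARGET: the link of an edge has Euler characteristic 2 -/
theorem edge_link {n : ℕ} (K : Cx n) (h : K.LAcy) (hd : ∀ σ ∈ K.faces, σ.card ≤ 5)
    (hpure : ∀ σ ∈ K.faces, σ.Nonempty → ∃ F ∈ K.faces, σ ⊆ F ∧ F.card = 5)
    (htwo : ∀ t ∈ K.faces, t.card = 4 → (K.fac t).card = 2)
    (e : Finset (Fin n)) (he : e ∈ K.faces) (he2 : e.card = 2) :
    (K.faces.filter (fun σ => e ⊆ σ ∧ σ.card = 3)).card +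
      (K.faces.filter (fun σ => e ⊆ σ ∧ σ.card = 5)).card =
    (K.faces.filter (fun σ => e ⊆ σ ∧ σ.card = 4)).card + 2 := by
  classical
  have hne : e.Nonempty := Finset.card_pos.1 (by omega)
  have hac : ∀ k, k ≤ 4 → ZBase.Acy K.toZ (ZMod 2) e k :=
    ZBase.acy_change (R := ℤ) (M := ZMod 2) K.toZ e 4 (fun k hk => h e k hne hk)
  have r2 := LinearMap.finrank_range_add_finrank_ker (eld K e 2)
  have r3 := LinearMap.finrank_range_add_finrank_ker (eld K e 3)
  have r4 := LinearMap.finrank_range_add_finrank_ker (eld K e 4)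
  rw [el_top K e he2 (hac 2 (by norm_num)), finrank_top, elS_finrank, elS_finrank] at r2
  rw [el_exact K e 2 (hac 3 (by norm_num)), elS_finrank] at r3
  rw [el_exact K e 3 (hac 4 (by norm_num)), elS_finrank,
    el_ker K h hd hpure htwo e he hne] at r4
  have h2 : (elF K e 2).card = 1 := by
    rw [Finset.card_eq_one]
    refine ⟨e, ?_⟩
    ext σ
    rw [Finset.mem_singleton]
    constructor
    · intro hσ
      have h3 := Finset.mem_filter.1 hσ
      exact (Finset.eq_of_subset_of_card_le h3.2.1 (by omega)).symm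
    · rintro rfl
      exact Finset.mem_filter.2 ⟨he, Finset.Subset.refl _, he2⟩
  have r2' : (elF K e 2).card + Module.finrank (ZMod 2) (LinearMap.ker (eld K e 2)) =
    (elF K e 3).card := r2
  have r3' : Module.finrank (ZMod 2) (LinearMap.ker (eld K e 2)) +
    Module.finrank (ZMod 2) (LinearMap.ker (eld K e 3)) = (elF K e 4).card := r3
  have r4' : Module.finrank (ZMod 2) (LinearMap.ker (eld K e 3)) + 1 = (elF K e 5).card := r4
  clear r2 r3 r4
  have e3 : (K.faces.filter (fun σ => e ⊆ σ ∧ σ.card = 3)).card = (elF K e 3).card := rfl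
  have e4 : (K.faces.filter (fun σ => e ⊆ σ ∧ σ.card = 4)).card = (elF K e 4).card := rfl
  have e5 : (K.faces.filter (fun σ => e ⊆ σ ∧ σ.card = 5)).card = (elF K e 5).card := rfl
  rw [e3, e4, e5]
  omega

end Pool.Agent.Helper585.Wk
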