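import Pool.Agent.Helper585.Wk.Eul
import Pool.Agent.Helper585.Wk.Top

set_option autoImplicit false
namespace Pool.Agent.Helper585.Wk
open Pool.Agent.Helper611

theorem dehn_somm_dc {n : ℕ} (K : Cx n) (a b : ℕ) :
    ∑ e ∈ K.faces.filter (fun e => e.card = a),
      (K.faces.filter (fun σ => e ⊆ σ ∧ σ.card = b)).card =
    (K.faces.filter (fun σ => σ.card = b)).card * b.choose a := by
  classical
  have h := Finset.sum_card_bipartiteAbove_eq_sum_card_bipartiteBelow
    (s := K.faces.filter (fun e => e.card = a)) (t := K.faces.filter (fun σ => σ.card = b))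
    (r := fun e σ => e ⊆ σ)
  have h1 : ∀ e : Finset (Fin n), (K.faces.filter (fun σ => e ⊆ σ ∧ σ.card = b)) =
      Finset.bipartiteAbove (fun e σ => e ⊆ σ) (K.faces.filter (fun σ => σ.card = b)) e := by
    intro e
    ext σ
    simp only [Finset.mem_filter, Finset.bipartiteAbove]
    tauto
  have h2 : ∀ σ ∈ K.faces.filter (fun σ => σ.card = b),
      (Finset.bipartiteBelow (fun e σ => e ⊆ σ) (K.faces.filter (fun e => e.card = a)) σ).card =
        b.choose a := by
    intro σ hσ
    rw [Finset.mem_filter] at hσ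
    have : Finset.bipartiteBelow (fun e σ => e ⊆ σ) (K.faces.filter (fun e => e.card = a)) σ =
        Finset.powersetCard a σ := by
      ext e
      simp only [Finset.mem_filter, Finset.bipartiteBelow, Finset.mem_powersetCard]
      constructor
      · rintro ⟨⟨_, h3⟩, h4⟩
        exact ⟨h4, h3⟩
      · rintro ⟨h4, h3⟩
        exact ⟨⟨K.down σ hσ.1 e h4, h3⟩, h4⟩
    rw [this, Finset.card_powersetCard, hσ.2]
  rw [Finset.sum_congr rfl (fun e _ => by rw [h1 e]), h, Finset.sum_congr rfl h2,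
    Finset.sum_const, smul_eq_mul]

theorem dehn_somm_chi {n : ℕ} (K : Cx n) (hd : ∀ σ ∈ K.faces, σ.card ≤ 5) :
    K.chi = K.f 0 - K.f 1 + K.f 2 - K.f 3 + K.f 4 := by
  have hz5 : ∀ i, 5 ≤ i → K.f i = 0 := by
    intro i hi
    rw [Cx.f, Finset.card_eq_zero, Finset.filter_eq_empty_iff]
    intro σ hσ h
    have := hd σ hσ
    omega
  have hzn : ∀ i, n ≤ i → K.f i = 0 := by
    intro i hi
    rw [Cx.f, Finset.card_eq_zero, Finset.filter_eq_empty_iff]
    intro σ hσ h
    have := Finset.card_le_univ σ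
    rw [Fintype.card_fin] at this
    omega
  have e1 : ∑ i ∈ Finset.range n, (-1 : ℤ) ^ i * K.f i =
      ∑ i ∈ Finset.range (max n 5), (-1 : ℤ) ^ i * K.f i := by
    refine Finset.sum_subset (Finset.range_subset_range.2 (le_max_left _ _)) ?_
    intro i _ hi
    rw [Finset.mem_range, not_lt] at hi
    rw [hzn i hi]; simp
  have e2 : ∑ i ∈ Finset.range 5, (-1 : ℤ) ^ i * K.f i =
      ∑ i ∈ Finset.range (max n 5), (-1 : ℤ) ^ i * K.f i := by
    refine Finset.sum_subset (Finset.range_subset_range.2 (le_max_right _ _)) ?_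
    intro i _ hi
    rw [Finset.mem_range, not_lt] at hi
    rw [hz5 i hi]; simp
  rw [Cx.chi, e1, ← e2]
  simp [Finset.sum_range_succ]
  ring

/-- TARGET: Dehn-Sommerville type equation -/
theorem dehn_somm {n : ℕ} (K : Cx n) (hd : ∀ σ ∈ K.faces, σ.card ≤ 5)
    (htwo : ∀ t ∈ K.faces, t.card = 4 → (K.fac t).card = 2)
    (hedge : ∀ e ∈ K.faces, e.card = 2 → (K.faces.filter (fun σ => e ⊆ σ ∧ σ.card = 3)).card +
      (K.faces.filter (fun σ => e ⊆ σ ∧ σ.card = 5)).card =
    (K.faces.filter (fun σ => e ⊆ σ ∧ σ.card = 4)).card + 2) :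
    (K.f 2 : ℤ) + 10 * K.f 0 = 4 * K.f 1 + 10 * K.chi := by
  have h23 := dehn_somm_dc K 2 3
  have h24 := dehn_somm_dc K 2 4
  have h25 := dehn_somm_dc K 2 5
  have h45 := dehn_somm_dc K 4 5
  have hA : ∑ e ∈ K.faces.filter (fun e => e.card = 2),
      ((K.faces.filter (fun σ => e ⊆ σ ∧ σ.card = 3)).card +
      (K.faces.filter (fun σ => e ⊆ σ ∧ σ.card = 5)).card) =
      ∑ e ∈ K.faces.filter (fun e => e.card = 2),
      ((K.faces.filter (fun σ => e ⊆ σ ∧ σ.card = 4)).card + 2) := by
    refine Finset.sum_congr rfl fun e he => ?_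
    rw [Finset.mem_filter] at he
    exact hedge e he.1 he.2
  have hB : ∑ e ∈ K.faces.filter (fun e => e.card = 4),
      (K.faces.filter (fun σ => e ⊆ σ ∧ σ.card = 5)).card =
      ∑ e ∈ K.faces.filter (fun e => e.card = 4), 2 := by
    refine Finset.sum_congr rfl fun e he => ?_
    rw [Finset.mem_filter] at he
    exact htwo e he.1 he.2
  rw [Finset.sum_add_distrib, Finset.sum_add_distrib, h23, h24, h25, Finset.sum_const,
    smul_eq_mul] at hA
  rw [h45, Finset.sum_const, smul_eq_mul] at hB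
  have hc := dehn_somm_chi K hd
  have c1 : Nat.choose 3 2 = 3 := by decide
  have c2 : Nat.choose 4 2 = 6 := by decide
  have c3 : Nat.choose 5 2 = 10 := by decide
  have c4 : Nat.choose 5 4 = 5 := by decide
  rw [c1, c2, c3] at hA
  rw [c4] at hB
  have f1 : K.f 1 = (K.faces.filter (fun σ => σ.card = 2)).card := rfl
  have f2 : K.f 2 = (K.faces.filter (fun σ => σ.card = 3)).card := rfl
  have f3 : K.f 3 = (K.faces.filter (fun σ => σ.card = 4)).card := rfl
  have f4 : K.f 4 = (K.faces.filter (fun σ => σ.card = 5)).card := rfl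
  rw [← f1, ← f2, ← f3, ← f4] at hA
  rw [← f3, ← f4] at hB
  rw [hc]
  omega

end Pool.Agent.Helper585.Wk
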