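import Pool.Agent.Helper585.Wk.Eul

set_option autoImplicit false
namespace Pool.Agent.Helper585.Wk
open Pool.Agent.Helper381

lemma sing_cov_open {n : ℕ} (K : Cx n) (s : Finset (Fin n)) : IsOpen (K.star s) := by
  have h : K.star s = ⋂ v ∈ s, {x : K.space | 0 < x.1 v} := by
    ext x
    simp [Cx.star]
  rw [h]
  refine isOpen_biInter_finset fun v _ => ?_
  exact isOpen_lt continuous_const ((continuous_apply v).comp continuous_subtype_val)

lemma sing_cov_supp {n : ℕ} (K : Cx n) (x : K.space) (t : Finset (Fin n))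
    (ht : ∀ v ∈ t, 0 < x.1 v) : t ∈ K.faces := by
  obtain ⟨h0, h1, σ, hσ, hz⟩ := x.2
  refine K.down σ hσ t fun v hv => ?_
  by_contra hvσ
  exact absurd (hz v hvσ) (ht v hv).ne'

lemma sing_cov_cover {n : ℕ} (K : Cx n) (x : K.space) : ∃ C ∈ K.cov, x ∈ C := by
  classical
  set t : Finset (Fin n) := Finset.univ.filter (fun v => 0 < x.1 v) with ht
  have h1 : ∀ v ∈ t, 0 < x.1 v := fun v hv => (Finset.mem_filter.1 hv).2
  refine ⟨K.star t, ⟨t, sing_cov_supp K x t h1, ?_, rfl⟩, h1⟩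
  by_contra hne
  rw [Finset.not_nonempty_iff_eq_empty] at hne
  have h2 : ∀ v, x.1 v = 0 := by
    intro v
    refine le_antisymm ?_ (x.2.1 v)
    by_contra hv
    have hv' : v ∈ t := Finset.mem_filter.2 ⟨Finset.mem_univ v, not_le.1 hv⟩
    rw [hne] at hv'
    exact absurd hv' (Finset.notMem_empty v)
  have h3 := x.2.2.1
  simp [h2] at h3

lemma sing_cov_hcap {n : ℕ} (K : Cx n) (σ : Σ m, Sing K.space m)
    (h : ∃ C ∈ K.cov, Set.range σ.2 ⊆ C) :
    ∃ J ∈ K.cov, Set.range σ.2 ⊆ J ∧ ∀ C ∈ K.cov, Set.range σ.2 ⊆ C → J ⊆ C := by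
  classical
  obtain ⟨C, ⟨s, hs, hsne, rfl⟩, hC⟩ := h
  obtain ⟨y0, hy0⟩ : (Set.range σ.2).Nonempty := Set.range_nonempty _
  set t : Finset (Fin n) := Finset.univ.filter (fun v => ∀ y ∈ Set.range σ.2, 0 < y.1 v) with ht
  have h1 : ∀ v ∈ t, ∀ y ∈ Set.range σ.2, 0 < y.1 v := fun v hv => (Finset.mem_filter.1 hv).2
  have h2 : ∀ s2 : Finset (Fin n), Set.range σ.2 ⊆ K.star s2 → s2 ⊆ t := by
    intro s2 hs2 v hv
    exact Finset.mem_filter.2 ⟨Finset.mem_univ v, fun y hy => hs2 hy v hv⟩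
  refine ⟨K.star t, ⟨t, sing_cov_supp K y0 t (fun v hv => h1 v hv y0 hy0),
    hsne.mono (h2 s hC), rfl⟩, fun y hy v hv => h1 v hv y hy, ?_⟩
  rintro _ ⟨s2, _, _, rfl⟩ hs2 x hx v hv
  exact hx v (h2 s2 hs2 hv)

/-- barycentre -/
noncomputable def sing_cov_bary {n : ℕ} (s : Finset (Fin n)) : Fin n → ℝ := fun v => by
  classical exact if v ∈ s then (s.card : ℝ)⁻¹ else 0

lemma sing_cov_bary_mem {n : ℕ} {s : Finset (Fin n)} {v : Fin n} (hv : v ∈ s) :
    sing_cov_bary s v = (s.card : ℝ)⁻¹ := by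
  simp [sing_cov_bary, hv]

lemma sing_cov_bary_pos {n : ℕ} {s : Finset (Fin n)} {v : Fin n} (hv : v ∈ s) :
    0 < sing_cov_bary s v := by
  rw [sing_cov_bary_mem hv]
  have : 0 < s.card := Finset.card_pos.2 ⟨v, hv⟩
  positivity

lemma sing_cov_bary_not {n : ℕ} {s : Finset (Fin n)} {v : Fin n} (hv : v ∉ s) :
    sing_cov_bary s v = 0 := by
  simp [sing_cov_bary, hv]

lemma sing_cov_bary_nonneg {n : ℕ} {s : Finset (Fin n)} (v : Fin n) :
    0 ≤ sing_cov_bary s v := by
  by_cases hv : v ∈ s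
  · exact (sing_cov_bary_pos hv).le
  · rw [sing_cov_bary_not hv]

lemma sing_cov_bary_sum {n : ℕ} {s : Finset (Fin n)} (hs : s.Nonempty) :
    ∑ v, sing_cov_bary s v = 1 := by
  classical
  have h1 : ∑ v, sing_cov_bary s v = ∑ v ∈ s, sing_cov_bary s v := by
    symm
    apply Finset.sum_subset (Finset.subset_univ s)
    intro v _ hv
    exact sing_cov_bary_not hv
  rw [h1, Finset.sum_congr rfl (fun v hv => sing_cov_bary_mem hv), Finset.sum_const, nsmul_eq_mul]
  have : (s.card : ℝ) ≠ 0 := by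
    have := Finset.card_pos.2 hs
    positivity
  exact mul_inv_cancel₀ this

lemma sing_cov_comb {n : ℕ} (K : Cx n) {s : Finset (Fin n)} (hsne : s.Nonempty)
    (x : K.space) (hx : x ∈ K.star s) (t : ℝ) (h0 : 0 ≤ t) (h1 : t ≤ 1) :
    ((1 - t) • x.1 + t • sing_cov_bary s) ∈ K.space ∧
      ∀ v ∈ s, 0 < ((1 - t) • x.1 + t • sing_cov_bary s) v := by
  obtain ⟨hx0, hx1, σ, hσ, hz⟩ := x.2
  have h1' : 0 ≤ 1 - t := by linarith
  refine ⟨⟨?_, ?_, σ, hσ, ?_⟩, ?_⟩
  · intro v
    simp only [Pi.add_apply, Pi.smul_apply, smul_eq_mul]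
    exact add_nonneg (mul_nonneg h1' (hx0 v)) (mul_nonneg h0 (sing_cov_bary_nonneg v))
  · simp only [Pi.add_apply, Pi.smul_apply, smul_eq_mul]
    rw [Finset.sum_add_distrib, ← Finset.mul_sum, ← Finset.mul_sum, hx1, sing_cov_bary_sum hsne]
    ring
  · intro v hv
    have hvs : v ∉ s := by
      intro hvs
      exact absurd (hz v hv) (hx v hvs).ne'
    simp only [Pi.add_apply, Pi.smul_apply, smul_eq_mul]
    rw [hz v hv, sing_cov_bary_not hvs]
    ring
  · intro v hv
    simp only [Pi.add_apply, Pi.smul_apply, smul_eq_mul]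
    have h2 := hx v hv
    have h3 := sing_cov_bary_pos hv
    rcases eq_or_lt_of_le h0 with h4 | h4
    · rw [← h4]
      simpa using h2
    · have h5 : 0 < t * sing_cov_bary s v := mul_pos h4 h3
      have h6 : 0 ≤ (1 - t) * x.1 v := mul_nonneg h1' h2.le
      linarith

lemma sing_cov_cone {n : ℕ} (K : Cx n) (C : Set K.space) (hC : C ∈ K.cov) : ConeData C := by
  obtain ⟨s, hs, hsne, rfl⟩ := hC
  have hb : sing_cov_bary s ∈ K.space :=
    ⟨sing_cov_bary_nonneg, sing_cov_bary_sum hsne, s, hs, fun v hv => sing_cov_bary_not hv⟩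
  let b : K.star s := ⟨⟨sing_cov_bary s, hb⟩, fun v hv => sing_cov_bary_pos hv⟩
  have hm : ∀ (t : unitInterval) (x : K.star s),
      ((1 - t.1) • x.1.1 + t.1 • sing_cov_bary s) ∈ K.space ∧
      ∀ v ∈ s, 0 < ((1 - t.1) • x.1.1 + t.1 • sing_cov_bary s) v :=
    fun t x => sing_cov_comb K hsne x.1 x.2 t.1 t.2.1 t.2.2
  have hcont : Continuous (fun p : unitInterval × K.star s =>
      (⟨⟨(1 - p.1.1) • p.2.1.1 + p.1.1 • sing_cov_bary s, (hm p.1 p.2).1⟩, (hm p.1 p.2).2⟩ :
        K.star s)) := by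
    apply Continuous.subtype_mk
    apply Continuous.subtype_mk
    have h1 : Continuous (fun p : unitInterval × K.star s => 1 - p.1.1) :=
      continuous_const.sub (continuous_subtype_val.comp continuous_fst)
    have h2 : Continuous (fun p : unitInterval × K.star s => p.2.1.1) :=
      continuous_subtype_val.comp (continuous_subtype_val.comp continuous_snd)
    have h3 : Continuous (fun p : unitInterval × K.star s => p.1.1) :=
      continuous_subtype_val.comp continuous_fst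
    exact (h1.smul h2).add (h3.smul continuous_const)
  let F' : ContinuousMap.Homotopy (ContinuousMap.id (K.star s))
      (ContinuousMap.const (K.star s) b) :=
    { toFun := fun p => ⟨⟨(1 - p.1.1) • p.2.1.1 + p.1.1 • sing_cov_bary s, (hm p.1 p.2).1⟩,
        (hm p.1 p.2).2⟩
      continuous_toFun := hcont
      map_zero_left := by
        intro x
        apply Subtype.ext
        apply Subtype.ext
        change (1 - (0 : ℝ)) • x.1.1 + (0 : ℝ) • sing_cov_bary s = x.1.1
        rw [sub_zero, one_smul, zero_smul, add_zero]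
      map_one_left := by
        intro x
        apply Subtype.ext
        apply Subtype.ext
        change (1 - (1 : ℝ)) • x.1.1 + (1 : ℝ) • sing_cov_bary s = sing_cov_bary s
        rw [sub_self, one_smul, zero_smul, zero_add] }
  exact coneData_of_nullhomotopic (K.star s) b F'

/-- TARGET: cohomology of the space is that of the order complex of the cover by open stars -/
theorem sing_cov {n : ℕ} (K : Cx n) [Nonempty K.space] (m : ℕ) :
    Nonempty (SingCoh ℚ K.space m ≃ₗ[ℚ] OrdCoh ℚ K.cov m) := by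
  obtain ⟨e1⟩ := small_simplices (k := ℚ) K.cov (by
    rintro _ ⟨s, _, _, rfl⟩
    exact sing_cov_open K s) (sing_cov_cover K) m
  obtain ⟨e2⟩ := nerve_small (k := ℚ) K.cov (fun σ h => sing_cov_hcap K σ h)
    (fun C hC => sing_cov_cone K C hC) m
  exact ⟨e1.trans e2⟩

end Pool.Agent.Helper585.Wk
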