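import Pool.Agent.Helper585.Wk.Eul

set_option autoImplicit false
namespace Pool.Agent.Helper585.Wk
open Pool.Agent.Helper381

/-- pull back of cochains -/
def sing_homeo_pull {X Y : Type} [TopologicalSpace X] [TopologicalSpace Y] (h : X ≃ₜ Y) (n : ℕ) :
    (Sing Y n → ℚ) →ₗ[ℚ] (Sing X n → ℚ) :=
  LinearMap.funLeft ℚ ℚ (fun s : Sing X n => (⟨h, h.continuous⟩ : C(X, Y)).comp s)

theorem sing_homeo_pull_apply {X Y : Type} [TopologicalSpace X] [TopologicalSpace Y] (h : X ≃ₜ Y)
    (n : ℕ) (g : Sing Y n → ℚ) (s : Sing X n) :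
    sing_homeo_pull h n g s = g ((⟨h, h.continuous⟩ : C(X, Y)).comp s) := rfl

theorem sing_homeo_altd {X Y : Type} [TopologicalSpace X] [TopologicalSpace Y] (h : X ≃ₜ Y)
    (n : ℕ) (g : Sing Y n → ℚ) :
    altd ℚ (sface (X := X)) n (sing_homeo_pull h n g) =
      sing_homeo_pull h (n + 1) (altd ℚ (sface (X := Y)) n g) := by
  funext s
  rfl

theorem sing_homeo_inv {X Y : Type} [TopologicalSpace X] [TopologicalSpace Y] (h : X ≃ₜ Y)
    (n : ℕ) (g : Sing Y n → ℚ) :
    sing_homeo_pull h.symm n (sing_homeo_pull h n g) = g := by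
  funext s
  rw [sing_homeo_pull_apply, sing_homeo_pull_apply]
  congr 1
  ext x
  simp

theorem sing_homeo_inv' {X Y : Type} [TopologicalSpace X] [TopologicalSpace Y] (h : X ≃ₜ Y)
    (n : ℕ) (g : Sing X n → ℚ) :
    sing_homeo_pull h n (sing_homeo_pull h.symm n g) = g := by
  funext s
  rw [sing_homeo_pull_apply, sing_homeo_pull_apply]
  congr 1
  ext x
  simp

/-- TARGET: homeomorphism invariance of singular cohomology -/
theorem sing_homeo {X Y : Type} [TopologicalSpace X] [TopologicalSpace Y] (h : X ≃ₜ Y) (m : ℕ) :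
    Nonempty (SingCoh ℚ X m ≃ₗ[ℚ] SingCoh ℚ Y m) := by
  let P : Submodule ℚ ((Sing X m → ℚ) × (Sing Y m → ℚ)) :=
    LinearMap.ker (LinearMap.fst ℚ (Sing X m → ℚ) (Sing Y m → ℚ) -
      (sing_homeo_pull h m).comp (LinearMap.snd ℚ (Sing X m → ℚ) (Sing Y m → ℚ)))
  have memP : ∀ x y, (x, y) ∈ P ↔ x = sing_homeo_pull h m y := by
    intro x y
    simp [P, sub_eq_zero]
  refine corr _ _ _ _ P ?_ ?_ ?_
  · intro x hx
    rw [LinearMap.mem_ker] at hx
    refine ⟨sing_homeo_pull h.symm m x, ?_, ?_⟩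
    · rw [LinearMap.mem_ker, sing_homeo_altd, hx, map_zero]
    · rw [memP, sing_homeo_inv']
  · intro y hy
    rw [LinearMap.mem_ker] at hy
    refine ⟨sing_homeo_pull h m y, ?_, ?_⟩
    · rw [LinearMap.mem_ker, sing_homeo_altd, hy, map_zero]
    · rw [memP]
  · intro x _ y _ hxy
    rw [memP] at hxy
    subst hxy
    cases m with
    | zero =>
      simp only [cobound, Submodule.mem_bot]
      constructor
      · intro h0
        rw [← sing_homeo_inv h 0 y, h0, map_zero]
      · intro h0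
        rw [h0, map_zero]
    | succ m =>
      simp only [cobound, LinearMap.mem_range]
      constructor
      · rintro ⟨a, ha⟩
        refine ⟨sing_homeo_pull h.symm m a, ?_⟩
        rw [sing_homeo_altd, ha, sing_homeo_inv]
      · rintro ⟨b, rfl⟩
        exact ⟨sing_homeo_pull h m b, sing_homeo_altd h m b⟩

end Pool.Agent.Helper585.Wk
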