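import Pool.Agent.Helper585.Wk.Eul

set_option autoImplicit false
namespace Pool.Agent.Helper585.Wk
open Pool.Agent.Helper381

section chains

universe u
variable {P : Type u} [PartialOrder P]

open Classical in
/-- number of chains with first element `x` -/
noncomputable def chcn (Q : Set P) (hQ : Q.Finite) (m : ℕ) (x : P) : ℕ :=
  haveI : Fintype (Ch Q m) := @Fintype.ofFinite _ (finite_Ch hQ m)
  (Finset.univ.filter (fun c : Ch Q m => c.1 0 = x)).card

open Classical in
theorem chcn_total (Q : Set P) (hQ : Q.Finite) (m : ℕ) :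
    Nat.card (Ch Q m) = ∑ x ∈ hQ.toFinset, chcn Q hQ m x := by
  let : Fintype (Ch Q m) := @Fintype.ofFinite _ (finite_Ch hQ m)
  rw [Nat.card_eq_fintype_card, ← Finset.card_univ]
  rw [Finset.card_eq_sum_card_fiberwise (f := fun c : Ch Q m => c.1 0) (t := hQ.toFinset)]
  · rfl
  · intro c _
    simpa using c.2.2 0

theorem chcn_zero (Q : Set P) (hQ : Q.Finite) (x : P) (hx : x ∈ Q) : chcn Q hQ 0 x = 1 := by
  classical
  unfold chcn
  rw [Finset.card_eq_one]
  have hsub : ∀ i : Fin (0 + 1), i = 0 := fun i => Fin.ext (by have := i.2; simp)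
  refine ⟨⟨fun _ => x, fun i j hij => ?_, fun _ => hx⟩, ?_⟩
  · exact absurd hij (by rw [hsub i, hsub j]; exact lt_irrefl _)
  · ext c
    simp only [Finset.mem_filter, Finset.mem_univ, true_and, Finset.mem_singleton]
    constructor
    · intro h
      apply Subtype.ext
      funext i
      rw [hsub i]
      exact h
    · intro h
      rw [h]

open Classical in
theorem chcn_succ (Q : Set P) (hQ : Q.Finite) (m : ℕ) (x : P) (hx : x ∈ Q) :
    chcn Q hQ (m + 1) x = ∑ y ∈ hQ.toFinset.filter (fun y => x < y), chcn Q hQ m y := by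
  let : Fintype (Ch Q m) := @Fintype.ofFinite _ (finite_Ch hQ m)
  let : Fintype (Ch Q (m + 1)) := @Fintype.ofFinite _ (finite_Ch hQ (m + 1))
  have h1 : chcn Q hQ (m + 1) x =
      (Finset.univ.filter (fun c : Ch Q m => x < c.1 0)).card := by
    unfold chcn
    refine Finset.card_bij' (fun c _ => cface m 0 c)
      (fun c hc => c.consC x hx (Finset.mem_filter.1 hc).2) ?_ ?_ ?_ ?_
    · intro c hc
      simp only [Finset.mem_filter, Finset.mem_univ, true_and] at hc ⊢
      rw [← hc]
      apply c.2.1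
      simp
    · intro c hc
      simp only [Finset.mem_filter, Finset.mem_univ, true_and] at hc ⊢
      rfl
    · intro c hc
      simp only [Finset.mem_filter, Finset.mem_univ, true_and] at hc
      apply Subtype.ext
      funext i
      refine Fin.cases ?_ (fun i => ?_) i
      · simp [Ch.consC, hc]
      · simp [Ch.consC, cface]
    · intro c hc
      exact consC_face_zero c x hx (Finset.mem_filter.1 hc).2
  rw [h1, Finset.card_eq_sum_card_fiberwise (f := fun c : Ch Q m => c.1 0)
    (t := hQ.toFinset.filter (fun y => x < y))]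
  · refine Finset.sum_congr rfl fun y hy => ?_
    unfold chcn
    congr 1
    ext c
    simp only [Finset.mem_filter, Finset.mem_univ, true_and]
    constructor
    · exact fun h => h.2
    · intro h
      exact ⟨by rw [h]; exact (Finset.mem_filter.1 hy).2, h⟩
  · intro c hc
    have := c.2.2 0
    simp only [Finset.coe_filter, Finset.mem_univ, true_and, Set.mem_ofPred_eq] at hc
    simp only [Finset.coe_filter, Set.Finite.mem_toFinset, Set.mem_ofPred_eq]
    exact ⟨this, hc⟩

/-- alternating sum -/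
noncomputable def chA (Q : Set P) (hQ : Q.Finite) (N : ℕ) (x : P) : ℤ :=
  ∑ m ∈ Finset.range N, (-1 : ℤ) ^ m * chcn Q hQ m x

open Classical in
theorem chA_succ (Q : Set P) (hQ : Q.Finite) (N : ℕ) (x : P) (hx : x ∈ Q) :
    chA Q hQ (N + 1) x = 1 - ∑ y ∈ hQ.toFinset.filter (fun y => x < y), chA Q hQ N y := by
  unfold chA
  rw [Finset.sum_range_succ']
  simp only [pow_zero, one_mul]
  rw [chcn_zero Q hQ x hx, Finset.sum_comm]
  have : ∀ m ∈ Finset.range N, (-1 : ℤ) ^ (m + 1) * (chcn Q hQ (m + 1) x : ℤ) =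
      - ∑ y ∈ hQ.toFinset.filter (fun y => x < y), (-1 : ℤ) ^ m * chcn Q hQ m y := by
    intro m _
    rw [chcn_succ Q hQ m x hx, ← Finset.mul_sum, pow_succ]
    push_cast
    ring
  rw [Finset.sum_congr rfl this, Finset.sum_neg_distrib]
  push_cast
  ring

end chains

theorem star_subset_iff {n : ℕ} (K : Cx n) (s t : Finset (Fin n)) (hs : s ∈ K.faces)
    (hs0 : s.Nonempty) : K.star s ⊆ K.star t ↔ t ⊆ s := by
  classical
  constructor
  · intro h v hv
    have hc : (0 : ℝ) < s.card := by exact_mod_cast hs0.card_pos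
    let x : Fin n → ℝ := fun v => if v ∈ s then 1 / (s.card : ℝ) else 0
    have hx : x ∈ K.space := by
      refine ⟨fun v => ?_, ?_, s, hs, fun v hv => ?_⟩
      · by_cases hv : v ∈ s
        · simp only [x, if_pos hv]; positivity
        · simp only [x, if_neg hv]; exact le_rfl
      · simp only [x]
        rw [← Finset.sum_filter, Finset.sum_const, nsmul_eq_mul]
        have : (Finset.univ.filter (fun v => v ∈ s)) = s := by
          ext v; simp
        rw [this]
        field_simp
      · simp only [x, if_neg hv]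
    have hx1 : (⟨x, hx⟩ : K.space) ∈ K.star s := by
      intro v hv
      change 0 < x v
      simp only [x, if_pos hv]
      positivity
    have hx2 := h hx1 v hv
    change 0 < x v at hx2
    by_contra hvs
    simp only [x, if_neg hvs] at hx2
    exact lt_irrefl _ hx2
  · intro h x hx v hv
    exact hx v (h hv)

theorem star_inj {n : ℕ} (K : Cx n) (s t : Finset (Fin n)) (hs : s ∈ K.faces)
    (hs0 : s.Nonempty) (ht : t ∈ K.faces) (ht0 : t.Nonempty) (h : K.star s = K.star t) : s = t := by
  apply Finset.Subset.antisymm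
  · exact (star_subset_iff K t s ht ht0).1 h.symm.subset
  · exact (star_subset_iff K s t hs hs0).1 h.subset

theorem star_ssubset_iff {n : ℕ} (K : Cx n) (s t : Finset (Fin n)) (hs : s ∈ K.faces)
    (hs0 : s.Nonempty) (ht : t ∈ K.faces) (ht0 : t.Nonempty) : K.star s < K.star t ↔ t ⊂ s := by
  rw [lt_iff_le_not_ge, star_subset_iff K s t hs hs0, star_subset_iff K t s ht ht0]
  rfl

open Classical in
/-- the nonempty faces -/
noncomputable def Cx.ne {n : ℕ} (K : Cx n) : Finset (Finset (Fin n)) :=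
  K.faces.filter (fun s => s.Nonempty)

theorem Cx.mem_ne {n : ℕ} (K : Cx n) (s : Finset (Fin n)) :
    s ∈ K.ne ↔ s ∈ K.faces ∧ s.Nonempty := by
  unfold Cx.ne
  rw [Finset.mem_filter]

theorem cov_eq {n : ℕ} (K : Cx n) : K.cov = K.star '' (K.ne : Set (Finset (Fin n))) := by
  ext U
  constructor
  · rintro ⟨s, hs, hs0, rfl⟩
    exact ⟨s, (K.mem_ne s).2 ⟨hs, hs0⟩, rfl⟩
  · rintro ⟨s, hs, rfl⟩
    obtain ⟨h1, h2⟩ := (K.mem_ne s).1 hs
    exact ⟨s, h1, h2, rfl⟩

theorem cov_finite {n : ℕ} (K : Cx n) : K.cov.Finite := by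
  rw [cov_eq]
  exact (K.ne.finite_toSet).image _

theorem star_injOn {n : ℕ} (K : Cx n) : Set.InjOn K.star (K.ne : Set (Finset (Fin n))) := by
  intro s hs t ht h
  obtain ⟨h1, h2⟩ := (K.mem_ne s).1 hs
  obtain ⟨h3, h4⟩ := (K.mem_ne t).1 ht
  exact star_inj K s t h1 h2 h3 h4 h

open Classical in
theorem cov_toFinset {n : ℕ} (K : Cx n) : (cov_finite K).toFinset = K.ne.image K.star := by
  ext U
  rw [Set.Finite.mem_toFinset, cov_eq, Finset.mem_image]
  rfl

open Classical in
theorem cov_filter {n : ℕ} (K : Cx n) (s : Finset (Fin n)) (hs : s ∈ K.ne) :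
    (cov_finite K).toFinset.filter (fun y => K.star s < y) =
      (s.ssubsets.erase ∅).image K.star := by
  obtain ⟨h1, h2⟩ := (K.mem_ne s).1 hs
  ext U
  rw [Finset.mem_filter, cov_toFinset, Finset.mem_image, Finset.mem_image]
  constructor
  · rintro ⟨⟨t, ht, rfl⟩, hlt⟩
    obtain ⟨h3, h4⟩ := (K.mem_ne t).1 ht
    refine ⟨t, ?_, rfl⟩
    rw [Finset.mem_erase, Finset.mem_ssubsets]
    exact ⟨h4.ne_empty, (star_ssubset_iff K s t h1 h2 h3 h4).1 hlt⟩
  · rintro ⟨t, ht, rfl⟩
    rw [Finset.mem_erase, Finset.mem_ssubsets] at ht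
    have h4 : t.Nonempty := Finset.nonempty_iff_ne_empty.2 ht.1
    have h3 : t ∈ K.faces := K.down s h1 t ht.2.subset
    exact ⟨⟨t, (K.mem_ne t).2 ⟨h3, h4⟩, rfl⟩, (star_ssubset_iff K s t h1 h2 h3 h4).2 ht.2⟩

theorem chA_star {n : ℕ} (K : Cx n) (N : ℕ) : ∀ s ∈ K.ne, s.card ≤ N →
    chA K.cov (cov_finite K) N (K.star s) = - (-1 : ℤ) ^ s.card := by
  classical
  induction N with
  | zero =>
    intro s hs hc
    have := ((K.mem_ne s).1 hs).2.card_pos
    omega
  | succ N ih =>
    intro s hs hc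
    obtain ⟨h1, h2⟩ := (K.mem_ne s).1 hs
    have hmem : K.star s ∈ K.cov := ⟨s, h1, h2, rfl⟩
    rw [chA_succ _ _ _ _ hmem, cov_filter K s hs, Finset.sum_image]
    · have e1 : ∀ t ∈ s.ssubsets.erase ∅, chA K.cov (cov_finite K) N (K.star t) =
          - (-1 : ℤ) ^ t.card := by
        intro t ht
        rw [Finset.mem_erase, Finset.mem_ssubsets] at ht
        have h4 : t.Nonempty := Finset.nonempty_iff_ne_empty.2 ht.1
        have h3 : t ∈ K.faces := K.down s h1 t ht.2.subset
        apply ih t ((K.mem_ne t).2 ⟨h3, h4⟩)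
        have := Finset.card_lt_card ht.2
        omega
      rw [Finset.sum_congr rfl e1, Finset.sum_neg_distrib]
      have e2 : ∅ ∈ s.ssubsets := by
        rw [Finset.mem_ssubsets]
        exact Finset.empty_ssubset.2 h2
      have e3 := Finset.add_sum_erase s.ssubsets (fun t => (-1 : ℤ) ^ t.card) e2
      have e4 : s ∈ s.powerset := Finset.mem_powerset_self s
      have e5 := Finset.add_sum_erase s.powerset (fun t => (-1 : ℤ) ^ t.card) e4
      have e6 : s.powerset.erase s = s.ssubsets := rfl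
      rw [e6, Finset.sum_powerset_neg_one_pow_card, if_neg h2.ne_empty] at e5
      simp only [Finset.card_empty, pow_zero] at e3
      linarith
    · intro t ht t' ht' heq
      rw [Finset.mem_coe, Finset.mem_erase, Finset.mem_ssubsets] at ht ht'
      exact star_inj K t t' (K.down s h1 t ht.2.subset) (Finset.nonempty_iff_ne_empty.2 ht.1)
        (K.down s h1 t' ht'.2.subset) (Finset.nonempty_iff_ne_empty.2 ht'.1) heq

theorem cov_ncard {n : ℕ} (K : Cx n) : K.cov.ncard = K.ne.card := by
  rw [cov_eq, (star_injOn K).ncard_image, Set.ncard_coe_finset]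

theorem card_le_ne {n : ℕ} (K : Cx n) (s : Finset (Fin n)) (hs : s ∈ K.ne) :
    s.card ≤ K.ne.card := by
  classical
  obtain ⟨h1, h2⟩ := (K.mem_ne s).1 hs
  have : s.card = (s.image (fun v => ({v} : Finset (Fin n)))).card := by
    rw [Finset.card_image_of_injective _ Finset.singleton_injective]
  rw [this]
  apply Finset.card_le_card
  intro t ht
  rw [Finset.mem_image] at ht
  obtain ⟨v, hv, rfl⟩ := ht
  exact (K.mem_ne _).2 ⟨K.down s h1 _ (Finset.singleton_subset_iff.2 hv), Finset.singleton_nonempty v⟩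

theorem chi_eq {n : ℕ} (K : Cx n) : K.chi = ∑ s ∈ K.ne, - (-1 : ℤ) ^ s.card := by
  classical
  unfold Cx.chi
  have e1 : ∀ i ∈ Finset.range n, (-1 : ℤ) ^ i * (K.f i : ℤ) =
      ∑ s ∈ K.ne, if s.card = i + 1 then (-1 : ℤ) ^ i else 0 := by
    intro i _
    rw [← Finset.sum_filter, Finset.sum_const, nsmul_eq_mul, mul_comm]
    congr 2
    unfold Cx.f Cx.ne
    rw [Finset.filter_filter]
    congr 1
    ext s
    simp only [Finset.mem_filter]
    constructor
    · rintro ⟨a, b⟩
      refine ⟨a, ?_, b⟩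
      rw [← Finset.card_pos]
      omega
    · rintro ⟨a, _, b⟩
      exact ⟨a, b⟩
  rw [Finset.sum_congr rfl e1, Finset.sum_comm]
  refine Finset.sum_congr rfl fun s hs => ?_
  have hpos := ((K.mem_ne s).1 hs).2.card_pos
  have hle : s.card ≤ n := by
    have := Finset.card_le_univ s
    simpa using this
  rw [Finset.sum_eq_single (s.card - 1)]
  · rw [if_pos (by omega)]
    obtain ⟨k, hk⟩ : ∃ k, s.card = k + 1 := ⟨s.card - 1, by omega⟩
    rw [hk]
    simp [pow_succ]
  · intro i _ hi
    rw [if_neg]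
    omega
  · intro h
    exfalso
    apply h
    rw [Finset.mem_range]
    omega

/-- TARGET: the Euler characteristic of the order complex of the cover by open stars -/
theorem chi_cov {n : ℕ} (K : Cx n) (N : ℕ) (hN : K.cov.ncard ≤ N) :
    ∑ m ∈ Finset.range N, (-1 : ℤ) ^ m * (Module.finrank ℚ (Ch K.cov m → ℚ) : ℤ) = K.chi := by
  classical
  have hQ := cov_finite K
  have e1 : ∀ m, Module.finrank ℚ (Ch K.cov m → ℚ) = ∑ x ∈ hQ.toFinset, chcn K.cov hQ m x := by
    intro m
    let : Fintype (Ch K.cov m) := @Fintype.ofFinite _ (finite_Ch hQ m)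
    rw [← chcn_total K.cov hQ m, Module.finrank_pi, Nat.card_eq_fintype_card]
  have e2 : ∑ m ∈ Finset.range N, (-1 : ℤ) ^ m * (Module.finrank ℚ (Ch K.cov m → ℚ) : ℤ) =
      ∑ x ∈ hQ.toFinset, chA K.cov hQ N x := by
    unfold chA
    rw [Finset.sum_comm]
    refine Finset.sum_congr rfl fun m _ => ?_
    rw [e1 m, ← Finset.mul_sum]
    push_cast
    rfl
  rw [e2, cov_toFinset, Finset.sum_image (star_injOn K), chi_eq]
  refine Finset.sum_congr rfl fun s hs => ?_
  apply chA_star K N s hs
  rw [cov_ncard] at hN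
  exact (card_le_ne K s hs).trans hN

end Pool.Agent.Helper585.Wk
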