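import Pool.Agent.Helper585.Wk.Eul
import Pool.Agent.Helper585.Wk.Top3a
import Pool.Agent.Helper585.Wk.Top3b
import Pool.Agent.Helper585.Wk.Top3c

set_option autoImplicit false
namespace Pool.Agent.Helper585.Wk
open Pool.Agent.Helper381

theorem cov_finite_306 {n : ℕ} (K : Cx n) : K.cov.Finite := by
  have h : K.cov ⊆ (fun σ => K.star σ) '' (K.faces : Set (Finset (Fin n))) := by
    rintro U ⟨σ, hσ, _, rfl⟩
    exact ⟨σ, hσ, rfl⟩
  exact (K.faces.finite_toSet.image _).subset h

theorem euler_ord_306 {P : Type} [PartialOrder P] {Q : Set P} (hQ : Q.Finite) (N : ℕ)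
    (hN : Q.ncard ≤ N) :
    ∑ m ∈ Finset.range N, (-1 : ℤ) ^ m * (Module.finrank ℚ (OrdCoh ℚ Q m) : ℤ) =
      ∑ m ∈ Finset.range N, (-1 : ℤ) ^ m * (Module.finrank ℚ (Ch Q m → ℚ) : ℤ) := by
  have h1 : ∀ n, Finite (Ch Q n) := finite_Ch hQ
  have h2 := isEmpty_Ch hQ N hN
  exact euler_coh (k := ℚ) (C := fun n => Ch Q n → ℚ) (fun n => altd ℚ (cface (Q := Q)) n)
    (fun n x => altd_altd _ (fun n i j σ hij => cface_cface n i j σ hij) n x) N
    (Module.finrank_zero_of_subsingleton)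

/-- TARGET: the Euler characteristic is a topological invariant -/
theorem chi_homeo {n m : ℕ} (K : Cx n) (L : Cx m) [Nonempty K.space] (h : K.space ≃ₜ L.space) :
    K.chi = L.chi := by
  have hL : Nonempty L.space := ‹Nonempty K.space›.map h
  set N := max K.cov.ncard L.cov.ncard with hN
  rw [← chi_cov K N (le_max_left _ _), ← chi_cov L N (le_max_right _ _),
    ← euler_ord_306 (cov_finite_306 K) N (le_max_left _ _),
    ← euler_ord_306 (cov_finite_306 L) N (le_max_right _ _)]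
  refine Finset.sum_congr rfl fun i _ => ?_
  obtain ⟨e1⟩ := sing_cov K i
  obtain ⟨e2⟩ := sing_homeo h i
  obtain ⟨e3⟩ := sing_cov L i
  rw [((e1.symm.trans e2).trans e3).finrank_eq]

end Pool.Agent.Helper585.Wk
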