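import Pool.Agent.Helper585.Wk.Chk1
import Pool.Agent.Helper585.Wk.Chk2
import Pool.Agent.Helper585.Wk.Chk3
import Pool.Agent.Helper585.Wk.Chk4
import Pool.Agent.Helper585.Wk.Chk5
import Pool.Agent.Helper585.Wk.Chk6
import Pool.Agent.Helper585.Wk.GeoC6
import Pool.Agent.Helper585.Wk.GeoC11
import Pool.Agent.Helper585.Wk.GeoC3
import Pool.Agent.Helper585.Wk.GeoC7
import Pool.Agent.Helper585.Wk.GeoC8
import Pool.Agent.Helper585.Wk.GeoC9b
import Pool.Agent.Helper585.Wk.GeoC10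
import Pool.Agent.Helper585.Wk.Top3d
import Pool.Agent.Helper585.Wk.Top2a
import Pool.Agent.Helper585.Wk.Top2b

set_option autoImplicit false

/-! Assembly. -/

namespace Pool.Agent.Helper585.Wk

open Dat

/-- the inner facet of a chain of five subdivisions given by lists is a tame cell -/
theorem inner_list (cn : Fin 6 → List ℕ) (p : Fin 5 → ℕ × ℕ) (a b : Fin 5 → Fin 31) (t : ℕ)
    (ha : Function.Injective a) (hb : Function.Injective b) (hab : ∀ i j, a i ≠ b j)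
    (hst : ∀ i : Fin 5, flipL 31 (p i) (cn i.castSucc) = some (cn i.succ))
    (hse : ∀ i : Fin 5, dec 31 (p i).1 = Finset.univ.image (fun j => if j < i then b j else a j) ∧
      dec 31 (p i).2 = {b i})
    (ht : dec 31 t = Finset.univ.image b) :
    ∃ c : Cell 4 (ofL 31 (cn 5)).space, c.inter = {x | ∀ v ∈ dec 31 t, 0 < x.1 v} ∧
      c.bdry = {x | (∀ v, v ∉ dec 31 t → x.1 v = 0) ∧ ∃ v ∈ dec 31 t, x.1 v = 0} := by
  obtain ⟨c, h1, h2⟩ := inner_cell (fun i => ofL 31 (cn i)) a b ha hb hab (by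
    intro i
    have h := flipL_data 31 (p i).1 (p i).2 (cn i.castSucc) (cn i.succ) (hst i)
    rw [(hse i).1, (hse i).2] at h
    exact h)
  refine ⟨c, ?_, ?_⟩
  · rw [h1]
    ext x
    simp only [Set.mem_setOf_eq, ht, Finset.mem_image, Finset.mem_univ, true_and,
      forall_exists_index, forall_apply_eq_imp_iff]
  · rw [h2]
    ext x
    simp only [Set.mem_setOf_eq, ht, Finset.mem_image, Finset.mem_univ, true_and, not_exists,
      exists_exists_eq_and]
    constructor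
    · rintro ⟨h, h'⟩
      exact ⟨fun v hv => h v fun j hj => hv j hj.symm, h'⟩
    · rintro ⟨h, h'⟩
      exact ⟨fun v hv => h v fun j hj => hv j hj.symm, h'⟩

theorem sum_list (lA lB : List ℕ) (t : ℕ) (lL : List ℕ) (h : checkSum 31 lA lB t lL = true)
    (hA : ∃ c : Cell 4 (ofL 31 lA).space, c.inter = {x | ∀ v ∈ dec 31 t, 0 < x.1 v} ∧
      c.bdry = {x | (∀ v, v ∉ dec 31 t → x.1 v = 0) ∧ ∃ v ∈ dec 31 t, x.1 v = 0})
    (hB : ∃ c : Cell 4 (ofL 31 lB).space, c.inter = {x | ∀ v ∈ dec 31 t, 0 < x.1 v} ∧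
      c.bdry = {x | (∀ v, v ∉ dec 31 t → x.1 v = 0) ∧ ∃ v ∈ dec 31 t, x.1 v = 0}) :
    IsManifoldSum 4 (ofL 31 lA).space (ofL 31 lB).space (ofL 31 lL).space := by
  obtain ⟨h5, h1, h2, m1, m2, hL, h12⟩ := checkSum_spec 31 lA lB t lL h
  obtain ⟨c1, i1, b1⟩ := hA
  obtain ⟨c2, i2, b2⟩ := hB
  exact sum_cx _ _ _ _ h5 h1 h2 m1 m2 hL h12 c1 i1 b1 c2 i2 b2

theorem sumAB : IsManifoldSum 4 (ofL 31 lA5).space (ofL 31 lB5).space (ofL 31 L2).space :=
  sum_list lA5 lB5 15872 L2 sm2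
    (inner_list cnA pA aA bA 15872 (by decide) (by decide) (by decide) stA seA tauA)
    (inner_list cnB pB aB bA 15872 (by decide) (by decide) (by decide) stB seB tauA)

theorem sumCD : IsManifoldSum 4 (ofL 31 lC5).space (ofL 31 lD5).space (ofL 31 L4).space :=
  sum_list lC5 lD5 253952 L4 sm4
    (inner_list cnC pC aC bC 253952 (by decide) (by decide) (by decide) stC seC tauC)
    (inner_list cnD pD aD bC 253952 (by decide) (by decide) (by decide) stD seD tauC)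

/-- a chain of flips is a homeomorphism -/
theorem chain_homeo (cn : Fin 6 → List ℕ) (p : Fin 5 → ℕ × ℕ)
    (hst : ∀ i : Fin 5, flipL 31 (p i) (cn i.castSucc) = some (cn i.succ)) :
    Nonempty ((ofL 31 (cn 0)).space ≃ₜ (ofL 31 (cn 5)).space) := by
  have h : ∀ i : Fin 5, Nonempty ((ofL 31 (cn i.castSucc)).space ≃ₜ (ofL 31 (cn i.succ)).space) :=
    fun i => flip_homeo _ _ _ _ (flipL_data 31 (p i).1 (p i).2 _ _ (hst i))
  obtain ⟨e0⟩ := h 0
  obtain ⟨e1⟩ := h 1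
  obtain ⟨e2⟩ := h 2
  obtain ⟨e3⟩ := h 3
  obtain ⟨e4⟩ := h 4
  exact ⟨e0.trans (e1.trans (e2.trans (e3.trans e4)))⟩

theorem eA : Nonempty ((ofL 31 lA).space ≃ₜ (ofL 31 lA5).space) := chain_homeo cnA pA stA

theorem eB : Nonempty ((ofL 31 lB).space ≃ₜ (ofL 31 lB5).space) := chain_homeo cnB pB stB

theorem eC : Nonempty ((ofL 31 S2).space ≃ₜ (ofL 31 lC5).space) := chain_homeo cnC pC stC

theorem eD : Nonempty ((ofL 31 S2B).space ≃ₜ (ofL 31 lD5).space) := chain_homeo cnD pD stD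

theorem eAB : Nonempty ((ofL 31 lA).space ≃ₜ (ofL 31 lB).space) :=
  relOK_homeo 31 tAB sAB lA lB relAB (by norm_num)

theorem eCD : Nonempty ((ofL 31 S2).space ≃ₜ (ofL 31 S2B).space) :=
  relOK_homeo 31 tCD sCD S2 S2B relCD (by norm_num)

theorem e2 : Nonempty ((ofL 31 S2).space ≃ₜ (ofL 31 L2).space) := by
  obtain ⟨e⟩ := runL_homeo 31 p2 L2 S2raw run2
  obtain ⟨e'⟩ := relOK_homeo 31 t2r s2r S2raw S2 relR (by norm_num)
  exact ⟨(e.trans e').symm⟩

theorem e4 : Nonempty ((ofL 31 Kf).space ≃ₜ (ofL 31 L4).space) := by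
  obtain ⟨e1⟩ := runL_homeo 31 q0 L4 M1 k1
  obtain ⟨e2⟩ := runL_homeo 31 q1 M1 M2 k2
  obtain ⟨e3⟩ := runL_homeo 31 q2 M2 M3 k3
  obtain ⟨e4⟩ := runL_homeo 31 q3 M3 M4 k4
  obtain ⟨e5⟩ := runL_homeo 31 q4 M4 M5 k5
  obtain ⟨e6⟩ := runL_homeo 31 q5 M5 M6 k6
  obtain ⟨e7⟩ := runL_homeo 31 q6 M6 M7 k7
  obtain ⟨e8⟩ := runL_homeo 31 q7 M7 M8 k8
  rw [← ofL_congr 31 M8 Kf same8]
  exact ⟨(e1.trans (e2.trans (e3.trans (e4.trans (e5.trans (e6.trans (e7.trans e8))))))).symm⟩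

theorem conn_list (l : List ℕ) (h : connL (l.headD 0) l.tail = true ∧ (∀ F ∈ l, F < 2 ^ 31) ∧
    l = l.headD 0 :: l.tail ∧ l.headD 0 ≠ 0) : ConnectedSpace (ofL 31 l).space := by
  obtain ⟨h1, h2, h3, h4⟩ := h
  have h := connected_of_list 31 (l.headD 0) l.tail h4 (by rw [← h3]; exact h2) h1
  rw [← h3] at h
  exact h

theorem manA : ClosedManifold 4 (ofL 31 lA).space :=
  manifold_of_charts _ (charts_of_check 31 lA cA lkA) (conn_list lA cnA')

theorem man2 : ClosedManifold 4 (ofL 31 S2).space :=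
  manifold_of_charts _ (charts_of_check 31 S2 c2 lk2) (conn_list S2 cn2')

theorem manK : ClosedManifold 4 (ofL 31 Kf).space :=
  manifold_of_charts _ (charts_of_check 31 Kf cK lkK) (conn_list Kf cnK')

theorem tri_self {n : ℕ} (K : Cx n) : IsTriangulation K.space K := ⟨Homeomorph.refl _⟩

/-- the lower bound for the first manifold -/
theorem admA : Adm 4 (ofL 31 lA).space (-9) := by
  intro n K hK
  obtain ⟨e⟩ := hK
  obtain ⟨hc, hconn⟩ := charts_of_manifold K _ manA ⟨e⟩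
  haveI := hconn
  have hps := pseudo_of_charts K hc hconn
  haveI : Nonempty K.space := inferInstance
  have hchi : K.chi = 3 := by
    rw [chi_homeo K (ofL 31 lA) e, chi_ofL 31 (by norm_num) lA fA5]
    obtain ⟨h1, h2, h3, h4, h5⟩ := fA
    rw [h1, h2, h3, h4, h5]
    norm_num
  have hd := dim_of_charts K hc
  have hl := lacy_of_charts K hc
  have hpure := pure_of_lacy K hl hd
  have htwo := fun t ht h4 => two_facets K hc hd t ht h4
  have hds := dehn_somm K hd htwo (fun e he he2 => edge_link K hl hd hpure htwo e he he2)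
  rw [hchi] at hds
  have h6 := g2_six K hps (by omega)
  push_cast
  omega

end Pool.Agent.Helper585.Wk
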