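import Pool.Agent.Helper585.Wk.Defs

set_option autoImplicit false
namespace Pool.Agent.Helper585.Wk

/-- the vertices -/
noncomputable def geoE (n : ℕ) : Fin n ↪ EuclideanSpace ℝ (Fin n) where
  toFun i := EuclideanSpace.single i (1 : ℝ)
  inj' := by
    intro i j h
    by_contra hne
    have h1 := congrArg (fun x : EuclideanSpace ℝ (Fin n) => x i) h
    simp [hne] at h1

theorem geoE_apply {n : ℕ} (i v : Fin n) : (geoE n i) v = if v = i then 1 else 0 := by
  simp [geoE, Pi.single_apply]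

theorem geo_hull {n : ℕ} (σ : Finset (Fin n)) (x : EuclideanSpace ℝ (Fin n)) :
    x ∈ convexHull ℝ ((σ.map (geoE n) : Finset (EuclideanSpace ℝ (Fin n))) :
      Set (EuclideanSpace ℝ (Fin n))) ↔
    (∀ v, 0 ≤ x v) ∧ ∑ v, x v = 1 ∧ ∀ v, v ∉ σ → x v = 0 := by
  constructor
  · intro hx
    have hconv : Convex ℝ {x : EuclideanSpace ℝ (Fin n) |
        (∀ v, 0 ≤ x v) ∧ ∑ v, x v = 1 ∧ ∀ v, v ∉ σ → x v = 0} := by
      rintro x ⟨hx1, hx2, hx3⟩ y ⟨hy1, hy2, hy3⟩ a b ha hb hab
      refine ⟨fun v => ?_, ?_, fun v hv => ?_⟩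
      · have h1 := mul_nonneg ha (hx1 v)
        have h2 := mul_nonneg hb (hy1 v)
        simpa using add_nonneg h1 h2
      · simp only [PiLp.add_apply, PiLp.smul_apply, smul_eq_mul, Finset.sum_add_distrib,
          ← Finset.mul_sum, hx2, hy2, mul_one, hab]
      · simp [hx3 v hv, hy3 v hv]
    refine (convexHull_min ?_ hconv) hx
    intro y hy
    rw [Finset.mem_coe, Finset.mem_map] at hy
    obtain ⟨i, hi, rfl⟩ := hy
    refine ⟨fun v => ?_, ?_, fun v hv => ?_⟩
    · rw [geoE_apply]; split_ifs <;> norm_num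
    · simp [geoE_apply]
    · rw [geoE_apply, if_neg]
      rintro rfl
      exact hv hi
  · rintro ⟨h1, h2, h3⟩
    have hx : x = ∑ v ∈ σ, x v • geoE n v := by
      ext w
      rw [WithLp.ofLp_sum, Finset.sum_apply]
      by_cases hw : w ∈ σ
      · rw [Finset.sum_eq_single w]
        · simp [geoE_apply]
        · intro v _ hvw
          simp [geoE_apply, hvw.symm]
        · intro h; exact absurd hw h
      · rw [h3 w hw, Finset.sum_eq_zero]
        intro v hv
        have : w ≠ v := fun h => hw (h ▸ hv)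
        simp [geoE_apply, this]
    rw [hx]
    refine (convex_convexHull ℝ _).sum_mem (fun v _ => h1 v) ?_ (fun v hv => ?_)
    · rw [← h2]
      refine Finset.sum_subset (Finset.subset_univ σ) (fun v _ hv => h3 v hv)
    · exact subset_convexHull ℝ _ (Finset.mem_coe.2 (Finset.mem_map_of_mem _ hv))

theorem geo_indep (n : ℕ) : AffineIndependent ℝ (geoE n) := by
  apply LinearIndependent.affineIndependent
  have h := (EuclideanSpace.basisFun (Fin n) ℝ).toBasis.linearIndependent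
  have h2 : (⇑(EuclideanSpace.basisFun (Fin n) ℝ).toBasis) = geoE n := by
    ext i j
    simp [geoE]
  rw [h2] at h
  exact h

open Geometry in
/-- the geometric realisation -/
noncomputable def geoG {n : ℕ} (K : Cx n) :
    SimplicialComplex ℝ (EuclideanSpace ℝ (Fin n)) where
  faces := {s | ∃ σ ∈ K.faces, σ.Nonempty ∧ s = σ.map (geoE n)}
  isRelLowerSet_faces := by
    rintro s ⟨σ, hσ, hne, rfl⟩
    refine ⟨hne.map, fun t ht htn => ?_⟩
    obtain ⟨τ, hτ, rfl⟩ := Finset.subset_map_iff.1 ht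
    exact ⟨τ, K.down σ hσ τ hτ, Finset.map_nonempty.1 htn, rfl⟩
  indep := by
    rintro s ⟨σ, hσ, hne, rfl⟩
    refine (geo_indep n).range.mono ?_
    intro x hx
    rw [Finset.mem_coe, Finset.mem_map] at hx
    obtain ⟨i, _, rfl⟩ := hx
    exact ⟨i, rfl⟩
  inter_subset_convexHull := by
    rintro s t ⟨σ, hσ, hne, rfl⟩ ⟨τ, hτ, hne', rfl⟩ x ⟨hx1, hx2⟩
    rw [geo_hull] at hx1 hx2
    have h3 : x ∈ convexHull ℝ (((σ ∩ τ).map (geoE n) : Finset (EuclideanSpace ℝ (Fin n))) :
      Set (EuclideanSpace ℝ (Fin n))) := by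
      rw [geo_hull]
      refine ⟨hx1.1, hx1.2.1, fun v hv => ?_⟩
      by_cases h : v ∈ σ
      · exact hx2.2.2 v (fun h' => hv (Finset.mem_inter.2 ⟨h, h'⟩))
      · exact hx1.2.2 v h
    refine convexHull_mono ?_ h3
    rw [Finset.map_inter, Finset.coe_inter]

theorem geoG_space {n : ℕ} (K : Cx n) (x : EuclideanSpace ℝ (Fin n)) :
    x ∈ (geoG K).space ↔ (EuclideanSpace.equiv (Fin n) ℝ).toHomeomorph x ∈ K.space := by
  rw [Geometry.SimplicialComplex.mem_space_iff]
  constructor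
  · rintro ⟨s, ⟨σ, hσ, hne, rfl⟩, hx⟩
    rw [geo_hull] at hx
    exact ⟨hx.1, hx.2.1, σ, hσ, hx.2.2⟩
  · rintro ⟨h1, h2, σ, hσ, h3⟩
    have hne : σ.Nonempty := by
      by_contra hne
      rw [Finset.not_nonempty_iff_eq_empty] at hne
      subst hne
      have : ∑ v, (EuclideanSpace.equiv (Fin n) ℝ).toHomeomorph x v = 0 :=
        Finset.sum_eq_zero (fun v _ => h3 v (by simp))
      rw [this] at h2
      exact zero_ne_one h2
    refine ⟨σ.map (geoE n), ⟨σ, hσ, hne, rfl⟩, ?_⟩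
    rw [geo_hull]
    exact ⟨h1, h2, h3⟩

theorem geoG_count {n : ℕ} (K : Cx n) (m : ℕ) :
    Set.ncard {s ∈ (geoG K).faces | s.card = m + 1} = K.f m := by
  have h1 : {s ∈ (geoG K).faces | s.card = m + 1} =
      (fun σ : Finset (Fin n) => σ.map (geoE n)) ''
        ((K.faces.filter (fun σ => σ.card = m + 1) : Finset (Finset (Fin n))) :
          Set (Finset (Fin n))) := by
    ext s
    constructor
    · rintro ⟨⟨σ, hσ, hne, rfl⟩, hc⟩
      refine ⟨σ, ?_, rfl⟩
      rw [Finset.card_map] at hc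
      exact Finset.mem_coe.2 (Finset.mem_filter.2 ⟨hσ, hc⟩)
    · rintro ⟨σ, hσ, rfl⟩
      rw [Finset.mem_coe, Finset.mem_filter] at hσ
      refine ⟨⟨σ, hσ.1, ?_, rfl⟩, ?_⟩
      · rw [← Finset.card_pos]; omega
      · rw [Finset.card_map]; exact hσ.2
  rw [h1, Set.ncard_image_of_injective _ (Finset.map_injective (geoE n)), Set.ncard_coe_finset]
  rfl

/-- TARGET: abstract complexes have geometric realisations -/
theorem exists_geo {n : ℕ} (K : Cx n) :
    ∃ G : Geometry.SimplicialComplex ℝ (EuclideanSpace ℝ (Fin n)), G.faces.Finite ∧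
      Nonempty (G.space ≃ₜ K.space) ∧
      Set.ncard {s ∈ G.faces | s.card = 2} = K.f 1 ∧
      Set.ncard {s ∈ G.faces | s.card = 1} = K.f 0 := by
  refine ⟨geoG K, ?_, ⟨?_⟩, geoG_count K 1, geoG_count K 0⟩
  · refine (K.faces.finite_toSet.image (fun σ : Finset (Fin n) => σ.map (geoE n))).subset ?_
    rintro s ⟨σ, hσ, hne, rfl⟩
    exact ⟨σ, hσ, rfl⟩
  · exact (EuclideanSpace.equiv (Fin n) ℝ).toHomeomorph.subtype (geoG_space K)

end Pool.Agent.Helper585.Wk
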