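import Pool.Agent.Helper585.Wk.GeoC11
import Pool.Agent.Helper585.Wk.FinGa
import Pool.Agent.Helper611.UGeo

set_option autoImplicit false

/-! Bridge from abstract to geometric complexes. -/

namespace Pool.Agent.Helper585.Wk

open Pool.Agent.Helper611

theorem exists_cx {n : ℕ} (G : Geometry.SimplicialComplex ℝ (EuclideanSpace ℝ (Fin n)))
    (hG : G.faces.Finite) :
    ∃ (m : ℕ) (K : Cx m), Nonempty (K.space ≃ₜ G.space) ∧
      Set.ncard {s ∈ G.faces | s.card = 2} = K.f 1 ∧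
      Set.ncard {s ∈ G.faces | s.card = 1} = K.f 0 := by
  obtain ⟨ι, hl⟩ := UGeo.exists_lab G hG
  refine ⟨_, ⟨(UGeo.cx hl).faces, (UGeo.cx hl).empty_mem, (UGeo.cx hl).down⟩,
    UGeo.exists_homeo hl, UGeo.card_faces hl 2 (by norm_num), UGeo.card_faces hl 1 (by norm_num)⟩

/-- the set of the values `f_1 - 5 f_0` -/
def Zset (X : Type) [TopologicalSpace X] : Set ℤ :=
  {z : ℤ | ∃ n : ℕ, ∃ K : Geometry.SimplicialComplex ℝ (EuclideanSpace ℝ (Fin n)),
      K.faces.Finite ∧ Nonempty (K.space ≃ₜ X) ∧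
      z = ((Set.ncard {s ∈ K.faces | s.card = 2} : ℕ) : ℤ)
        - (((4 : ℕ) : ℤ) + 1) * ((Set.ncard {s ∈ K.faces | s.card = 1} : ℕ) : ℤ)}

theorem zset_least (X : Type) [TopologicalSpace X] (g : ℤ) (h : IsGamma 4 X g) :
    IsLeast (Zset X) g := by
  have hlb : g ∈ lowerBounds (Zset X) := by
    rintro z ⟨n, G, hG, ⟨e⟩, rfl⟩
    obtain ⟨m, K, ⟨e'⟩, h1, h0⟩ := exists_cx G hG
    have := h.1 m K ⟨e'.trans e⟩
    rw [h1, h0]
    push_cast at this ⊢
    linarith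
  refine ⟨?_, hlb⟩
  by_contra hg
  have hadm : Adm 4 X (g + 1) := by
    intro n K ⟨e⟩
    obtain ⟨G, hG, ⟨e'⟩, h1, h0⟩ := exists_geo K
    have hz : ((K.f 1 : ℕ) : ℤ) - (((4 : ℕ) : ℤ) + 1) * ((K.f 0 : ℕ) : ℤ) ∈ Zset X :=
      ⟨n, G, hG, ⟨e'.trans e⟩, by rw [h1, h0]⟩
    have h2 := hlb hz
    have h3 : g ≠ ((K.f 1 : ℕ) : ℤ) - (((4 : ℕ) : ℤ) + 1) * ((K.f 0 : ℕ) : ℤ) := by
      intro h4
      rw [← h4] at hz
      exact hg hz
    have h4 := lt_of_le_of_ne h2 h3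
    push_cast at h4 ⊢
    linarith
  have := h.2 hadm
  omega

theorem sInf_zset (X : Type) [TopologicalSpace X] (g : ℤ) (h : IsGamma 4 X g) :
    sInf (Zset X) = g := (zset_least X g h).csInf_eq

/-- the charted space structure of a closed manifold -/
noncomputable def chartedOf (M : Type) [TopologicalSpace M] (h : ClosedManifold 4 M) :
    ChartedSpace (EuclideanSpace ℝ (Fin 4)) M where
  atlas := Set.univ
  chartAt x := (h.charts x).choose
  mem_chart_source x := (h.charts x).choose_spec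
  chart_mem_atlas _ := Set.mem_univ _

end Pool.Agent.Helper585.Wk
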