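import Mathlib

set_option autoImplicit false

/-! Definitions for MP_07c156_gt (additivity of the edge-excess invariant). -/

namespace Pool.Agent.Helper585.Wk

open Metric

/-- A finite abstract simplicial complex with vertices in `Fin n`; the empty set is a face. -/
structure Cx (n : ℕ) where
  faces : Finset (Finset (Fin n))
  empty_mem : ∅ ∈ faces
  down : ∀ σ ∈ faces, ∀ τ, τ ⊆ σ → τ ∈ faces

/-- The underlying space of a complex, in barycentric coordinates. -/
def Cx.space {n : ℕ} (K : Cx n) : Set (Fin n → ℝ) :=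
  {x | (∀ v, 0 ≤ x v) ∧ ∑ v, x v = 1 ∧ ∃ σ ∈ K.faces, ∀ v, v ∉ σ → x v = 0}

/-- The number `f_i(K)` of `i`-simplices, that is, of faces with `i + 1` vertices. -/
def Cx.f {n : ℕ} (K : Cx n) (i : ℕ) : ℕ := (K.faces.filter (fun σ => σ.card = i + 1)).card

/-- `K` is a triangulation of the space `M`. -/
def IsTriangulation (M : Type) [TopologicalSpace M] {n : ℕ} (K : Cx n) : Prop :=
  Nonempty (K.space ≃ₜ M)

/-- Every triangulation `K` of `M` satisfies `f_1(K) ≥ (d+1) f_0(K) + k`. -/
def Adm (d : ℕ) (M : Type) [TopologicalSpace M] (k : ℤ) : Prop :=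
  ∀ (n : ℕ) (K : Cx n), IsTriangulation M K → ((d : ℤ) + 1) * K.f 0 + k ≤ K.f 1

/-- `g = γ(M)`: the supremum of the admissible integers is finite and equal to `g`, that is,
`g` is the greatest integer `k` such that every triangulation satisfies
`f_1(K) ≥ (d+1) f_0(K) + k`. -/
def IsGamma (d : ℕ) (M : Type) [TopologicalSpace M] (g : ℤ) : Prop :=
  IsGreatest {k : ℤ | Adm d M k} g

/-- A closed connected topological `d`-manifold. -/
structure ClosedManifold (d : ℕ) (M : Type) [TopologicalSpace M] : Prop where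
  compact : CompactSpace M
  hausdorff : T2Space M
  connected : ConnectedSpace M
  charts : ∀ x : M, ∃ c : OpenPartialHomeomorph M (EuclideanSpace ℝ (Fin d)), x ∈ c.source

/-- A (tame) closed `d`-cell in `M`: an open embedding in `M` of a neighbourhood of the closed
unit ball of `ℝ^d`; the cell is the image of the closed unit ball. -/
structure Cell (d : ℕ) (M : Type) [TopologicalSpace M] where
  U : Set (EuclideanSpace ℝ (Fin d))
  isOpen : IsOpen U
  ball_subset : closedBall (0 : EuclideanSpace ℝ (Fin d)) 1 ⊆ U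
  toFun : U → M
  emb : Topology.IsOpenEmbedding toFun

/-- The interior of the cell. -/
def Cell.inter {d : ℕ} {M : Type} [TopologicalSpace M] (c : Cell d M) : Set M :=
  c.toFun '' {u | u.1 ∈ ball (0 : EuclideanSpace ℝ (Fin d)) 1}

/-- The boundary sphere of the cell. -/
def Cell.bdry {d : ℕ} {M : Type} [TopologicalSpace M] (c : Cell d M) : Set M :=
  c.toFun '' {u | u.1 ∈ sphere (0 : EuclideanSpace ℝ (Fin d)) 1}

/-- The relation gluing the boundary spheres of `M` minus an open cell and `N` minus an open cell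
along `φ`. -/
inductive GlueRel {d : ℕ} {M N : Type} [TopologicalSpace M] [TopologicalSpace N]
    (a : Cell d M) (b : Cell d N) (φ : a.bdry ≃ₜ b.bdry) :
    ((a.inter)ᶜ : Set M) ⊕ ((b.inter)ᶜ : Set N) → ((a.inter)ᶜ : Set M) ⊕ ((b.inter)ᶜ : Set N) → Prop
  | mk (x : a.bdry) (hx : x.1 ∉ a.inter) (hy : (φ x).1 ∉ b.inter) :
      GlueRel a b φ (Sum.inl ⟨x.1, hx⟩) (Sum.inr ⟨(φ x).1, hy⟩)

/-- `P` is a manifold sum of `M` and `N`: it is obtained by deleting the interior of an embedded
closed `d`-cell from each and gluing the two resulting boundary spheres by a homeomorphism. -/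
def IsManifoldSum (d : ℕ) (M N P : Type) [TopologicalSpace M] [TopologicalSpace N]
    [TopologicalSpace P] : Prop :=
  ∃ (a : Cell d M) (b : Cell d N) (φ : a.bdry ≃ₜ b.bdry), Nonempty (P ≃ₜ Quot (GlueRel a b φ))

/-- Combinatorial closed connected 4-dimensional pseudomanifolds. -/
structure Pseudo {n : ℕ} (K : Cx n) : Prop where
  dim : ∀ σ ∈ K.faces, σ.card ≤ 5
  pure : ∀ σ ∈ K.faces, ∃ F ∈ K.faces, σ ⊆ F ∧ F.card = 5
  two : ∀ t ∈ K.faces, t.card = 4 → (K.faces.filter (fun F => t ⊆ F ∧ F.card = 5)).card = 2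
  conn : ∀ Z : Finset (Finset (Fin n)), Z ⊆ K.faces.filter (fun F => F.card = 5) → Z.Nonempty →
    (∀ t : Finset (Fin n), t.card = 4 → Even (Z.filter (fun F => t ⊆ F)).card) →
    Z = K.faces.filter (fun F => F.card = 5)

end Pool.Agent.Helper585.Wk
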