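import Pool.Agent.Helper585.Wk.Defs

set_option autoImplicit false
namespace Pool.Agent.Helper585.Wk
open Metric

namespace GM

abbrev E := EuclideanSpace ℝ (Fin 4)

/-- inversion -/
noncomputable def nv (x : E) : E := (‖x‖ ^ 2)⁻¹ • x

theorem norm_nv (x : E) : ‖nv x‖ = ‖x‖⁻¹ := by
  unfold nv
  rw [norm_smul, norm_inv, norm_pow, norm_norm]
  by_cases h : ‖x‖ = 0
  · simp [h]
  · field_simp

theorem nv_nv (x : E) : nv (nv x) = x := by
  by_cases h : ‖x‖ = 0
  · have : x = 0 := norm_eq_zero.mp h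
    subst this
    simp [nv]
  · show (‖nv x‖ ^ 2)⁻¹ • nv x = x
    rw [norm_nv]
    unfold nv
    rw [smul_smul]
    have : (‖x‖⁻¹ ^ 2)⁻¹ * (‖x‖ ^ 2)⁻¹ = 1 := by field_simp
    rw [this, one_smul]

theorem nv_one {x : E} (h : ‖x‖ = 1) : nv x = x := by
  simp [nv, h]

theorem nv_inj {x y : E} (h : nv x = nv y) : x = y := by
  rw [← nv_nv x, h, nv_nv]

theorem nv_ne {x : E} (h : x ≠ 0) : nv x ≠ 0 := by
  intro h'
  apply h
  rw [← nv_nv x, h']
  simp [nv]

theorem cont_nv : ContinuousOn nv {x : E | x ≠ 0} := by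
  have h : ContinuousOn (fun x : E => (‖x‖ ^ 2)⁻¹) {x : E | x ≠ 0} := by
    apply ContinuousOn.inv₀
    · exact (continuous_norm.pow 2).continuousOn
    · intro x hx
      have : ‖x‖ ≠ 0 := norm_ne_zero_iff.mpr hx
      positivity
  exact h.smul continuousOn_id

variable {M N Q : Type} [TopologicalSpace M] [TopologicalSpace N] [TopologicalSpace Q]

theorem half [T2Space M] [T2Space N]
    (A : E → M) (B : E → N) (hA : Topology.IsOpenEmbedding A) (hB : Topology.IsOpenEmbedding B)
    (Ia : Set M) (Ib : Set N) (hIa : A '' ball 0 1 = Ia) (hIb : B '' ball 0 1 = Ib)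
    (i : (Iaᶜ : Set M) → Q) (j : (Ibᶜ : Set N) → Q) (hi : Continuous i) (hj : Continuous j)
    (hii : Function.Injective i) (hjj : Function.Injective j)
    (hij : ∀ p q, i p = j q ↔ ∃ x : E, ‖x‖ = 1 ∧ p.1 = A x ∧ q.1 = B x)
    (hopen : ∀ O : Set Q, IsOpen (i ⁻¹' O) → IsOpen (j ⁻¹' O) → IsOpen O) :
    ∃ u : ({A 0}ᶜ : Set M) → Q, Topology.IsOpenEmbedding u ∧
      (∀ (p : ({A 0}ᶜ : Set M)) (h : p.1 ∈ Iaᶜ), u p = i ⟨p.1, h⟩) ∧
      (∀ (x : E) (h : A x ∈ ({A 0}ᶜ : Set M)) (h' : B (nv x) ∈ Ibᶜ), ‖x‖ ≤ 1 →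
        u ⟨A x, h⟩ = j ⟨B (nv x), h'⟩) := by
  have hAI : ∀ x : E, A x ∈ Ia ↔ ‖x‖ < 1 := by
    intro x
    rw [← hIa]
    constructor
    · rintro ⟨y, hy, hyx⟩
      have := hA.injective hyx
      subst this
      simpa using hy
    · intro hx
      exact ⟨x, by simpa using hx, rfl⟩
  have hBI : ∀ x : E, B x ∈ Ib ↔ ‖x‖ < 1 := by
    intro x
    rw [← hIb]
    constructor
    · rintro ⟨y, hy, hyx⟩
      have := hB.injective hyx
      subst this
      simpa using hy
    · intro hx
      exact ⟨x, by simpa using hx, rfl⟩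
  have hA0 : ∀ x : E, A x ∈ ({A 0}ᶜ : Set M) ↔ x ≠ 0 := by
    intro x
    rw [Set.mem_compl_iff, Set.mem_singleton_iff]
    exact not_congr ⟨fun h => hA.injective h, fun h => by rw [h]⟩
  have hAc : ∀ x : E, 1 ≤ ‖x‖ → A x ∈ Iaᶜ := by
    intro x hx
    rw [Set.mem_compl_iff, hAI]
    exact not_lt.mpr hx
  have hBc : ∀ x : E, 1 ≤ ‖x‖ → B x ∈ Ibᶜ := by
    intro x hx
    rw [Set.mem_compl_iff, hBI]
    exact not_lt.mpr hx
  have hnv1 : ∀ x : E, x ≠ 0 → ‖x‖ ≤ 1 → 1 ≤ ‖nv x‖ := by
    intro x hx hx1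
    rw [norm_nv]
    exact (one_le_inv₀ (norm_pos_iff.mpr hx)).mpr hx1
  have hnv2 : ∀ x : E, x ≠ 0 → ‖x‖ < 1 → 1 < ‖nv x‖ := by
    intro x hx hx1
    rw [norm_nv]
    exact (one_lt_inv₀ (norm_pos_iff.mpr hx)).mpr hx1
  -- the map on the chart
  classical
  let D := (A ⁻¹' ({A 0}ᶜ : Set M) : Set E)
  have hD : ∀ x : D, x.1 ≠ 0 := fun x => (hA0 x.1).mp x.2
  let g : D → Q := fun x => if h : 1 ≤ ‖x.1‖ then i ⟨A x.1, hAc _ h⟩
    else j ⟨B (nv x.1), hBc _ (hnv1 _ (hD x) (not_le.mp h).le)⟩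
  have g1 : ∀ (x : D) (h : 1 ≤ ‖x.1‖), g x = i ⟨A x.1, hAc _ h⟩ := by
    intro x h
    simp only [g]
    rw [dif_pos h]
  have g2 : ∀ (x : D) (h : ‖x.1‖ ≤ 1), g x = j ⟨B (nv x.1), hBc _ (hnv1 _ (hD x) h)⟩ := by
    intro x h
    rcases h.lt_or_eq with h' | h'
    · simp only [g]
      rw [dif_neg (not_le.mpr h')]
    · rw [g1 x h'.ge, hij]
      exact ⟨x.1, h', rfl, by simp only [nv_one h']⟩
  have gc : Continuous g := by
    have c1 : IsClosed {x : D | 1 ≤ ‖x.1‖} :=
      isClosed_le continuous_const (continuous_norm.comp continuous_subtype_val)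
    have c2 : IsClosed {x : D | ‖x.1‖ ≤ 1} :=
      isClosed_le (continuous_norm.comp continuous_subtype_val) continuous_const
    rw [continuous_iff_isClosed]
    intro F hF
    have e : g ⁻¹' F = Subtype.val '' ((fun x : {x : D | 1 ≤ ‖x.1‖} => g x.1) ⁻¹' F) ∪
        Subtype.val '' ((fun x : {x : D | ‖x.1‖ ≤ 1} => g x.1) ⁻¹' F) := by
      ext x
      constructor
      · intro hx
        rcases le_total 1 ‖x.1‖ with h | h
        · left; exact ⟨⟨x, h⟩, hx, rfl⟩
        · right; exact ⟨⟨x, h⟩, hx, rfl⟩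
      · rintro (⟨y, hy, rfl⟩ | ⟨y, hy, rfl⟩)
        · exact hy
        · exact hy
    rw [e]
    have k1 : Continuous (fun x : {x : D | 1 ≤ ‖x.1‖} => g x.1) := by
      have : (fun x : {x : D | 1 ≤ ‖x.1‖} => g x.1) =
          fun x : {x : D | 1 ≤ ‖x.1‖} => i ⟨A x.1.1, hAc _ x.2⟩ := by
        funext x
        exact g1 x.1 x.2
      rw [this]
      apply hi.comp
      apply Continuous.subtype_mk
      exact hA.continuous.comp (continuous_subtype_val.comp continuous_subtype_val)
    have k2 : Continuous (fun x : {x : D | ‖x.1‖ ≤ 1} => g x.1) := by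
      have : (fun x : {x : D | ‖x.1‖ ≤ 1} => g x.1) =
          fun x : {x : D | ‖x.1‖ ≤ 1} => j ⟨B (nv x.1.1), hBc _ (hnv1 _ (hD x.1) x.2)⟩ := by
        funext x
        exact g2 x.1 x.2
      rw [this]
      apply hj.comp
      apply Continuous.subtype_mk
      apply hB.continuous.comp
      exact cont_nv.comp_continuous (continuous_subtype_val.comp continuous_subtype_val)
        (fun x => hD x.1)
    exact ((c1.isClosedEmbedding_subtypeVal.isClosed_iff_image_isClosed).mp (hF.preimage k1)).union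
      ((c2.isClosedEmbedding_subtypeVal.isClosed_iff_image_isClosed).mp (hF.preimage k2))
  let A' : D → ({A 0}ᶜ : Set M) := ({A 0}ᶜ : Set M).restrictPreimage A
  have hA' : Topology.IsOpenEmbedding A' := hA.restrictPreimage _
  -- the map
  have hex : ∀ p : ({A 0}ᶜ : Set M), p.1 ∈ Ia → ∃ x : D, A' x = p := by
    intro p hp
    rw [← hIa] at hp
    obtain ⟨x, hx, hxp⟩ := hp
    refine ⟨⟨x, ?_⟩, ?_⟩
    · show A x ∈ ({A 0}ᶜ : Set M)
      rw [hxp]; exact p.2
    · exact Subtype.ext hxp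
  let u : ({A 0}ᶜ : Set M) → Q := fun p =>
    if h : p.1 ∈ Ia then g (hex p h).choose else i ⟨p.1, h⟩
  have u1 : ∀ (p : ({A 0}ᶜ : Set M)) (h : p.1 ∈ Iaᶜ), u p = i ⟨p.1, h⟩ := by
    intro p h
    simp only [u]
    rw [dif_neg h]
  have u2 : ∀ x : D, u (A' x) = g x := by
    intro x
    by_cases h : (A' x).1 ∈ Ia
    · simp only [u]
      rw [dif_pos h]
      congr 1
      exact hA'.injective (hex (A' x) h).choose_spec
    · rw [u1 _ h]
      have h1 : 1 ≤ ‖x.1‖ := by
        by_contra h2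
        exact h ((hAI x.1).mpr (not_le.mp h2))
      rw [g1 x h1]
      rfl
  have u3 : ∀ (x : E) (h : A x ∈ ({A 0}ᶜ : Set M)) (h' : B (nv x) ∈ Ibᶜ), ‖x‖ ≤ 1 →
        u ⟨A x, h⟩ = j ⟨B (nv x), h'⟩ := by
    intro x h h' hx
    have := u2 ⟨x, h⟩
    rw [g2 ⟨x, h⟩ hx] at this
    exact this
  refine ⟨u, ?_, u1, u3⟩
  have hcase : ∀ p : ({A 0}ᶜ : Set M), (p.1 ∈ Iaᶜ) ∨ ∃ x : E, x ≠ 0 ∧ ‖x‖ < 1 ∧ A x = p.1 := by
    intro p
    by_cases h : p.1 ∈ Ia
    · right
      obtain ⟨x, hx⟩ := hex p h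
      refine ⟨x.1, hD x, ?_, ?_⟩
      · rw [← hAI]
        have : A x.1 = p.1 := by rw [← hx]; rfl
        rw [this]; exact h
      · rw [← hx]; rfl
    · left; exact h
  apply Topology.IsOpenEmbedding.of_continuous_injective_isOpenMap
  · -- continuity
    rw [continuous_iff_continuousAt]
    intro p
    by_cases hp : p.1 ∈ Set.range A
    · obtain ⟨x, hx⟩ := hp
      have hxD : x ∈ D := by
        show A x ∈ ({A 0}ᶜ : Set M)
        rw [hx]; exact p.2
      have hpx : p = A' ⟨x, hxD⟩ := Subtype.ext hx.symm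
      rw [hpx, ← hA'.continuousAt_iff]
      have : u ∘ A' = g := funext u2
      rw [this]
      exact gc.continuousAt
    · have hcpt : IsClosed (A '' closedBall 0 1) :=
        ((isCompact_closedBall (0 : E) 1).image hA.continuous).isClosed
      let O : Set ({A 0}ᶜ : Set M) := Subtype.val ⁻¹' (A '' closedBall 0 1)ᶜ
      have hO : IsOpen O := hcpt.isOpen_compl.preimage continuous_subtype_val
      have hpO : p ∈ O := by
        show p.1 ∉ _
        rintro ⟨y, hy, hyp⟩
        exact hp ⟨y, hyp⟩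
      have hOI : ∀ q ∈ O, q.1 ∈ Iaᶜ := by
        intro q hq hq'
        apply hq
        rw [← hIa] at hq'
        exact Set.image_mono ball_subset_closedBall hq'
      have : ContinuousOn u O := by
        rw [continuousOn_iff_continuous_domRestrict]
        have e : O.domRestrict u = fun q : O => i ⟨q.1.1, hOI q.1 q.2⟩ := by
          funext q
          exact u1 _ _
        rw [e]
        apply hi.comp
        apply Continuous.subtype_mk
        exact continuous_subtype_val.comp continuous_subtype_val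
      exact this.continuousAt (hO.mem_nhds hpO)
  · -- injectivity
    intro p p' hpp
    rcases hcase p with h | ⟨x, hx0, hx1, hx⟩ <;> rcases hcase p' with h' | ⟨x', hx0', hx1', hx'⟩
    · rw [u1 p h, u1 p' h'] at hpp
      have h3 : p.1 = p'.1 := congrArg (fun t : (Iaᶜ : Set M) => t.1) (hii hpp)
      exact Subtype.ext h3
    · exfalso
      have e : p' = ⟨A x', (hA0 _).mpr hx0'⟩ := Subtype.ext hx'.symm
      rw [u1 p h, e, u3 x' _ (hBc _ (hnv1 _ hx0' hx1'.le)) hx1'.le, hij] at hpp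
      obtain ⟨y, hy, -, hy2⟩ := hpp
      have := hB.injective hy2
      have h2 := hnv2 x' hx0' hx1'
      rw [this, hy] at h2
      exact lt_irrefl _ h2
    · exfalso
      have e : p = ⟨A x, (hA0 _).mpr hx0⟩ := Subtype.ext hx.symm
      rw [u1 p' h', e, u3 x _ (hBc _ (hnv1 _ hx0 hx1.le)) hx1.le] at hpp
      have hpp' := hpp.symm
      rw [hij] at hpp'
      obtain ⟨y, hy, -, hy2⟩ := hpp'
      have := hB.injective hy2
      have h2 := hnv2 x hx0 hx1
      rw [this, hy] at h2
      exact lt_irrefl _ h2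
    · have e : p = ⟨A x, (hA0 _).mpr hx0⟩ := Subtype.ext hx.symm
      have e' : p' = ⟨A x', (hA0 _).mpr hx0'⟩ := Subtype.ext hx'.symm
      rw [e, e', u3 x _ (hBc _ (hnv1 _ hx0 hx1.le)) hx1.le,
        u3 x' _ (hBc _ (hnv1 _ hx0' hx1'.le)) hx1'.le] at hpp
      have h1 := congrArg Subtype.val (hjj hpp)
      have h2 := nv_inj (hB.injective h1)
      rw [e, e']
      subst h2
      rfl
  · -- open map
    intro W hW
    have hMo : IsOpen ({A 0}ᶜ : Set M) := isOpen_compl_singleton
    let W1 : Set M := Subtype.val '' W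
    have hW1 : IsOpen W1 := hMo.isOpenMap_subtype_val _ hW
    have hW1' : ∀ p : ({A 0}ᶜ : Set M), p ∈ W ↔ p.1 ∈ W1 := by
      intro p
      constructor
      · intro h; exact ⟨p, h, rfl⟩
      · rintro ⟨q, hq, hqp⟩
        have : q = p := Subtype.ext hqp
        rw [← this]; exact hq
    apply hopen
    · have : i ⁻¹' (u '' W) = Subtype.val ⁻¹' W1 := by
        ext p
        constructor
        · rintro ⟨p', hp', hpp⟩
          rcases hcase p' with h | ⟨x, hx0, hx1, hx⟩
          · rw [u1 p' h] at hpp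
            have h1 := congrArg Subtype.val (hii hpp)
            show p.1 ∈ W1
            rw [← h1]
            exact ⟨p', hp', rfl⟩
          · exfalso
            have e : p' = ⟨A x, (hA0 _).mpr hx0⟩ := Subtype.ext hx.symm
            rw [e, u3 x _ (hBc _ (hnv1 _ hx0 hx1.le)) hx1.le] at hpp
            have hpp' := hpp.symm
            rw [hij] at hpp'
            obtain ⟨y, hy, -, hy2⟩ := hpp'
            have := hB.injective hy2
            have h2 := hnv2 x hx0 hx1
            rw [this, hy] at h2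
            exact lt_irrefl _ h2
        · rintro ⟨p', hp', hpp⟩
          refine ⟨p', hp', ?_⟩
          have h : p'.1 ∈ Iaᶜ := by rw [hpp]; exact p.2
          rw [u1 p' h]
          congr 1
          exact Subtype.ext hpp
      rw [this]
      exact hW1.preimage continuous_subtype_val
    · let Y : Set E := {y : E | y ≠ 0} ∩ nv ⁻¹' (A ⁻¹' W1)
      have hY : IsOpen Y := by
        apply cont_nv.isOpen_inter_preimage _ (hW1.preimage hA.continuous)
        exact isOpen_compl_singleton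
      have : j ⁻¹' (u '' W) = Subtype.val ⁻¹' (B '' Y) := by
        ext q
        constructor
        · rintro ⟨p', hp', hpp⟩
          rcases hcase p' with h | ⟨x, hx0, hx1, hx⟩
          · rw [u1 p' h, hij] at hpp
            obtain ⟨y, hy, hy1, hy2⟩ := hpp
            refine ⟨y, ⟨?_, ?_⟩, hy2.symm⟩
            · intro h0
              rw [h0] at hy
              simp at hy
            · show A (nv y) ∈ W1
              rw [nv_one hy]
              exact ⟨p', hp', hy1⟩
          · have e : p' = ⟨A x, (hA0 _).mpr hx0⟩ := Subtype.ext hx.symm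
            rw [e, u3 x _ (hBc _ (hnv1 _ hx0 hx1.le)) hx1.le] at hpp
            have h1 := congrArg Subtype.val (hjj hpp)
            refine ⟨nv x, ⟨nv_ne hx0, ?_⟩, h1⟩
            show A (nv (nv x)) ∈ W1
            rw [nv_nv]
            exact ⟨p', hp', hx.symm⟩
        · rintro ⟨y, ⟨hy0, hyW⟩, hyq⟩
          have hy1 : 1 ≤ ‖y‖ := by
            by_contra h
            have := (hBI y).mpr (not_le.mp h)
            rw [hyq] at this
            exact q.2 this
          have hnl : ‖nv y‖ ≤ 1 := by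
            rw [norm_nv]
            exact inv_le_one_of_one_le₀ hy1
          have hm : A (nv y) ∈ ({A 0}ᶜ : Set M) := (hA0 _).mpr (nv_ne hy0)
          refine ⟨⟨A (nv y), hm⟩, (hW1' _).mpr hyW, ?_⟩
          have hq' : B (nv (nv y)) ∈ Ibᶜ := by rw [nv_nv, hyq]; exact q.2
          rw [u3 (nv y) hm hq' hnl]
          congr 1
          apply Subtype.ext
          show B (nv (nv y)) = q.1
          rw [nv_nv, hyq]
      rw [this]
      exact (hB.isOpenMap _ hY).preimage continuous_subtype_val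

section quot

variable (a : Cell 4 M) (b : Cell 4 N) (φ : a.bdry ≃ₜ b.bdry)

/-- the class of a point -/
def cls : ((a.inter)ᶜ : Set M) ⊕ ((b.inter)ᶜ : Set N) → Set (M ⊕ N)
  | Sum.inl p => {t | t = Sum.inl p.1 ∨ ∃ h : p.1 ∈ a.bdry, t = Sum.inr (φ ⟨p.1, h⟩).1}
  | Sum.inr q => {t | t = Sum.inr q.1 ∨ ∃ x : a.bdry, (φ x).1 = q.1 ∧ t = Sum.inl x.1}

theorem cls_rel (s t : ((a.inter)ᶜ : Set M) ⊕ ((b.inter)ᶜ : Set N)) (h : GlueRel a b φ s t) :
    cls a b φ s = cls a b φ t := by
  obtain ⟨x, hx, hy⟩ := h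
  ext t
  constructor
  · rintro (rfl | ⟨h, rfl⟩)
    · right
      exact ⟨x, rfl, rfl⟩
    · left
      rfl
  · rintro (rfl | ⟨y, hy', rfl⟩)
    · right
      exact ⟨x.2, rfl⟩
    · left
      have : y = x := φ.injective (Subtype.ext hy')
      rw [this]

theorem cls_eq (s t : ((a.inter)ᶜ : Set M) ⊕ ((b.inter)ᶜ : Set N))
    (h : Quot.mk (GlueRel a b φ) s = Quot.mk (GlueRel a b φ) t) : cls a b φ s = cls a b φ t :=
  congrArg (Quot.lift (cls a b φ) (cls_rel a b φ)) h

end quot

end GM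

open GM in
/-- TARGET: the sum by gluing along boundary spheres of cells is the sum by gluing punctured
manifolds along an inversion -/
theorem glue_maps {M N : Type} [TopologicalSpace M] [TopologicalSpace N] [T2Space M] [T2Space N]
    (a : Cell 4 M) (b : Cell 4 N) (φ : a.bdry ≃ₜ b.bdry)
    (A : EuclideanSpace ℝ (Fin 4) → M) (B : EuclideanSpace ℝ (Fin 4) → N)
    (hA : Topology.IsOpenEmbedding A) (hB : Topology.IsOpenEmbedding B)
    (hAi : A '' ball 0 1 = a.inter) (hAb : A '' sphere 0 1 = a.bdry)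
    (hBi : B '' ball 0 1 = b.inter) (hBb : B '' sphere 0 1 = b.bdry)
    (hφ : ∀ x : EuclideanSpace ℝ (Fin 4), ‖x‖ = 1 → ∀ h : A x ∈ a.bdry,
      (φ ⟨A x, h⟩).1 = B x) :
    ∃ u : ({A 0}ᶜ : Set M) → Quot (GlueRel a b φ), ∃ v : ({B 0}ᶜ : Set N) → Quot (GlueRel a b φ),
      Topology.IsOpenEmbedding u ∧ Topology.IsOpenEmbedding v ∧
      Set.range u ∪ Set.range v = Set.univ ∧
      ∀ (p : ({A 0}ᶜ : Set M)) (q : ({B 0}ᶜ : Set N)),
        (u p = v q ↔ ∃ x : EuclideanSpace ℝ (Fin 4), x ≠ 0 ∧ (p : M) = A x ∧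
          (q : N) = B ((‖x‖ ^ 2)⁻¹ • x)) := by
  let i : ((a.inter)ᶜ : Set M) → Quot (GlueRel a b φ) := fun p => Quot.mk _ (Sum.inl p)
  let j : ((b.inter)ᶜ : Set N) → Quot (GlueRel a b φ) := fun q => Quot.mk _ (Sum.inr q)
  have hi : Continuous i := continuous_quot_mk.comp continuous_inl
  have hj : Continuous j := continuous_quot_mk.comp continuous_inr
  have hii : Function.Injective i := by
    intro p p' h
    have h1 := cls_eq a b φ _ _ h
    have h2 : (Sum.inl p.1 : M ⊕ N) ∈ cls a b φ (Sum.inl p) := Or.inl rfl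
    rw [h1] at h2
    rcases h2 with h2 | ⟨_, h2⟩
    · exact Subtype.ext (Sum.inl.inj h2)
    · exact absurd h2 (by simp)
  have hjj : Function.Injective j := by
    intro p p' h
    have h1 := cls_eq a b φ _ _ h
    have h2 : (Sum.inr p.1 : M ⊕ N) ∈ cls a b φ (Sum.inr p) := Or.inl rfl
    rw [h1] at h2
    rcases h2 with h2 | ⟨_, _, h2⟩
    · exact Subtype.ext (Sum.inr.inj h2)
    · exact absurd h2 (by simp)
  have hij : ∀ p q, i p = j q ↔ ∃ x : E, ‖x‖ = 1 ∧ p.1 = A x ∧ q.1 = B x := by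
    intro p q
    constructor
    · intro h
      have h1 := cls_eq a b φ _ _ h
      have h2 : (Sum.inr q.1 : M ⊕ N) ∈ cls a b φ (Sum.inr q) := Or.inl rfl
      rw [← h1] at h2
      rcases h2 with h2 | ⟨hp, h2⟩
      · exact absurd h2 (by simp)
      · have h3 := Sum.inr.inj h2
        have hp' := hp
        rw [← hAb] at hp'
        obtain ⟨x, hx, hxp⟩ := hp'
        have hx1 : ‖x‖ = 1 := by simpa using hx
        refine ⟨x, hx1, hxp.symm, ?_⟩
        have hh : A x ∈ a.bdry := by rw [hxp]; exact hp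
        rw [h3, ← hφ x hx1 hh]
        congr 2
        exact Subtype.ext hxp.symm
    · rintro ⟨x, hx, hp, hq⟩
      have hh : A x ∈ a.bdry := by rw [← hAb]; exact ⟨x, by simpa using hx, rfl⟩
      have h1 := hφ x hx hh
      have hp' : p = ⟨A x, hp ▸ p.2⟩ := Subtype.ext hp
      have hq' : q = ⟨(φ ⟨A x, hh⟩).1, by rw [h1, ← hq]; exact q.2⟩ := Subtype.ext (hq.trans h1.symm)
      show Quot.mk _ (Sum.inl p) = Quot.mk _ (Sum.inr q)
      rw [hp', hq']
      exact Quot.sound (GlueRel.mk ⟨A x, hh⟩ _ _)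
  have hopen : ∀ O : Set (Quot (GlueRel a b φ)), IsOpen (i ⁻¹' O) → IsOpen (j ⁻¹' O) → IsOpen O := by
    intro O h1 h2
    have h3 : IsOpen (Quot.mk (GlueRel a b φ) ⁻¹' O) := by
      rw [isOpen_sum_iff]
      exact ⟨h1, h2⟩
    exact h3
  have hij' : ∀ q p, j q = i p ↔ ∃ x : E, ‖x‖ = 1 ∧ q.1 = B x ∧ p.1 = A x := by
    intro q p
    rw [eq_comm, hij]
    constructor
    · rintro ⟨x, h1, h2, h3⟩; exact ⟨x, h1, h3, h2⟩
    · rintro ⟨x, h1, h2, h3⟩; exact ⟨x, h1, h3, h2⟩
  obtain ⟨u, hu, u1, u2⟩ := half A B hA hB a.inter b.inter hAi hBi i j hi hj hii hjj hij hopen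
  obtain ⟨v, hv, v1, v2⟩ := half B A hB hA b.inter a.inter hBi hAi j i hj hi hjj hii hij'
    (fun O h1 h2 => hopen O h2 h1)
  refine ⟨u, v, hu, hv, ?_, ?_⟩
  · -- covering
    rw [Set.eq_univ_iff_forall]
    intro z
    induction z using Quot.ind with
    | mk s =>
      rcases s with p | q
      · left
        have hne : p.1 ∈ ({A 0}ᶜ : Set M) := by
          intro h
          have h0 : p.1 = A 0 := h
          apply p.2
          rw [h0, ← hAi]
          exact ⟨0, by simp, rfl⟩
        exact ⟨⟨p.1, hne⟩, u1 ⟨p.1, hne⟩ p.2⟩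
      · right
        have hne : q.1 ∈ ({B 0}ᶜ : Set N) := by
          intro h
          have h0 : q.1 = B 0 := h
          apply q.2
          rw [h0, ← hBi]
          exact ⟨0, by simp, rfl⟩
        exact ⟨⟨q.1, hne⟩, v1 ⟨q.1, hne⟩ q.2⟩
  · intro p q
    have hAI : ∀ x : E, A x ∈ a.inter ↔ ‖x‖ < 1 := by
      intro x
      rw [← hAi]
      constructor
      · rintro ⟨y, hy, hyx⟩
        have := hA.injective hyx
        subst this
        simpa using hy
      · intro hx
        exact ⟨x, by simpa using hx, rfl⟩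
    have hBI : ∀ x : E, B x ∈ b.inter ↔ ‖x‖ < 1 := by
      intro x
      rw [← hBi]
      constructor
      · rintro ⟨y, hy, hyx⟩
        have := hB.injective hyx
        subst this
        simpa using hy
      · intro hx
        exact ⟨x, by simpa using hx, rfl⟩
    have hgt : ∀ x : E, x ≠ 0 → ‖x‖ < 1 → 1 < ‖nv x‖ := by
      intro x hx hx1
      rw [norm_nv]
      exact (one_lt_inv₀ (norm_pos_iff.mpr hx)).mpr hx1
    have hAn : ∀ x : E, 1 ≤ ‖x‖ → A x ∈ (a.inter)ᶜ := by
      intro x hx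
      rw [Set.mem_compl_iff, hAI]
      exact not_lt.mpr hx
    have hBn : ∀ x : E, 1 ≤ ‖x‖ → B x ∈ (b.inter)ᶜ := by
      intro x hx
      rw [Set.mem_compl_iff, hBI]
      exact not_lt.mpr hx
    have hle : ∀ x : E, ‖nv x‖ ≤ 1 → x ≠ 0 → 1 ≤ ‖x‖ := by
      intro x h hx
      by_contra h'
      exact absurd h (not_le.mpr (hgt x hx (not_le.mp h')))
    show u p = v q ↔ ∃ x : E, x ≠ 0 ∧ (p : M) = A x ∧ (q : N) = B (nv x)
    by_cases hp : p.1 ∈ a.inter <;> by_cases hq : q.1 ∈ b.inter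
    · -- both inside
      have hp' := hp
      have hq' := hq
      rw [← hAi] at hp'
      rw [← hBi] at hq'
      obtain ⟨x, hx, hxp⟩ := hp'
      obtain ⟨y, hy, hyq⟩ := hq'
      have hx1 : ‖x‖ < 1 := by simpa using hx
      have hy1 : ‖y‖ < 1 := by simpa using hy
      have hx0 : x ≠ 0 := by rintro rfl; exact p.2 hxp.symm
      have hy0 : y ≠ 0 := by rintro rfl; exact q.2 hyq.symm
      have ep : p = ⟨A x, by rw [hxp]; exact p.2⟩ := Subtype.ext hxp.symm
      have eq' : q = ⟨B y, by rw [hyq]; exact q.2⟩ := Subtype.ext hyq.symm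
      constructor
      · intro h
        exfalso
        rw [ep, eq', u2 x _ (hBn _ (hgt x hx0 hx1).le) hx1.le,
          v2 y _ (hAn _ (hgt y hy0 hy1).le) hy1.le, hij'] at h
        obtain ⟨w, hw, hw1, -⟩ := h
        have h2 := hgt x hx0 hx1
        rw [hB.injective hw1, hw] at h2
        exact lt_irrefl _ h2
      · rintro ⟨w, hw, hw1, hw2⟩
        exfalso
        have h1 : w = x := hA.injective (hw1.symm.trans hxp.symm)
        have h2 : nv w = y := hB.injective (hw2.symm.trans hyq.symm)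
        have h3 := hgt x hx0 hx1
        rw [← h1, h2] at h3
        exact absurd h3 (not_lt.mpr hy1.le)
    · -- p inside
      have hp' := hp
      rw [← hAi] at hp'
      obtain ⟨x, hx, hxp⟩ := hp'
      have hx1 : ‖x‖ < 1 := by simpa using hx
      have hx0 : x ≠ 0 := by rintro rfl; exact p.2 hxp.symm
      have ep : p = ⟨A x, by rw [hxp]; exact p.2⟩ := Subtype.ext hxp.symm
      rw [v1 q hq]
      constructor
      · intro h
        rw [ep, u2 x _ (hBn _ (hgt x hx0 hx1).le) hx1.le] at h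
        have h1 : B (nv x) = q.1 := congrArg (fun t : ((b.inter)ᶜ : Set N) => t.1) (hjj h)
        exact ⟨x, hx0, hxp.symm, h1.symm⟩
      · rintro ⟨w, hw, hw1, hw2⟩
        have h1 : w = x := hA.injective (hw1.symm.trans hxp.symm)
        rw [ep, u2 x _ (hBn _ (hgt x hx0 hx1).le) hx1.le]
        congr 1
        apply Subtype.ext
        show B (nv x) = q.1
        rw [hw2, h1]
    · -- q inside
      have hq' := hq
      rw [← hBi] at hq'
      obtain ⟨y, hy, hyq⟩ := hq'
      have hy1 : ‖y‖ < 1 := by simpa using hy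
      have hy0 : y ≠ 0 := by rintro rfl; exact q.2 hyq.symm
      have eq' : q = ⟨B y, by rw [hyq]; exact q.2⟩ := Subtype.ext hyq.symm
      rw [u1 p hp]
      constructor
      · intro h
        rw [eq', v2 y _ (hAn _ (hgt y hy0 hy1).le) hy1.le] at h
        have h1 : p.1 = A (nv y) := congrArg (fun t : ((a.inter)ᶜ : Set M) => t.1) (hii h)
        refine ⟨nv y, nv_ne hy0, h1, ?_⟩
        rw [nv_nv]
        exact hyq.symm
      · rintro ⟨w, hw, hw1, hw2⟩
        have h2 : nv w = y := hB.injective (hw2.symm.trans hyq.symm)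
        rw [eq', v2 y _ (hAn _ (hgt y hy0 hy1).le) hy1.le]
        congr 1
        apply Subtype.ext
        show p.1 = A (nv y)
        rw [← h2, nv_nv, hw1]
    · -- both outside
      rw [u1 p hp, v1 q hq, hij]
      constructor
      · rintro ⟨x, hx, h1, h2⟩
        refine ⟨x, ?_, h1, ?_⟩
        · rintro rfl
          simp at hx
        · rw [nv_one hx]; exact h2
      · rintro ⟨x, hx, h1, h2⟩
        have k1 : 1 ≤ ‖x‖ := by
          by_contra h
          apply hp
          rw [h1, hAI]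
          exact not_le.mp h
        have k2 : 1 ≤ ‖nv x‖ := by
          by_contra h
          apply hq
          rw [h2, hBI]
          exact not_le.mp h
        have k3 : ‖x‖ ≤ 1 := by
          by_contra h
          have h' := not_le.mp h
          have : ‖nv x‖ < 1 := by
            rw [norm_nv]
            exact inv_lt_one_of_one_lt₀ h'
          exact absurd k2 (not_le.mpr this)
        have k4 : ‖x‖ = 1 := le_antisymm k3 k1
        refine ⟨x, k4, h1, ?_⟩
        rw [h2, nv_one k4]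

end Pool.Agent.Helper585.Wk
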