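import Pool.Agent.Helper585.Wk.FinS1
import Pool.Agent.Helper585.Wk.FinS2

set_option autoImplicit false

/-! Manifold sums by inversion. -/

namespace Pool.Agent.Helper585.Wk

theorem frozen_sum {M N P : Type} [TopologicalSpace M] [TopologicalSpace N] [TopologicalSpace P]
    [T2Space M] [T2Space N] (h : IsManifoldSum 4 M N P) :
    ∃ a : EuclideanSpace ℝ (Fin 4) → M, ∃ b : EuclideanSpace ℝ (Fin 4) → N,
    ∃ u : ({a 0}ᶜ : Set M) → P, ∃ v : ({b 0}ᶜ : Set N) → P,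
      Topology.IsOpenEmbedding a ∧ Topology.IsOpenEmbedding b ∧
      Topology.IsOpenEmbedding u ∧ Topology.IsOpenEmbedding v ∧
      Set.range u ∪ Set.range v = Set.univ ∧
      ∀ (p : ({a 0}ᶜ : Set M)) (q : ({b 0}ᶜ : Set N)),
        (u p = v q ↔ ∃ x : EuclideanSpace ℝ (Fin 4), x ≠ 0 ∧ (p : M) = a x ∧
          (q : N) = b ((‖x‖ ^ 2)⁻¹ • x)) := by
  obtain ⟨a, b, φ, ⟨e⟩⟩ := h
  obtain ⟨A, B, hA, hB, h1, h2, h3, h4, h5⟩ := total_embeddings a b φ
  obtain ⟨u, v, hu, hv, huv, hpq⟩ := glue_maps a b φ A B hA hB h1 h2 h3 h4 h5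
  refine ⟨A, B, e.symm ∘ u, e.symm ∘ v, hA, hB, e.symm.isOpenEmbedding.comp hu,
    e.symm.isOpenEmbedding.comp hv, ?_, ?_⟩
  · rw [Set.range_comp, Set.range_comp, ← Set.image_union, huv, Set.image_univ]
    exact e.symm.surjective.range_eq
  · intro p q
    rw [← hpq p q]
    exact e.symm.injective.eq_iff

end Pool.Agent.Helper585.Wk
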