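import Pool.Agent.Helper585.Wk.Defs

set_option autoImplicit false
namespace Pool.Agent.Helper585.Wk
open Metric

/-- euclidean 4-space -/
abbrev TeE : Type := EuclideanSpace ℝ (Fin 4)

noncomputable def te_R (r : ℝ) (x : TeE) : TeE :=
  ((r - (r - 1) / max ‖x‖ 1) / max ‖x‖ 1) • x

noncomputable def te_R' (r : ℝ) (y : TeE) : TeE :=
  (((r - 1) / (r - max ‖y‖ 1)) / max ‖y‖ 1) • y

theorem te_R_le {r : ℝ} {x : TeE} (hx : ‖x‖ ≤ 1) : te_R r x = x := by
  unfold te_R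
  rw [max_eq_right hx, div_one, div_one, sub_sub_cancel, one_smul]

theorem te_R'_le {r : ℝ} (hr : 1 < r) {y : TeE} (hy : ‖y‖ ≤ 1) : te_R' r y = y := by
  unfold te_R'
  rw [max_eq_right hy, div_one, div_self (by linarith), one_smul]

theorem te_aux {r t : ℝ} (hr : 1 < r) (ht : 1 ≤ t) : 1 ≤ r - (r - 1) / t := by
  have h1 : (r - 1) / t ≤ r - 1 := div_le_self (by linarith) ht
  linarith

theorem te_R_norm {r : ℝ} (hr : 1 < r) {x : TeE} (hx : 1 ≤ ‖x‖) :
    ‖te_R r x‖ = r - (r - 1) / ‖x‖ := by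
  unfold te_R
  have h1 := te_aux hr hx
  have h2 : 0 < ‖x‖ := by linarith
  rw [max_eq_left hx, norm_smul, Real.norm_eq_abs,
    abs_of_nonneg (div_nonneg (by linarith) h2.le), div_mul_cancel₀ _ h2.ne']

theorem te_R_lt {r : ℝ} (hr : 1 < r) (x : TeE) : ‖te_R r x‖ < r := by
  rcases le_total ‖x‖ 1 with hx | hx
  · rw [te_R_le hx]
    linarith
  · rw [te_R_norm hr hx]
    have h2 : 0 < ‖x‖ := by linarith
    have : 0 < (r - 1) / ‖x‖ := div_pos (by linarith) h2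
    linarith

theorem te_left {r : ℝ} (hr : 1 < r) (x : TeE) : te_R' r (te_R r x) = x := by
  rcases le_total ‖x‖ 1 with hx | hx
  · rw [te_R_le hx, te_R'_le hr hx]
  · have h2 : 0 < ‖x‖ := by linarith
    have h3 := te_aux hr hx
    have h4 : 1 ≤ ‖te_R r x‖ := by
      rw [te_R_norm hr hx]
      exact h3
    unfold te_R'
    rw [max_eq_left h4, te_R_norm hr hx]
    unfold te_R
    rw [max_eq_left hx, smul_smul]
    have h5 : (r - 1) / (r - (r - (r - 1) / ‖x‖)) / (r - (r - 1) / ‖x‖) *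
        ((r - (r - 1) / ‖x‖) / ‖x‖) = 1 := by
      have h6 : r - (r - (r - 1) / ‖x‖) = (r - 1) / ‖x‖ := by ring
      rw [h6, div_div_cancel₀ (by linarith), div_mul_div_cancel₀ (by linarith)]
      exact div_self h2.ne'
    rw [h5, one_smul]

theorem te_right {r : ℝ} (hr : 1 < r) {y : TeE} (hy : ‖y‖ < r) : te_R r (te_R' r y) = y := by
  rcases le_total ‖y‖ 1 with hx | hx
  · rw [te_R'_le hr hx, te_R_le hx]
  · have h2 : 0 < ‖y‖ := by linarith
    have h3 : 0 < r - ‖y‖ := by linarith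
    have hn : ‖te_R' r y‖ = (r - 1) / (r - ‖y‖) := by
      unfold te_R'
      rw [max_eq_left hx, norm_smul, Real.norm_eq_abs,
        abs_of_nonneg (div_nonneg (div_nonneg (by linarith) h3.le) h2.le),
        div_mul_cancel₀ _ h2.ne']
    have h4 : 1 ≤ ‖te_R' r y‖ := by
      rw [hn, one_le_div h3]
      linarith
    unfold te_R
    rw [max_eq_left h4, hn]
    unfold te_R'
    rw [max_eq_left hx, smul_smul]
    have h5 : (r - (r - 1) / ((r - 1) / (r - ‖y‖))) / ((r - 1) / (r - ‖y‖)) *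
        ((r - 1) / (r - ‖y‖) / ‖y‖) = 1 := by
      have h7 : (r - 1) / (r - ‖y‖) ≠ 0 := (div_pos (by linarith) h3).ne'
      rw [div_div_cancel₀ (by linarith), sub_sub_cancel, div_mul_div_cancel₀ h7]
      exact div_self h2.ne'
    rw [h5, one_smul]

theorem te_R_cont (r : ℝ) : Continuous (te_R r) := by
  have h1 : Continuous (fun x : TeE => max ‖x‖ 1) := continuous_norm.max continuous_const
  have h2 : ∀ x : TeE, max ‖x‖ 1 ≠ 0 := fun x =>
    (lt_of_lt_of_le one_pos (le_max_right ‖x‖ 1)).ne'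
  unfold te_R
  exact ((continuous_const.sub (continuous_const.div h1 h2)).div h1 h2).smul continuous_id

theorem te_R'_cont {r : ℝ} (hr : 1 < r) : ContinuousOn (te_R' r) (ball 0 r) := by
  have h1 : Continuous (fun x : TeE => max ‖x‖ 1) := continuous_norm.max continuous_const
  have h2 : ∀ x : TeE, max ‖x‖ 1 ≠ 0 := fun x =>
    (lt_of_lt_of_le one_pos (le_max_right ‖x‖ 1)).ne'
  unfold te_R'
  refine ContinuousOn.smul (ContinuousOn.div (continuousOn_const.div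
    (continuousOn_const.sub h1.continuousOn) (fun x hx => ?_)) h1.continuousOn
    (fun x _ => h2 x)) continuousOn_id
  have h3 : ‖x‖ < r := mem_ball_zero_iff.1 hx
  have h4 : max ‖x‖ 1 < r := max_lt h3 hr
  exact (sub_pos.2 h4).ne'

/-- the radial contraction as a local homeomorphism -/
noncomputable def te_ph (r : ℝ) (hr : 1 < r) : OpenPartialHomeomorph TeE TeE where
  toFun := te_R r
  invFun := te_R' r
  source := Set.univ
  target := ball 0 r
  map_source' := fun x _ => mem_ball_zero_iff.2 (te_R_lt hr x)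
  map_target' := fun _ _ => Set.mem_univ _
  left_inv' := fun x _ => te_left hr x
  right_inv' := fun _ hy => te_right hr (mem_ball_zero_iff.1 hy)
  open_source := isOpen_univ
  open_target := isOpen_ball
  continuousOn_toFun := (te_R_cont r).continuousOn
  continuousOn_invFun := te_R'_cont hr

theorem te_exists_R (U : Set TeE) (hU : IsOpen U) (h : closedBall 0 1 ⊆ U) :
    ∃ R : TeE → TeE, Topology.IsOpenEmbedding R ∧ (∀ x, R x ∈ U) ∧
      ∀ x, ‖x‖ ≤ 1 → R x = x := by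
  obtain ⟨δ, hδ, hδU⟩ := (isCompact_closedBall (0 : TeE) 1).exists_thickening_subset_open hU h
  rw [thickening_closedBall hδ zero_le_one] at hδU
  have hr : 1 < δ + 1 := by linarith
  exact ⟨te_R (δ + 1), (te_ph (δ + 1) hr).isOpenEmbedding rfl,
    fun x => hδU (mem_ball_zero_iff.2 (te_R_lt hr x)), fun x hx => te_R_le hx⟩

theorem te_exists_A {M : Type} [TopologicalSpace M] (a : Cell 4 M) :
    ∃ A : TeE → M, Topology.IsOpenEmbedding A ∧
      ∀ (x : TeE) (h : ‖x‖ ≤ 1), A x = a.toFun ⟨x, a.ball_subset (mem_closedBall_zero_iff.2 h)⟩ := by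
  obtain ⟨R, hR1, hR2, hR3⟩ := te_exists_R a.U a.isOpen a.ball_subset
  have h1 : Topology.IsOpenEmbedding (fun x => (⟨R x, hR2 x⟩ : a.U)) :=
    Topology.IsOpenEmbedding.of_comp _ a.isOpen.isOpenEmbedding_subtypeVal hR1
  refine ⟨fun x => a.toFun ⟨R x, hR2 x⟩, a.emb.comp h1, fun x hx => ?_⟩
  exact congrArg a.toFun (Subtype.ext (hR3 x hx))

theorem te_sph {M : Type} [TopologicalSpace M] (a : Cell 4 M) :
    ∃ e : sphere (0 : TeE) 1 ≃ₜ a.bdry, ∀ s : sphere (0 : TeE) 1,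
      (e s : M) = a.toFun ⟨s.1, a.ball_subset (sphere_subset_closedBall s.2)⟩ := by
  have hsub : sphere (0 : TeE) 1 ⊆ a.U := sphere_subset_closedBall.trans a.ball_subset
  have hf : Topology.IsEmbedding (a.toFun ∘ Set.inclusion hsub) :=
    a.emb.isEmbedding.comp (Topology.IsEmbedding.inclusion hsub)
  have hr : Set.range (a.toFun ∘ Set.inclusion hsub) = a.bdry := by
    ext y
    constructor
    · rintro ⟨s, rfl⟩
      exact ⟨⟨s.1, hsub s.2⟩, s.2, rfl⟩
    · rintro ⟨w, hw, rfl⟩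
      exact ⟨⟨w.1, hw⟩, rfl⟩
  exact ⟨hf.toHomeomorph.trans (Homeomorph.setCongr hr), fun s => rfl⟩

theorem te_mem {x : TeE} (h : x ≠ 0) : ‖x‖⁻¹ • x ∈ sphere (0 : TeE) 1 := by
  rw [mem_sphere_zero_iff_norm, norm_smul, norm_inv, norm_norm,
    inv_mul_cancel₀ (norm_ne_zero_iff.2 h)]

open Classical in
/-- radial extension -/
noncomputable def te_rad (f : sphere (0 : TeE) 1 → sphere (0 : TeE) 1) (x : TeE) : TeE :=
  if h : x = 0 then 0 else ‖x‖ • (f ⟨‖x‖⁻¹ • x, te_mem h⟩ : TeE)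

theorem te_rad_zero (f : sphere (0 : TeE) 1 → sphere (0 : TeE) 1) : te_rad f 0 = 0 := by
  unfold te_rad
  rw [dif_pos rfl]

theorem te_rad_ne (f : sphere (0 : TeE) 1 → sphere (0 : TeE) 1) {x : TeE} (h : x ≠ 0) :
    te_rad f x = ‖x‖ • (f ⟨‖x‖⁻¹ • x, te_mem h⟩ : TeE) := by
  unfold te_rad
  rw [dif_neg h]

theorem te_rad_norm (f : sphere (0 : TeE) 1 → sphere (0 : TeE) 1) (x : TeE) :
    ‖te_rad f x‖ = ‖x‖ := by
  by_cases h : x = 0
  · rw [h, te_rad_zero]
  · rw [te_rad_ne f h, norm_smul, norm_norm,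
      mem_sphere_zero_iff_norm.1 (f ⟨‖x‖⁻¹ • x, te_mem h⟩).2, mul_one]

theorem te_rad_comp (f g : sphere (0 : TeE) 1 → sphere (0 : TeE) 1) (hfg : ∀ s, f (g s) = s)
    (x : TeE) : te_rad f (te_rad g x) = x := by
  by_cases h : x = 0
  · rw [h, te_rad_zero, te_rad_zero]
  · have hn := te_rad_norm g x
    have hx : ‖x‖ ≠ 0 := norm_ne_zero_iff.2 h
    have h2 : te_rad g x ≠ 0 := by
      rw [← norm_ne_zero_iff, hn]
      exact hx
    have h3 : (⟨‖te_rad g x‖⁻¹ • te_rad g x, te_mem h2⟩ : sphere (0 : TeE) 1) =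
        g ⟨‖x‖⁻¹ • x, te_mem h⟩ := by
      apply Subtype.ext
      show ‖te_rad g x‖⁻¹ • te_rad g x = _
      rw [hn, te_rad_ne g h, smul_smul, inv_mul_cancel₀ hx, one_smul]
    rw [te_rad_ne f h2, h3, hfg, hn, smul_smul, mul_inv_cancel₀ hx, one_smul]

theorem te_rad_sph (f : sphere (0 : TeE) 1 → sphere (0 : TeE) 1) (x : TeE) (hx : ‖x‖ = 1) :
    te_rad f x = f ⟨x, mem_sphere_zero_iff_norm.2 hx⟩ := by
  have h : x ≠ 0 := by
    rw [← norm_ne_zero_iff, hx]
    exact one_ne_zero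
  have h3 : (⟨‖x‖⁻¹ • x, te_mem h⟩ : sphere (0 : TeE) 1) =
      ⟨x, mem_sphere_zero_iff_norm.2 hx⟩ := by
    apply Subtype.ext
    show ‖x‖⁻¹ • x = x
    rw [hx, inv_one, one_smul]
  have h4 : te_rad f x = (1 : ℝ) • (f ⟨x, mem_sphere_zero_iff_norm.2 hx⟩ : TeE) := by
    rw [te_rad_ne f h, h3]
    exact congrArg (fun t : ℝ => t • (f ⟨x, mem_sphere_zero_iff_norm.2 hx⟩ : TeE)) hx
  rw [h4, one_smul]

theorem te_rad_cont (f : sphere (0 : TeE) 1 → sphere (0 : TeE) 1) (hf : Continuous f) :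
    Continuous (te_rad f) := by
  rw [continuous_iff_continuousAt]
  intro x
  by_cases h : x = 0
  · subst h
    rw [ContinuousAt, te_rad_zero, tendsto_zero_iff_norm_tendsto_zero]
    have h1 : (fun y => ‖te_rad f y‖) = fun y : TeE => ‖y‖ := funext (te_rad_norm f)
    rw [h1]
    exact tendsto_norm_zero
  · have hopen : IsOpen ({0}ᶜ : Set TeE) := isOpen_compl_singleton
    refine ContinuousOn.continuousAt (s := ({0}ᶜ : Set TeE)) ?_ (hopen.mem_nhds h)
    rw [continuousOn_iff_continuous_domRestrict]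
    have h2 : Set.domRestrict ({0}ᶜ : Set TeE) (te_rad f) = fun y : ({0}ᶜ : Set TeE) =>
        ‖(y : TeE)‖ • (f ⟨‖(y : TeE)‖⁻¹ • (y : TeE), te_mem y.2⟩ : TeE) := by
      funext y
      exact te_rad_ne f y.2
    rw [h2]
    have h3 : Continuous (fun y : ({0}ᶜ : Set TeE) => ‖(y : TeE)‖) :=
      continuous_norm.comp continuous_subtype_val
    have h4 : Continuous (fun y : ({0}ᶜ : Set TeE) =>
        (⟨‖(y : TeE)‖⁻¹ • (y : TeE), te_mem y.2⟩ : sphere (0 : TeE) 1)) := by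
      refine Continuous.subtype_mk ?_ _
      exact (h3.inv₀ (fun y => norm_ne_zero_iff.2 y.2)).smul continuous_subtype_val
    exact h3.smul (continuous_subtype_val.comp (hf.comp h4))

/-- radial extension of a homeomorphism of the sphere -/
noncomputable def te_Psi (ψ : sphere (0 : TeE) 1 ≃ₜ sphere (0 : TeE) 1) : TeE ≃ₜ TeE where
  toFun := te_rad ψ
  invFun := te_rad ψ.symm
  left_inv := te_rad_comp _ _ (fun s => ψ.symm_apply_apply s)
  right_inv := te_rad_comp _ _ (fun s => ψ.apply_symm_apply s)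
  continuous_toFun := te_rad_cont _ ψ.continuous
  continuous_invFun := te_rad_cont _ ψ.symm.continuous

theorem te_Psi_apply (ψ : sphere (0 : TeE) 1 ≃ₜ sphere (0 : TeE) 1) (x : TeE) :
    te_Psi ψ x = te_rad ψ x := rfl

theorem te_Psi_image (ψ : sphere (0 : TeE) 1 ≃ₜ sphere (0 : TeE) 1) (S : Set TeE)
    (hS : ∀ x y : TeE, ‖x‖ = ‖y‖ → x ∈ S → y ∈ S) : te_Psi ψ '' S = S := by
  ext y
  constructor
  · rintro ⟨x, hx, rfl⟩
    exact hS x _ (te_rad_norm ψ x).symm hx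
  · intro hy
    refine ⟨(te_Psi ψ).symm y, hS y _ (te_rad_norm ψ.symm y).symm hy,
      (te_Psi ψ).apply_symm_apply y⟩

theorem te_inter {M : Type} [TopologicalSpace M] (a : Cell 4 M) (A : TeE → M)
    (hA : ∀ (x : TeE) (h : ‖x‖ ≤ 1),
      A x = a.toFun ⟨x, a.ball_subset (mem_closedBall_zero_iff.2 h)⟩) :
    A '' ball 0 1 = a.inter ∧ A '' sphere 0 1 = a.bdry := by
  constructor
  · ext y
    constructor
    · rintro ⟨x, hx, rfl⟩
      have h1 : ‖x‖ ≤ 1 := (mem_ball_zero_iff.1 hx).le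
      exact ⟨⟨x, a.ball_subset (mem_closedBall_zero_iff.2 h1)⟩, hx, (hA x h1).symm⟩
    · rintro ⟨w, hw, rfl⟩
      have h1 : ‖w.1‖ ≤ 1 := (mem_ball_zero_iff.1 hw).le
      exact ⟨w.1, hw, hA w.1 h1⟩
  · ext y
    constructor
    · rintro ⟨x, hx, rfl⟩
      have h1 : ‖x‖ ≤ 1 := (mem_sphere_zero_iff_norm.1 hx).le
      exact ⟨⟨x, a.ball_subset (mem_closedBall_zero_iff.2 h1)⟩, hx, (hA x h1).symm⟩
    · rintro ⟨w, hw, rfl⟩
      have h1 : ‖w.1‖ ≤ 1 := (mem_sphere_zero_iff_norm.1 hw).le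
      exact ⟨w.1, hw, hA w.1 h1⟩

/-- TARGET: total parametrisations of two cells, compatible with a given homeomorphism of the
boundary spheres -/
theorem total_embeddings {M N : Type} [TopologicalSpace M] [TopologicalSpace N]
    (a : Cell 4 M) (b : Cell 4 N) (φ : a.bdry ≃ₜ b.bdry) :
    ∃ (A : EuclideanSpace ℝ (Fin 4) → M) (B : EuclideanSpace ℝ (Fin 4) → N),
      Topology.IsOpenEmbedding A ∧ Topology.IsOpenEmbedding B ∧
      A '' ball 0 1 = a.inter ∧ A '' sphere 0 1 = a.bdry ∧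
      B '' ball 0 1 = b.inter ∧ B '' sphere 0 1 = b.bdry ∧
      ∀ x : EuclideanSpace ℝ (Fin 4), ‖x‖ = 1 → ∀ h : A x ∈ a.bdry, (φ ⟨A x, h⟩).1 = B x := by
  obtain ⟨A, hA1, hA2⟩ := te_exists_A a
  obtain ⟨B, hB1, hB2⟩ := te_exists_A b
  obtain ⟨ea, hea⟩ := te_sph a
  obtain ⟨eb, heb⟩ := te_sph b
  let ψ : sphere (0 : TeE) 1 ≃ₜ sphere (0 : TeE) 1 := ea.trans (φ.trans eb.symm)
  have hψ : ∀ s, eb (ψ s) = φ (ea s) := fun s => eb.apply_symm_apply _
  have hiA := te_inter a A hA2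
  have hiB := te_inter b B hB2
  refine ⟨A, B ∘ te_Psi ψ, hA1, hB1.comp (te_Psi ψ).isOpenEmbedding, hiA.1, hiA.2, ?_, ?_, ?_⟩
  · rw [Set.image_comp, te_Psi_image ψ, hiB.1]
    intro x y hxy hx
    rw [mem_ball_zero_iff] at hx ⊢
    rwa [← hxy]
  · rw [Set.image_comp, te_Psi_image ψ, hiB.2]
    intro x y hxy hx
    rw [mem_sphere_zero_iff_norm] at hx ⊢
    rwa [← hxy]
  · intro x hx h
    have h1 : te_Psi ψ x = ψ ⟨x, mem_sphere_zero_iff_norm.2 hx⟩ := te_rad_sph ψ x hx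
    have h2 : ‖te_Psi ψ x‖ ≤ 1 := by
      rw [te_Psi_apply, te_rad_norm, hx]
    have h3 : (⟨A x, h⟩ : a.bdry) = ea ⟨x, mem_sphere_zero_iff_norm.2 hx⟩ := by
      apply Subtype.ext
      rw [hea]
      exact hA2 x hx.le
    show (φ ⟨A x, h⟩).1 = B (te_Psi ψ x)
    rw [h3, ← hψ, heb, hB2 _ h2]
    exact congrArg b.toFun (Subtype.ext h1.symm)

end Pool.Agent.Helper585.Wk
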