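import Pool.Agent.Helper585.Wk.Lst

set_option autoImplicit false
namespace Pool.Agent.Helper585.Wk


theorem c10_supp {n : ℕ} (x : Fin n → ℝ) : ∃ σ : Finset (Fin n), ∀ v, v ∈ σ ↔ x v ≠ 0 := by
  classical
  exact ⟨Finset.univ.filter (fun v => x v ≠ 0), fun v => by simp⟩

theorem c10_mem {n : ℕ} (K : Cx n) (x : Fin n → ℝ) (σ : Finset (Fin n))
    (hσ : ∀ v, v ∈ σ ↔ x v ≠ 0) :
    x ∈ K.space ↔ (∀ v, 0 ≤ x v) ∧ ∑ v, x v = 1 ∧ σ ∈ K.faces := by
  constructor
  · rintro ⟨h1, h2, ρ, hρ, h3⟩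
    refine ⟨h1, h2, K.down ρ hρ σ ?_⟩
    intro v hv
    by_contra hc
    exact (hσ v).mp hv (h3 v hc)
  · rintro ⟨h1, h2, h3⟩
    refine ⟨h1, h2, σ, h3, ?_⟩
    intro v hv
    by_contra hc
    exact hv ((hσ v).mpr hc)

theorem c10_compact {n : ℕ} (K : Cx n) : IsCompact K.space := by
  have h1 : IsClosed K.space := by
    have h0 : K.space = (⋂ v, {x | 0 ≤ x v}) ∩ ({x | ∑ v, x v = 1} ∩
        ⋃ σ ∈ K.faces, ⋂ v, ⋂ (_ : v ∉ σ), {x | x v = 0}) := by
      ext x
      simp [Cx.space]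
    rw [h0]
    apply IsClosed.inter
    · exact isClosed_iInter (fun v => isClosed_le continuous_const (continuous_apply v))
    · apply IsClosed.inter
      · exact isClosed_eq (by fun_prop) continuous_const
      · apply Set.Finite.isClosed_biUnion K.faces.finite_toSet
        intro σ _
        exact isClosed_iInter (fun v => isClosed_iInter (fun _ =>
          isClosed_eq (continuous_apply v) continuous_const))
  refine (isCompact_Icc (a := (0 : Fin n → ℝ)) (b := 1)).of_isClosed_subset h1 ?_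
  rintro x ⟨h2, h3, _⟩
  refine ⟨fun v => h2 v, fun v => ?_⟩
  have h4 := Finset.single_le_sum (f := x) (fun i _ => h2 i) (Finset.mem_univ v)
  rw [h3] at h4
  exact h4

theorem c10_open {n : ℕ} (K : Cx n) (τ : Finset (Fin n)) :
    IsOpen {x : K.space | ∀ v ∈ τ, 0 < x.1 v} := by
  have h0 : {x : K.space | ∀ v ∈ τ, 0 < x.1 v} = ⋂ v ∈ τ, {x : K.space | 0 < x.1 v} := by
    ext x
    simp
  rw [h0]
  exact isOpen_biInter_finset (fun v _ =>
    isOpen_lt continuous_const ((continuous_apply v).comp continuous_subtype_val))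

theorem c10_in {n : ℕ} (K L : Cx n) (τ : Finset (Fin n)) (x : K.space)
    (hL : ∀ σ ∈ K.faces, σ ≠ τ → σ ∈ L.faces) (hx : ¬ ∀ v ∈ τ, 0 < x.1 v) : x.1 ∈ L.space := by
  obtain ⟨σ, hσ⟩ := c10_supp x.1
  have h3 := (c10_mem K x.1 σ hσ).mp x.2
  refine (c10_mem L x.1 σ hσ).mpr ⟨h3.1, h3.2.1, hL σ h3.2.2 ?_⟩
  intro he
  apply hx
  intro v hv
  exact lt_of_le_of_ne (h3.1 v) ((hσ v).mp (by rw [he]; exact hv)).symm

theorem c10_surj {n : ℕ} (K L : Cx n) (τ : Finset (Fin n)) (x : Fin n → ℝ) (hx : x ∈ L.space)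
    (σ : Finset (Fin n)) (hσ : ∀ v, v ∈ σ ↔ x v ≠ 0) (hK : σ ∈ K.faces) (hne : σ ≠ τ)
    (m : ∀ σ ∈ K.faces, τ ⊆ σ → σ = τ) : x ∈ K.space ∧ ¬ ∀ v ∈ τ, 0 < x v := by
  have h3 := (c10_mem L x σ hσ).mp hx
  refine ⟨(c10_mem K x σ hσ).mpr ⟨h3.1, h3.2.1, hK⟩, ?_⟩
  intro h
  apply hne
  apply m σ hK
  intro v hv
  exact (hσ v).mpr (h v hv).ne'

/-- TARGET 1: the union of two complexes along a common facet, without this facet, is a manifold
sum, if the facet is a tame cell in both -/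
theorem sum_cx {n : ℕ} (K1 K2 L : Cx n) (τ : Finset (Fin n)) (h5 : τ.card = 5)
    (h1 : τ ∈ K1.faces) (h2 : τ ∈ K2.faces)
    (m1 : ∀ σ ∈ K1.faces, τ ⊆ σ → σ = τ) (m2 : ∀ σ ∈ K2.faces, τ ⊆ σ → σ = τ)
    (hL : ∀ σ, σ ∈ L.faces ↔ (σ ∈ K1.faces ∨ σ ∈ K2.faces) ∧ σ ≠ τ)
    (h12 : ∀ σ ∈ K1.faces, σ ∈ K2.faces → σ ⊆ τ)
    (c1 : Cell 4 K1.space) (i1 : c1.inter = {x | ∀ v ∈ τ, 0 < x.1 v})
    (b1 : c1.bdry = {x | (∀ v, v ∉ τ → x.1 v = 0) ∧ ∃ v ∈ τ, x.1 v = 0})
    (c2 : Cell 4 K2.space) (i2 : c2.inter = {x | ∀ v ∈ τ, 0 < x.1 v})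
    (b2 : c2.bdry = {x | (∀ v, v ∉ τ → x.1 v = 0) ∧ ∃ v ∈ τ, x.1 v = 0}) :
    IsManifoldSum 4 K1.space K2.space L.space := by
  classical
  have hb12 : ∀ x : K1.space, x ∈ c1.bdry → x.1 ∈ K2.space := by
    intro x hx
    rw [b1] at hx
    exact ⟨x.2.1, x.2.2.1, τ, h2, hx.1⟩
  have hb21 : ∀ x : K2.space, x ∈ c2.bdry → x.1 ∈ K1.space := by
    intro x hx
    rw [b2] at hx
    exact ⟨x.2.1, x.2.2.1, τ, h1, hx.1⟩
  have hm12 : ∀ (x : K1.space) (hx : x ∈ c1.bdry), (⟨x.1, hb12 x hx⟩ : K2.space) ∈ c2.bdry := by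
    intro x hx
    have hx' := hx
    rw [b1] at hx'
    rw [b2]
    exact hx'
  have hm21 : ∀ (x : K2.space) (hx : x ∈ c2.bdry), (⟨x.1, hb21 x hx⟩ : K1.space) ∈ c1.bdry := by
    intro x hx
    have hx' := hx
    rw [b2] at hx'
    rw [b1]
    exact hx'
  obtain ⟨φ, hφ⟩ : ∃ φ : c1.bdry ≃ₜ c2.bdry, ∀ x, (φ x).1.1 = x.1.1 := by
    refine ⟨{ toFun := fun x => ⟨⟨x.1.1, hb12 x.1 x.2⟩, hm12 x.1 x.2⟩
              invFun := fun x => ⟨⟨x.1.1, hb21 x.1 x.2⟩, hm21 x.1 x.2⟩
              left_inv := fun x => rfl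
              right_inv := fun x => rfl
              continuous_toFun := ?_
              continuous_invFun := ?_ }, fun x => rfl⟩
    · exact ((continuous_subtype_val.comp continuous_subtype_val).subtype_mk _).subtype_mk _
    · exact ((continuous_subtype_val.comp continuous_subtype_val).subtype_mk _).subtype_mk _
  refine ⟨c1, c2, φ, ?_⟩
  have hc1 : CompactSpace K1.space := isCompact_iff_compactSpace.mp (c10_compact K1)
  have hc2 : CompactSpace K2.space := isCompact_iff_compactSpace.mp (c10_compact K2)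
  have ho1 : IsOpen c1.inter := by
    rw [i1]
    exact c10_open K1 τ
  have ho2 : IsOpen c2.inter := by
    rw [i2]
    exact c10_open K2 τ
  have hd1 : CompactSpace ((c1.inter)ᶜ : Set K1.space) :=
    isCompact_iff_compactSpace.mp (ho1.isClosed_compl.isCompact)
  have hd2 : CompactSpace ((c2.inter)ᶜ : Set K2.space) :=
    isCompact_iff_compactSpace.mp (ho2.isClosed_compl.isCompact)
  have hni1 : ∀ x : K1.space, x ∉ c1.inter → ¬ ∀ v ∈ τ, 0 < x.1 v := by
    intro x hx h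
    apply hx
    rw [i1]
    exact h
  have hni2 : ∀ x : K2.space, x ∉ c2.inter → ¬ ∀ v ∈ τ, 0 < x.1 v := by
    intro x hx h
    apply hx
    rw [i2]
    exact h
  have hin1 : ∀ x : K1.space, x ∉ c1.inter → x.1 ∈ L.space := fun x hx =>
    c10_in K1 L τ x (fun σ h hn => (hL σ).mpr ⟨Or.inl h, hn⟩) (hni1 x hx)
  have hin2 : ∀ x : K2.space, x ∉ c2.inter → x.1 ∈ L.space := fun x hx =>
    c10_in K2 L τ x (fun σ h hn => (hL σ).mpr ⟨Or.inr h, hn⟩) (hni2 x hx)
  obtain ⟨F, hFl, hFr⟩ : ∃ F : ((c1.inter)ᶜ : Set K1.space) ⊕ ((c2.inter)ᶜ : Set K2.space) →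
      L.space, (∀ x, (F (Sum.inl x)).1 = x.1.1) ∧ (∀ x, (F (Sum.inr x)).1 = x.1.1) :=
    ⟨Sum.elim (fun x => ⟨x.1.1, hin1 x.1 x.2⟩) (fun x => ⟨x.1.1, hin2 x.1 x.2⟩),
      fun _ => rfl, fun _ => rfl⟩
  have hF : Continuous F := by
    apply continuous_induced_rng.mpr
    rw [continuous_sum_dom]
    constructor
    · have : (Subtype.val ∘ F) ∘ Sum.inl = fun x : ((c1.inter)ᶜ : Set K1.space) => x.1.1 := by
        funext x
        exact hFl x
      rw [this]
      exact continuous_subtype_val.comp continuous_subtype_val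
    · have : (Subtype.val ∘ F) ∘ Sum.inr = fun x : ((c2.inter)ᶜ : Set K2.space) => x.1.1 := by
        funext x
        exact hFr x
      rw [this]
      exact continuous_subtype_val.comp continuous_subtype_val
  have hr : ∀ a b, GlueRel c1 c2 φ a b → F a = F b := by
    rintro _ _ ⟨x, hx, hy⟩
    apply Subtype.ext
    rw [hFl, hFr]
    exact (hφ x).symm
  obtain ⟨Q, hQm⟩ : ∃ Q : Quot (GlueRel c1 c2 φ) → L.space, Q = Quot.lift F hr := ⟨_, rfl⟩
  have hQ : Continuous Q := by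
    rw [hQm]
    exact continuous_quot_lift hr hF
  have hQF : ∀ a, Q (Quot.mk _ a) = F a := by
    intro a
    rw [hQm]
  have key : ∀ (x : ((c1.inter)ᶜ : Set K1.space)) (y : ((c2.inter)ᶜ : Set K2.space)),
      x.1.1 = y.1.1 →
      Quot.mk (GlueRel c1 c2 φ) (Sum.inl x) = Quot.mk (GlueRel c1 c2 φ) (Sum.inr y) := by
    intro x y hxy
    obtain ⟨σ, hσ⟩ := c10_supp x.1.1
    have h3 := (c10_mem K1 x.1.1 σ hσ).mp x.1.2
    have h4 := (c10_mem K2 x.1.1 σ hσ).mp (by rw [hxy]; exact y.1.2)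
    have h5 := h12 σ h3.2.2 h4.2.2
    have hxi : x.1 ∉ c1.inter := x.2
    have hb : x.1 ∈ c1.bdry := by
      rw [b1]
      refine ⟨fun v hv => ?_, ?_⟩
      · by_contra hc
        exact hv (h5 ((hσ v).mpr hc))
      · by_contra hc
        push Not at hc
        apply hni1 _ hxi
        intro v hv
        exact lt_of_le_of_ne (h3.1 v) (hc v hv).symm
    have hy : (φ ⟨x.1, hb⟩).1 = y.1 := Subtype.ext ((hφ _).trans hxy)
    have hy2 : (φ ⟨x.1, hb⟩).1 ∉ c2.inter := by
      rw [hy]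
      exact y.2
    have h6 := Quot.sound (GlueRel.mk (a := c1) (b := c2) (φ := φ) ⟨x.1, hb⟩ hxi hy2)
    have e2 : (⟨(φ ⟨x.1, hb⟩).1, hy2⟩ : ((c2.inter)ᶜ : Set K2.space)) = y := Subtype.ext hy
    rw [e2] at h6
    exact h6
  have hinj : Function.Injective Q := by
    intro a b hab
    obtain ⟨a, rfl⟩ := Quot.exists_rep a
    obtain ⟨b, rfl⟩ := Quot.exists_rep b
    rw [hQF, hQF] at hab
    have hab' := congrArg Subtype.val hab
    rcases a with x | x <;> rcases b with y | y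
    · rw [hFl, hFl] at hab'
      have : x = y := Subtype.ext (Subtype.ext hab')
      rw [this]
    · rw [hFl, hFr] at hab'
      exact key x y hab'
    · rw [hFl, hFr] at hab'
      exact (key y x hab'.symm).symm
    · rw [hFr, hFr] at hab'
      have : x = y := Subtype.ext (Subtype.ext hab')
      rw [this]
  have hsurj : Function.Surjective Q := by
    intro z
    obtain ⟨σ, hσ⟩ := c10_supp z.1
    have h3 := (c10_mem L z.1 σ hσ).mp z.2
    obtain ⟨h4, hne⟩ := (hL σ).mp h3.2.2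
    rcases h4 with h4 | h4
    · obtain ⟨h5, h6⟩ := c10_surj K1 L τ z.1 z.2 σ hσ h4 hne m1
      have h7 : (⟨z.1, h5⟩ : K1.space) ∈ (c1.inter)ᶜ := by
        intro h
        rw [i1] at h
        exact h6 h
      refine ⟨Quot.mk _ (Sum.inl ⟨⟨z.1, h5⟩, h7⟩), ?_⟩
      rw [hQF]
      apply Subtype.ext
      rw [hFl]
    · obtain ⟨h5, h6⟩ := c10_surj K2 L τ z.1 z.2 σ hσ h4 hne m2
      have h7 : (⟨z.1, h5⟩ : K2.space) ∈ (c2.inter)ᶜ := by
        intro h
        rw [i2] at h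
        exact h6 h
      refine ⟨Quot.mk _ (Sum.inr ⟨⟨z.1, h5⟩, h7⟩), ?_⟩
      rw [hQF]
      apply Subtype.ext
      rw [hFr]
  exact ⟨(Continuous.homeoOfEquivCompactToT2
    (f := Equiv.ofBijective Q ⟨hinj, hsurj⟩) hQ).symm⟩

theorem c10_mem_dec (n m : ℕ) (i : Fin n) : i ∈ dec n m ↔ m.testBit i.1 = true := by
  unfold dec
  rw [Finset.mem_filter]
  simp

theorem c10_card_dec (n m : ℕ) : (dec n m).card = (bits n m).length := by
  have h1 : (dec n m).card = ((Finset.range n).filter (fun i => m.testBit i = true)).card := by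
    apply Finset.card_bij (fun (i : Fin n) _ => i.1)
    · intro i hi
      rw [c10_mem_dec] at hi
      rw [Finset.mem_filter, Finset.mem_range]
      exact ⟨i.2, hi⟩
    · intro i _ j _ h
      exact Fin.ext h
    · intro i hi
      rw [Finset.mem_filter, Finset.mem_range] at hi
      exact ⟨⟨i, hi.1⟩, (c10_mem_dec n m _).mpr hi.2, rfl⟩
  rw [h1]
  have h2 : ((Finset.range n).filter (fun i => m.testBit i = true)).card
      = ((List.range n).filter (fun i => decide (m.testBit i = true))).length := rfl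
  rw [h2]
  unfold bits
  congr 1
  apply List.filter_congr
  intro i _
  simp

theorem c10_subm (a b : ℕ) (h : subm a b = true) (i : ℕ) (hi : a.testBit i = true) :
    b.testBit i = true := by
  unfold subm at h
  have h1 : a &&& b = a := by simpa using h
  rw [← h1, Nat.testBit_and, Bool.and_eq_true] at hi
  exact hi.2

theorem c10_dec_sub (n a b : ℕ) (h : subm a b = true) : dec n a ⊆ dec n b := by
  intro i hi
  rw [c10_mem_dec] at hi ⊢
  exact c10_subm a b h _ hi

theorem c10_inj (n F G : ℕ) (hF : F.log2 < n) (hG : G.log2 < n) (h : dec n F = dec n G) :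
    F = G := by
  have h1 : ∀ H : ℕ, H.log2 < n → ∀ i, n ≤ i → H.testBit i = false := by
    intro H hH i hi
    apply Nat.testBit_lt_two_pow
    exact lt_of_lt_of_le Nat.lt_log2_self (Nat.pow_le_pow_right (by norm_num) (by omega))
  apply Nat.eq_of_testBit_eq
  intro i
  by_cases hi : i < n
  · have h2 := c10_mem_dec n F ⟨i, hi⟩
    have h3 := c10_mem_dec n G ⟨i, hi⟩
    rw [h] at h2
    have h4 : F.testBit i = true ↔ G.testBit i = true := h2.symm.trans h3
    exact Bool.eq_iff_iff.mpr h4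
  · rw [h1 F hF i (by omega), h1 G hG i (by omega)]

theorem c10_mem_ofL (n : ℕ) (l : List ℕ) (σ : Finset (Fin n)) :
    σ ∈ (ofL n l).faces ↔ σ = ∅ ∨ ∃ m ∈ l, σ ⊆ dec n m := by
  unfold ofL
  rw [Finset.mem_filter]
  simp

/-- TARGET 2 -/
theorem checkSum_spec (n : ℕ) (lA lB : List ℕ) (t : ℕ) (lL : List ℕ)
    (h : checkSum n lA lB t lL = true) :
    (dec n t).card = 5 ∧ dec n t ∈ (ofL n lA).faces ∧ dec n t ∈ (ofL n lB).faces ∧
    (∀ σ ∈ (ofL n lA).faces, dec n t ⊆ σ → σ = dec n t) ∧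
    (∀ σ ∈ (ofL n lB).faces, dec n t ⊆ σ → σ = dec n t) ∧
    (∀ σ, σ ∈ (ofL n lL).faces ↔
      (σ ∈ (ofL n lA).faces ∨ σ ∈ (ofL n lB).faces) ∧ σ ≠ dec n t) ∧
    (∀ σ ∈ (ofL n lA).faces, σ ∈ (ofL n lB).faces → σ ⊆ dec n t) := by
  unfold checkSum at h
  simp only [Bool.and_eq_true] at h
  obtain ⟨⟨⟨⟨⟨hA, hB⟩, hall⟩, hint⟩, hsame⟩, hrem⟩ := h
  have hA' : t ∈ lA := by simpa using hA
  have hB' : t ∈ lB := by simpa using hB
  have hall' : ∀ F, F ∈ lA ∨ F ∈ lB → (dec n F).card = 5 ∧ F.log2 < n := by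
    intro F hF
    rw [List.all_eq_true] at hall
    have h1 := hall F (List.mem_append.mpr hF)
    simp only [Bool.and_eq_true, beq_iff_eq, decide_eq_true_eq] at h1
    rw [c10_card_dec]
    exact h1
  have hint' : ∀ F ∈ lA, ∀ G ∈ lB, subm (F &&& G) t = true := by
    intro F hF G hG
    rw [List.all_eq_true] at hint
    have h1 := hint F hF
    rw [List.all_eq_true] at h1
    exact h1 G hG
  have hsame' : ∀ F, F ∈ lL ↔ (F ∈ lA ∨ F ∈ lB) ∧ F ≠ t := by
    intro F
    unfold sameL at hsame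
    rw [Bool.and_eq_true, List.all_eq_true, List.all_eq_true] at hsame
    have e1 : ∀ F, F ∈ (lA.filter (fun F => F != t) ++ lB.filter (fun F => F != t)) ↔
        (F ∈ lA ∨ F ∈ lB) ∧ F ≠ t := by
      intro F
      simp only [List.mem_append, List.mem_filter, bne_iff_ne]
      tauto
    rw [← e1]
    constructor
    · intro hF
      simpa using hsame.1 F hF
    · intro hF
      simpa using hsame.2 F hF
  have hrem' : ∀ i, i < n → t.testBit i = true → ∃ F ∈ lL, subm (t ^^^ (1 <<< i)) F = true := by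
    intro i hi ht
    rw [List.all_eq_true] at hrem
    have h1 := hrem (t ^^^ (1 <<< i)) (by
      unfold rems
      rw [List.mem_map]
      exact ⟨i, List.mem_filter.mpr ⟨List.mem_range.mpr hi, ht⟩, rfl⟩)
    rw [List.any_eq_true] at h1
    exact h1
  have ht5 := (hall' t (Or.inl hA')).1
  have htn := (hall' t (Or.inl hA')).2
  have hmax : ∀ l : List ℕ, (∀ F ∈ l, (dec n F).card = 5) →
      ∀ σ ∈ (ofL n l).faces, dec n t ⊆ σ → σ = dec n t := by
    intro l hl σ hσ hts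
    rw [c10_mem_ofL] at hσ
    rcases hσ with hσ | ⟨m, hm, hσ⟩
    · rw [hσ] at hts
      have := Finset.card_le_card hts
      rw [ht5] at this
      simp at this
    · have h1 := Finset.card_le_card hσ
      rw [hl m hm] at h1
      exact (Finset.eq_of_subset_of_card_le hts (by omega)).symm
  have hne0 : (∅ : Finset (Fin n)) ≠ dec n t := by
    intro h
    rw [← h] at ht5
    simp at ht5
  refine ⟨ht5, ?_, ?_, ?_, ?_, ?_, ?_⟩
  · exact (c10_mem_ofL _ _ _).mpr (Or.inr ⟨t, hA', subset_rfl⟩)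
  · exact (c10_mem_ofL _ _ _).mpr (Or.inr ⟨t, hB', subset_rfl⟩)
  · exact hmax lA (fun F hF => (hall' F (Or.inl hF)).1)
  · exact hmax lB (fun F hF => (hall' F (Or.inr hF)).1)
  · intro σ
    rw [c10_mem_ofL, c10_mem_ofL, c10_mem_ofL]
    constructor
    · rintro (h | ⟨m, hm, h⟩)
      · exact ⟨Or.inl (Or.inl h), by rw [h]; exact hne0⟩
      · obtain ⟨hm1, hm2⟩ := (hsame' m).mp hm
        refine ⟨?_, ?_⟩
        · rcases hm1 with hm1 | hm1
          · exact Or.inl (Or.inr ⟨m, hm1, h⟩)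
          · exact Or.inr (Or.inr ⟨m, hm1, h⟩)
        · intro he
          rw [he] at h
          have h2 := hall' m hm1
          have h3 := Finset.eq_of_subset_of_card_le h (by omega)
          exact hm2 (c10_inj n m t h2.2 htn h3.symm)
    · rintro ⟨h, hne⟩
      have hkey : σ = ∅ ∨ ∃ m, (m ∈ lA ∨ m ∈ lB) ∧ σ ⊆ dec n m := by
        rcases h with (h | ⟨m, hm, h⟩) | (h | ⟨m, hm, h⟩)
        · exact Or.inl h
        · exact Or.inr ⟨m, Or.inl hm, h⟩
        · exact Or.inl h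
        · exact Or.inr ⟨m, Or.inr hm, h⟩
      rcases hkey with h0 | ⟨m, hm, hσm⟩
      · exact Or.inl h0
      · right
        by_cases hmt : m = t
        · rw [hmt] at hσm
          have h1 : ∃ i ∈ dec n t, i ∉ σ := by
            by_contra hc
            push Not at hc
            exact hne (Finset.Subset.antisymm hσm hc)
          obtain ⟨i, hi1, hi2⟩ := h1
          obtain ⟨F, hF, hsub⟩ := hrem' i.1 i.2 ((c10_mem_dec n t i).mp hi1)
          refine ⟨F, hF, ?_⟩
          intro j hj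
          apply c10_dec_sub n _ _ hsub
          rw [c10_mem_dec]
          have h2 := (c10_mem_dec n t j).mp (hσm hj)
          have h3 : i.1 ≠ j.1 := by
            intro he
            apply hi2
            rw [Fin.ext he]
            exact hj
          rw [Nat.testBit_xor, h2, Nat.one_shiftLeft, Nat.testBit_two_pow]
          simp [h3]
        · exact ⟨m, (hsame' m).mpr ⟨hm, hmt⟩, hσm⟩
  · intro σ hσ1 hσ2
    rw [c10_mem_ofL] at hσ1 hσ2
    rcases hσ1 with h | ⟨F, hF, h⟩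
    · rw [h]
      exact Finset.empty_subset _
    · rcases hσ2 with h' | ⟨G, hG, h'⟩
      · rw [h']
        exact Finset.empty_subset _
      · intro i hi
        apply c10_dec_sub n _ _ (hint' F hF G hG)
        rw [c10_mem_dec, Nat.testBit_and, Bool.and_eq_true]
        exact ⟨(c10_mem_dec _ _ _).mp (h hi), (c10_mem_dec _ _ _).mp (h' hi)⟩

end Pool.Agent.Helper585.Wk
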