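import Pool.Agent.Helper585.Wk.Defs

set_option autoImplicit false

/-! Complexes given by lists of bit masks of facets, bistellar flips, links. -/

namespace Pool.Agent.Helper585.Wk

/-- the set of positions of the bits of `m` -/
def dec (n m : ℕ) : Finset (Fin n) := Finset.univ.filter (fun i => m.testBit i.1)

/-- the complex generated by the sets `dec n m`, `m ∈ l` -/
def ofL (n : ℕ) (l : List ℕ) : Cx n where
  faces := Finset.univ.filter (fun σ => σ = ∅ ∨ ∃ m ∈ l, σ ⊆ dec n m)
  empty_mem := by simp
  down := by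
    intro σ hσ τ hτ
    rw [Finset.mem_filter] at hσ ⊢
    refine ⟨Finset.mem_univ _, ?_⟩
    rcases hσ.2 with h | ⟨m, hm, h⟩
    · left
      rw [h] at hτ
      exact Finset.subset_empty.1 hτ
    · exact Or.inr ⟨m, hm, hτ.trans h⟩

/-- bit mask inclusion -/
def subm (a b : ℕ) : Bool := (a &&& b) == a

/-- the masks of `U` without one element of `B` -/
def rems (n U B : ℕ) : List ℕ :=
  ((List.range n).filter (fun i => B.testBit i)).map (fun i => U ^^^ (1 <<< i))

/-- bistellar flip on lists of facets: the facets containing `A` must be the `(A ∪ B) \ b`, `b ∈ B`;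
no facet contains `B`; they are replaced with the `(A ∪ B) \ a`, `a ∈ A` -/
def flipL (n : ℕ) (p : ℕ × ℕ) (l : List ℕ) : Option (List ℕ) :=
  bif (p.1 &&& p.2) == 0 && p.1 != 0 && p.2 != 0 && (p.1 ||| p.2).log2 < n &&
    (rems n (p.1 ||| p.2) p.2).all (fun F => l.contains F) &&
    (l.filter (fun F => subm p.1 F)).all (fun F => (rems n (p.1 ||| p.2) p.2).contains F) &&
    l.all (fun F => !(subm p.2 F))
  then some (rems n (p.1 ||| p.2) p.1 ++ l.filter (fun F => !(subm p.1 F)))
  else none

/-- a sequence of bistellar flips -/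
def runL (n : ℕ) : List (ℕ × ℕ) → List ℕ → Option (List ℕ)
  | [], l => some l
  | p :: ps, l => match flipL n p l with
    | some l' => runL n ps l'
    | none => none

/-- the list of the facets of the link of the vertex `v` -/
def linkL (v : ℕ) (l : List ℕ) : List ℕ :=
  (l.filter (fun F => F.testBit v)).map (fun F => F ^^^ (1 <<< v))

/-- same members -/
def sameL (l l' : List ℕ) : Bool := l.all (fun F => l'.contains F) && l'.all (fun F => l.contains F)

/-- the link of a vertex -/
def Cx.link {n : ℕ} (K : Cx n) (v : Fin n) : Cx n where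
  faces := Finset.univ.filter (fun σ => σ = ∅ ∨ (v ∉ σ ∧ insert v σ ∈ K.faces))
  empty_mem := by simp
  down := by
    intro σ hσ τ hτ
    rw [Finset.mem_filter] at hσ ⊢
    refine ⟨Finset.mem_univ _, ?_⟩
    rcases hσ.2 with h | ⟨h1, h2⟩
    · left
      rw [h] at hτ
      exact Finset.subset_empty.1 hτ
    · exact Or.inr ⟨fun h => h1 (hτ h), K.down _ h2 _ (Finset.insert_subset_insert _ hτ)⟩

/-- `K'` is obtained from `K` by a bistellar flip, replacing `A * ∂B` with `∂A * B`. -/
structure FlipData {n : ℕ} (K K' : Cx n) (A B : Finset (Fin n)) : Prop where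
  disj : Disjoint A B
  neA : A.Nonempty
  neB : B.Nonempty
  inK : ∀ σ ∈ K.faces, A ⊆ σ → σ ⊆ A ∪ B
  inK' : ∀ σ ∈ K'.faces, B ⊆ σ → σ ⊆ A ∪ B
  noB : B ∉ K.faces
  noA : A ∉ K'.faces
  starK : ∀ σ, σ ⊆ A ∪ B → ¬ B ⊆ σ → σ ∈ K.faces
  starK' : ∀ σ, σ ⊆ A ∪ B → ¬ A ⊆ σ → σ ∈ K'.faces
  same : ∀ σ, ¬ A ⊆ σ → ¬ B ⊆ σ → (σ ∈ K.faces ↔ σ ∈ K'.faces)

/-- boundary of a simplex -/
def bdS {n : ℕ} (s : Finset (Fin n)) : Cx n where
  faces := Finset.univ.filter (fun σ => σ = ∅ ∨ σ ⊂ s)
  empty_mem := by simp
  down := by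
    intro σ hσ τ hτ
    rw [Finset.mem_filter] at hσ ⊢
    refine ⟨Finset.mem_univ _, ?_⟩
    rcases hσ.2 with h | h
    · left
      rw [h] at hτ
      exact Finset.subset_empty.1 hτ
    · exact Or.inr (lt_of_le_of_lt hτ h)

/-- positions of the bits of `m` below `n` -/
def bits (n m : ℕ) : List ℕ := (List.range n).filter (fun i => m.testBit i)

/-- masks of the subsets with `k` elements of a list of positions -/
def subK : ℕ → List ℕ → List ℕ
  | 0, _ => [0]
  | _ + 1, [] => []
  | k + 1, i :: is => (subK k is).map (fun m => m ||| (1 <<< i)) ++ subK (k + 1) is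

/-- remove duplicates -/
def ddup (l : List ℕ) : List ℕ := l.foldl (fun acc m => bif acc.contains m then acc else m :: acc) []

/-- the number of faces with `k` vertices of the complex generated by `l` -/
def fL (n k : ℕ) (l : List ℕ) : ℕ := (ddup (l.flatMap (fun m => subK k (bits n m)))).length

/-- each mask meets the union of the previous ones and `cur` -/
def connL : ℕ → List ℕ → Bool
  | _, [] => true
  | cur, m :: ms => (cur &&& m) != 0 && connL (cur ||| m) ms

/-- the image of a mask under the table `t` -/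
def relM (n : ℕ) (t : List ℕ) (m : ℕ) : ℕ :=
  (bits n m).foldl (fun acc i => acc ||| (1 <<< (t.getD i 0))) 0

/-- `t` relabels `l` into `l'` with inverse `s` -/
def relOK (n : ℕ) (t s l l' : List ℕ) : Bool :=
  l.all (fun F => l'.contains (relM n t F)) && l'.all (fun F => l.contains (relM n s F)) &&
  l.all (fun F => (bits n F).all (fun i => t.getD i 0 < n && s.getD (t.getD i 0) 0 == i)) &&
  l'.all (fun F => (bits n F).all (fun i => s.getD i 0 < n && t.getD (s.getD i 0) 0 == i))

/-- certificate for one vertex link: vertex, flips to the boundary of a 4-simplex, this simplex -/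
def checkLink (n : ℕ) (l : List ℕ) (c : ℕ × List (ℕ × ℕ) × ℕ) : Bool :=
  match runL n c.2.1 (linkL c.1 l) with
  | some l' => sameL l' (rems n c.2.2 c.2.2) && (bits n c.2.2).length == 5 && c.2.2.log2 < n
  | none => false

/-- certificates for all vertex links -/
def checkLinks (n : ℕ) (l : List ℕ) (cert : List (ℕ × List (ℕ × ℕ) × ℕ)) : Bool :=
  cert.all (fun c => checkLink n l c) &&
  (List.range n).all (fun v => !(l.any (fun F => F.testBit v)) || cert.any (fun c => c.1 == v))

/-- the complexes of `lA` and `lB` meet in the facet `t` of both, `lL` is the union without `t` -/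
def checkSum (n : ℕ) (lA lB : List ℕ) (t : ℕ) (lL : List ℕ) : Bool :=
  lA.contains t && lB.contains t &&
  (lA ++ lB).all (fun F => (bits n F).length == 5 && F.log2 < n) &&
  lA.all (fun F => lB.all (fun G => subm (F &&& G) t)) &&
  sameL lL (lA.filter (fun F => F != t) ++ lB.filter (fun F => F != t)) &&
  (rems n t t).all (fun s => lL.any (fun F => subm s F))

end Pool.Agent.Helper585.Wk
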