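import Pool.Agent.Helper585.Wk.Defs

set_option autoImplicit false

/-! Definitions for generic rigidity in dimension 5 and for cycles mod 2. -/

namespace Pool.Agent.Helper585.Wk

section Fog
variable {V : Type} [Fintype V] [DecidableEq V]

/-- `C` is a set of 5-element sets that is a 4-cycle mod 2. -/
def IsCycle (C : Finset (Finset V)) : Prop :=
  (∀ F ∈ C, F.card = 5) ∧
    ∀ t : Finset V, t.card = 4 → Even (C.filter (fun F => t ⊆ F)).card

/-- minimal nonempty cycles -/
def MinCycle (C : Finset (Finset V)) : Prop :=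
  IsCycle C ∧ C.Nonempty ∧ ∀ Z, Z ⊆ C → Z.Nonempty → IsCycle Z → Z = C

/-- the graph of a chain -/
def cgraph (C : Finset (Finset V)) : SimpleGraph V where
  Adj x y := x ≠ y ∧ ∃ F ∈ C, x ∈ F ∧ y ∈ F
  symm := ⟨fun _ _ h => ⟨h.1.symm, h.2.choose, h.2.choose_spec.1, h.2.choose_spec.2.2,
    h.2.choose_spec.2.1⟩⟩
  loopless := ⟨fun _ h => h.1 rfl⟩

/-- Abstract properties of generic rigidity in `ℝ^5`. -/
structure RigPred (R : SimpleGraph V → Finset V → Prop) : Prop where
  mono : ∀ (G G' : SimpleGraph V) (S : Finset V),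
    (∀ x ∈ S, ∀ y ∈ S, G.Adj x y → G'.Adj x y) → R G S → R G' S
  complete : ∀ (G : SimpleGraph V) (S : Finset V), S.card = 6 →
    (∀ x ∈ S, ∀ y ∈ S, x ≠ y → G.Adj x y) → R G S
  glue : ∀ (G : SimpleGraph V) (S S' : Finset V), R G S → R G S' → 5 ≤ (S ∩ S').card →
    R G (S ∪ S')
  split : ∀ (G' G : SimpleGraph V) (S : Finset V) (u v : V) (N : Finset V), R G' S →
    u ∈ S → v ∉ S → N ⊆ S → u ∉ N → N.card = 4 → (∀ w ∈ N, G.Adj u w ∧ G.Adj v w) →
    G.Adj u v → (∀ x ∈ S, ∀ y ∈ S, x ≠ u → y ≠ u → G'.Adj x y → G.Adj x y) →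
    (∀ y ∈ S, y ≠ u → G'.Adj u y → G.Adj u y ∨ G.Adj v y) → R G (insert v S)

/-- contraction of `v` to `u` on sets -/
def con (u v : V) (F : Finset V) : Finset V := if v ∈ F then insert u (F.erase v) else F

/-- members of `C` that do not contain both `u` and `v` -/
def nb (C : Finset (Finset V)) (u v : V) : Finset (Finset V) :=
  C.filter (fun F => ¬ (u ∈ F ∧ v ∈ F))

/-- the contraction of the chain `C` (mod 2) -/
def contr (C : Finset (Finset V)) (u v : V) : Finset (Finset V) :=
  Finset.univ.filter (fun G => ((nb C u v).filter (fun F => con u v F = G)).card = 1)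

/-- the members of `C` whose contraction lies in `Z` -/
def lift (C : Finset (Finset V)) (u v : V) (Z : Finset (Finset V)) : Finset (Finset V) :=
  (nb C u v).filter (fun F => con u v F ∈ Z)

/-- the added simplices -/
def added (C : Finset (Finset V)) (u v : V) (Z : Finset (Finset V)) : Finset (Finset V) :=
  ((Finset.univ : Finset (Finset V)).filter (fun K => K.card = 3 ∧ u ∉ K ∧ v ∉ K ∧
    Odd ((lift C u v Z).filter (fun F => insert u K ⊆ F)).card)).image
      (fun K => insert u (insert v K))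

/-- the lifted cycle -/
def plus (C : Finset (Finset V)) (u v : V) (Z : Finset (Finset V)) : Finset (Finset V) :=
  lift C u v Z ∪ added C u v Z

/-- degenerate pairs -/
def pairs (C : Finset (Finset V)) (u v : V) : Finset (Finset V) :=
  (Finset.univ : Finset (Finset V)).filter (fun U => U.card = 4 ∧ u ∉ U ∧ v ∉ U ∧
    insert u U ∈ C ∧ insert v U ∈ C)

/-- the family of pieces of the Fogelsanger decomposition -/
def pieces (C : Finset (Finset V)) (u v : V) (𝒵 : Finset (Finset (Finset V))) :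
    Finset (Finset (Finset V)) :=
  𝒵.image (plus C u v) ∪
    (pairs C u v).image (fun U => (insert u (insert v U)).powersetCard 5)

end Fog

section Rig
variable {V : Type} [Fintype V] [DecidableEq V]

/-- infinitesimal motions of the part of the framework `(G, p)` on the vertex set `S` in `ℝ^5` -/
def IsMot (G : SimpleGraph V) (S : Finset V) (p m : V → Fin 5 → ℝ) : Prop :=
  ∀ u ∈ S, ∀ v ∈ S, G.Adj u v → ∑ i, (p u i - p v i) * (m u i - m v i) = 0

/-- trivial motions on `S` -/
def Triv (S : Finset V) (p m : V → Fin 5 → ℝ) : Prop :=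
  ∃ (A : Fin 5 → Fin 5 → ℝ) (b : Fin 5 → ℝ), (∀ i j, A i j = - A j i) ∧
    ∀ v ∈ S, ∀ i, m v i = ∑ j, A i j * p v j + b i

/-- infinitesimal rigidity -/
def Rig (G : SimpleGraph V) (S : Finset V) (p : V → Fin 5 → ℝ) : Prop :=
  ∀ m : V → Fin 5 → ℝ, IsMot G S p m → Triv S p m

/-- generic rigidity: infinitesimal rigidity outside the zero set of a nonzero polynomial -/
def GR (G : SimpleGraph V) (S : Finset V) : Prop :=
  ∃ P : MvPolynomial (V × Fin 5) ℝ, P ≠ 0 ∧
    ∀ p : V → Fin 5 → ℝ, MvPolynomial.eval (fun x => p x.1 x.2) P ≠ 0 → Rig G S p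

/-- The points `p v`, `v ∈ S`, are affinely independent. -/
def AI (S : Finset V) (p : V → Fin 5 → ℝ) : Prop :=
  ∀ c : V → ℝ, ∑ v ∈ S, c v = 0 → (∀ i, ∑ v ∈ S, c v * p v i = 0) → ∀ v ∈ S, c v = 0

end Rig

end Pool.Agent.Helper585.Wk
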