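import Pool.Agent.Helper585.Wk.Rig

set_option autoImplicit false

/-! Stress spaces of a complex. -/

namespace Pool.Agent.Helper585.Wk

/-- the vertex set -/
def Cx.verts {n : ℕ} (K : Cx n) : Finset (Fin n) := Finset.univ.filter (fun v => {v} ∈ K.faces)

/-- the 1-skeleton -/
def Cx.graph {n : ℕ} (K : Cx n) : SimpleGraph (Fin n) where
  Adj x y := x ≠ y ∧ {x, y} ∈ K.faces
  symm := ⟨fun x y h => ⟨h.1.symm, by rw [Finset.pair_comm]; exact h.2⟩⟩
  loopless := ⟨fun _ h => h.1 rfl⟩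

/-- facets (faces with 5 vertices) -/
def Cx.facets {n : ℕ} (K : Cx n) : Finset (Finset (Fin n)) := K.faces.filter (fun F => F.card = 5)

/-- symmetric matrices supported on edges and the diagonal, with `Σ_v B u v (p v, 1) = 0` -/
def T2 {n : ℕ} (K : Cx n) (p : Fin n → Fin 5 → ℝ) : Submodule ℝ (Fin n → Fin n → ℝ) where
  carrier := {B | (∀ u v, B u v = B v u) ∧ (∀ u v, ({u, v} : Finset (Fin n)) ∉ K.faces → B u v = 0) ∧
    (∀ u, ∑ v, B u v = 0) ∧ (∀ u i, ∑ v, B u v * p v i = 0)}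
  zero_mem' := by simp
  add_mem' := by
    rintro A B ⟨a1, a2, a3, a4⟩ ⟨b1, b2, b3, b4⟩
    refine ⟨fun u v => ?_, fun u v h => ?_, fun u => ?_, fun u i => ?_⟩
    · simp [a1 u v, b1 u v]
    · simp [a2 u v h, b2 u v h]
    · simp [Finset.sum_add_distrib, a3 u, b3 u]
    · simp [add_mul, Finset.sum_add_distrib, a4 u i, b4 u i]
  smul_mem' := by
    rintro c B ⟨b1, b2, b3, b4⟩
    refine ⟨fun u v => ?_, fun u v h => ?_, fun u => ?_, fun u i => ?_⟩
    · simp [b1 u v]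
    · simp [b2 u v h]
    · simp [← Finset.mul_sum, b3 u]
    · simp only [Pi.smul_apply, smul_eq_mul, mul_assoc, ← Finset.mul_sum, b4 u i, mul_zero]

/-- symmetric 3-tensors supported on faces, with `Σ_w B u v w (p w, 1) = 0` -/
def T3 {n : ℕ} (K : Cx n) (p : Fin n → Fin 5 → ℝ) : Submodule ℝ (Fin n → Fin n → Fin n → ℝ) where
  carrier := {B | (∀ u v w, B u v w = B v u w) ∧ (∀ u v w, B u v w = B u w v) ∧
    (∀ u v w, ({u, v, w} : Finset (Fin n)) ∉ K.faces → B u v w = 0) ∧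
    (∀ u v, ∑ w, B u v w = 0) ∧ (∀ u v i, ∑ w, B u v w * p w i = 0)}
  zero_mem' := by simp
  add_mem' := by
    rintro A B ⟨a1, a1', a2, a3, a4⟩ ⟨b1, b1', b2, b3, b4⟩
    refine ⟨fun u v w => ?_, fun u v w => ?_, fun u v w h => ?_, fun u v => ?_, fun u v i => ?_⟩
    · simp [a1 u v w, b1 u v w]
    · simp [a1' u v w, b1' u v w]
    · simp [a2 u v w h, b2 u v w h]
    · simp [Finset.sum_add_distrib, a3 u v, b3 u v]
    · simp [add_mul, Finset.sum_add_distrib, a4 u v i, b4 u v i]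
  smul_mem' := by
    rintro c B ⟨b1, b1', b2, b3, b4⟩
    refine ⟨fun u v w => ?_, fun u v w => ?_, fun u v w h => ?_, fun u v => ?_, fun u v i => ?_⟩
    · simp [b1 u v w]
    · simp [b1' u v w]
    · simp [b2 u v w h]
    · simp [← Finset.mul_sum, b3 u v]
    · simp only [Pi.smul_apply, smul_eq_mul, mul_assoc, ← Finset.mul_sum, b4 u v i, mul_zero]

/-- the vector `(p v, 1)` -/
def qv {n : ℕ} (p : Fin n → Fin 5 → ℝ) (v : Fin n) : Fin 6 → ℝ :=
  fun i => if h : i.1 < 5 then p v ⟨i.1, h⟩ else 1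

/-- the space of Koszul relations: `ψ v` skew with `ψ v (q v) = 0`, and
`ψ u (q v) + ψ v (q u) = 0` for every edge -/
def Kos {n : ℕ} (K : Cx n) (p : Fin n → Fin 5 → ℝ) : Submodule ℝ (Fin n → Fin 6 → Fin 6 → ℝ) where
  carrier := {f | (∀ v, {v} ∉ K.faces → f v = 0) ∧ (∀ v i j, f v i j = - f v j i) ∧
    (∀ v i, ∑ j, f v i j * qv p v j = 0) ∧
    (∀ u v, u ≠ v → ({u, v} : Finset (Fin n)) ∈ K.faces → ∀ i,
      ∑ j, f u i j * qv p v j + ∑ j, f v i j * qv p u j = 0)}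
  zero_mem' := by simp
  add_mem' := by
    rintro f g ⟨a1, a2, a3, a4⟩ ⟨b1, b2, b3, b4⟩
    refine ⟨fun v h => ?_, fun v i j => ?_, fun v i => ?_, fun u v huv h i => ?_⟩
    · simp [a1 v h, b1 v h]
    · simp only [Pi.add_apply]; linarith [a2 v i j, b2 v i j]
    · simp only [Pi.add_apply, add_mul, Finset.sum_add_distrib]; linarith [a3 v i, b3 v i]
    · simp only [Pi.add_apply, add_mul, Finset.sum_add_distrib]
      linarith [a4 u v huv h i, b4 u v huv h i]
  smul_mem' := by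
    rintro c g ⟨b1, b2, b3, b4⟩
    refine ⟨fun v h => ?_, fun v i j => ?_, fun v i => ?_, fun u v huv h i => ?_⟩
    · simp [b1 v h]
    · simp only [Pi.smul_apply, smul_eq_mul]; rw [b2 v i j]; ring
    · simp only [Pi.smul_apply, smul_eq_mul, mul_assoc, ← Finset.mul_sum, b3 v i, mul_zero]
    · simp only [Pi.smul_apply, smul_eq_mul, mul_assoc, ← Finset.mul_sum]
      rw [← mul_add, b4 u v huv h i, mul_zero]

end Pool.Agent.Helper585.Wk
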